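import Pool.Agent.Helper56.MW.E3

open FirstOrder FirstOrder.Language Ordinal Cardinal Set Helper23.Pcf

universe u v

namespace Pool.Agent.Helper56.MW

namespace Df

variable {α β : Type}

/-- `ν < val g ξ` -/
private theorem E7_lt (g : β) (ξ ν : α) : Df.{u} (fun a s => a ν < val (s g) (a ξ)) :=
  compVal (P := fun v a _ => a ν < v) g ξ (ltO (some ν) none)

/-- `val g ξ < ν` -/
private theorem E7_gt (g : β) (ξ ν : α) : Df.{u} (fun a s => val (s g) (a ξ) < a ν) :=
  compVal (P := fun v a _ => v < a ν) g ξ (ltO none (some ν))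

/-- `val g ξ' < val g ξ` -/
private theorem E7_ltt (g : β) (ξ ξ' : α) :
    Df.{u} (fun a s => val (s g) (a ξ') < val (s g) (a ξ)) :=
  compVal (P := fun v a s => val (s g) (a ξ') < v) g ξ
    (compVal (α := Option α) (P := fun v' a _ => v' < a none) g (some ξ')
      (ltO none (some none)))

private theorem E7_bdd (w η : α) (g : β) :
    Df.{u} (fun a s => ∀ ξ, ξ < a w → val (s g) ξ < a η) :=
  allO (P := fun ξ a s => ξ < a w → val (s g) ξ < a η)
    ((ltO none (some w)).imp (E7_gt g none (some η)))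

private theorem E7_mono (w : α) (g : β) :
    Df.{u} (fun a s => ∀ ξ, ξ < a w → ∀ ξ', ξ' < ξ → val (s g) ξ' < val (s g) ξ) :=
  allO (P := fun ξ a s => ξ < a w → ∀ ξ', ξ' < ξ → val (s g) ξ' < val (s g) ξ)
    ((ltO none (some w)).imp
      (allO (α := Option α) (P := fun ξ' a s => ξ' < a none → val (s g) ξ' < val (s g) (a none))
        ((ltO none (some none)).imp (E7_ltt g (some none) none))))

private theorem E7_cont (w : α) (g : β) :
    Df.{u} (fun a s => ∀ ξ, ξ < a w → Order.IsSuccLimit ξ → ∀ ν, ν < val (s g) ξ →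
      ∃ ξ', ξ' < ξ ∧ ν < val (s g) ξ') :=
  allO (P := fun ξ a s => ξ < a w → Order.IsSuccLimit ξ → ∀ ν, ν < val (s g) ξ →
      ∃ ξ', ξ' < ξ ∧ ν < val (s g) ξ')
    ((ltO none (some w)).imp ((limO none).imp
      (allO (α := Option α) (P := fun ν a s => ν < val (s g) (a none) →
        ∃ ξ', ξ' < a none ∧ ν < val (s g) ξ')
        ((E7_lt g (some none) none).imp
          (exO (α := Option (Option α)) (P := fun ξ' a s => ξ' < a (some none) ∧
            a none < val (s g) ξ')
            ((ltO none (some (some none))).and (E7_lt g none (some none))))))))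

private theorem E7_cof (w η : α) (g : β) :
    Df.{u} (fun a s => ∀ ν, ν < a η → ∃ ξ, ξ < a w ∧ ν < val (s g) ξ) :=
  allO (P := fun ν a s => ν < a η → ∃ ξ, ξ < a w ∧ ν < val (s g) ξ)
    ((ltO none (some η)).imp
      (exO (α := Option α) (P := fun ξ a s => ξ < a (some w) ∧ a none < val (s g) ξ)
        ((ltO none (some (some w))).and (E7_lt g none (some none)))))

/-- (E7) `Nrm` is definable for coded functions: unfold `Nrm` into its four clauses (each a
statement about `val (s g) ξ < …`); use `compVal` (twice for `val g ξ' < val g ξ`), `ltO`, `limO`,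
`allO`, `exO`, `imp`, `and`. -/
theorem nrm (w η : α) (g : β) : Df.{u} (fun a s => Nrm (a w) (a η) (val (s g))) := by
  refine ((E7_bdd w η g).and ((E7_mono w g).and ((E7_cont w g).and (E7_cof w η g)))).congr
    fun a s => ?_
  constructor
  · rintro ⟨h1, h2, h3, h4⟩
    exact ⟨h1, h2, h3, h4⟩
  · rintro ⟨h1, h2, h3, h4⟩
    exact ⟨h1, h2, h3, h4⟩

end Df

end Pool.Agent.Helper56.MW
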