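import Pool.Agent.Helper56.MW.E1

open FirstOrder FirstOrder.Language Ordinal Cardinal Set Helper23.Pcf

universe u v

namespace Pool.Agent.Helper56.MW

private theorem F1_nrm {w η : Ordinal.{u}} {f f' : Ordinal.{u} → Ordinal.{u}}
    (h : ∀ ξ < w, f ξ = f' ξ) (H : Nrm w η f) : Nrm w η f' where
  bdd ξ hξ := by
    rw [← h ξ hξ]
    exact H.bdd ξ hξ
  mono ξ hξ ξ' hξ' := by
    rw [← h ξ hξ, ← h ξ' (hξ'.trans hξ)]
    exact H.mono ξ hξ ξ' hξ'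
  cont ξ hξ hl ν hν := by
    rw [← h ξ hξ] at hν
    obtain ⟨ξ', h1, h2⟩ := H.cont ξ hξ hl ν hν
    exact ⟨ξ', h1, by rwa [← h ξ' (h1.trans hξ)]⟩
  cofinal ν hν := by
    obtain ⟨ξ, h1, h2⟩ := H.cofinal ν hν
    exact ⟨ξ, h1, by rwa [← h ξ h1]⟩

/-- (F1) `Nrm w η` only depends on the values below `w`. -/
theorem nrm_congr {w η : Ordinal.{u}} {f f' : Ordinal.{u} → Ordinal.{u}}
    (h : ∀ ξ < w, f ξ = f' ξ) : Nrm w η f ↔ Nrm w η f' :=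
  ⟨F1_nrm h, F1_nrm fun ξ hξ => (h ξ hξ).symm⟩

private theorem F1_stat {w : Ordinal.{u}} {T T' : Set Ordinal.{u}}
    (h : ∀ ξ < w, ξ ∈ T → ξ ∈ T') (H : StatIn T w) : StatIn T' w := by
  intro C hC
  obtain ⟨x, h1, h2, h3⟩ := H C hC
  exact ⟨x, h x h3 h1, h2, h3⟩

/-- (F2) Stationarity in `w` only depends on the points below `w`. -/
theorem statIn_congr {w : Ordinal.{u}} {T T' : Set Ordinal.{u}}
    (h : ∀ ξ < w, ξ ∈ T ↔ ξ ∈ T') : StatIn T w ↔ StatIn T' w :=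
  ⟨F1_stat fun ξ hξ => (h ξ hξ).1, F1_stat fun ξ hξ => (h ξ hξ).2⟩

/-- (F3) `Meet` can be computed with coded functions: by `exists_val`, `nrm_congr`,
`statIn_congr`. -/
theorem meet_iff {S : Set Ordinal.{u}} {w η η' η'' : Ordinal.{u}} :
    Meet S w η η' η'' ↔ ∃ g g' g'' : ZFSet.{u}, Nrm w η (val g) ∧ Nrm w η' (val g') ∧
      Nrm w η'' (val g'') ∧ StatIn {ξ | val g ξ ∈ S ∧ val g' ξ ∈ S ∧ val g'' ξ ∉ S} w := by
  constructor
  · rintro ⟨f, f', f'', h1, h2, h3, h4⟩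
    obtain ⟨g, hg⟩ := exists_val f w
    obtain ⟨g', hg'⟩ := exists_val f' w
    obtain ⟨g'', hg''⟩ := exists_val f'' w
    refine ⟨g, g', g'', (nrm_congr hg).2 h1, (nrm_congr hg').2 h2, (nrm_congr hg'').2 h3, ?_⟩
    refine (statIn_congr fun ξ hξ => ?_).2 h4
    simp only [mem_setOf_eq, hg ξ hξ, hg' ξ hξ, hg'' ξ hξ]
  · rintro ⟨g, g', g'', h⟩
    exact ⟨val g, val g', val g'', h⟩

/-- (F4) `Split` can be computed with coded functions. -/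
theorem split_iff {S : Set Ordinal.{u}} {w η η' : Ordinal.{u}} :
    Split S w η η' ↔ ∃ g g' : ZFSet.{u}, Nrm w η (val g) ∧ Nrm w η' (val g') ∧
      StatIn {ξ | val g ξ ∈ S ∧ val g' ξ ∈ S} w ∧ StatIn {ξ | val g ξ ∈ S ∧ val g' ξ ∉ S} w ∧
        ¬ StatIn {ξ | val g ξ ∉ S ∧ val g' ξ ∈ S} w := by
  constructor
  · rintro ⟨f, f', h1, h2, h3, h4, h5⟩
    obtain ⟨g, hg⟩ := exists_val f w
    obtain ⟨g', hg'⟩ := exists_val f' w
    refine ⟨g, g', (nrm_congr hg).2 h1, (nrm_congr hg').2 h2, ?_, ?_, fun h6 => h5 ?_⟩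
    · refine (statIn_congr fun ξ hξ => ?_).2 h3
      simp only [mem_setOf_eq, hg ξ hξ, hg' ξ hξ]
    · refine (statIn_congr fun ξ hξ => ?_).2 h4
      simp only [mem_setOf_eq, hg ξ hξ, hg' ξ hξ]
    · refine (statIn_congr fun ξ hξ => ?_).1 h6
      simp only [mem_setOf_eq, hg ξ hξ, hg' ξ hξ]
  · rintro ⟨g, g', h⟩
    exact ⟨val g, val g', h⟩

end Pool.Agent.Helper56.MW
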