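import Pool.Agent.Helper56.MW.ValDefs

open FirstOrder FirstOrder.Language Ordinal Cardinal Set Helper23.Pcf

universe u v

namespace Pool.Agent.Helper56.MW

namespace Df

variable {α β : Type}

/-- (E3) Proof: `val g ξ = ν` iff `pair ξ ν ∈ g` and `pair ξ ν' ∉ g` for all `ν' < ν`, or `ν = 0` and
`pair ξ ν' ∉ g` for all `ν'`.  Build this from `Df.pairOO`, `Df.allO`, `Df.ltO`, `Df.zeroO`. -/
theorem valEq (g : β) (ξ ν : α) : Df.{u} (fun a s => val (s g) (a ξ) = a ν) := by
  refine (((pairOO ξ ν g).and (allO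
    (P := fun x a s => ZFSet.pair (a ξ).toZFSet x.toZFSet ∈ s g → a ν ≤ x)
    ((pairOO (some ξ) none g).imp (leO (some ν) none)))).or
    ((zeroO ν).and (allO (P := fun x a s => ¬ ZFSet.pair (a ξ).toZFSet x.toZFSet ∈ s g)
      (pairOO (some ξ) none g).not))).congr fun a s => ?_
  unfold val
  constructor
  · rintro (⟨h1, h2⟩ | ⟨h1, h2⟩)
    · exact le_antisymm (csInf_le' h1) (le_csInf ⟨_, h1⟩ h2)
    · have h3 : {ν : Ordinal.{u} | ZFSet.pair (a ξ).toZFSet ν.toZFSet ∈ s g} = ∅ := by
        rw [Set.eq_empty_iff_forall_notMem]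
        exact h2
      rw [h3, Ordinal.sInf_empty, h1]
  · intro h
    rcases Set.eq_empty_or_nonempty {ν : Ordinal.{u} | ZFSet.pair (a ξ).toZFSet ν.toZFSet ∈ s g} with h3 | h3
    · refine Or.inr ⟨?_, ?_⟩
      · rw [← h, h3, Ordinal.sInf_empty]
      · intro x hx
        have h4 : x ∈ {ν : Ordinal.{u} | ZFSet.pair (a ξ).toZFSet ν.toZFSet ∈ s g} := hx
        rw [h3] at h4
        exact h4
    · refine Or.inl ⟨?_, ?_⟩
      · have h4 := csInf_mem h3
        rw [h] at h4
        exact h4
      · intro x hx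
        rw [← h]
        exact csInf_le' hx

/-- (E4) Substitution of a value `val g ξ` for an ordinal variable.

Proof: `P (val g ξ)` iff there is `ν` with `val g ξ = ν` and `P ν`: `exO`, `valEq`, `and`. -/
theorem compVal {P : Ordinal.{u} → (α → Ordinal.{u}) → (β → ZFSet.{u}) → Prop} (g : β) (ξ : α)
    (h : Df (α := Option α) (fun a s => P (a none) (fun i => a (some i)) s)) :
    Df (fun a s => P (val (s g) (a ξ)) a s) := by
  refine (exO (P := fun x a s => val (s g) (a ξ) = x ∧ P x a s)
    ((valEq g (some ξ) none).and h)).congr fun a s => ?_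
  constructor
  · rintro ⟨x, hx, hP⟩
    rw [hx]
    exact hP
  · intro hP
    exact ⟨_, rfl, hP⟩

/-- (E5) Being a limit ordinal: `0 < a i` and for all `x < a i` there is `y` with `x < y < a i`. -/
theorem limO (i : α) : Df.{u} (β := β) (fun a _ => Order.IsSuccLimit (a i)) := by
  refine ((zeroO i).not.and (allO (P := fun x a _ => x < a i → ∃ y, x < y ∧ y < a i)
    ((ltO none (some i)).imp
      (exO (P := fun y (a : Option α → Ordinal.{u}) _ => a none < y ∧ y < a (some i))
        ((ltO (some none) none).and (ltO none (some (some i)))))))).congr fun a s => ?_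
  constructor
  · rintro ⟨h1, h2⟩
    refine UnbIn.isSuccLimit (C := Set.univ) ?_ (pos_iff_ne_zero.2 h1)
    intro x hx
    obtain ⟨y, hy⟩ := h2 x hx
    exact ⟨y, trivial, hy⟩
  · intro h
    exact ⟨h.ne_bot, fun x hx => ⟨Order.succ x, Order.lt_succ x, h.succ_lt hx⟩⟩

/-- (E6) Being equal to `ω`: a limit ordinal with no smaller limit ordinal. -/
theorem omegaO (i : α) : Df.{u} (β := β) (fun a _ => a i = ω) := by
  refine ((limO i).and (allO (P := fun x a _ => x < a i → ¬ Order.IsSuccLimit x)
    ((ltO none (some i)).imp (limO none).not))).congr fun a s => ?_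
  constructor
  · rintro ⟨h1, h2⟩
    refine le_antisymm ?_ (Ordinal.omega0_le_of_isSuccLimit h1)
    by_contra h3
    push Not at h3
    exact h2 _ h3 Ordinal.isSuccLimit_omega0
  · intro h
    rw [h]
    exact ⟨Ordinal.isSuccLimit_omega0, fun x hx hl =>
      absurd hx (not_lt.2 (Ordinal.omega0_le_of_isSuccLimit hl))⟩

end Df

end Pool.Agent.Helper56.MW
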