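import Pool.Agent.Helper56.MW.E1
import Pool.Agent.Helper56.MW.E3

open FirstOrder FirstOrder.Language Ordinal Cardinal Set Helper23.Pcf

universe u v

namespace Pool.Agent.Helper56.MW

namespace Df

variable {α β : Type}

/-- (E9) Quantification over functions, when only the values below the ordinal `a o` matter.

Proof: by `exists_val` the statement `∃ f, P f a s` is equivalent to
`∃ g : ZFSet, P (val g) a s`; use `exS` and `congr`. -/
theorem exF {P : (Ordinal.{u} → Ordinal.{u}) → (α → Ordinal.{u}) → (β → ZFSet.{u}) → Prop} (o : α)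
    (hloc : ∀ a s f f', (∀ ξ < a o, f ξ = f' ξ) → (P f a s ↔ P f' a s))
    (h : Df (β := Option β) (fun a s => P (val (s none)) a (fun i => s (some i)))) :
    Df (fun (a : α → Ordinal.{u}) (s : β → ZFSet.{u}) => ∃ f, P f a s) := by
  refine (exS (P := fun g a s => P (val g) a s) h).congr fun a s => ?_
  constructor
  · rintro ⟨g, hg⟩
    exact ⟨val g, hg⟩
  · rintro ⟨f, hf⟩
    obtain ⟨g, hg⟩ := exists_val f (a o)
    exact ⟨g, (hloc a s (val g) f hg).2 hf⟩

private theorem E9_exOs (n : ℕ) : ∀ (α : Type)
    (P : (Fin n → Ordinal.{u}) → (α → Ordinal.{u}) → (β → ZFSet.{u}) → Prop),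
    Df (α := α ⊕ Fin n) (fun a s => P (fun i => a (Sum.inr i)) (fun i => a (Sum.inl i)) s) →
    Df (fun (a : α → Ordinal.{u}) (s : β → ZFSet.{u}) => ∃ b, P b a s) := by
  induction n with
  | zero =>
    intro α P h
    refine (h.relabel (α := α) (β := β) (fun i => match i with
      | Sum.inl i => i
      | Sum.inr i => Fin.elim0 i) id).congr fun a s => ?_
    constructor
    · intro h1
      exact ⟨_, h1⟩
    · rintro ⟨b, hb⟩
      have h2 : b = (fun i : Fin 0 => a (Fin.elim0 i)) := by
        funext i
        exact Fin.elim0 i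
      rw [h2] at hb
      exact hb
  | succ n ih =>
    intro α P h
    let f : α ⊕ Fin (n + 1) → Option α ⊕ Fin n := fun i => match i with
      | Sum.inl i => Sum.inl (some i)
      | Sum.inr j => Fin.cases (Sum.inl none) (fun i => Sum.inr i) j
    have h1 : Df (α := Option α ⊕ Fin n) (β := β) (fun a s =>
        P (Fin.cons (a (Sum.inl none)) (fun i => a (Sum.inr i)))
          (fun i => a (Sum.inl (some i))) s) := by
      refine (h.relabel f id).congr fun a s => ?_
      refine iff_of_eq (congrArg (fun b => P b (fun i => a (Sum.inl (some i))) s) ?_)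
      funext i
      refine Fin.cases ?_ (fun j => ?_) i
      · rfl
      · rfl
    have h2 := ih (Option α) (fun b a s => P (Fin.cons (a none) b) (fun i => a (some i)) s) h1
    refine (exO (P := fun x a s => ∃ b : Fin n → Ordinal.{u}, P (Fin.cons x b) a s) h2).congr
      fun a s => ?_
    constructor
    · rintro ⟨x, b, hb⟩
      exact ⟨_, hb⟩
    · rintro ⟨b, hb⟩
      refine ⟨b 0, fun i => b i.succ, ?_⟩
      have h3 : (Fin.cons (b 0) (fun i => b i.succ) : Fin (n + 1) → Ordinal.{u}) = b :=
        Fin.cons_self_tail b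
      rw [h3]
      exact hb

/-- (E10) Quantification over finitely many ordinals.

Proof: induction on `n` with `exO` (`Fin.cons`), or directly from `D0.alls`. -/
theorem exOs {n : ℕ} {P : (Fin n → Ordinal.{u}) → (α → Ordinal.{u}) → (β → ZFSet.{u}) → Prop}
    (h : Df (α := α ⊕ Fin n) (fun a s => P (fun i => a (Sum.inr i)) (fun i => a (Sum.inl i)) s)) :
    Df (fun (a : α → Ordinal.{u}) (s : β → ZFSet.{u}) => ∃ b, P b a s) :=
  E9_exOs n α P h

end Df

end Pool.Agent.Helper56.MW
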