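import Pool.Agent.Helper56.MW.EnumDefs

open FirstOrder FirstOrder.Language Ordinal Cardinal Set Helper23.Pcf

universe u v

namespace Pool.Agent.Helper56.MW

theorem H6_countable : Countable LSet.Symbols := by
  have h1 : Countable (Σ n, LSet.Functions n) := by
    have : IsEmpty (Σ n, LSet.Functions n) := ⟨fun x => Empty.elim x.2⟩
    infer_instance
  have h2 : Countable (Σ n, LSet.Relations n) := by
    have h3 : Subsingleton (Σ n, LSet.Relations n) := by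
      refine ⟨?_⟩
      rintro ⟨n, r⟩ ⟨m, r'⟩
      cases r
      cases r'
      rfl
    infer_instance
  exact inferInstanceAs (Countable ((Σ n, LSet.Functions n) ⊕ (Σ n, LSet.Relations n)))

/-- Pigeonhole: one formula defines many of the sets with the property `Q`. -/
theorem exists_formula_gen (Q : ZFSet.{u} → Prop) {l : Cardinal.{u}} (hl : ℵ₀ ≤ l)
    (h : Cardinal.lift.{u + 1} l < #{s : ZFSet.{u} // OrdDef ∅ s ∧ Q s}) :
    ∃ (n : ℕ) (φ : LSet.Formula (Fin n ⊕ Fin 2)), Cardinal.lift.{u + 1} l <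
      #{s : ZFSet.{u} // Q s ∧ ∃ a, DefBy φ a s} := by
  classical
  by_contra hcon
  push Not at hcon
  have := H6_countable
  let J := Σ n : ℕ, LSet.Formula (Fin n ⊕ Fin 2)
  have hJ : #J ≤ ℵ₀ := Cardinal.mk_le_aleph0
  have h1 : ∀ s : {s : ZFSet.{u} // OrdDef ∅ s ∧ Q s}, ∃ j : J, Q s.1 ∧ ∃ a, DefBy j.2 a s.1 := by
    rintro ⟨s, ⟨n, φ, a, ha⟩, hQ⟩
    exact ⟨⟨n, φ⟩, hQ, a, ha⟩
  choose j hj using h1
  have h2 : #{s : ZFSet.{u} // OrdDef ∅ s ∧ Q s} ≤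
      #(Σ j : J, {s : ZFSet.{u} // Q s ∧ ∃ a, DefBy j.2 a s}) := by
    refine Cardinal.mk_le_of_injective (f := fun s => ⟨j s, ⟨s.1, hj s⟩⟩) ?_
    intro s t hst
    have h3 : (⟨j s, ⟨s.1, hj s⟩⟩ : Σ j : J, {s : ZFSet.{u} // Q s ∧ ∃ a, DefBy j.2 a s}) =
      ⟨j t, ⟨t.1, hj t⟩⟩ := hst
    have h4 : ∀ x y : (Σ j : J, {s : ZFSet.{u} // Q s ∧ ∃ a, DefBy j.2 a s}), x = y →
        x.2.1 = y.2.1 := fun x y hxy => by rw [hxy]
    exact Subtype.ext (h4 _ _ h3)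
  have h3 : #(Σ j : J, {s : ZFSet.{u} // Q s ∧ ∃ a, DefBy j.2 a s}) ≤ Cardinal.lift.{u + 1} l := by
    rw [Cardinal.mk_sigma]
    refine (Cardinal.sum_le_sum _ (fun _ => Cardinal.lift.{u + 1} l)
      (fun (j : J) => hcon j.1 j.2)).trans ?_
    rw [Cardinal.sum_const]
    have h4 : Cardinal.lift.{u + 1} #J ≤ ℵ₀ := by
      rw [← Cardinal.lift_aleph0.{u + 1, 0}]
      exact Cardinal.lift_le.2 hJ
    have h5 : ℵ₀ ≤ Cardinal.lift.{u + 1} l := Cardinal.aleph0_le_lift.2 hl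
    rw [Cardinal.lift_id']
    calc Cardinal.lift.{u + 1} #J * Cardinal.lift.{u + 1} l
        ≤ ℵ₀ * Cardinal.lift.{u + 1} l := mul_le_mul_left h4 _
      _ = Cardinal.lift.{u + 1} l := Cardinal.aleph0_mul_eq h5
  exact absurd (lt_of_lt_of_le h (h2.trans h3)) (lt_irrefl _)

/-- (H6) Pigeonhole: one formula defines many of the sets. -/
theorem exists_formula {l : Cardinal.{u}} (hl : ℵ₀ ≤ l)
    (h : Cardinal.lift.{u + 1} l <
      #{s : ZFSet.{u} // OrdDef ∅ s ∧ s ⊆ l.ord.toZFSet}) :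
    ∃ (n : ℕ) (φ : LSet.Formula (Fin n ⊕ Fin 2)), Cardinal.lift.{u + 1} l <
      #{s : ZFSet.{u} // s ⊆ l.ord.toZFSet ∧ ∃ a, DefBy φ a s} :=
  exists_formula_gen (fun s => s ⊆ l.ord.toZFSet) hl h

end Pool.Agent.Helper56.MW
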