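import Pool.Agent.Helper56.MW.EnumDefs

open FirstOrder FirstOrder.Language Ordinal Cardinal Set Helper23.Pcf

universe u v

namespace Pool.Agent.Helper56.MW

/-- (H7) The lexicographic order is a well-order.

Proof: it is the order of `Pi.Lex` (`Pi.Lex.isWellOrder…`/`Pi.Lex.wellFoundedLT`), or induct on
`n`. Only well-foundedness and trichotomy are needed. -/
theorem lexLt_wo (n : ℕ) : IsWellOrder (Fin n → Ordinal.{u}) LexLt := by
  have h : (LexLt : (Fin n → Ordinal.{u}) → (Fin n → Ordinal.{u}) → Prop) =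
      Pi.Lex (fun i j => i < j) (fun {_} x y => x < y) := by
    funext a b
    exact propext ⟨fun ⟨i, h1, h2⟩ => ⟨i, h2, h1⟩, fun ⟨i, h1, h2⟩ => ⟨i, h2, h1⟩⟩
  rw [h]
  have hwf : WellFounded (Pi.Lex (fun i j : Fin n => i < j)
      (fun {_} (x y : Ordinal.{u}) => x < y)) :=
    Pi.Lex.wellFounded (fun i j : Fin n => i < j) (fun _ => Ordinal.lt_wf)
  have htri : Std.Trichotomous (Pi.Lex (fun i j : Fin n => i < j)
      (fun {_} (x y : Ordinal.{u}) => x < y)) :=
    Pi.trichotomous_lex (fun i j : Fin n => i < j) (fun {_} (x y : Ordinal.{u}) => x < y)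
      wellFounded_lt
  exact { wf := hwf, trichotomous := htri.trichotomous }

/-- (H8) The family of sets defined by `φ` is definably well-ordered.

Proof: let `c x` be the lexicographically least code of `x`; `W x y ↔ LexLt (c x) (c y)` and `c` is
injective (`DefBy φ a x`, `DefBy φ a y` imply `x = y`). -/
theorem defBy_wo {n : ℕ} (φ : LSet.Formula (Fin n ⊕ Fin 2)) (l : Ordinal.{u}) :
    IsWellOrder {s : ZFSet.{u} // s ⊆ l.toZFSet ∧ ∃ a, DefBy φ a s}
      (fun x y => ∃ a, DefBy φ a (x : ZFSet.{u}) ∧ ∀ b, DefBy φ b (y : ZFSet.{u}) → LexLt a b) := by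
  classical
  have hwo : IsWellOrder (Fin n → Ordinal.{u}) LexLt := lexLt_wo n
  have hwf : WellFounded (LexLt : (Fin n → Ordinal.{u}) → (Fin n → Ordinal.{u}) → Prop) := hwo.wf
  have hc : ∀ x : {s : ZFSet.{u} // s ⊆ l.toZFSet ∧ ∃ a, DefBy φ a s},
      ∃ a : Fin n → Ordinal.{u}, DefBy φ a x.1 ∧ ∀ b, DefBy φ b x.1 → a = b ∨ LexLt a b := by
    intro x
    obtain ⟨a, ha, hmin⟩ := hwf.has_min {a | DefBy φ a x.1} x.2.2
    refine ⟨a, ha, fun b hb => ?_⟩
    rcases trichotomous_of LexLt a b with h | h | h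
    · exact Or.inr h
    · exact Or.inl h
    · exact absurd h (hmin b hb)
  choose c hc1 hc2 using hc
  have hinj : Function.Injective c := by
    intro x y hxy
    apply Subtype.ext
    have h1 := hc1 x
    rw [hxy] at h1
    exact (hc1 y x.1).1 ((h1 x.1).2 rfl)
  have heq : (fun x y : {s : ZFSet.{u} // s ⊆ l.toZFSet ∧ ∃ a, DefBy φ a s} =>
      ∃ a, DefBy φ a (x : ZFSet.{u}) ∧ ∀ b, DefBy φ b (y : ZFSet.{u}) → LexLt a b) =
      Function.onFun LexLt c := by
    funext x y
    apply propext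
    constructor
    · rintro ⟨a, ha, hab⟩
      have h1 : LexLt a (c y) := hab _ (hc1 y)
      rcases hc2 x a ha with h | h
      · show LexLt (c x) (c y)
        rw [h]
        exact h1
      · show LexLt (c x) (c y)
        exact _root_.trans h h1
    · intro h
      have h0 : LexLt (c x) (c y) := h
      refine ⟨c x, hc1 x, fun b hb => ?_⟩
      rcases hc2 y b hb with h1 | h1
      · rw [← h1]
        exact h0
      · exact _root_.trans h0 h1
  rw [heq]
  exact hinj.isWellOrder LexLt

end Pool.Agent.Helper56.MW
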