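import Pool.Agent.Helper56.MW.EnumDefs

open FirstOrder FirstOrder.Language Ordinal Cardinal Set Helper23.Pcf

universe u v

namespace Pool.Agent.Helper56.MW

/-- (H9) Definability of `DefBy`. Proof: `φ` with the parameter `∅` eliminated (`∃ e, e = ∅ ∧ …`),
`allS`, `iff`, `eqS`. -/
theorem Df.defBy {n : ℕ} (φ : LSet.Formula (Fin n ⊕ Fin 2)) {α β : Type} (ι : Fin n → α) (x : β) :
    Df (fun (a : α → Ordinal.{u}) (s : β → ZFSet.{u}) => DefBy φ (fun i => a (ι i)) (s x)) := by
  have h0 : Df (α := Fin n) (β := Fin 2)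
      (fun (a : Fin n → Ordinal.{u}) (s : Fin 2 → ZFSet.{u}) =>
        φ.Realize (Sum.elim (fun i => (a i).toZFSet) s)) := ⟨φ, fun _ _ => Iff.rfl⟩
  have h1 : Df (α := α) (β := Option (Option β))
      (fun (a : α → Ordinal.{u}) (s : Option (Option β) → ZFSet.{u}) =>
        s none = ∅ ∧ φ.Realize (Sum.elim (fun i => (a (ι i)).toZFSet)
          ![s none, s (some none)])) := by
    refine (Df.emptyS none).and ((Df.relabel ι ![none, some none] h0).congr fun a s => ?_)
    refine iff_of_eq (congrArg φ.Realize ?_)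
    funext j
    rcases j with j | j
    · rfl
    · fin_cases j <;> rfl
  have h2 : Df (α := α) (β := Option β)
      (fun (a : α → Ordinal.{u}) (s : Option β → ZFSet.{u}) =>
        ∃ e : ZFSet.{u}, e = ∅ ∧ φ.Realize (Sum.elim (fun i => (a (ι i)).toZFSet)
          ![e, s none])) :=
    Df.exS (P := fun e a s => e = ∅ ∧ φ.Realize (Sum.elim (fun i => (a (ι i)).toZFSet)
          ![e, s none])) h1
  have h3 : Df (α := α) (β := Option β)
      (fun (a : α → Ordinal.{u}) (s : Option β → ZFSet.{u}) =>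
        φ.Realize (Sum.elim (fun i => (a (ι i)).toZFSet) ![∅, s none])) := by
    refine h2.congr fun a s => ?_
    constructor
    · rintro ⟨e, rfl, h⟩
      exact h
    · intro h
      exact ⟨∅, rfl, h⟩
  exact Df.allS (P := fun y a s => (φ.Realize (Sum.elim (fun i => (a (ι i)).toZFSet) ![∅, y]) ↔
    y = s x)) (h3.iff (Df.eqS none (some x)))

end Pool.Agent.Helper56.MW
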