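import Pool.Agent.Helper56.MW.H5
import Pool.Agent.Helper56.MW.H6
import Pool.Agent.Helper56.MW.H7
import Pool.Agent.Helper56.MW.H9
import Pool.Agent.Helper56.MW.E9

open FirstOrder FirstOrder.Language Ordinal Cardinal Set Helper23.Pcf

universe u v

namespace Pool.Agent.Helper56.MW

/-- The family of sets with the property `Q` defined by `φ` is definably well-ordered. -/
theorem defBy_wo_gen (Q : ZFSet.{u} → Prop) {n : ℕ} (φ : LSet.Formula (Fin n ⊕ Fin 2)) :
    IsWellOrder {s : ZFSet.{u} // Q s ∧ ∃ a, DefBy φ a s}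
      (fun x y => ∃ a, DefBy φ a (x : ZFSet.{u}) ∧ ∀ b, DefBy φ b (y : ZFSet.{u}) → LexLt a b) := by
  classical
  have hwo : IsWellOrder (Fin n → Ordinal.{u}) LexLt := lexLt_wo n
  have hwf : WellFounded (LexLt : (Fin n → Ordinal.{u}) → (Fin n → Ordinal.{u}) → Prop) := hwo.wf
  have hc : ∀ x : {s : ZFSet.{u} // Q s ∧ ∃ a, DefBy φ a s},
      ∃ a : Fin n → Ordinal.{u}, DefBy φ a x.1 ∧ ∀ b, DefBy φ b x.1 → a = b ∨ LexLt a b := by
    intro x
    obtain ⟨a, ha, hmin⟩ := hwf.has_min {a | DefBy φ a x.1} x.2.2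
    refine ⟨a, ha, fun b hb => ?_⟩
    rcases trichotomous_of LexLt a b with h | h | h
    · exact Or.inr h
    · exact Or.inl h
    · exact absurd h (hmin b hb)
  choose c hc1 hc2 using hc
  have hinj : Function.Injective c := by
    intro x y hxy
    apply Subtype.ext
    have h1 := hc1 x
    rw [hxy] at h1
    exact (hc1 y x.1).1 ((h1 x.1).2 rfl)
  have heq : (fun x y : {s : ZFSet.{u} // Q s ∧ ∃ a, DefBy φ a s} =>
      ∃ a, DefBy φ a (x : ZFSet.{u}) ∧ ∀ b, DefBy φ b (y : ZFSet.{u}) → LexLt a b) =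
      Function.onFun LexLt c := by
    funext x y
    apply propext
    constructor
    · rintro ⟨a, ha, hab⟩
      have h1 : LexLt a (c y) := hab _ (hc1 y)
      rcases hc2 x a ha with h | h
      · show LexLt (c x) (c y)
        rw [h]
        exact h1
      · show LexLt (c x) (c y)
        exact _root_.trans h h1
    · intro h
      have h0 : LexLt (c x) (c y) := h
      refine ⟨c x, hc1 x, fun b hb => ?_⟩
      rcases hc2 y b hb with h1 | h1
      · rw [← h1]
        exact h0
      · exact _root_.trans h0 h1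
  rw [heq]
  exact hinj.isWellOrder LexLt

namespace Df

variable {α β : Type}

theorem H10_lex {n : ℕ} (p q : Fin n → α) :
    Df.{u} (β := β) (fun a _ => LexLt (fun i => a (p i)) (fun i => a (q i))) := by
  unfold LexLt
  refine Df.exFin fun i => ?_
  refine (ltO (p i) (q i)).and ?_
  refine Df.allFin fun j => ?_
  by_cases hj : j < i
  · exact (eqO (p j) (q j)).congr fun a s => by simp [hj]
  · exact Df.true.congr fun a s => by simp [hj]

/-- The order by lexicographically least codes is definable. -/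
theorem H10_order {n : ℕ} (φ : LSet.Formula (Fin n ⊕ Fin 2)) (x y : β) :
    Df.{u} (α := α) (fun _ s => ∃ b, DefBy φ b (s x) ∧ ∀ c, DefBy φ c (s y) → LexLt b c) := by
  have h1 : Df.{u} (α := α ⊕ Fin n) (β := β) (fun a s =>
      ∀ c, DefBy φ c (s y) → LexLt (fun i => a (Sum.inr i)) c) := by
    have h2 : Df.{u} (α := α ⊕ Fin n) (β := β) (fun a s =>
        ∃ c, ¬ (DefBy φ c (s y) → LexLt (fun i => a (Sum.inr i)) c)) := by
      refine exOs (P := fun c a s => ¬ (DefBy φ c (s y) → LexLt (fun i => a (Sum.inr i)) c)) ?_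
      exact ((Df.defBy φ (fun i => Sum.inr i) y).imp
        (H10_lex (fun i => Sum.inl (Sum.inr i)) (fun i => Sum.inr i))).not
    refine h2.not.congr fun a s => ?_
    push Not
    rfl
  exact exOs (P := fun b _ s => DefBy φ b (s x) ∧ ∀ c, DefBy φ c (s y) → LexLt b c)
    ((Df.defBy φ (fun i => Sum.inr i) x).and h1)

theorem H10_exDef {n : ℕ} (φ : LSet.Formula (Fin n ⊕ Fin 2)) (x : β) :
    Df.{u} (α := α) (fun _ s => ∃ b, DefBy φ b (s x)) :=
  exOs (P := fun b _ s => DefBy φ b (s x)) (Df.defBy φ (fun i => Sum.inr i) x)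

theorem eqPair (z : β) (i j : α) :
    Df.{u} (fun a s => s z = ZFSet.pair (a i).toZFSet (a j).toZFSet) := by
  have h := exS (α := α) (β := β)
    (P := fun x a s => (∀ y, y ∈ x ↔ y = s z) ∧
      ZFSet.pair (a i).toZFSet (a j).toZFSet ∈ x)
    ((allS (P := fun y _ s => y ∈ s none ↔ y = s (some z))
      ((memS none (some none)).iff (eqS none (some (some z))))).and (pairOO i j none))
  refine h.congr fun a s => ?_
  constructor
  · rintro ⟨x, h1, h2⟩
    exact ((h1 _).1 h2).symm
  · intro h1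
    refine ⟨{s z}, fun y => ZFSet.mem_singleton, ?_⟩
    rw [ZFSet.mem_singleton, h1]

end Df

/-- `s` is a binary relation on the ordinal `l`. -/
def IsRelOn (l : Ordinal.{u}) (s : ZFSet.{u}) : Prop :=
  ∀ z ∈ s, ∃ i < l, ∃ j < l, z = ZFSet.pair i.toZFSet j.toZFSet

theorem Df.isRelOn {α β : Type} (l : α) (x : β) : Df.{u} (fun a s => IsRelOn (a l) (s x)) := by
  unfold IsRelOn
  refine Df.allS (P := fun z a s => z ∈ s x → ∃ i < a l, ∃ j < a l,
    z = ZFSet.pair i.toZFSet j.toZFSet) ?_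
  refine (Df.memS none (some x)).imp ?_
  refine (Df.exO (P := fun i a s => i < a l ∧ ∃ j < a l,
    s none = ZFSet.pair i.toZFSet j.toZFSet) ?_)
  refine (Df.ltO none (some l)).and ?_
  exact Df.exO (P := fun j a s => j < a (some l) ∧
    s none = ZFSet.pair (a none).toZFSet j.toZFSet)
    ((Df.ltO none (some (some l))).and (Df.eqPair none (some none) none))

/-- (H10) More than `l` ordinal definable subsets of `l` give an ordinal definable splitting set for
`l⁺`. -/
theorem splits_of_many {l : Cardinal.{u}} (hl : ℵ₀ ≤ l)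
    (h : Cardinal.lift.{u + 1} l <
      #{s : ZFSet.{u} // OrdDef ∅ s ∧ s ⊆ l.ord.toZFSet}) :
    ∃ s, OrdDef ∅ s ∧ Splits (Order.succ l) s := by
  obtain ⟨n, φ, hφ⟩ := exists_formula hl h
  refine splits_of_enum (n := 1)
    (D := fun a s => s ⊆ (a 0).toZFSet ∧ ∃ b, DefBy φ b s)
    (W := fun _ x y => ∃ b, DefBy φ b x ∧ ∀ c, DefBy φ c y → LexLt b c)
    ((Df.subSO () 0).and (Df.H10_exDef φ ())) (Df.H10_order φ 0 1) (fun _ => l.ord)
    (Cardinal.isRegular_succ hl) (hl.trans_lt (Order.lt_succ l)) (Order.lt_succ l)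
    (fun x hx => hx.1) (defBy_wo_gen (fun s => s ⊆ l.ord.toZFSet) φ) ?_
  rw [Cardinal.lift_succ]
  exact Order.succ_le_of_lt hφ

/-- More than `l` ordinal definable binary relations on `l` give an ordinal definable splitting set
for `l⁺`. -/
theorem splits_of_many_rel {l : Cardinal.{u}} (hl : ℵ₀ ≤ l)
    (h : Cardinal.lift.{u + 1} l < #{s : ZFSet.{u} // OrdDef ∅ s ∧ IsRelOn l.ord s}) :
    ∃ s, OrdDef ∅ s ∧ Splits (Order.succ l) s := by
  obtain ⟨n, φ, hφ⟩ := exists_formula_gen (IsRelOn l.ord) hl h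
  refine splits_of_enum_rel (n := 1)
    (D := fun a s => IsRelOn (a 0) s ∧ ∃ b, DefBy φ b s)
    (W := fun _ x y => ∃ b, DefBy φ b x ∧ ∀ c, DefBy φ c y → LexLt b c)
    ((Df.isRelOn 0 ()).and (Df.H10_exDef φ ())) (Df.H10_order φ 0 1) (fun _ => l.ord)
    (Cardinal.isRegular_succ hl) (hl.trans_lt (Order.lt_succ l)) hl (Order.lt_succ l)
    (fun x hx => hx.1) (defBy_wo_gen (IsRelOn l.ord) φ) ?_
  rw [Cardinal.lift_succ]
  exact Order.succ_le_of_lt hφ

end Pool.Agent.Helper56.MW
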