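import Pool.Agent.Helper56.MW.Defs

open FirstOrder FirstOrder.Language Ordinal Cardinal Set Helper23.Pcf

universe u v

namespace Pool.Agent.Helper56.MW

/-- (B6) Martin's Maximum for small forcing notions in any universe.

Proof: apply `h` to `Shrink.{u} P` with the preorder induced by `equivShrink P`
(`Preorder.lift (equivShrink P).symm`); transport `PreservesStat` (a name `N` on `Shrink P` gives
the name `fun p => N (equivShrink P p)` on `P`), the dense sets and the generic filter. -/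
theorem MM.small (h : MM.{u}) (P : Type v) [Preorder P] [Nonempty P] [Small.{u} P]
    (hP : PreservesStat.{u} P) (D : Ordinal.{u} → Set P)
    (hD : ∀ i < ω_ 1, ∀ p, ∃ q ≤ p, q ∈ D i) : ∃ G, GenericFor D G := by
  classical
  let e : P ≃ Shrink.{u} P := equivShrink P
  let _ : Preorder (Shrink.{u} P) := Preorder.lift e.symm
  have : Nonempty (Shrink.{u} P) := e.nonempty_congr.mp inferInstance
  have hle : ∀ a b : Shrink.{u} P, a ≤ b ↔ e.symm a ≤ e.symm b := fun a b => Iff.rfl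
  have hle1 : ∀ (a : Shrink.{u} P) (b : P), a ≤ e b ↔ e.symm a ≤ b := fun a b => by
    rw [hle, Equiv.symm_apply_apply]
  have hle2 : ∀ (a : P) (b : Shrink.{u} P), e a ≤ b ↔ a ≤ e.symm b := fun a b => by
    rw [hle, Equiv.symm_apply_apply]
  have hle3 : ∀ a b : P, e a ≤ e b ↔ a ≤ b := fun a b => by
    rw [hle, Equiv.symm_apply_apply, Equiv.symm_apply_apply]
  have hP' : PreservesStat.{u} (Shrink.{u} P) := by
    intro S hS p N hN
    have hN' : ForcesClub (e.symm p) (fun (r : P) (α : Ordinal.{u}) => N (e r) α) := by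
      refine ⟨?_, ?_, ?_⟩
      · intro q r α hqr hr
        exact hN.mono (e q) (e r) α ((hle3 q r).2 hqr) hr
      · intro q hq α hα
        obtain ⟨r, hr, β, hβ, hαβ, hNr⟩ := hN.unbounded (e q) ((hle2 q p).2 hq) α hα
        refine ⟨e.symm r, (hle1 r q).1 hr, β, hβ, hαβ, ?_⟩
        rwa [Equiv.apply_symm_apply]
      · intro q hq δ hδ h0 hlim r hr
        obtain ⟨s, hs, hNs⟩ := hN.closed (e q) ((hle2 q p).2 hq) δ hδ h0 (by
          intro α hα r' hr'
          obtain ⟨s, hs, β, hβ, hαβ, hNs⟩ := hlim α hα (e.symm r') ((hle1 r' q).1 hr')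
          exact ⟨e s, (hle2 s r').2 hs, β, hβ, hαβ, hNs⟩) (e r) ((hle3 r q).2 hr)
        refine ⟨e.symm s, (hle1 s r).1 hs, ?_⟩
        rwa [Equiv.apply_symm_apply]
    obtain ⟨q, hq, α, hαS, hα, hNq⟩ := hP S hS (e.symm p) _ hN'
    exact ⟨e q, (hle2 q p).2 hq, α, hαS, hα, hNq⟩
  obtain ⟨G, hG⟩ := h (Shrink.{u} P) hP' (fun i => e.symm ⁻¹' (D i)) (by
    intro i hi p
    obtain ⟨q, hq, hqD⟩ := hD i hi (e.symm p)
    refine ⟨e q, (hle2 q p).2 hq, ?_⟩
    rw [Set.mem_preimage, Equiv.symm_apply_apply]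
    exact hqD)
  refine ⟨e ⁻¹' G, ?_, ?_, ?_⟩
  · intro p hp q hpq
    exact hG.up (e p) hp (e q) ((hle3 p q).2 hpq)
  · intro p hp q hq
    obtain ⟨r, hr, hrp, hrq⟩ := hG.dir (e p) hp (e q) hq
    refine ⟨e.symm r, ?_, (hle1 r p).1 hrp, (hle1 r q).1 hrq⟩
    rw [Set.mem_preimage, Equiv.apply_symm_apply]
    exact hr
  · intro i hi
    obtain ⟨p, hp, hpD⟩ := hG.meets i hi
    refine ⟨e.symm p, ?_, hpD⟩
    rw [Set.mem_preimage, Equiv.apply_symm_apply]
    exact hp

end Pool.Agent.Helper56.MW
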