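import Pool.Agent.Helper56.MW.J1
import Pool.Agent.Helper56.MW.B6

open FirstOrder FirstOrder.Language Ordinal Cardinal Set Helper23.Pcf

universe u v

namespace Pool.Agent.Helper56.MW

/-- The Cohen poset. -/
private structure J2P : Type where
  l : List Bool

private instance : Preorder J2P where
  le q p := p.l <+: q.l
  le_refl p := ⟨[], by simp⟩
  le_trans a b c h1 h2 := List.IsPrefix.trans h2 h1

private theorem J2P.le_def {q p : J2P} : q ≤ p ↔ p.l <+: q.l := Iff.rfl

private instance : Nonempty J2P := ⟨⟨[]⟩⟩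

private instance : Countable J2P :=
  Function.Injective.countable (f := J2P.l) (by rintro ⟨a⟩ ⟨b⟩ h; exact congrArg _ h)

private theorem J2_get {p q : J2P} (h : q ≤ p) {k : ℕ} {b : Bool} (hk : p.l[k]? = some b) :
    q.l[k]? = some b := by
  obtain ⟨t, ht⟩ := J2P.le_def.1 h
  rw [← ht, List.getElem?_append_left]
  · exact hk
  · by_contra hlt
    rw [List.getElem?_eq_none (not_lt.1 hlt)] at hk
    simp at hk

private theorem J2_enum
    (h : #{x : ZFSet.{u} // x ⊆ (ω : Ordinal.{u}).toZFSet} ≤ Cardinal.lift.{u + 1} (ℵ_ 1 : Cardinal.{u})) :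
    ∃ r : Ordinal.{u} → Set ℕ, ∀ g, ∃ i < ω_ 1, r i = g := by
  classical
  have h1 : Cardinal.lift.{u + 1} #(Set ℕ) ≤ #{x : ZFSet.{u} // x ⊆ (ω : Ordinal.{u}).toZFSet} := by
    have h2 : Function.Injective (fun (s : Set ℕ) =>
        (⟨ZFSet.sep (fun z => ∃ n ∈ s, z = ((n : ℕ) : Ordinal.{u}).toZFSet)
          (ω : Ordinal.{u}).toZFSet, ZFSet.sep_subset⟩ :
            {x : ZFSet.{u} // x ⊆ (ω : Ordinal.{u}).toZFSet})) := by
      intro s t hst
      have h3 := congrArg Subtype.val hst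
      simp only at h3
      have key : ∀ s t : Set ℕ, ZFSet.sep (fun z => ∃ n ∈ s, z = ((n : ℕ) : Ordinal.{u}).toZFSet)
          (ω : Ordinal.{u}).toZFSet = ZFSet.sep (fun z => ∃ n ∈ t, z = ((n : ℕ) : Ordinal.{u}).toZFSet)
          (ω : Ordinal.{u}).toZFSet → s ⊆ t := by
        intro s t h4 n hn
        have h5 : ((n : ℕ) : Ordinal.{u}).toZFSet ∈ ZFSet.sep
            (fun z => ∃ n ∈ s, z = ((n : ℕ) : Ordinal.{u}).toZFSet) (ω : Ordinal.{u}).toZFSet := by
          rw [ZFSet.mem_sep]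
          exact ⟨Ordinal.toZFSet_mem_toZFSet_iff.2 (Ordinal.natCast_lt_omega0 n), n, hn, rfl⟩
        rw [h4, ZFSet.mem_sep] at h5
        obtain ⟨-, m, hm, h6⟩ := h5
        have h7 := Ordinal.toZFSet_injective h6
        rw [Nat.cast_inj.1 h7]
        exact hm
      exact Set.Subset.antisymm (key s t h3) (key t s h3.symm)
    have h4 := Cardinal.lift_mk_le_lift_mk_of_injective h2
    simpa using h4
  have h2 : Cardinal.lift.{u + 1} #(Set ℕ) ≤ #(Iio (ω_ 1 : Ordinal.{u})) := by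
    rw [Cardinal.mk_Iio_ordinal, ← Cardinal.ord_aleph, Cardinal.card_ord]
    exact h1.trans h
  have h3 : Cardinal.lift.{u + 1} #(Set ℕ) ≤ Cardinal.lift.{0} #(Iio (ω_ 1 : Ordinal.{u})) := by
    simpa using h2
  obtain ⟨e⟩ := Cardinal.lift_mk_le'.1 h3
  refine ⟨Function.invFun (fun g => ((e g : Iio (ω_ 1 : Ordinal.{u})) : Ordinal.{u})), fun g => ?_⟩
  refine ⟨(e g : Iio (ω_ 1 : Ordinal.{u})), (e g).2, ?_⟩
  exact Function.leftInverse_invFun (f := fun g => ((e g : Iio (ω_ 1 : Ordinal.{u})) : Ordinal.{u}))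
    (fun a b hab => e.injective (Subtype.ext hab)) g

/-- (J2) Martin's Maximum implies that there are at least `ℵ₂` subsets of `ω`.

Proof: suppose not; then there is an enumeration `r : Ordinal → (ℕ → Bool)` such that every
`g : ℕ → Bool` is `r i` for some `i < ω₁` (the type `{x : ZFSet // x ⊆ ω}` has the size of
`Set ℕ`, which is then at most `ℵ₁`).  Apply `MM.small` to the countable poset
`P = List Bool` (as a type synonym) ordered by `q ≤ p ↔ p <+: q` (initial segment) and the sets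
`D i = {p | (∃ k, p[k]? = some (!(r i k))) ∧ …}`; for finite `i = n` require also
`n ≤ p.length` (for infinite `i` only the first condition).  A generic filter gives
`g : ℕ → Bool` with `g k = b` iff some `p ∈ G` has `p[k]? = some b`, and `g ≠ r i` for all
`i < ω₁`. -/
theorem MM.aleph2_le (h : MM.{u}) :
    Cardinal.lift.{u + 1} (ℵ_ 2 : Cardinal.{u}) ≤
      #{x : ZFSet.{u} // x ⊆ (ω : Ordinal.{u}).toZFSet} := by
  classical
  by_contra hlt
  have h1 : #{x : ZFSet.{u} // x ⊆ (ω : Ordinal.{u}).toZFSet} ≤ Cardinal.lift.{u + 1} (ℵ_ 1 : Cardinal.{u}) := by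
    have h2 : (ℵ_ 2 : Cardinal.{u}) = Order.succ (ℵ_ 1) := by
      rw [Cardinal.succ_aleph]
      congr 1
      norm_num
    rw [h2, Cardinal.lift_succ] at hlt
    exact Order.lt_succ_iff.1 (not_le.1 hlt)
  obtain ⟨r, hr⟩ := J2_enum h1
  obtain ⟨G, hG⟩ := h.small J2P preservesStat_of_countable
    (fun i => {p | ∃ k, p.l[k]? = some (!decide (k ∈ r i))}) (by
      intro i _ p
      refine ⟨⟨p.l ++ [!decide (p.l.length ∈ r i)]⟩, J2P.le_def.2 ⟨_, rfl⟩,
        p.l.length, ?_⟩
      simp)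
  obtain ⟨i, hi, hri⟩ := hr {k | ∃ p ∈ G, p.l[k]? = some true}
  obtain ⟨p, hp, k, hk⟩ := hG.meets i hi
  by_cases hki : k ∈ r i
  · rw [decide_eq_true hki] at hk
    rw [hri] at hki
    obtain ⟨p', hp', hk'⟩ := hki
    obtain ⟨q, -, hq1, hq2⟩ := hG.dir p hp p' hp'
    have h3 := J2_get hq1 hk
    have h4 := J2_get hq2 hk'
    rw [h3] at h4
    simp at h4
  · rw [decide_eq_false hki] at hk
    apply hki
    rw [hri]
    exact ⟨p, hp, hk⟩

end Pool.Agent.Helper56.MW
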