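import Pool.Agent.Helper56.MW.H5
import Pool.Agent.Helper56.MW.J2

open FirstOrder FirstOrder.Language Ordinal Cardinal Set Helper23.Pcf

universe u v

namespace Pool.Agent.Helper56.MW

private theorem J3_small : Small.{u} {x : ZFSet.{u} // x ⊆ (ω : Ordinal.{u}).toZFSet} := by
  have h2 : Small.{u} (ZFSet.powerset (ω : Ordinal.{u}).toZFSet) := inferInstance
  exact (small_congr (Equiv.subtypeEquivRight fun x => ZFSet.mem_powerset)).1 h2

private theorem J3_dfW (φ : LSet.Formula (Fin 2)) {α : Type} :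
    Df (α := α) (β := Fin 2) (fun (_ : α → Ordinal.{u}) (s : Fin 2 → ZFSet.{u}) =>
      φ.Realize ![s 0, s 1]) := by
  refine ⟨φ.relabel Sum.inr, fun a s => ?_⟩
  rw [Formula.realize_relabel]
  refine iff_of_eq (congrArg φ.Realize ?_)
  funext j
  fin_cases j <;> rfl

/-- (J3) Proof: `splits_of_enum` with `n = 1`, parameter `ω`, `D a x := x ⊆ (a 0).toZFSet`,
`W a x y := φ.Realize ![x, y]`, `l = ℵ₀` (`Cardinal.ord_aleph0`), `κ = ℵ_ 2`. -/
theorem splits_of_hasDefWO (hM : MM.{u}) (h : HasDefWO.{u}) :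
    ∃ s, OrdDef ∅ s ∧ Splits (ℵ_ 2 : Cardinal.{u}) s := by
  obtain ⟨φ, hφ⟩ := h
  have hreg : (ℵ_ 2 : Cardinal.{u}).IsRegular := by
    have := Cardinal.isRegular_aleph_add_one (1 : Ordinal.{u})
    rwa [one_add_one_eq_two] at this
  have h0 : (ℵ₀ : Cardinal.{u}) < ℵ_ 2 := by
    rw [← Cardinal.aleph_zero]
    exact Cardinal.aleph_lt_aleph.2 (by norm_num)
  refine splits_of_enum (n := 1) (D := fun a x => x ⊆ (a 0).toZFSet)
    (W := fun _ x y => φ.Realize ![x, y]) ?_ (J3_dfW φ) (fun _ => ω) hreg h0 h0 ?_ hφ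
    hM.aleph2_le
  · exact Df.subSO () 0
  · intro x hx
    rw [Cardinal.ord_aleph0]
    exact hx

/-- (J4) A definable well-order of the reals makes all reals ordinal definable.

Proof: `exists_rk` gives `γ` with `Rk D W x γ`, where `D x := x ⊆ ω`, `W x y := φ.Realize ![x, y]`;
by `Rk.inj` `x` is the only such set; `Df.rk` and `ordDef_of_df`. -/
theorem ordDef_of_hasDefWO (h : HasDefWO.{u}) {x : ZFSet.{u}}
    (hx : x ⊆ (ω : Ordinal.{u}).toZFSet) : OrdDef ∅ x := by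
  obtain ⟨φ, hφ⟩ := h
  have := J3_small.{u}
  obtain ⟨γ, hγ⟩ := (exists_rk (D := fun x => x ⊆ (ω : Ordinal.{u}).toZFSet)
    (W := fun x y => φ.Realize ![x, y]) hφ).1 x hx
  have hdf := Df.rk (κ := Unit) (D := fun a x => x ⊆ (a ()).toZFSet)
    (W := fun _ x y => φ.Realize ![x, y]) (Df.subSO () ()) (J3_dfW φ)
    (α := Fin 2) (β := Unit) (fun _ => 0) () 1
  refine ordDef_of_df hdf ![ω, γ] x fun y => ?_
  constructor
  · intro hy
    exact Rk.inj (D := fun x => x ⊆ (ω : Ordinal.{u}).toZFSet)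
      (W := fun x y => φ.Realize ![x, y]) hφ hy hγ
  · rintro rfl
    exact hγ

end Pool.Agent.Helper56.MW
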