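import Pool.Agent.Helper56.MW.ValDefs

open FirstOrder FirstOrder.Language Ordinal Cardinal Set Helper23.Pcf

universe u v

namespace Pool.Agent.Helper56.MW

/-- (G1) Sets singled out by a definable relation with finitely many ordinal parameters are ordinal
definable.

Proof: `α ≃ Fin n` for some `n` (`Finite.equivFin`); relabel the formula; the second
set variable (the parameter `A = ∅` of `OrdDef`) is not used. -/
theorem ordDef_of_df {α : Type} [Finite α] {P : (α → Ordinal.{u}) → (Unit → ZFSet.{u}) → Prop}
    (hP : Df P) (a : α → Ordinal.{u}) (x : ZFSet.{u}) (h : ∀ y, P a (fun _ => y) ↔ y = x) :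
    OrdDef ∅ x := by
  obtain ⟨φ, hφ⟩ := hP
  let e := Finite.equivFin α
  refine ⟨Nat.card α, φ.relabel (Sum.map e (fun _ => (1 : Fin 2))), fun i => a (e.symm i),
    fun y => ?_⟩
  rw [Formula.realize_relabel, ← h y, ← hφ a (fun _ => y)]
  refine iff_of_eq (congrArg (fun v => φ.Realize v) ?_)
  funext i
  rcases i with i | i
  · simp only [Function.comp_apply, Sum.map_inl, Sum.elim_inl, Equiv.symm_apply_apply]
  · simp only [Function.comp_apply, Sum.map_inr, Sum.elim_inr, Matrix.cons_val_one,
      Matrix.cons_val_fin_one]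

/-- (G2) An ordinal definable set is singled out by a definable relation between ordinals and one
set: substitute `∅` (which is definable, `Df.emptyS`) for the parameter. -/
theorem OrdDef.exists_df {x : ZFSet.{u}} (h : OrdDef ∅ x) :
    ∃ (n : ℕ) (P : (Fin n → Ordinal.{u}) → (Unit → ZFSet.{u}) → Prop) (a : Fin n → Ordinal.{u}),
      Df P ∧ ∀ y, P a (fun _ => y) ↔ y = x := by
  obtain ⟨n, φ, a, hφ⟩ := h
  refine ⟨n, fun a s => φ.Realize (Sum.elim (fun i => (a i).toZFSet) ![∅, s ()]), a, ?_, hφ⟩
  have hR : Df.{u} (fun (a : Fin n → Ordinal.{u}) (s : Fin 2 → ZFSet.{u}) =>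
      φ.Realize (Sum.elim (fun i => (a i).toZFSet) s)) := ⟨φ, fun _ _ => Iff.rfl⟩
  have h1 := Df.exS (α := Fin n) (β := Unit)
    (P := fun z a s => z = ∅ ∧ φ.Realize (Sum.elim (fun i => (a i).toZFSet) ![z, s ()]))
    ((Df.emptyS none).and ((hR.relabel (fun i => i)
      (![none, some ()] : Fin 2 → Option Unit)).congr fun a s => by
        refine iff_of_eq (congrArg (fun v => φ.Realize v) ?_)
        funext i
        rcases i with i | i
        · rfl
        · fin_cases i <;> rfl))
  refine h1.congr fun a s => ?_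
  constructor
  · rintro ⟨z, rfl, hz⟩
    exact hz
  · intro hz
    exact ⟨∅, rfl, hz⟩

end Pool.Agent.Helper56.MW
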