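import Pool.Agent.Helper56.MW.H10
import Pool.Agent.Helper56.MW.G1

open FirstOrder FirstOrder.Language Ordinal Cardinal Set Helper23.Pcf

universe u v

namespace Pool.Agent.Helper56.MW

/-- Sets definable from an ordinal definable set and ordinals are ordinal definable. -/
theorem OrdDef.comp {f x : ZFSet.{u}} (hf : OrdDef ∅ f) {α : Type} [Finite α]
    {P : (α → Ordinal.{u}) → (Fin 2 → ZFSet.{u}) → Prop} (hP : Df P) (a : α → Ordinal.{u})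
    (h : ∀ y, P a ![f, y] ↔ y = x) : OrdDef ∅ x := by
  obtain ⟨n, Q, b, hQ, hQ'⟩ := hf.exists_df
  refine ordDef_of_df (α := Fin n ⊕ α)
    (P := fun c s => ∃ f', Q (fun i => c (Sum.inl i)) (fun _ => f') ∧
      P (fun i => c (Sum.inr i)) ![f', s ()]) ?_ (Sum.elim b a) x ?_
  · refine Df.exS (P := fun f' (c : Fin n ⊕ α → Ordinal.{u}) s =>
      Q (fun i => c (Sum.inl i)) (fun _ => f') ∧ P (fun i => c (Sum.inr i)) ![f', s ()]) ?_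
    refine (hQ.relabel (fun i => Sum.inl i) (fun _ => none)).and
      ((hP.relabel (fun i => Sum.inr i) (![none, some ()] : Fin 2 → Option Unit)).congr
        fun a s => ?_)
    refine iff_of_eq (congrArg _ ?_)
    funext i
    fin_cases i <;> rfl
  · intro y
    simp only [Sum.elim_inl, Sum.elim_inr]
    constructor
    · rintro ⟨f', h1, h2⟩
      rw [(hQ' f').1 h1] at h2
      exact (h y).1 h2
    · intro h1
      exact ⟨f, (hQ' f).2 rfl, (h y).2 h1⟩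

/-- Every ordinal below `l⁺` is the image of `l` under an ordinal definable (possibly not
everywhere defined) map: the cardinal successor of `l` is computed correctly by the ordinal
definable sets. -/
def SuccCorrect (l : Cardinal.{u}) : Prop :=
  ∀ α < (Order.succ l).ord, ∃ f : ZFSet.{u}, OrdDef ∅ f ∧
    (∀ ξ < α, ∃ i < l.ord, ZFSet.pair i.toZFSet ξ.toZFSet ∈ f) ∧
    ∀ i < l.ord, ∀ ξ < α, ∀ ξ' < α, ZFSet.pair i.toZFSet ξ.toZFSet ∈ f →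
      ZFSet.pair i.toZFSet ξ'.toZFSet ∈ f → ξ = ξ'

/-- The relation `f i ≤ f j` on `l`. -/
noncomputable def K_rel (l α : Ordinal.{u}) (f : ZFSet.{u}) : ZFSet.{u} :=
  ZFSet.sep (fun z => ∃ i < l, ∃ j < l, z = ZFSet.pair i.toZFSet j.toZFSet ∧
    ∃ ξ < α, ∃ ξ' < α, ξ ≤ ξ' ∧ ZFSet.pair i.toZFSet ξ.toZFSet ∈ f ∧
      ZFSet.pair j.toZFSet ξ'.toZFSet ∈ f) (ZFSet.prod l.toZFSet l.toZFSet)

theorem mem_K_rel {l α : Ordinal.{u}} {f z : ZFSet.{u}} : z ∈ K_rel l α f ↔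
    ∃ i < l, ∃ j < l, z = ZFSet.pair i.toZFSet j.toZFSet ∧
    ∃ ξ < α, ∃ ξ' < α, ξ ≤ ξ' ∧ ZFSet.pair i.toZFSet ξ.toZFSet ∈ f ∧
      ZFSet.pair j.toZFSet ξ'.toZFSet ∈ f := by
  rw [K_rel, ZFSet.mem_sep, and_iff_right_of_imp]
  rintro ⟨i, hi, j, hj, rfl, -⟩
  rw [ZFSet.pair_mem_prod]
  exact ⟨toZFSet_mem_toZFSet_iff.2 hi, toZFSet_mem_toZFSet_iff.2 hj⟩

theorem ordDef_K_rel {l α : Ordinal.{u}} {f : ZFSet.{u}} (hf : OrdDef ∅ f) :
    OrdDef ∅ (K_rel l α f) := by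
  refine hf.comp (α := Fin 2) (P := fun c s => ∀ z, z ∈ s 1 ↔
    ∃ i < c 0, ∃ j < c 0, z = ZFSet.pair i.toZFSet j.toZFSet ∧
      ∃ ξ < c 1, ∃ ξ' < c 1, ξ ≤ ξ' ∧ ZFSet.pair i.toZFSet ξ.toZFSet ∈ s 0 ∧
      ZFSet.pair j.toZFSet ξ'.toZFSet ∈ s 0) ?_ ![l, α] ?_
  · refine Df.allS (P := fun z (c : Fin 2 → Ordinal.{u}) (s : Fin 2 → ZFSet.{u}) => z ∈ s 1 ↔
      ∃ i < c 0, ∃ j < c 0, z = ZFSet.pair i.toZFSet j.toZFSet ∧
      ∃ ξ < c 1, ∃ ξ' < c 1, ξ ≤ ξ' ∧ ZFSet.pair i.toZFSet ξ.toZFSet ∈ s 0 ∧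
      ZFSet.pair j.toZFSet ξ'.toZFSet ∈ s 0) ?_
    refine (Df.memS none (some 1)).iff ?_
    refine Df.exO (P := fun i (c : Fin 2 → Ordinal.{u}) (s : Option (Fin 2) → ZFSet.{u}) =>
      i < c 0 ∧ ∃ j < c 0, s none = ZFSet.pair i.toZFSet j.toZFSet ∧
      ∃ ξ < c 1, ∃ ξ' < c 1, ξ ≤ ξ' ∧ ZFSet.pair i.toZFSet ξ.toZFSet ∈ s (some 0) ∧
      ZFSet.pair j.toZFSet ξ'.toZFSet ∈ s (some 0)) ?_
    refine (Df.ltO none (some 0)).and ?_
    refine Df.exO (P := fun j (c : Option (Fin 2) → Ordinal.{u})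
      (s : Option (Fin 2) → ZFSet.{u}) =>
      j < c (some 0) ∧ s none = ZFSet.pair (c none).toZFSet j.toZFSet ∧
      ∃ ξ < c (some 1), ∃ ξ' < c (some 1), ξ ≤ ξ' ∧
      ZFSet.pair (c none).toZFSet ξ.toZFSet ∈ s (some 0) ∧
      ZFSet.pair j.toZFSet ξ'.toZFSet ∈ s (some 0)) ?_
    refine (Df.ltO none (some (some 0))).and ((Df.eqPair none (some none) none).and ?_)
    refine Df.exO (P := fun ξ (c : Option (Option (Fin 2)) → Ordinal.{u})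
      (s : Option (Fin 2) → ZFSet.{u}) =>
      ξ < c (some (some 1)) ∧ ∃ ξ' < c (some (some 1)), ξ ≤ ξ' ∧
      ZFSet.pair (c (some none)).toZFSet ξ.toZFSet ∈ s (some 0) ∧
      ZFSet.pair (c none).toZFSet ξ'.toZFSet ∈ s (some 0)) ?_
    refine (Df.ltO none (some (some (some 1)))).and ?_
    refine Df.exO (P := fun ξ' (c : Option (Option (Option (Fin 2))) → Ordinal.{u})
      (s : Option (Fin 2) → ZFSet.{u}) =>
      ξ' < c (some (some (some 1))) ∧ c none ≤ ξ' ∧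
      ZFSet.pair (c (some (some none))).toZFSet (c none).toZFSet ∈ s (some 0) ∧
      ZFSet.pair (c (some none)).toZFSet ξ'.toZFSet ∈ s (some 0)) ?_
    exact (Df.ltO none (some (some (some (some 1))))).and ((Df.leO (some none) none).and
      ((Df.pairOO (some (some (some none))) (some none) (some 0)).and
        (Df.pairOO (some (some none)) none (some 0))))
  · intro y
    constructor
    · intro h
      ext z
      exact (h z).trans mem_K_rel.symm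
    · intro h z
      have h1 : y = K_rel l α f := h
      show z ∈ y ↔ _
      rw [h1]
      exact mem_K_rel

theorem K_lt {α β : Ordinal.{u}} (hβ : β < α) (h : Ordinal.{u} → Ordinal.{u})
    (h1 : ∀ ξ < α, h ξ < β) (h2 : ∀ ξ < α, ∀ ζ < ξ, h ζ < h ξ) : False := by
  have h3 : ∀ ξ, ξ < α → ξ ≤ h ξ := by
    intro ξ
    induction ξ using Ordinal.induction with
    | h ξ ih =>
      intro hξ
      by_contra hcon
      push Not at hcon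
      have h4 := ih (h ξ) hcon (hcon.trans hξ)
      exact absurd (h2 ξ hξ (h ξ) hcon) (not_lt.2 h4)
  exact absurd (h1 β hβ) (not_lt.2 (h3 β hβ))

theorem K_le {l α β : Ordinal.{u}} {f g : ZFSet.{u}}
    (hf1 : ∀ ξ < α, ∃ i < l, ZFSet.pair i.toZFSet ξ.toZFSet ∈ f)
    (hf2 : ∀ i < l, ∀ ξ < α, ∀ ξ' < α, ZFSet.pair i.toZFSet ξ.toZFSet ∈ f →
      ZFSet.pair i.toZFSet ξ'.toZFSet ∈ f → ξ = ξ')
    (hg2 : ∀ i < l, ∀ ξ < β, ∀ ξ' < β, ZFSet.pair i.toZFSet ξ.toZFSet ∈ g →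
      ZFSet.pair i.toZFSet ξ'.toZFSet ∈ g → ξ = ξ')
    (h : K_rel l α f = K_rel l β g) : α ≤ β := by
  classical
  by_contra hcon
  push Not at hcon
  have hpair : ∀ i < l, ∀ j < l, (∃ ξ < α, ∃ ξ' < α, ξ ≤ ξ' ∧
      ZFSet.pair i.toZFSet ξ.toZFSet ∈ f ∧ ZFSet.pair j.toZFSet ξ'.toZFSet ∈ f) ↔
      (∃ ξ < β, ∃ ξ' < β, ξ ≤ ξ' ∧
      ZFSet.pair i.toZFSet ξ.toZFSet ∈ g ∧ ZFSet.pair j.toZFSet ξ'.toZFSet ∈ g) := by
    intro i hi j hj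
    have key : ∀ (α' : Ordinal.{u}) (f' : ZFSet.{u}),
        ZFSet.pair i.toZFSet j.toZFSet ∈ K_rel l α' f' ↔ (∃ ξ < α', ∃ ξ' < α', ξ ≤ ξ' ∧
        ZFSet.pair i.toZFSet ξ.toZFSet ∈ f' ∧ ZFSet.pair j.toZFSet ξ'.toZFSet ∈ f') := by
      intro α' f'
      rw [mem_K_rel]
      constructor
      · rintro ⟨i', _, j', _, h1, h2⟩
        obtain ⟨h3, h4⟩ := ZFSet.pair_inj.1 h1
        rw [toZFSet_injective h3, toZFSet_injective h4]
        exact h2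
      · intro h2
        exact ⟨i, hi, j, hj, rfl, h2⟩
    rw [← key, ← key, h]
  have hI : ∀ ξ, ∃ i, ξ < α → i < l ∧ ZFSet.pair i.toZFSet ξ.toZFSet ∈ f := by
    intro ξ
    by_cases hξ : ξ < α
    · obtain ⟨i, h1, h2⟩ := hf1 ξ hξ
      exact ⟨i, fun _ => ⟨h1, h2⟩⟩
    · exact ⟨0, fun h' => absurd h' hξ⟩
  choose I hI using hI
  have hH : ∀ ξ, ∃ η, ξ < α → η < β ∧ ZFSet.pair (I ξ).toZFSet η.toZFSet ∈ g := by
    intro ξ
    by_cases hξ : ξ < α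
    · obtain ⟨η, h1, _, _, _, h2, _⟩ := (hpair (I ξ) (hI ξ hξ).1 (I ξ) (hI ξ hξ).1).1
        ⟨ξ, hξ, ξ, hξ, le_rfl, (hI ξ hξ).2, (hI ξ hξ).2⟩
      exact ⟨η, fun _ => ⟨h1, h2⟩⟩
    · exact ⟨0, fun h' => absurd h' hξ⟩
  choose H hH using hH
  refine K_lt hcon H (fun ξ hξ => (hH ξ hξ).1) ?_
  intro ξ hξ ζ hζ
  have hζα : ζ < α := hζ.trans hξ
  have h1 : H ζ ≤ H ξ := by
    obtain ⟨η, h2, η', h3, h4, h5, h6⟩ := (hpair (I ζ) (hI ζ hζα).1 (I ξ) (hI ξ hξ).1).1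
      ⟨ζ, hζα, ξ, hξ, hζ.le, (hI ζ hζα).2, (hI ξ hξ).2⟩
    rw [hg2 _ (hI ζ hζα).1 _ (hH ζ hζα).1 _ h2 (hH ζ hζα).2 h5,
      hg2 _ (hI ξ hξ).1 _ (hH ξ hξ).1 _ h3 (hH ξ hξ).2 h6]
    exact h4
  refine lt_of_le_of_ne h1 fun heq => ?_
  obtain ⟨η, h2, η', h3, h4, h5, h6⟩ := (hpair (I ξ) (hI ξ hξ).1 (I ζ) (hI ζ hζα).1).2
    ⟨H ξ, (hH ξ hξ).1, H ζ, (hH ζ hζα).1, heq.ge, (hH ξ hξ).2, (hH ζ hζα).2⟩
  have h7 := hf2 _ (hI ξ hξ).1 _ h2 _ hξ h5 (hI ξ hξ).2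
  have h8 := hf2 _ (hI ζ hζα).1 _ h3 _ hζα h6 (hI ζ hζα).2
  rw [h7, h8] at h4
  exact absurd hζ (not_lt.2 h4)

/-- A correctly computed successor gives many ordinal definable relations. -/
theorem many_rel_of_succCorrect {l : Cardinal.{u}} (h : SuccCorrect l) :
    Cardinal.lift.{u + 1} l < #{s : ZFSet.{u} // OrdDef ∅ s ∧ IsRelOn l.ord s} := by
  classical
  unfold SuccCorrect at h
  have hf : ∀ α : Iio (Order.succ l).ord, ∃ f : ZFSet.{u}, OrdDef ∅ f ∧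
    (∀ ξ < α.1, ∃ i < l.ord, ZFSet.pair i.toZFSet ξ.toZFSet ∈ f) ∧
    ∀ i < l.ord, ∀ ξ < α.1, ∀ ξ' < α.1, ZFSet.pair i.toZFSet ξ.toZFSet ∈ f →
      ZFSet.pair i.toZFSet ξ'.toZFSet ∈ f → ξ = ξ' := fun α => h α.1 α.2
  choose f hf1 hf2 hf3 using hf
  have hinj : Function.Injective (fun α : Iio (Order.succ l).ord =>
      (⟨K_rel l.ord α.1 (f α), ordDef_K_rel (hf1 α), fun z hz => by
        obtain ⟨i, hi, j, hj, h1, _⟩ := mem_K_rel.1 hz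
        exact ⟨i, hi, j, hj, h1⟩⟩ : {s : ZFSet.{u} // OrdDef ∅ s ∧ IsRelOn l.ord s})) := by
    intro α β hαβ
    have h1 : K_rel l.ord α.1 (f α) = K_rel l.ord β.1 (f β) := congrArg Subtype.val hαβ
    exact Subtype.ext (le_antisymm (K_le (hf2 α) (hf3 α) (hf3 β) h1)
      (K_le (hf2 β) (hf3 β) (hf3 α) h1.symm))
  have h2 := Cardinal.mk_le_of_injective hinj
  rw [Cardinal.mk_Iio_ordinal, Cardinal.card_ord, Cardinal.lift_succ] at h2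
  exact lt_of_lt_of_le (Order.lt_succ _) h2

theorem splits_of_succCorrect {l : Cardinal.{u}} (hl : ℵ₀ ≤ l) (h : SuccCorrect l) :
    ∃ s, OrdDef ∅ s ∧ Splits (Order.succ l) s :=
  splits_of_many_rel hl (many_rel_of_succCorrect h)

end Pool.Agent.Helper56.MW
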