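import Pool.Agent.Helper56.MW.EnumDefs

open FirstOrder FirstOrder.Language Ordinal Cardinal Set Helper23.Pcf

universe u v

namespace Pool.Agent.Helper56.MW

/-- (H1) Proof: given codes `f, f'`, show by induction on `y` along the well-founded relation `W` on
`{x // D x}` that `pair y ν ∈ f` and `pair y ν' ∈ f'` imply `ν = ν'`.  If `ν < ν'`, then the third
clause for `f'` gives `z` with `W z y`, `pair z ν ∈ f'`, and the second clause for `f` gives
`ν'' < ν` with `pair z ν'' ∈ f`; by induction `ν'' = ν`, a contradiction.  Symmetrically. -/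
theorem Rk.unique {D : ZFSet.{u} → Prop} {W : ZFSet.{u} → ZFSet.{u} → Prop}
    (hwo : IsWellOrder {x : ZFSet.{u} // D x} (fun x y => W x y)) {x : ZFSet.{u}}
    {γ γ' : Ordinal.{u}} (h : Rk D W x γ) (h' : Rk D W x γ') : γ = γ' := by
  obtain ⟨f, hf, hx⟩ := h
  obtain ⟨f', hf', hx'⟩ := h'
  have hwf : WellFounded (fun x y : {x : ZFSet.{u} // D x} => W x y) := hwo.wf
  have key : ∀ (y : {x : ZFSet.{u} // D x}) (ν ν' : Ordinal.{u}),
      ZFSet.pair (y : ZFSet.{u}) ν.toZFSet ∈ f → ZFSet.pair (y : ZFSet.{u}) ν'.toZFSet ∈ f' →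
        ν = ν' := by
    intro y
    induction y using hwf.induction with
    | _ y ih =>
      intro ν ν' h h'
      rcases lt_trichotomy ν ν' with hlt | heq | hlt
      · obtain ⟨z, hz, hzy, hzf⟩ := (hf' _ _ h').2.2 ν hlt
        obtain ⟨ν'', hν, hzf'⟩ := (hf _ _ h).2.1 z hz hzy
        exact absurd (ih ⟨z, hz⟩ hzy ν'' ν hzf' hzf) hν.ne
      · exact heq
      · obtain ⟨z, hz, hzy, hzf⟩ := (hf _ _ h).2.2 ν' hlt
        obtain ⟨ν'', hν, hzf'⟩ := (hf' _ _ h').2.1 z hz hzy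
        exact absurd (ih ⟨z, hz⟩ hzy ν' ν'' hzf hzf').symm hν.ne
  exact key ⟨x, (hf _ _ hx).1⟩ γ γ' hx hx'

/-- (H2) Proof: if `x ≠ x'` then, say, `W x x'`; the second clause for the code `f'` of `(x', γ)`
gives `ν < γ` with `pair x ν ∈ f'`, so `Rk D W x ν`, and `ν = γ` by `Rk.unique`: contradiction. -/
theorem Rk.inj {D : ZFSet.{u} → Prop} {W : ZFSet.{u} → ZFSet.{u} → Prop}
    (hwo : IsWellOrder {x : ZFSet.{u} // D x} (fun x y => W x y)) {x x' : ZFSet.{u}}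
    {γ : Ordinal.{u}} (h : Rk D W x γ) (h' : Rk D W x' γ) : x = x' := by
  obtain ⟨f, hf, hx⟩ := h
  obtain ⟨f', hf', hx'⟩ := h'
  have hD := (hf _ _ hx).1
  have hD' := (hf' _ _ hx').1
  rcases trichotomous_of (fun x y : {x : ZFSet.{u} // D x} => W x y) ⟨x, hD⟩ ⟨x', hD'⟩ with
    h1 | h1 | h1
  · obtain ⟨ν, hν, hxf⟩ := (hf' _ _ hx').2.1 x hD h1
    exact absurd (Rk.unique hwo ⟨f', hf', hxf⟩ ⟨f, hf, hx⟩) hν.ne
  · exact congrArg Subtype.val h1
  · obtain ⟨ν, hν, hxf⟩ := (hf _ _ hx).2.1 x' hD' h1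
    exact absurd (Rk.unique hwo ⟨f, hf, hxf⟩ ⟨f', hf', hx'⟩) hν.ne

end Pool.Agent.Helper56.MW
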