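import Pool.Agent.Helper56.MW.EnumDefs

open FirstOrder FirstOrder.Language Ordinal Cardinal Set Helper23.Pcf

universe u v

namespace Pool.Agent.Helper56.MW

/-- (H3) Every element of a small well-ordered class has a rank, and the ranks exhaust all
ordinals below the size of the class.

Proof: let `T = Shrink.{u} {x // D x}` with the relation transported from `W`; it is a
well-founded linear relation on a type in `Type u`, so there is a rank function
`ρ : T → Ordinal.{u}` (`IsWellFounded.rank`, or `Ordinal.typein`) with `ρ y = sup of ρ z + 1, z < y`.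
The set of all pairs `pair x (ρ x).toZFSet`, `D x` (`ZFSet.range` over `T`), is a code in the
sense of `RkCode`: for `ν' < ρ y` there is `z < y` with `ρ z = ν'` (for `typein` this is
`Ordinal.typein_surj`/`enum`; for `rank` it is `IsWellFounded.mem_range_rank_of_le`, together with
the injectivity of the rank of a linear relation).  This proves the first claim.
The range of `ρ` is an initial segment of the ordinals (same argument) and `ρ` is injective; if some
`γ < κ.ord` were not in the range, all values would be below `γ`, so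
`#{x // D x} ≤ lift γ.card < lift κ`: contradiction. -/
theorem exists_rk {D : ZFSet.{u} → Prop} {W : ZFSet.{u} → ZFSet.{u} → Prop}
    (hwo : IsWellOrder {x : ZFSet.{u} // D x} (fun x y => W x y)) [Small.{u} {x : ZFSet.{u} // D x}] :
    (∀ x, D x → ∃ γ, Rk D W x γ) ∧
      ∀ κ : Cardinal.{u}, Cardinal.lift.{u + 1} κ ≤ #{x : ZFSet.{u} // D x} →
        ∀ γ < κ.ord, ∃ x, D x ∧ Rk D W x γ := by
  classical
  let e := equivShrink.{u} {x : ZFSet.{u} // D x}
  let r : Shrink.{u} {x : ZFSet.{u} // D x} → Shrink.{u} {x : ZFSet.{u} // D x} → Prop :=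
    fun a b => W (e.symm a).1 (e.symm b).1
  haveI hr : IsWellOrder (Shrink.{u} {x : ZFSet.{u} // D x}) r := by
    let emb : r ↪r (fun x y : {x : ZFSet.{u} // D x} => W x y) :=
      ⟨e.symm.toEmbedding, Iff.rfl⟩
    exact emb.isWellOrder
  let f : ZFSet.{u} := ZFSet.range (fun t : Shrink.{u} {x : ZFSet.{u} // D x} =>
    ZFSet.pair (e.symm t).1 (Ordinal.typein r t).toZFSet)
  have hmem : ∀ t, ZFSet.pair (e.symm t).1 (Ordinal.typein r t).toZFSet ∈ f := by
    intro t
    exact ZFSet.mem_range.mpr ⟨t, rfl⟩
  have hcode : RkCode D W f := by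
    intro y ν hy
    obtain ⟨t, ht⟩ := ZFSet.mem_range.mp hy
    obtain ⟨h1, h2⟩ := ZFSet.pair_injective ht
    have h3 : Ordinal.typein r t = ν := Ordinal.toZFSet_injective h2
    subst h1
    subst h3
    refine ⟨(e.symm t).2, ?_, ?_⟩
    · intro z hz hW
      refine ⟨Ordinal.typein r (e ⟨z, hz⟩), ?_, ?_⟩
      · rw [Ordinal.typein_lt_typein]
        show W (e.symm (e ⟨z, hz⟩)).1 (e.symm t).1
        rw [Equiv.symm_apply_apply]
        exact hW
      · have := hmem (e ⟨z, hz⟩)
        rw [Equiv.symm_apply_apply] at this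
        exact this
    · intro ν' hν'
      obtain ⟨t', ht'⟩ := Ordinal.typein_surj r (hν'.trans (Ordinal.typein_lt_type r t))
      refine ⟨(e.symm t').1, (e.symm t').2, ?_, ?_⟩
      · have : r t' t := by
          rw [← Ordinal.typein_lt_typein r, ht']
          exact hν'
        exact this
      · rw [← ht']
        exact hmem t'
  refine ⟨fun x hx => ⟨Ordinal.typein r (e ⟨x, hx⟩), f, hcode, ?_⟩, ?_⟩
  · have := hmem (e ⟨x, hx⟩)
    rw [Equiv.symm_apply_apply] at this
    exact this
  · intro κ hκ γ hγ
    have h1 : κ ≤ #(Shrink.{u} {x : ZFSet.{u} // D x}) := by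
      rw [← Cardinal.lift_le.{u + 1}]
      refine hκ.trans (le_of_eq ?_)
      rw [Cardinal.lift_mk_shrink'']
    have h2 : κ.ord ≤ Ordinal.type r := by
      rw [Cardinal.ord_le, Ordinal.card_type]
      exact h1
    obtain ⟨t, ht⟩ := Ordinal.typein_surj r (hγ.trans_le h2)
    refine ⟨(e.symm t).1, (e.symm t).2, f, hcode, ?_⟩
    rw [← ht]
    exact hmem t

end Pool.Agent.Helper56.MW
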