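import Pool.Agent.Helper56.MW.LA
import Pool.Agent.Helper56.MW.H1
import Pool.Agent.Helper56.MW.H3

open FirstOrder FirstOrder.Language Ordinal Cardinal Set Helper23.Pcf

universe u v

namespace Pool.Agent.Helper56.MW

private theorem LB_small (θ : Ordinal.{u}) : Small.{u} {z : ZFSet.{u} // PD θ z} := by
  let F : Set.Iio θ × Set.Iio θ → {z : ZFSet.{u} // PD θ z} := fun x =>
    ⟨ZFSet.pair x.1.1.toZFSet x.2.1.toZFSet, x.1.1, x.1.2, x.2.1, x.2.2, rfl⟩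
  refine small_of_surjective (f := F) ?_
  rintro ⟨z, ξ, hξ, ζ, hζ, rfl⟩
  exact ⟨(⟨ξ, hξ⟩, ⟨ζ, hζ⟩), rfl⟩

private theorem LB_lt {c : Cardinal.{u}} (hc : ℵ₀ ≤ c) {ξ ζ γ : Ordinal.{u}} (hξ : ξ < c.ord)
    (hζ : ζ < c.ord) (h : Pr c.ord ξ ζ γ) : γ < c.ord := by
  classical
  have hwo := PM_wo c.ord
  obtain ⟨f, hf, hx⟩ := h
  have hm : max ξ ζ + 1 < c.ord :=
    (Cardinal.isSuccLimit_ord hc).add_one_lt (max_lt hξ hζ)
  have key : ∀ ν : Set.Iio γ, ∃ ab : Set.Iio (max ξ ζ + 1) × Set.Iio (max ξ ζ + 1),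
      ZFSet.pair (ZFSet.pair ab.1.1.toZFSet ab.2.1.toZFSet) ν.1.toZFSet ∈ f := by
    rintro ⟨ν, hν⟩
    obtain ⟨z, -, hz, hzf⟩ := (hf _ _ hx).2.2 ν hν
    obtain ⟨a, b, a', b', rfl, h2, h3⟩ := hz
    obtain ⟨h4, h5⟩ := ZFSet.pair_inj.1 h2
    have h6 : ξ = a' := Ordinal.toZFSet_injective h4
    have h7 : ζ = b' := Ordinal.toZFSet_injective h5
    subst h6
    subst h7
    have h8 : max a b ≤ max ξ ζ := by
      rcases h3 with h3 | h3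
      · exact h3.le
      · exact h3.1.le
    refine ⟨(⟨a, ?_⟩, ⟨b, ?_⟩), hzf⟩
    · exact Order.lt_add_one_iff.2 ((le_max_left a b).trans h8)
    · exact Order.lt_add_one_iff.2 ((le_max_right a b).trans h8)
  choose F hF using key
  have hinj : Function.Injective F := by
    intro ν ν' h
    have h1 := hF ν
    have h2 := hF ν'
    rw [h] at h1
    exact Subtype.ext (Rk.unique hwo ⟨f, hf, h1⟩ ⟨f, hf, h2⟩)
  have h1 := Cardinal.mk_le_of_injective hinj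
  rw [Cardinal.mk_prod, Cardinal.lift_id, Cardinal.mk_Iio_ordinal, Cardinal.mk_Iio_ordinal,
    ← Cardinal.lift_mul, Cardinal.lift_le] at h1
  rw [Cardinal.lt_ord]
  refine h1.trans_lt (Cardinal.mul_lt_of_lt hc ?_ ?_)
  · exact Cardinal.lt_ord.1 hm
  · exact Cardinal.lt_ord.1 hm

/-- (LB) The pairing function.

Proof: `{z // PD θ z}` is small, so `exists_rk` (with `PM_wo`) gives for `ξ, ζ < θ` a `γ` with
`Pr θ ξ ζ γ`; it is unique by `Rk.unique`, call it `p ξ ζ`; `p` is injective by `Rk.inj` and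
`ZFSet.pair_inj`.
`p ξ ζ < c.ord`: let `f` be the code (`RkCode`) of `(pair ξ ζ, γ)`; by its third clause every
`ν < γ` is the rank of a pair `(ξ', ζ')` below `(ξ, ζ)` (the set `f` is also a code for that pair), in
particular `ξ', ζ' ≤ max ξ ζ =: m`; different `ν` have different pairs (`Rk.unique`), so
`γ.card ≤ (m + 1).card * (m + 1).card < c` (`c` infinite, `(m+1).card < c` since `m + 1 < c.ord`;
`Cardinal.mul_lt_of_lt`), hence `γ < c.ord` (`Cardinal.lt_ord`). -/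
theorem exists_pr {c : Cardinal.{u}} (hc : ℵ₀ ≤ c) :
    ∃ p : Ordinal.{u} → Ordinal.{u} → Ordinal.{u},
      (∀ ξ < c.ord, ∀ ζ < c.ord, p ξ ζ < c.ord ∧ ∀ γ, Pr c.ord ξ ζ γ ↔ γ = p ξ ζ) ∧
      ∀ ξ < c.ord, ∀ ζ < c.ord, ∀ ξ' < c.ord, ∀ ζ' < c.ord, p ξ ζ = p ξ' ζ' → ξ = ξ' ∧ ζ = ζ' := by
  classical
  have hwo := PM_wo c.ord
  haveI := LB_small c.ord
  obtain ⟨hex, -⟩ := exists_rk hwo
  choose! P hP using hex
  have hPr : ∀ ξ < c.ord, ∀ ζ < c.ord,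
      Pr c.ord ξ ζ (P (ZFSet.pair ξ.toZFSet ζ.toZFSet)) := fun ξ hξ ζ hζ =>
    hP _ ⟨ξ, hξ, ζ, hζ, rfl⟩
  refine ⟨fun ξ ζ => P (ZFSet.pair ξ.toZFSet ζ.toZFSet), fun ξ hξ ζ hζ =>
    ⟨LB_lt hc hξ hζ (hPr ξ hξ ζ hζ), fun γ => ⟨fun h => ?_, fun h => ?_⟩⟩, ?_⟩
  · exact Rk.unique hwo h (hPr ξ hξ ζ hζ)
  · rw [h]
    exact hPr ξ hξ ζ hζ
  · intro ξ hξ ζ hζ ξ' hξ' ζ' hζ' h
    have h1 := hPr ξ hξ ζ hζ
    have h2 := hPr ξ' hξ' ζ' hζ'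
    dsimp only at h
    rw [← h] at h2
    have h3 := Rk.inj hwo h1 h2
    obtain ⟨h4, h5⟩ := ZFSet.pair_inj.1 h3
    exact ⟨Ordinal.toZFSet_injective h4, Ordinal.toZFSet_injective h5⟩

end Pool.Agent.Helper56.MW
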