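import Pool.Agent.Helper56.MW.EnumDefs

open FirstOrder FirstOrder.Language Ordinal Cardinal Set Helper23.Pcf

universe u v

namespace Pool.Agent.Helper56.MW

/-- (H4) The relation `Rk` is definable. Proof: unfold; `exS`, `allS`, `allO`, `exO`, `pairSO`. -/
theorem Df.rk {κ α β : Type} {D : (κ → Ordinal.{u}) → ZFSet.{u} → Prop}
    {W : (κ → Ordinal.{u}) → ZFSet.{u} → ZFSet.{u} → Prop}
    (hD : Df (α := κ) (β := Unit) (fun a s => D a (s ())))
    (hW : Df (α := κ) (β := Fin 2) (fun a s => W a (s 0) (s 1))) (ι : κ → α) (x : β) (γ : α) :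
    Df (fun (a : α → Ordinal.{u}) (s : β → ZFSet.{u}) =>
      Rk (D (fun i => a (ι i))) (W (fun i => a (ι i))) (s x) (a γ)) := by
  have hD' : ∀ {α' β' : Type} (j : κ → α') (z : β'),
      Df (fun (a : α' → Ordinal.{u}) (s : β' → ZFSet.{u}) => D (fun i => a (j i)) (s z)) :=
    fun j z => Df.relabel j (fun _ => z) hD
  have hW' : ∀ {α' β' : Type} (j : κ → α') (z y : β'),
      Df (fun (a : α' → Ordinal.{u}) (s : β' → ZFSet.{u}) =>
        W (fun i => a (j i)) (s z) (s y)) :=
    fun j z y => Df.relabel j ![z, y] hW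
  -- the relation `RkCode`
  have hcode : ∀ {α' β' : Type} (j : κ → α') (f : β'),
      Df (fun (a : α' → Ordinal.{u}) (s : β' → ZFSet.{u}) =>
        RkCode (D (fun i => a (j i))) (W (fun i => a (j i))) (s f)) := by
    intro α' β' j f
    refine Df.allS (P := fun y a s => ∀ ν : Ordinal.{u}, ZFSet.pair y ν.toZFSet ∈ s f →
      D (fun i => a (j i)) y ∧
      (∀ z, D (fun i => a (j i)) z → W (fun i => a (j i)) z y →
        ∃ ν' : Ordinal.{u}, ν' < ν ∧ ZFSet.pair z ν'.toZFSet ∈ s f) ∧
      (∀ ν' : Ordinal.{u}, ν' < ν → ∃ z, D (fun i => a (j i)) z ∧ W (fun i => a (j i)) z y ∧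
        ZFSet.pair z ν'.toZFSet ∈ s f)) ?_
    refine Df.allO (P := fun ν a s => ZFSet.pair (s none) ν.toZFSet ∈ s (some f) →
      D (fun i => a (j i)) (s none) ∧
      (∀ z, D (fun i => a (j i)) z → W (fun i => a (j i)) z (s none) →
        ∃ ν' : Ordinal.{u}, ν' < ν ∧ ZFSet.pair z ν'.toZFSet ∈ s (some f)) ∧
      (∀ ν' : Ordinal.{u}, ν' < ν → ∃ z, D (fun i => a (j i)) z ∧
        W (fun i => a (j i)) z (s none) ∧ ZFSet.pair z ν'.toZFSet ∈ s (some f))) ?_
    refine (Df.pairSO none none (some f)).imp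
      ((hD' (fun i => some (j i)) none).and (Df.and ?_ ?_))
    · refine Df.allS (P := fun z a s => D (fun i => a (some (j i))) z →
        W (fun i => a (some (j i))) z (s none) →
        ∃ ν' : Ordinal.{u}, ν' < a none ∧ ZFSet.pair z ν'.toZFSet ∈ s (some f)) ?_
      refine (hD' (fun i => some (j i)) none).imp
        ((hW' (fun i => some (j i)) none (some none)).imp ?_)
      refine Df.exO (P := fun ν' a s => ν' < a none ∧
        ZFSet.pair (s none) ν'.toZFSet ∈ s (some (some f))) ?_
      exact (Df.ltO none (some none)).and (Df.pairSO none none (some (some f)))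
    · refine Df.allO (P := fun ν' a s => ν' < a none → ∃ z, D (fun i => a (some (j i))) z ∧
        W (fun i => a (some (j i))) z (s none) ∧ ZFSet.pair z ν'.toZFSet ∈ s (some f)) ?_
      refine (Df.ltO none (some none)).imp ?_
      refine Df.exS (P := fun z a s => D (fun i => a (some (some (j i)))) z ∧
        W (fun i => a (some (some (j i)))) z (s none) ∧
        ZFSet.pair z (a none).toZFSet ∈ s (some f)) ?_
      exact (hD' (fun i => some (some (j i))) none).and
        ((hW' (fun i => some (some (j i))) none (some none)).and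
          (Df.pairSO none none (some (some f))))
  refine Df.exS (P := fun f a s => RkCode (D (fun i => a (ι i))) (W (fun i => a (ι i))) f ∧
    ZFSet.pair (s x) (a γ).toZFSet ∈ f) ?_
  exact (hcode ι none).and (Df.pairSO (some x) γ none)

end Pool.Agent.Helper56.MW
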