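import Pool.Agent.Helper56.MW.LA
import Pool.Agent.Helper56.MW.H4

open FirstOrder FirstOrder.Language Ordinal Cardinal Set Helper23.Pcf

universe u v

namespace Pool.Agent.Helper56.MW

/-- (LC1) Proof: `∃ z, z = pair ξ ζ ∧ Rk (PD θ) PM z γ`: `exS`, `eqPair`, `Df.rk` (with `κ = Unit` or
`Fin 1` for the parameter `θ`), `Df.pD`, `Df.pM`. -/
theorem Df.pr {α β : Type} (θ ξ ζ γ : α) :
    Df.{u} (fun (a : α → Ordinal.{u}) (_ : β → ZFSet.{u}) => Pr (a θ) (a ξ) (a ζ) (a γ)) := by
  have h := Df.exS (α := α) (β := β)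
    (P := fun z a _ => z = ZFSet.pair (a ξ).toZFSet (a ζ).toZFSet ∧ Rk (PD (a θ)) PM z (a γ))
    ((Df.eqPair none ξ ζ).and
      (Df.rk (κ := Unit) (D := fun b z => PD (b ()) z) (W := fun _ z z' => PM z z')
        (Df.pD () ()) (Df.pM 0 1) (fun _ => θ) none γ))
  refine h.congr fun a s => ?_
  unfold Pr
  constructor
  · rintro ⟨z, rfl, hz⟩
    exact hz
  · intro hz
    exact ⟨_, rfl, hz⟩

private theorem LC_eqSO {α β : Type} (i : β) (j : α) :
    Df.{u} (fun (a : α → Ordinal.{u}) (s : β → ZFSet.{u}) => s i = (a j).toZFSet) := by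
  refine (Df.allS (P := fun y a s => y ∈ s i ↔ y ∈ (a j).toZFSet)
    ((Df.memS none (some i)).iff (Df.memSO none j))).congr fun a s => ?_
  constructor
  · intro h
    ext y
    exact h y
  · intro h y
    rw [h]

/-- (LC2) Proof: `∃ z, (∀ y, y ∈ z ↔ y ∈ ζ.toZFSet) ∧ Rk … z γ` (`memSO`), `Df.rk` with parameters
`Option κ` (`θ` and those of `Z`); `x = ζ.toZFSet` is again `∀ y, y ∈ x ↔ y ∈ ζ.toZFSet`. -/
theorem Df.en {κ α β : Type} {Z : (κ → Ordinal.{u}) → Set Ordinal.{u}}
    (hZ : Df (α := Option κ) (β := Empty) (fun a _ => a none ∈ Z (fun i => a (some i))))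
    (ι : κ → α) (θ ζ γ : α) :
    Df.{u} (fun (a : α → Ordinal.{u}) (_ : β → ZFSet.{u}) =>
      En (a θ) (Z (fun i => a (ι i))) (a ζ) (a γ)) := by
  have hD : Df.{u} (α := Option κ) (β := Unit) (fun a s =>
      ∃ ζ < a none, s () = ζ.toZFSet ∧ ζ ∈ Z (fun i => a (some i))) := by
    refine Df.exO (α := Option κ) (β := Unit)
      (P := fun ζ a s => ζ < a none ∧ s () = ζ.toZFSet ∧ ζ ∈ Z (fun i => a (some i))) ?_
    refine (Df.ltO none (some none)).and ((LC_eqSO () none).and ?_)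
    exact Df.relabel (α' := Option κ) (β' := Empty)
      (fun o => match o with
        | none => none
        | some i => some (some i)) (fun e => e.elim) hZ
  have h := Df.exS (α := α) (β := β)
    (P := fun z a _ => z = (a ζ).toZFSet ∧
      Rk (fun x => ∃ ζ < a θ, x = ζ.toZFSet ∧ ζ ∈ Z (fun i => a (ι i))) (fun x y => x ∈ y) z (a γ))
    ((LC_eqSO none ζ).and
      (Df.rk (κ := Option κ)
        (D := fun b x => ∃ ζ < b none, x = ζ.toZFSet ∧ ζ ∈ Z (fun i => b (some i)))
        (W := fun _ x y => x ∈ y) hD (Df.memS 0 1)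
        (fun o => match o with
          | none => θ
          | some i => ι i) none γ))
  refine h.congr fun a s => ?_
  unfold En
  constructor
  · rintro ⟨z, rfl, hz⟩
    exact hz
  · intro hz
    exact ⟨_, rfl, hz⟩

end Pool.Agent.Helper56.MW
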