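import Pool.Agent.Helper56.MW.ValDefs

open FirstOrder FirstOrder.Language Ordinal Cardinal Set Helper23.Pcf

universe u v

namespace Pool.Agent.Helper56.MW

/-- (E1) Every function is coded below every ordinal.

Proof: `g = ZFSet.range (fun ξ : o.ToType => pair ξ.toZFSet (f ξ).toZFSet)` (with `ξ` read as an
ordinal through `ToType.mk`); `pair` and `toZFSet` are injective, so for `ξ < o` the set in the
definition of `val` is `{f ξ}`. -/
theorem exists_val (f : Ordinal.{u} → Ordinal.{u}) (o : Ordinal.{u}) :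
    ∃ g : ZFSet.{u}, ∀ ξ < o, val g ξ = f ξ := by
  refine ⟨ZFSet.range (fun ξ : Set.Iio o =>
    ZFSet.pair (ξ : Ordinal.{u}).toZFSet (f ξ).toZFSet), fun ξ hξ => ?_⟩
  have h1 : {ν : Ordinal.{u} | ZFSet.pair ξ.toZFSet ν.toZFSet ∈
      ZFSet.range (fun ξ : Set.Iio o =>
        ZFSet.pair (ξ : Ordinal.{u}).toZFSet (f ξ).toZFSet)} = {f ξ} := by
    ext ν
    rw [Set.mem_ofPred_eq, ZFSet.mem_range, Set.mem_singleton_iff]
    constructor
    · rintro ⟨⟨η, hη⟩, h⟩
      obtain ⟨h2, h3⟩ := ZFSet.pair_injective h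
      have h4 := toZFSet_injective h2
      have h5 := toZFSet_injective h3
      change η = ξ at h4
      change f η = ν at h5
      rw [← h5, h4]
    · rintro rfl
      exact ⟨⟨ξ, hξ⟩, rfl⟩
  rw [val, h1, csInf_singleton]

/-- (E2) Every set of ordinals is coded below every ordinal.

Proof: `ZFSet.sep (fun x => x.rank ∈ C) o.toZFSet`. -/
theorem exists_set (C : Set Ordinal.{u}) (o : Ordinal.{u}) :
    ∃ c : ZFSet.{u}, ∀ ξ, ξ.toZFSet ∈ c ↔ ξ < o ∧ ξ ∈ C := by
  refine ⟨ZFSet.sep (fun x => x.rank ∈ C) o.toZFSet, fun ξ => ?_⟩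
  rw [ZFSet.mem_sep, toZFSet_mem_toZFSet_iff, rank_toZFSet]

end Pool.Agent.Helper56.MW
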