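import Pool.Agent.Helper56.MW.E3

open FirstOrder FirstOrder.Language Ordinal Cardinal Set Helper23.Pcf

universe u v

namespace Pool.Agent.Helper56.MW

namespace Df

variable {α β : Type}

/-- Being a subset of `ω` is definable. -/
theorem subOmegaS (i : β) :
    Df.{u} (α := α) (fun _ s => s i ⊆ (ω : Ordinal.{u}).toZFSet) := by
  refine (exO (P := fun o (_ : α → Ordinal.{u}) (s : β → ZFSet.{u}) => o = ω ∧ s i ⊆ o.toZFSet)
    ((omegaO none).and (subSO i none))).congr fun a s => ?_
  constructor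
  · rintro ⟨o, rfl, h⟩
    exact h
  · intro h
    exact ⟨_, rfl, h⟩

/-- (F11) Being a well-order of the subsets of `ω` is definable.

Proof: for a relation `R`, `IsWellOrder {x // x ⊆ ω} R` iff `R x y ∨ x = y ∨ R y x` for all
`x, y ⊆ ω`, and every set `z ≠ ∅` of subsets of `ω` has an element `x` such that `¬ R y x` for all
`y ∈ z` (a set of subsets of `ω` of the type `{x // x ⊆ ω}` corresponds to an element of
`powerset (powerset ω)`).  `x ⊆ ω` is `∃ o, o = ω ∧ x ⊆ o.toZFSet` (`omegaO`, `subSO`).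
In this version of Mathlib `IsWellOrder` has the fields `wf` and `trichotomous`. -/
theorem isWO {R : ZFSet.{u} → ZFSet.{u} → (α → Ordinal.{u}) → (β → ZFSet.{u}) → Prop}
    (h : Df (β := Option (Option β))
      (fun a s => R (s none) (s (some none)) a (fun i => s (some (some i))))) :
    Df (fun (a : α → Ordinal.{u}) (s : β → ZFSet.{u}) =>
      IsWellOrder {x : ZFSet.{u} // x ⊆ (ω : Ordinal.{u}).toZFSet} (fun x y => R x y a s)) := by
  -- trichotomy
  have h1 : Df (fun (a : α → Ordinal.{u}) (s : β → ZFSet.{u}) =>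
      ∀ x : ZFSet.{u}, x ⊆ (ω : Ordinal.{u}).toZFSet → ∀ y : ZFSet.{u},
        y ⊆ (ω : Ordinal.{u}).toZFSet → R x y a s ∨ x = y ∨ R y x a s) := by
    refine allS (P := fun x a s => x ⊆ (ω : Ordinal.{u}).toZFSet → ∀ y : ZFSet.{u},
        y ⊆ (ω : Ordinal.{u}).toZFSet → R x y a s ∨ x = y ∨ R y x a s) ?_
    refine (subOmegaS none).imp ?_
    refine allS (P := fun y a (s : Option β → ZFSet.{u}) => y ⊆ (ω : Ordinal.{u}).toZFSet →
      R (s none) y a (fun i => s (some i)) ∨ s none = y ∨ R y (s none) a (fun i => s (some i))) ?_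
    refine (subOmegaS none).imp ?_
    have h3 := relabel (id : α → α) (fun i : Option (Option β) => match i with
      | none => some none
      | some none => none
      | some (some i) => some (some i)) h
    exact h3.or ((eqS (some none) none).or h)
  -- well-foundedness
  have h2 : Df (fun (a : α → Ordinal.{u}) (s : β → ZFSet.{u}) =>
      ∀ z : ZFSet.{u}, (∀ x : ZFSet.{u}, x ∈ z → x ⊆ (ω : Ordinal.{u}).toZFSet) →
        ¬ z = ∅ → ∃ x : ZFSet.{u}, x ∈ z ∧ ∀ y : ZFSet.{u}, y ∈ z → ¬ R y x a s) := by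
    refine allS (P := fun z a s => (∀ x : ZFSet.{u}, x ∈ z → x ⊆ (ω : Ordinal.{u}).toZFSet) →
        ¬ z = ∅ → ∃ x : ZFSet.{u}, x ∈ z ∧ ∀ y : ZFSet.{u}, y ∈ z → ¬ R y x a s) ?_
    refine Df.imp ?_ ((emptyS none).not.imp ?_)
    · refine allS (P := fun x (_ : α → Ordinal.{u}) (s : Option β → ZFSet.{u}) =>
        x ∈ s none → x ⊆ (ω : Ordinal.{u}).toZFSet) ?_
      exact (memS none (some none)).imp (subOmegaS none)
    · refine exS (P := fun x (a : α → Ordinal.{u}) (s : Option β → ZFSet.{u}) =>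
        x ∈ s none ∧ ∀ y : ZFSet.{u}, y ∈ s none → ¬ R y x a (fun i => s (some i))) ?_
      refine (memS none (some none)).and ?_
      refine allS (P := fun y (a : α → Ordinal.{u}) (s : Option (Option β) → ZFSet.{u}) =>
        y ∈ s (some none) → ¬ R y (s none) a (fun i => s (some (some i)))) ?_
      refine (memS none (some (some none))).imp ?_
      have h3 := relabel (id : α → α) (fun i : Option (Option β) => match i with
        | none => (none : Option (Option (Option β)))
        | some none => some none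
        | some (some i) => some (some (some i))) h
      exact h3.not
  refine (h1.and h2).congr fun a s => ?_
  constructor
  · rintro ⟨ht, hw⟩
    have hwf : WellFounded (fun x y : {x : ZFSet.{u} // x ⊆ (ω : Ordinal.{u}).toZFSet} =>
        R x y a s) := by
      rw [WellFounded.wellFounded_iff_has_min]
      intro Z hZ
      obtain ⟨w, hw0⟩ := hZ
      obtain ⟨x, hx, hxm⟩ := hw
        (ZFSet.sep (fun x => ∃ hx : x ⊆ (ω : Ordinal.{u}).toZFSet,
          (⟨x, hx⟩ : {x : ZFSet.{u} // x ⊆ (ω : Ordinal.{u}).toZFSet}) ∈ Z)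
          (ZFSet.powerset (ω : Ordinal.{u}).toZFSet))
        (by
          intro x hx
          exact ZFSet.mem_powerset.1 (ZFSet.mem_sep.1 hx).1)
        (by
          intro he
          have : w.1 ∈ (∅ : ZFSet.{u}) := by
            rw [← he]
            exact ZFSet.mem_sep.2 ⟨ZFSet.mem_powerset.2 w.2, w.2, hw0⟩
          exact ZFSet.notMem_empty _ this)
      obtain ⟨-, hx1, hx2⟩ := ZFSet.mem_sep.1 hx
      refine ⟨⟨x, hx1⟩, hx2, ?_⟩
      rintro ⟨y, hy1⟩ hy2
      exact hxm y (ZFSet.mem_sep.2 ⟨ZFSet.mem_powerset.2 hy1, hy1, hy2⟩)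
    exact
      { wf := hwf
        trichotomous := by
          rintro ⟨x, hx⟩ ⟨y, hy⟩ h3 h4
          rcases ht x hx y hy with h5 | h5 | h5
          · exact absurd h5 h3
          · exact Subtype.ext h5
          · exact absurd h5 h4 }
  · intro hwo
    constructor
    · intro x hx y hy
      rcases trichotomous_of (fun x y : {x : ZFSet.{u} // x ⊆ (ω : Ordinal.{u}).toZFSet} =>
        R x y a s) ⟨x, hx⟩ ⟨y, hy⟩ with h5 | h5 | h5
      · exact Or.inl h5
      · exact Or.inr (Or.inl (congrArg Subtype.val h5))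
      · exact Or.inr (Or.inr h5)
    · intro z hz hne
      have hwf : WellFounded (fun x y : {x : ZFSet.{u} // x ⊆ (ω : Ordinal.{u}).toZFSet} =>
        R x y a s) := hwo.wf
      have hne' : ∃ w, w ∈ z := by
        by_contra hcon
        push Not at hcon
        exact hne (ZFSet.eq_empty z |>.2 hcon)
      obtain ⟨w, hw⟩ := hne'
      obtain ⟨m, hm, hmm⟩ := hwf.has_min
        {x : {x : ZFSet.{u} // x ⊆ (ω : Ordinal.{u}).toZFSet} | x.1 ∈ z} ⟨⟨w, hz w hw⟩, hw⟩
      exact ⟨m.1, hm, fun y hy => hmm ⟨y, hz y hy⟩ hy⟩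

end Df

end Pool.Agent.Helper56.MW
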