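import Pool.Agent.Helper56.MW.E1
import Pool.Agent.Helper56.MW.E3

open FirstOrder FirstOrder.Language Ordinal Cardinal Set Helper23.Pcf

universe u v

namespace Pool.Agent.Helper56.MW

namespace Df

variable {α β : Type}

private theorem E8_unb (w : α) (c : β) :
    Df.{u} (fun a s => UnbIn {ξ | ξ.toZFSet ∈ s c} (a w)) :=
  (allO (P := fun x a s => x < a w → ∃ y : Ordinal.{u}, y.toZFSet ∈ s c ∧ x < y ∧ y < a w)
    ((ltO none (some w)).imp (exO (P := fun y a s => y.toZFSet ∈ s c ∧ a none < y ∧ y < a (some w))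
      ((memO none c).and ((ltO (some none) none).and (ltO none (some (some w)))))))).congr
    fun _ _ => Iff.rfl

private theorem E8_club (w : α) (c : β) :
    Df.{u} (fun a s => ClubIn {ξ | ξ.toZFSet ∈ s c} (a w)) := by
  have h1 : Df.{u} (α := α) (β := β)
      (fun a s => ∀ δ, δ < a w → ¬ δ = 0 → UnbIn {ξ | ξ.toZFSet ∈ s c} δ → δ.toZFSet ∈ s c) :=
    allO (P := fun δ a s => δ < a w → ¬ δ = 0 → UnbIn {ξ | ξ.toZFSet ∈ s c} δ → δ.toZFSet ∈ s c)
      ((ltO none (some w)).imp ((zeroO none).not.imp ((E8_unb none c).imp (memO none c))))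
  refine ((E8_unb w c).and h1).congr fun a s => ?_
  constructor
  · rintro ⟨h2, h3⟩
    exact ⟨h2, fun δ hδ hδ0 hu => h3 δ hδ hδ0.ne' hu⟩
  · rintro ⟨h2, h3⟩
    exact ⟨h2, fun δ hδ hδ0 hu => h3 δ hδ (pos_iff_ne_zero.2 hδ0) hu⟩

/-- (E8) Stationarity of a definable set of ordinals is definable.

Proof: `StatIn {ξ | P ξ} w` iff for every set `c : ZFSet`, if `{ξ | ξ.toZFSet ∈ c}` is a club of `w`
then there is `x` with `P x`, `x.toZFSet ∈ c`, `x < w`: given a club `C` take `c` from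
`exists_set C w`; `ClubIn` only depends on the points below `w`.  For the definability unfold
`ClubIn`, `UnbIn`, `ClosedIn` (use a preliminary lemma: `UnbIn {ξ | ξ.toZFSet ∈ s c} (a w)` is
definable). -/
theorem statIn {P : Ordinal.{u} → (α → Ordinal.{u}) → (β → ZFSet.{u}) → Prop} (w : α)
    (h : Df (α := Option α) (fun a s => P (a none) (fun i => a (some i)) s)) :
    Df (fun a s => StatIn {ξ | P ξ a s} (a w)) := by
  have h1 : Df.{u} (α := Option α) (β := Option β)
      (fun a s => P (a none) (fun i => a (some i)) (fun j => s (some j))) :=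
    h.relabel (α := Option α) (β := Option β) id some
  have h2 : Df.{u} (α := α) (β := β) (fun a s => ∀ c : ZFSet.{u},
      ClubIn {ξ | ξ.toZFSet ∈ c} (a w) → ∃ x, P x a s ∧ x.toZFSet ∈ c ∧ x < a w) :=
    allS (P := fun c a s => ClubIn {ξ | ξ.toZFSet ∈ c} (a w) →
        ∃ x, P x a s ∧ x.toZFSet ∈ c ∧ x < a w)
      ((E8_club w none).imp (exO (P := fun x a s => P x a (fun j => s (some j)) ∧
        x.toZFSet ∈ s none ∧ x < a w) (h1.and ((memO none none).and (ltO none (some w))))))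
  refine h2.congr fun a s => ?_
  constructor
  · intro H C hC
    obtain ⟨c, hc⟩ := exists_set C (a w)
    have hC' : ClubIn {ξ | ξ.toZFSet ∈ c} (a w) := by
      refine ⟨fun x hx => ?_, fun δ hδ hδ0 hu => ?_⟩
      · obtain ⟨y, hy, hxy, hyw⟩ := hC.unb x hx
        exact ⟨y, (hc y).2 ⟨hyw, hy⟩, hxy, hyw⟩
      · refine (hc δ).2 ⟨hδ, hC.cl δ hδ hδ0 ?_⟩
        exact hu.mono fun y hy => ((hc y).1 hy).2
    obtain ⟨x, hx, hxc, hxw⟩ := H c hC'
    exact ⟨x, hx, ((hc x).1 hxc).2, hxw⟩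
  · intro H c hC
    obtain ⟨x, hx, hxc, hxw⟩ := H _ hC
    exact ⟨x, hx, hxc, hxw⟩

end Df

end Pool.Agent.Helper56.MW
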