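import Pool.Agent.Helper56.MW.F1
import Pool.Agent.Helper56.MW.E7
import Pool.Agent.Helper56.MW.E8

open FirstOrder FirstOrder.Language Ordinal Cardinal Set Helper23.Pcf

universe u v

namespace Pool.Agent.Helper56.MW

namespace Df

variable {κ α β : Type} {S : (κ → Ordinal.{u}) → Set Ordinal.{u}}

/-- (F5) Membership of a value in a definable class of ordinals is definable. -/
theorem valMem (hS : Df (α := Option κ) (β := Empty) (fun a _ => a none ∈ S (fun i => a (some i))))
    (ι : κ → α) (g : β) (ξ : α) :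
    Df (fun (a : α → Ordinal.{u}) (s : β → ZFSet.{u}) => val (s g) (a ξ) ∈ S (fun i => a (ι i))) := by
  refine compVal (P := fun x a _ => x ∈ S (fun i => a (ι i))) g ξ ?_
  exact relabel (α := Option α) (β := β) (Option.map ι) Empty.elim hS

/-- (F6) `Meet` is definable. Proof: `meet_iff`, `exS` (three times), `nrm`, `statIn`, `valMem`. -/
theorem meet (hS : Df (α := Option κ) (β := Empty) (fun a _ => a none ∈ S (fun i => a (some i))))
    (ι : κ → α) (w η η' η'' : α) :
    Df (fun (a : α → Ordinal.{u}) (_ : β → ZFSet.{u}) =>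
      Meet (S (fun i => a (ι i))) (a w) (a η) (a η') (a η'')) := by
  refine Df.congr ?_ (fun a s => meet_iff.symm)
  refine exS (P := fun g a _ => ∃ g' g'' : ZFSet.{u}, Nrm (a w) (a η) (val g) ∧
    Nrm (a w) (a η') (val g') ∧ Nrm (a w) (a η'') (val g'') ∧
      StatIn {ξ | val g ξ ∈ S (fun i => a (ι i)) ∧ val g' ξ ∈ S (fun i => a (ι i)) ∧
        val g'' ξ ∉ S (fun i => a (ι i))} (a w)) ?_
  refine exS (P := fun g' a s => ∃ g'' : ZFSet.{u}, Nrm (a w) (a η) (val (s none)) ∧
    Nrm (a w) (a η') (val g') ∧ Nrm (a w) (a η'') (val g'') ∧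
      StatIn {ξ | val (s none) ξ ∈ S (fun i => a (ι i)) ∧ val g' ξ ∈ S (fun i => a (ι i)) ∧
        val g'' ξ ∉ S (fun i => a (ι i))} (a w)) ?_
  refine exS (P := fun g'' a s => Nrm (a w) (a η) (val (s (some none))) ∧
    Nrm (a w) (a η') (val (s none)) ∧ Nrm (a w) (a η'') (val g'') ∧
      StatIn {ξ | val (s (some none)) ξ ∈ S (fun i => a (ι i)) ∧
        val (s none) ξ ∈ S (fun i => a (ι i)) ∧ val g'' ξ ∉ S (fun i => a (ι i))} (a w)) ?_
  exact (nrm w η (some (some none))).and ((nrm w η' (some none)).and ((nrm w η'' none).and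
    (statIn (P := fun ξ a s => val (s (some (some none))) ξ ∈ S (fun i => a (ι i)) ∧
        val (s (some none)) ξ ∈ S (fun i => a (ι i)) ∧ val (s none) ξ ∉ S (fun i => a (ι i))) w
      ((valMem hS (fun i => some (ι i)) (some (some none)) none).and
        ((valMem hS (fun i => some (ι i)) (some none) none).and
          (valMem hS (fun i => some (ι i)) none none).not)))))

/-- (F7) `Split` is definable. Proof: `split_iff`, `exS`, `nrm`, `statIn`, `valMem`. -/
theorem split (hS : Df (α := Option κ) (β := Empty) (fun a _ => a none ∈ S (fun i => a (some i))))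
    (ι : κ → α) (w η η' : α) :
    Df (fun (a : α → Ordinal.{u}) (_ : β → ZFSet.{u}) =>
      Split (S (fun i => a (ι i))) (a w) (a η) (a η')) := by
  refine Df.congr ?_ (fun a s => split_iff.symm)
  refine exS (P := fun g a _ => ∃ g' : ZFSet.{u}, Nrm (a w) (a η) (val g) ∧
    Nrm (a w) (a η') (val g') ∧
      StatIn {ξ | val g ξ ∈ S (fun i => a (ι i)) ∧ val g' ξ ∈ S (fun i => a (ι i))} (a w) ∧
      StatIn {ξ | val g ξ ∈ S (fun i => a (ι i)) ∧ val g' ξ ∉ S (fun i => a (ι i))} (a w) ∧
      ¬ StatIn {ξ | val g ξ ∉ S (fun i => a (ι i)) ∧ val g' ξ ∈ S (fun i => a (ι i))} (a w)) ?_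
  refine exS (P := fun g' a s => Nrm (a w) (a η) (val (s none)) ∧
    Nrm (a w) (a η') (val g') ∧
      StatIn {ξ | val (s none) ξ ∈ S (fun i => a (ι i)) ∧ val g' ξ ∈ S (fun i => a (ι i))} (a w) ∧
      StatIn {ξ | val (s none) ξ ∈ S (fun i => a (ι i)) ∧ val g' ξ ∉ S (fun i => a (ι i))} (a w) ∧
      ¬ StatIn {ξ | val (s none) ξ ∉ S (fun i => a (ι i)) ∧
        val g' ξ ∈ S (fun i => a (ι i))} (a w)) ?_
  have h1 : Df (α := Option α) (β := Option (Option β)) (fun a s =>
      val (s (some none)) (a none) ∈ S (fun i => a (some (ι i)))) :=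
    valMem hS (fun i => some (ι i)) (some none) none
  have h2 : Df (α := Option α) (β := Option (Option β)) (fun a s =>
      val (s none) (a none) ∈ S (fun i => a (some (ι i)))) :=
    valMem hS (fun i => some (ι i)) none none
  exact (nrm w η (some none)).and ((nrm w η' none).and
    ((statIn (P := fun ξ a s => val (s (some none)) ξ ∈ S (fun i => a (ι i)) ∧
        val (s none) ξ ∈ S (fun i => a (ι i))) w (h1.and h2)).and
    ((statIn (P := fun ξ a s => val (s (some none)) ξ ∈ S (fun i => a (ι i)) ∧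
        val (s none) ξ ∉ S (fun i => a (ι i))) w (h1.and h2.not)).and
    (statIn (P := fun ξ a s => val (s (some none)) ξ ∉ S (fun i => a (ι i)) ∧
        val (s none) ξ ∈ S (fun i => a (ι i))) w (h1.not.and h2)).not)))

end Df

end Pool.Agent.Helper56.MW
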