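import Pool.Agent.Helper56.MW.D7

open FirstOrder FirstOrder.Language Ordinal Cardinal Set Helper23.Pcf

universe u v

namespace Pool.Agent.Helper56.MW

variable {S : Set Ordinal.{u}}

/-- (D8) `Prec` is a well-order of the subsets of `ω`.

Proof: let `c x` be the least `η` coding `x` (`sInf`).  `Prec x y ↔ c x < c y`: if `η` codes `x` and
no `η' ≤ η` codes `y` then `c x ≤ η < c y`; conversely take `η = c x`.  `c` is injective
by `code_unique`.  So the relation is the pull-back of `<` under an injective map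
(`(Order.Preimage …)`, `RelEmbedding.isWellOrder`). -/
theorem prec_wo (H : Univ S) {η₀ : Ordinal.{u}} (h0 : Ok S η₀) :
    IsWellOrder {x : ZFSet.{u} // x ⊆ (ω : Ordinal.{u}).toZFSet}
      (fun x y => Prec S (ω_ 1) ω η₀ x y) := by
  have hmem : ∀ x : ZFSet.{u}, Code S (ω_ 1) ω η₀ (sInf {η | Code S (ω_ 1) ω η₀ η x}) x :=
    fun x => csInf_mem (s := {η | Code S (ω_ 1) ω η₀ η x}) (exists_code H h0 x)
  have hmin : ∀ (x : ZFSet.{u}) (η : Ordinal.{u}), Code S (ω_ 1) ω η₀ η x →
      sInf {η | Code S (ω_ 1) ω η₀ η x} ≤ η := fun x η h => csInf_le' h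
  let c : {x : ZFSet.{u} // x ⊆ (ω : Ordinal.{u}).toZFSet} → Ordinal.{u} :=
    fun x => sInf {η | Code S (ω_ 1) ω η₀ η x}
  have hinj : Function.Injective c := by
    intro x y hxy
    apply Subtype.ext
    have h1 : Code S (ω_ 1) ω η₀ (c x) x := hmem x
    have h2 : Code S (ω_ 1) ω η₀ (c x) y := by
      rw [hxy]
      exact hmem y
    exact code_unique x.2 y.2 h1 h2
  have hrel : ∀ x y : {x : ZFSet.{u} // x ⊆ (ω : Ordinal.{u}).toZFSet},
      c x < c y ↔ Prec S (ω_ 1) ω η₀ x y := by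
    intro x y
    constructor
    · intro h
      refine ⟨c x, hmem x, fun η' hη' hc => ?_⟩
      exact absurd (hmin y η' hc) (not_le.2 (lt_of_le_of_lt hη' h))
    · rintro ⟨η, hη, hno⟩
      by_contra hcon
      exact hno (c y) ((not_lt.1 hcon).trans (hmin x η hη)) (hmem y)
  let e : (fun x y : {x : ZFSet.{u} // x ⊆ (ω : Ordinal.{u}).toZFSet} =>
      Prec S (ω_ 1) ω η₀ x y) ↪r ((· < ·) : Ordinal.{u} → Ordinal.{u} → Prop) :=
    ⟨⟨c, hinj⟩, fun {x y} => hrel x y⟩
  exact e.isWellOrder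

end Pool.Agent.Helper56.MW
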