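import Pool.Agent.Helper56.MW.F11

open FirstOrder FirstOrder.Language Ordinal Cardinal Set Helper23.Pcf

universe u v

namespace Pool.Agent.Helper56.MW

/-- (F12) Elimination of ordinal parameters.

Proof: induction on `n`.  `n = 0`: relabel the variables (`Fin 0 ⊕ Fin 2 → Fin 2`).
`n + 1`: let `W ν b` say that `fun x y => P (Fin.cons ν b) ![x, y]` is a well-order of the subsets
of `ω` (definable by `Df.isWO`), and let
`P' b s` be `∃ ν, W ν b ∧ (∀ ν' < ν, ¬ W ν' b) ∧ P (Fin.cons ν b) s`.  For `b = Fin.tail a`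
the least `ν` with `W ν b` exists (`a 0` is one), and for it `P' b s ↔ P (Fin.cons ν b) s`.
So the induction hypothesis applies to `P'`. -/
theorem elim (n : ℕ) (P : (Fin n → Ordinal.{u}) → (Fin 2 → ZFSet.{u}) → Prop) (hP : Df P)
    (a : Fin n → Ordinal.{u})
    (h : IsWellOrder {x : ZFSet.{u} // x ⊆ (ω : Ordinal.{u}).toZFSet}
      (fun x y => P a ![(x : ZFSet.{u}), (y : ZFSet.{u})])) : HasDefWO.{u} := by
  induction n with
  | zero =>
    obtain ⟨φ, hφ⟩ := hP
    refine ⟨φ.relabel (Sum.elim Fin.elim0 id), ?_⟩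
    have he : (fun x y : {x : ZFSet.{u} // x ⊆ (ω : Ordinal.{u}).toZFSet} =>
        (φ.relabel (Sum.elim Fin.elim0 id : Fin 0 ⊕ Fin 2 → Fin 2)).Realize
          ![(x : ZFSet.{u}), (y : ZFSet.{u})]) =
        fun x y : {x : ZFSet.{u} // x ⊆ (ω : Ordinal.{u}).toZFSet} =>
          P a ![(x : ZFSet.{u}), (y : ZFSet.{u})] := by
      funext x y
      rw [Formula.realize_relabel]
      refine propext (Iff.trans (iff_of_eq (congrArg _ ?_)) (hφ a ![(x : ZFSet.{u}), (y : ZFSet.{u})]))
      funext i
      rcases i with i | i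
      · exact i.elim0
      · rfl
    rw [he]
    exact h
  | succ n ih =>
    -- the relation with the first parameter split off
    have hP1 : Df.{u} (α := Option (Fin n)) (β := Fin 2)
        (fun a s => P (Fin.cons (a none) (fun i => a (some i))) s) := by
      have h1 := hP.relabel (α := Option (Fin n)) (β := Fin 2)
        (Fin.cons none (fun i => some i)) id
      refine h1.congr fun a s => ?_
      refine iff_of_eq (congrArg (fun b => P b s) ?_)
      funext i
      refine Fin.cases ?_ (fun i => ?_) i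
      · rfl
      · rfl
    have hW : Df.{u} (α := Option (Fin n)) (β := Fin 2) (fun a _ =>
        IsWellOrder {x : ZFSet.{u} // x ⊆ (ω : Ordinal.{u}).toZFSet}
          (fun x y => P (Fin.cons (a none) (fun i => a (some i)))
            ![(x : ZFSet.{u}), (y : ZFSet.{u})])) := by
      refine Df.isWO (R := fun x y a _ => P (Fin.cons (a none) (fun i => a (some i))) ![x, y]) ?_
      have h1 := hP1.relabel (α := Option (Fin n)) (β := Option (Option (Fin 2))) id
        ![none, some none]
      refine h1.congr fun a s => ?_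
      refine iff_of_eq (congrArg (fun b => P (Fin.cons (a none) (fun i => a (some i))) b) ?_)
      funext j
      fin_cases j <;> rfl
    let W : Ordinal.{u} → (Fin n → Ordinal.{u}) → Prop := fun ν b =>
      IsWellOrder {x : ZFSet.{u} // x ⊆ (ω : Ordinal.{u}).toZFSet}
          (fun x y => P (Fin.cons ν b) ![(x : ZFSet.{u}), (y : ZFSet.{u})])
    have hP' : Df.{u} (α := Fin n) (β := Fin 2) (fun b s => ∃ ν, W ν b ∧
        (∀ ν', ν' < ν → ¬ W ν' b) ∧ P (Fin.cons ν b) s) := by
      refine Df.exO (P := fun ν b s => W ν b ∧ (∀ ν', ν' < ν → ¬ W ν' b) ∧ P (Fin.cons ν b) s) ?_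
      refine hW.and (Df.and ?_ hP1)
      refine Df.allO (P := fun ν' (a : Option (Fin n) → Ordinal.{u}) _ =>
        ν' < a none → ¬ W ν' (fun i => a (some i))) ?_
      refine (Df.ltO none (some none)).imp (Df.not ?_)
      exact hW.relabel (α := Option (Option (Fin n))) (β := Fin 2)
        (fun o => match o with
          | none => none
          | some i => some (some i)) id
    have hex : ∃ ν, W ν (Fin.tail a) := ⟨a 0, by
      show IsWellOrder _ _
      rw [Fin.cons_self_tail]
      exact h⟩
    let ν := sInf {ν | W ν (Fin.tail a)}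
    have hν : W ν (Fin.tail a) := csInf_mem (s := {ν | W ν (Fin.tail a)}) hex
    have hmin : ∀ ν', ν' < ν → ¬ W ν' (Fin.tail a) := fun ν' h1 h2 =>
      absurd (csInf_le' (s := {ν | W ν (Fin.tail a)}) h2) (not_le.2 h1)
    refine ih _ hP' (Fin.tail a) ?_
    have he : (fun x y : {x : ZFSet.{u} // x ⊆ (ω : Ordinal.{u}).toZFSet} =>
        ∃ ν, W ν (Fin.tail a) ∧ (∀ ν', ν' < ν → ¬ W ν' (Fin.tail a)) ∧
          P (Fin.cons ν (Fin.tail a)) ![(x : ZFSet.{u}), (y : ZFSet.{u})]) =
        fun x y : {x : ZFSet.{u} // x ⊆ (ω : Ordinal.{u}).toZFSet} =>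
          P (Fin.cons ν (Fin.tail a)) ![(x : ZFSet.{u}), (y : ZFSet.{u})] := by
      funext x y
      refine propext ⟨?_, fun h1 => ⟨ν, hν, hmin, h1⟩⟩
      rintro ⟨ν', h1, h2, h3⟩
      have h4 : ν' = ν := by
        rcases lt_trichotomy ν' ν with h5 | h5 | h5
        · exact absurd h1 (hmin ν' h5)
        · exact h5
        · exact absurd hν (h2 ν h5)
      rw [← h4]
      exact h3
    rw [he]
    exact hν

end Pool.Agent.Helper56.MW
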