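import Pool.Agent.Helper56.MW.F5
import Pool.Agent.Helper56.MW.E9

open FirstOrder FirstOrder.Language Ordinal Cardinal Set Helper23.Pcf

universe u v

namespace Pool.Agent.Helper56.MW

namespace Df

variable {κ α β : Type} {S : (κ → Ordinal.{u}) → Set Ordinal.{u}}

/-- (F8) `IsSeq` is definable for coded functions. Proof: unfold, `compVal`, `split`, `succO`. -/
theorem isSeq (hS : Df (α := Option κ) (β := Empty) (fun a _ => a none ∈ S (fun i => a (some i))))
    (ι : κ → α) (w o η₀ : α) (g : β) :
    Df (fun (a : α → Ordinal.{u}) (s : β → ZFSet.{u}) =>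
      IsSeq (S (fun i => a (ι i))) (a w) (a o) (a η₀) (val (s g))) := by
  have h1 : Df (fun (a : α → Ordinal.{u}) (s : β → ZFSet.{u}) => val (s g) 0 = a η₀) := by
    refine (exO (P := fun z a s => z = 0 ∧ val (s g) z = a η₀)
      ((zeroO none).and (valEq g none (some η₀)))).congr fun a s => ?_
    simp
  have h2 : Df (α := Option (Option α)) (fun (a : Option (Option α) → Ordinal.{u})
      (s : β → ZFSet.{u}) => Split (S (fun i => a (some (some (ι i))))) (a (some (some w)))
        (val (s g) (a (some none))) (val (s g) (a none))) :=
    compVal (P := fun x a s => Split (S (fun i => a (some (some (ι i))))) (a (some (some w)))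
      (val (s g) (a (some none))) x) g none
      (compVal (P := fun x a _ => Split (S (fun i => a (some (some (some (ι i))))))
        (a (some (some (some w)))) x (a none)) g (some (some none))
        (split hS (fun i => some (some (some (some (ι i))))) (some (some (some (some w))))
          none (some none)))
  have h3 : Df (α := Option (Option α)) (fun (a : Option (Option α) → Ordinal.{u})
      (s : β → ZFSet.{u}) => ∀ ν < val (s g) (a none),
        ¬ Split (S (fun i => a (some (some (ι i))))) (a (some (some w)))
          (val (s g) (a (some none))) ν) :=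
    compVal (P := fun x a s => ∀ ν < x, ¬ Split (S (fun i => a (some (some (ι i)))))
      (a (some (some w))) (val (s g) (a (some none))) ν) g none
      (compVal (P := fun x a _ => ∀ ν < a none, ¬ Split (S (fun i => a (some (some (some (ι i))))))
        (a (some (some (some w)))) x ν) g (some (some none))
        (allO (P := fun ν a _ => ν < a (some none) →
          ¬ Split (S (fun i => a (some (some (some (some (ι i)))))))
            (a (some (some (some (some w))))) (a none) ν)
          ((ltO none (some (some none))).imp
            (split hS (fun i => some (some (some (some (some (ι i))))))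
              (some (some (some (some (some w))))) (some none) none).not)))
  exact h1.and (allO (P := fun n a s => n < a o → ∀ m < a o, m = n + 1 →
      Split (S (fun i => a (ι i))) (a w) (val (s g) n) (val (s g) m) ∧
        ∀ ν < val (s g) m, ¬ Split (S (fun i => a (ι i))) (a w) (val (s g) n) ν)
    ((ltO none (some o)).imp (allO (P := fun m a s => m < a (some o) → m = a none + 1 →
      Split (S (fun i => a (some (ι i)))) (a (some w)) (val (s g) (a none)) (val (s g) m) ∧
        ∀ ν < val (s g) m, ¬ Split (S (fun i => a (some (ι i)))) (a (some w))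
          (val (s g) (a none)) ν)
      ((ltO none (some (some o))).imp ((succO none (some none)).imp (h2.and h3))))))

/-- (F9) `Code` is definable.

Proof: `exF` with the ordinal `o` (if `o = 0` note that `IsSeq` mentions `h 0`: for this reason the
lemma is stated for `0 < o`; replace `Code` by `0 < o ∧ Code`), then `isSeq`, `compVal`, `meet`,
`memO`, `succO`. -/
theorem code (hS : Df (α := Option κ) (β := Empty) (fun a _ => a none ∈ S (fun i => a (some i))))
    (ι : κ → α) (w o η₀ η : α) (x : β) :
    Df (fun (a : α → Ordinal.{u}) (s : β → ZFSet.{u}) =>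
      0 < a o ∧ Code (S (fun i => a (ι i))) (a w) (a o) (a η₀) (a η) (s x)) := by
  have hm : Df (α := Option (Option α)) (β := Option β) (fun (a : Option (Option α) → Ordinal.{u})
      (s : Option β → ZFSet.{u}) => Meet (S (fun i => a (some (some (ι i))))) (a (some (some w)))
        (a (some (some η))) (val (s none) (a (some none))) (val (s none) (a none))) :=
    compVal (P := fun z a s => Meet (S (fun i => a (some (some (ι i))))) (a (some (some w)))
      (a (some (some η))) (val (s none) (a (some none))) z) none none
      (compVal (P := fun z a _ => Meet (S (fun i => a (some (some (some (ι i))))))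
        (a (some (some (some w)))) (a (some (some (some η)))) z (a none)) none (some (some none))
        (meet hS (fun i => some (some (some (some (ι i))))) (some (some (some (some w))))
          (some (some (some (some η)))) none (some none)))
  have hpos : Df.{u} (α := α) (β := Option β) (fun a _ => 0 < a o) :=
    (zeroO o).not.congr fun a _ => pos_iff_ne_zero.symm
  have key : Df (α := α) (β := Option β) (fun (a : α → Ordinal.{u}) (s : Option β → ZFSet.{u}) =>
      0 < a o ∧ IsSeq (S (fun i => a (ι i))) (a w) (a o) (a η₀) (val (s none)) ∧
        ∀ n < a o, ∀ m < a o, m = n + 1 → (n.toZFSet ∈ s (some x) ↔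
          Meet (S (fun i => a (ι i))) (a w) (a η) (val (s none) n) (val (s none) m))) := by
    refine hpos.and ((isSeq hS ι w o η₀ none).and ?_)
    exact allO (P := fun n a s => n < a o → ∀ m < a o, m = n + 1 → (n.toZFSet ∈ s (some x) ↔
        Meet (S (fun i => a (ι i))) (a w) (a η) (val (s none) n) (val (s none) m)))
      ((ltO none (some o)).imp (allO (P := fun m a s => m < a (some o) → m = a none + 1 →
        ((a none).toZFSet ∈ s (some x) ↔ Meet (S (fun i => a (some (ι i)))) (a (some w))
          (a (some η)) (val (s none) (a none)) (val (s none) m)))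
        ((ltO none (some (some o))).imp ((succO none (some none)).imp
          ((memO (some none) (some x)).iff hm)))))
  refine (exF (P := fun f a s => 0 < a o ∧ IsSeq (S (fun i => a (ι i))) (a w) (a o) (a η₀) f ∧
    ∀ n < a o, ∀ m < a o, m = n + 1 → (n.toZFSet ∈ s x ↔
      Meet (S (fun i => a (ι i))) (a w) (a η) (f n) (f m))) o ?_ key).congr fun a s => ?_
  · intro a s f f' hf
    refine and_congr_right fun h0 => and_congr ?_ ?_
    · refine and_congr (by rw [hf 0 h0]) ?_
      refine forall_congr' fun n => forall_congr' fun hn => forall_congr' fun m =>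
        forall_congr' fun hm => ?_
      rw [hf n hn, hf m hm]
    · refine forall_congr' fun n => forall_congr' fun hn => forall_congr' fun m =>
        forall_congr' fun hm => ?_
      rw [hf n hn, hf m hm]
  · constructor
    · rintro ⟨f, h0, h1, h2⟩
      exact ⟨h0, f, h1, h2⟩
    · rintro ⟨h0, f, h1, h2⟩
      exact ⟨f, h0, h1, h2⟩

/-- (F10) `Prec` is definable. Proof: `code`, `exO`, `allO`, `leO`
(`0 < o ∧ Prec ↔ ∃ η, (0 < o ∧ Code η x) ∧ ∀ η' ≤ η, ¬ (0 < o ∧ Code η' y)`). -/
theorem prec (hS : Df (α := Option κ) (β := Empty) (fun a _ => a none ∈ S (fun i => a (some i))))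
    (ι : κ → α) (w o η₀ : α) (x y : β) :
    Df (fun (a : α → Ordinal.{u}) (s : β → ZFSet.{u}) =>
      0 < a o ∧ Prec (S (fun i => a (ι i))) (a w) (a o) (a η₀) (s x) (s y)) := by
  refine (exO (P := fun η a s =>
    (0 < a o ∧ Code (S (fun i => a (ι i))) (a w) (a o) (a η₀) η (s x)) ∧
      ∀ η' ≤ η, ¬ (0 < a o ∧ Code (S (fun i => a (ι i))) (a w) (a o) (a η₀) η' (s y)))
    ((code hS (fun i => some (ι i)) (some w) (some o) (some η₀) none x).and
      (allO (P := fun η' a s => η' ≤ a none →
        ¬ (0 < a (some o) ∧ Code (S (fun i => a (some (ι i)))) (a (some w)) (a (some o))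
          (a (some η₀)) η' (s y)))
        ((leO none (some none)).imp
          (code hS (fun i => some (some (ι i))) (some (some w)) (some (some o))
            (some (some η₀)) none y).not)))).congr fun a s => ?_
  constructor
  · rintro ⟨η, ⟨h0, h1⟩, h2⟩
    exact ⟨h0, η, h1, fun η' hη' hc => h2 η' hη' ⟨h0, hc⟩⟩
  · rintro ⟨h0, η, h1, h2⟩
    exact ⟨η, ⟨h0, h1⟩, fun η' hη' hc => h2 η' hη' hc.2⟩

end Df

end Pool.Agent.Helper56.MW
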