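import Pool.Agent.Helper56.MW.G1
import Pool.Agent.Helper56.MW.F8
import Pool.Agent.Helper56.MW.F12
import Pool.Agent.Helper56.MW.D8

open FirstOrder FirstOrder.Language Ordinal Cardinal Set Helper23.Pcf

universe u v

namespace Pool.Agent.Helper56.MW

/-- (G4) The main implication.

Proof: from `OrdDef.exists_df` get `n, Q, b`; let `S a = {ν | ∃ y, Q a (fun _ => y) ∧ ν.toZFSet ∈ y}`,
so `ν ∈ S b ↔ ν.toZFSet ∈ s`.  `MM.code` (passed as the hypothesis `H`) gives `Univ (S b)`;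
`exists_ok`, `prec_wo` give the well-order `Prec (S b) (ω_ 1) ω η₀`.  Apply `elim` with
`n + 3` parameters (`ω₁`, `ω`, `η₀` and `b`) to the relation
`0 < o ∧ Prec (S …) w o η₀ x y` of `Df.prec` (relabelled from the context
`Option (Option (Option (Fin n)))`, or use `α = Fin (n + 3)` and `ι i = i.succ.succ.succ`). -/
theorem hasDefWO_of_univ {s : ZFSet.{u}} (hs : OrdDef ∅ s)
    (H : Univ {ν : Ordinal.{u} | ν.toZFSet ∈ s}) : HasDefWO.{u} := by
  obtain ⟨n, Q, b, hQ, hb⟩ := hs.exists_df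
  let S : (Fin n → Ordinal.{u}) → Set Ordinal.{u} :=
    fun a => {ν | ∃ y, Q a (fun _ => y) ∧ ν.toZFSet ∈ y}
  have hSb : S b = {ν : Ordinal.{u} | ν.toZFSet ∈ s} := by
    ext ν
    constructor
    · rintro ⟨y, hy, hν⟩
      rw [hb] at hy
      rw [← hy]
      exact hν
    · intro hν
      exact ⟨s, (hb s).2 rfl, hν⟩
  have hS : Df (α := Option (Fin n)) (β := Empty)
      (fun a _ => a none ∈ S (fun i => a (some i))) := by
    refine Df.exS (P := fun y (a : Option (Fin n) → Ordinal.{u}) (_ : Empty → ZFSet.{u}) =>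
      Q (fun i => a (some i)) (fun _ => y) ∧ (a none).toZFSet ∈ y) ?_
    exact (Df.relabel (β := Option Empty) some (fun _ => none) hQ).and (Df.memO none none)
  obtain ⟨η₀, h0⟩ := exists_ok H
  have hwo := prec_wo H h0
  have hP := Df.prec (α := Fin (n + 3)) (β := Fin 2) hS (fun i => i.succ.succ.succ) 0 1 2 0 1
  refine elim (n + 3) _ hP (Fin.cons (ω_ 1) (Fin.cons ω (Fin.cons η₀ b))) ?_
  have he : (fun x y : {x : ZFSet.{u} // x ⊆ (ω : Ordinal.{u}).toZFSet} =>
      (fun (a : Fin (n + 3) → Ordinal.{u}) (t : Fin 2 → ZFSet.{u}) =>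
        0 < a 1 ∧ Prec (S (fun i => a i.succ.succ.succ)) (a 0) (a 1) (a 2) (t 0) (t 1))
        (Fin.cons (ω_ 1) (Fin.cons ω (Fin.cons η₀ b))) ![(x : ZFSet.{u}), (y : ZFSet.{u})]) =
      (fun x y : {x : ZFSet.{u} // x ⊆ (ω : Ordinal.{u}).toZFSet} =>
        Prec {ν : Ordinal.{u} | ν.toZFSet ∈ s} (ω_ 1) ω η₀ (x : ZFSet.{u}) (y : ZFSet.{u})) := by
    funext x y
    apply propext
    rw [← hSb]
    constructor
    · exact fun h => h.2
    · exact fun h => ⟨Ordinal.omega0_pos, h⟩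
  exact he ▸ hwo

end Pool.Agent.Helper56.MW
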