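import Pool.Agent.Helper56.MW.Defs

open FirstOrder FirstOrder.Language Ordinal Cardinal Set Helper23.Pcf

universe u v

namespace Pool.Agent.Helper56.MW

/-- (A4) In a regular cardinal `κ > ℵ₀` the ordinals of countable cofinality are stationary.

Proof: let `C` be a club of `κ.ord`.  For `x < κ.ord` let `c x ∈ C` with `x < c x < κ.ord`.  By
`exists_cont` with `Φ j ζ = if ζ j < κ.ord then c (ζ j) else 0` (a step function; note
`IsCont Φ ξ` gives `ξ i = ⨆ j < i, max (succ (ξ j)) (Φ j (fun k => if k ≤ j then ξ k else 0))`)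
get `ξ`; `cont_bound` (with `θ = κ.ord`, `μ = succ ω`) gives `ξ i < κ.ord` for `i ≤ ω`.
`ξ ω` has cofinality `ω.cof = ℵ₀` (`cont_cof`), and `C` is unbounded in `ξ ω`: for `w < ξ ω`,
`cont_limit` gives `j < ω` with `w < ξ j`, and `c (ξ j) ∈ C`, `w < c (ξ j) ≤ ξ (j+1) < ξ ω`
(`cont_step`, `cont_lt`).  So `ξ ω ∈ C`.  (Or construct an increasing `ω`-sequence directly.) -/
theorem stat_cof {κ : Cardinal.{u}} (hκ : κ.IsRegular) (h : ℵ₀ < κ) :
    StatIn {γ | γ.cof = ℵ₀} κ.ord := by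
  intro C hC
  have hcof : κ.ord.cof = κ := hκ.cof_ord
  have hy : ∀ x : Ordinal.{u}, ∃ y, x < κ.ord → y ∈ C ∧ x < y ∧ y < κ.ord := by
    intro x
    by_cases hx : x < κ.ord
    · obtain ⟨y, h'⟩ := hC.unb x hx
      exact ⟨y, fun _ => h'⟩
    · exact ⟨0, fun h' => absurd h' hx⟩
  choose g hg using hy
  have hpos : (0 : Ordinal.{u}) < κ.ord := by
    rw [pos_iff_ne_zero, Ne, Cardinal.ord_eq_zero]
    exact (aleph0_pos.trans h).ne'
  have h1 : ∀ n : ℕ, g^[n] 0 < κ.ord := by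
    intro n
    induction n with
    | zero => exact hpos
    | succ n ih => rw [Function.iterate_succ_apply']; exact (hg _ ih).2.2
  have h2 : ∀ n : ℕ, g^[n] 0 < g^[n+1] 0 := by
    intro n
    rw [Function.iterate_succ_apply']
    exact (hg _ (h1 n)).2.1
  have h3 : ∀ n : ℕ, g^[n+1] 0 ∈ C := by
    intro n
    rw [Function.iterate_succ_apply']
    exact (hg _ (h1 n)).1
  have hz : (⨆ n : ULift.{u} ℕ, g^[n.down] 0) < κ.ord := by
    refine Ordinal.iSup_lt_of_lt_cof ?_ (fun n => h1 n.down)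
    rw [hcof]
    simpa using h
  have hle : ∀ n : ℕ, g^[n] 0 ≤ ⨆ n : ULift.{u} ℕ, g^[n.down] 0 := fun n =>
    Ordinal.le_iSup (fun n : ULift.{u} ℕ => g^[n.down] 0) ⟨n⟩
  have hlt : ∀ n : ℕ, g^[n] 0 < ⨆ n : ULift.{u} ℕ, g^[n.down] 0 := fun n =>
    lt_of_lt_of_le (h2 n) (hle (n+1))
  have hu : UnbIn C (⨆ n : ULift.{u} ℕ, g^[n.down] 0) := by
    intro w hw
    obtain ⟨n, hn⟩ := (Ordinal.lt_iSup_iff (f := fun n : ULift.{u} ℕ => g^[n.down] 0)).1 hw
    exact ⟨g^[n.down + 1] 0, h3 _, hn.trans (h2 _), hlt _⟩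
  have hz0 : 0 < ⨆ n : ULift.{u} ℕ, g^[n.down] 0 := hlt 0
  refine ⟨_, ?_, hC.cl _ hz hz0 hu, hz⟩
  change Ordinal.cof _ = ℵ₀
  apply le_antisymm
  · by_contra hcon
    rw [not_le] at hcon
    have h4 : (⨆ n : ULift.{u} ℕ, g^[n.down] 0) < ⨆ n : ULift.{u} ℕ, g^[n.down] 0 := by
      refine Ordinal.iSup_lt_of_lt_cof ?_ (fun n => hlt n.down)
      simpa using hcon
    exact lt_irrefl _ h4
  · exact Ordinal.aleph0_le_cof_iff.2 (Ordinal.one_lt_cof_iff.2 (hu.isSuccLimit hz0))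

end Pool.Agent.Helper56.MW
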