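import Pool.Agent.Helper56.MW.A1
import Pool.Agent.Helper56.MW.A4
import Pool.Agent.Helper56.MW.E1

open FirstOrder FirstOrder.Language Ordinal Cardinal Set Helper23.Pcf

universe u v

namespace Pool.Agent.Helper56.MW

/-- (G7) Every successor cardinal is split by some set.

Proof: `κ = succ l`, `l ≥ ℵ₀`.  `stat_cof` (`Cardinal.isRegular_succ`) and `split_injective` with
`I = l.out` (or `l.ord.ToType`) and an injection of the ordinals below `κ.ord` into `Set I`:
`κ ≤ 2 ^ l` (`Order.succ_le_of_lt (Cardinal.cantor l)`).  Take `s` the set of all `γ < κ.ord` with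
`i ∈ e γ` (`exists_set`). -/
theorem exists_splits {l : Cardinal.{u}} (hl : ℵ₀ ≤ l) : ∃ s, Splits (Order.succ l) s := by
  classical
  have hreg := Cardinal.isRegular_succ hl
  have hlt : ℵ₀ < Order.succ l := lt_of_le_of_lt hl (Order.lt_succ l)
  have hcof : (Order.succ l).ord.cof = Order.succ l := hreg.cof_ord
  have hI : #l.out = l := Cardinal.mk_out l
  have hle : #(Order.succ l).ord.ToType ≤ #(Set l.out) := by
    rw [Cardinal.mk_set, hI, Cardinal.mk_toType, Cardinal.card_ord]
    exact Order.succ_le_of_lt (Cardinal.cantor l)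
  obtain ⟨j⟩ := hle
  let e : Ordinal.{u} → Set l.out := fun x =>
    if h : x < (Order.succ l).ord then j (Ordinal.ToType.mk ⟨x, h⟩) else ∅
  have he : ∀ x < (Order.succ l).ord, ∀ y < (Order.succ l).ord, e x = e y → x = y := by
    intro x hx y hy h
    simp only [e, dif_pos hx, dif_pos hy] at h
    have h1 := Ordinal.ToType.mk.injective (j.injective h)
    exact congrArg Subtype.val h1
  obtain ⟨i, h1, h2⟩ := split_injective (by rw [hcof]; exact hlt) (stat_cof hreg hlt)
    (by rw [hcof, hI]; exact Order.lt_succ l) e he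
  obtain ⟨s, hs⟩ := exists_set {x | i ∈ e x} (Order.succ l).ord
  refine ⟨s, fun C hC => ?_, fun C hC => ?_⟩
  · obtain ⟨x, hx, hxC, hxo⟩ := h1 C hC
    exact ⟨x, ⟨hx.1, (hs x).2 ⟨hxo, hx.2⟩⟩, hxC, hxo⟩
  · obtain ⟨x, hx, hxC, hxo⟩ := h2 C hC
    exact ⟨x, ⟨hx.1, fun h => hx.2 ((hs x).1 h).2⟩, hxC, hxo⟩

end Pool.Agent.Helper56.MW
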