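import Pool.Agent.Helper56.MW.G6

open FirstOrder FirstOrder.Language Ordinal Cardinal Set Helper23.Pcf

universe u v

namespace Pool.Agent.Helper56.MW

/-- (G8) Parameters and arbitrarily large cardinals.

Proof: take `μ` above `ℵ_ 1` and `2 ^ #{A' | rank A' ≤ rank A}` (a small type: it is contained in
the set `V_ (rank A + 1)`, so its cardinality is the lift of a cardinal in the lower universe,
`Cardinal.lift_shrink` or `Cardinal.exists_lift…`), and use `remove_param`. -/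
theorem exists_od_splits_of_param {A : ZFSet.{u}}
    (h : ∀ μ : Cardinal.{u}, ∃ κ, μ < κ ∧ κ.IsRegular ∧ ∃ s, OrdDef A s ∧ Splits κ s) :
    ∃ κ : Cardinal.{u}, κ.IsRegular ∧ ℵ_ 1 < κ ∧ ∃ s, OrdDef ∅ s ∧ Splits κ s := by
  have hsm : Small.{u} {A' : ZFSet.{u} // A'.rank ≤ A.rank} := by
    let V : ZFSet.{u} := ZFSet.vonNeumann (Order.succ A.rank)
    refine small_of_injective (β := {x : ZFSet.{u} // x ∈ V}) (f := fun x => ⟨x.1, ?_⟩) ?_
    · change x.1 ∈ ZFSet.vonNeumann (Order.succ A.rank)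
      rw [ZFSet.mem_vonNeumann]
      exact Order.lt_succ_iff.2 x.2
    · intro x y hxy
      exact Subtype.ext (congrArg (fun z : {x : ZFSet.{u} // x ∈ V} => z.1) hxy)
  obtain ⟨κ, h1, hκ, s, hs, hsp⟩ := h (max (ℵ_ 1) (2 ^ #(Shrink.{u} {A' : ZFSet.{u} //
    A'.rank ≤ A.rank})))
  have h2 : Cardinal.lift.{u + 1} κ > 2 ^ #{A' : ZFSet.{u} // A'.rank ≤ A.rank} := by
    have h3 := Cardinal.lift_mk_shrink''.{u + 1, u} {A' : ZFSet.{u} // A'.rank ≤ A.rank}
    have h4 := Cardinal.lift_strictMono.{u, u + 1} ((le_max_right _ _).trans_lt h1)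
    rw [Cardinal.lift_two_power, h3] at h4
    exact h4
  obtain ⟨s', h3, h4⟩ := remove_param hs hκ ((le_max_left _ _).trans_lt h1) h2 hsp
  exact ⟨κ, hκ, (le_max_left _ _).trans_lt h1, s', h3, h4⟩

end Pool.Agent.Helper56.MW
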