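import Pool.Agent.Helper56.MW.C5
import Pool.Agent.Helper56.MW.G4
import Pool.Agent.Helper56.MW.G7
import Pool.Agent.Helper56.MW.G8
import Pool.Agent.Helper56.MW.H10
import Pool.Agent.Helper56.MW.J2
import Pool.Agent.Helper56.MW.J3

open FirstOrder FirstOrder.Language Ordinal Cardinal Set Helper23.Pcf

universe u v

namespace Pool.Agent.Helper56.MW

theorem hasDefWO_of_splits (h : MM.{u}) {κ : Cardinal.{u}} (hκ : κ.IsRegular) (h1 : ℵ_ 1 < κ)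
    {s : ZFSet.{u}} (hs : OrdDef ∅ s) (hsp : Splits κ s) : HasDefWO.{u} :=
  hasDefWO_of_univ hs fun A => h.code hκ h1 (S := {ν | ν.toZFSet ∈ s}) hsp.1 hsp.2 A

theorem hasDefWO_iff_splits (h : MM.{u}) :
    HasDefWO.{u} ↔ ∃ κ : Cardinal.{u}, κ.IsRegular ∧ ℵ_ 1 < κ ∧ ∃ s, OrdDef ∅ s ∧ Splits κ s := by
  constructor
  · intro hw
    obtain ⟨s, h1, h2⟩ := splits_of_hasDefWO h hw
    refine ⟨ℵ_ 2, ?_, ?_, s, h1, h2⟩
    · have := Cardinal.isRegular_aleph_add_one (1 : Ordinal.{u})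
      rwa [one_add_one_eq_two] at this
    · exact Cardinal.aleph_lt_aleph.2 (by norm_num)
  · rintro ⟨κ, hκ, h1, s, hs, hsp⟩
    exact hasDefWO_of_splits h hκ h1 hs hsp

theorem hasDefWO_iff_many (h : MM.{u}) :
    HasDefWO.{u} ↔ ∃ l : Cardinal.{u}, ℵ_ 1 ≤ l ∧ Cardinal.lift.{u + 1} l <
      #{s : ZFSet.{u} // OrdDef ∅ s ∧ s ⊆ l.ord.toZFSet} := by
  constructor
  · intro hw
    refine ⟨ℵ_ 1, le_rfl, ?_⟩
    have h1 := h.aleph2_le
    have h2 : #{x : ZFSet.{u} // x ⊆ (ω : Ordinal.{u}).toZFSet} ≤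
        #{s : ZFSet.{u} // OrdDef ∅ s ∧ s ⊆ (ℵ_ 1 : Cardinal.{u}).ord.toZFSet} := by
      refine Cardinal.mk_subtype_mono fun x hx => ⟨ordDef_of_hasDefWO hw hx, ?_⟩
      refine hx.trans ?_
      rw [toZFSet_subset_toZFSet_iff, Cardinal.ord_aleph]
      exact Ordinal.omega0_le_omega 1
    refine lt_of_lt_of_le ?_ (h1.trans h2)
    exact Cardinal.lift_lt.2 (Cardinal.aleph_lt_aleph.2 (by norm_num))
  · rintro ⟨l, hl, hl2⟩
    have h0 : ℵ₀ ≤ l := (Cardinal.aleph0_le_aleph 1).trans hl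
    obtain ⟨s, h1, h2⟩ := splits_of_many h0 hl2
    exact hasDefWO_of_splits h (Cardinal.isRegular_succ h0) (Order.lt_succ_of_le hl) h1 h2

theorem hasDefWO_of_param (h : MM.{u}) {A : ZFSet.{u}}
    (hA : ∀ μ : Cardinal.{u}, ∃ κ, μ < κ ∧ κ.IsRegular ∧ ∃ s, OrdDef A s ∧ Splits κ s) :
    HasDefWO.{u} := by
  obtain ⟨κ, hκ, h1, s, hs, hsp⟩ := exists_od_splits_of_param hA
  exact hasDefWO_of_splits h hκ h1 hs hsp

theorem hasDefWO_of_hod (h : MM.{u}) {A : ZFSet.{u}} (hA : ∀ x : ZFSet.{u}, OrdDef A x) :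
    HasDefWO.{u} := by
  refine hasDefWO_of_param h (A := A) fun μ => ?_
  have h0 : ℵ₀ ≤ max μ ℵ₀ := le_max_right _ _
  obtain ⟨s, hs⟩ := exists_splits h0
  exact ⟨Order.succ (max μ ℵ₀), Order.lt_succ_of_le (le_max_left _ _),
    Cardinal.isRegular_succ h0, s, hA s, hs⟩

end Pool.Agent.Helper56.MW
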