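import Pool.Agent.Helper56.MW.PosDefs

open FirstOrder FirstOrder.Language Ordinal Cardinal Set Helper23.Pcf

universe u v

namespace Pool.Agent.Helper56.MW

namespace Cond

variable {κ : Ordinal.{u}} {S A : Set Ordinal.{u}}

/-- (B4) The forcing notion is small.

Proof: `Cond κ S A` injects into `(ω_ 1).ToType × ((ω_ 1).ToType → κ.ToType)` when `0 < κ` (send
`p` to `p.len` and the restriction of `p.fn` to ordinals below `ω₁`; all values are below `κ`
because they are `0` beyond `p.len`; two conditions with the same image are equal because `fn` is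
`0` beyond `len < ω₁`).  `κ = 0` gives an empty type (`bdd 0`).  Use `small_of_injective`;
alternatively inject into `Iio (ω_ 1) × (Iio (ω_ 1) → Iio κ)`, which is `Small.{u}` by
`Ordinal.small_Iio` and instances. -/
instance small : Small.{u} (Cond κ S A) := by
  have hb : ∀ (p : Cond κ S A) (ξ : Ordinal.{u}), p.fn ξ < max κ 1 := by
    intro p ξ
    rcases le_or_gt ξ p.len with h | h
    · exact (p.isCond.bdd ξ h).trans_le (le_max_left _ _)
    · have h0 : p.fn ξ = 0 := p.isCond.zero ξ h
      rw [h0]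
      exact zero_lt_one.trans_le (le_max_right _ _)
  let F : Cond κ S A → Iio (ω_ 1 : Ordinal.{u}) ×
      (Iio (ω_ 1 : Ordinal.{u}) → Iio (max κ 1 : Ordinal.{u})) :=
    fun p => (⟨p.len, p.isCond.lt⟩, fun ξ => ⟨p.fn ξ.1, hb p ξ.1⟩)
  refine small_of_injective (f := F) ?_
  intro p q h
  have h1 : p.len = q.len := congrArg (fun x => x.1.1) h
  have h2 : ∀ ξ : Ordinal.{u}, ξ < ω_ 1 → p.fn ξ = q.fn ξ := by
    intro ξ hξ
    exact congrArg (fun x => (x.2 ⟨ξ, hξ⟩).1) h
  refine Subtype.ext (Prod.ext h1 (funext fun ξ => ?_))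
  rcases lt_or_ge ξ (ω_ 1) with h3 | h3
  · exact h2 ξ h3
  · have h4 : p.fn ξ = 0 := p.isCond.zero ξ (p.isCond.lt.trans_le h3)
    have h5 : q.fn ξ = 0 := q.isCond.zero ξ (q.isCond.lt.trans_le h3)
    exact h4.trans h5.symm

end Cond

end Pool.Agent.Helper56.MW
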