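import Pool.Agent.Helper56.MW.PosDefs

open FirstOrder FirstOrder.Language Ordinal Cardinal Set Helper23.Pcf

universe u v

namespace Pool.Agent.Helper56.MW

namespace Cond

variable {κ : Ordinal.{u}} {S A : Set Ordinal.{u}}

/-- (B5) The union of a filter meeting all the sets `{p | i ≤ p.len}`, `i < ω₁`, is a continuous
increasing function following the pattern.

Proof: for `p, q ∈ G` with `ξ ≤ p.len`, `ξ ≤ q.len` a common extension gives `p.fn ξ = q.fn ξ`, so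
`union G ξ = p.fn ξ` (the set in the definition is a singleton, `csSup_singleton`).  For `ξ < ω₁`
such a `p` exists by `hG.meets`.  The supremum `η` of the values `union G ξ`, `ξ < ω₁`, is below
`κ.ord` because `κ` is regular and `ℵ₁ < κ` (`Ordinal.iSup_lt_of_lt_cof` over
`(ω_ 1).ToType`); `union G` is strictly increasing on `ω₁`, `ω₁` is a limit, so
`union G ξ < η` and `η` is the least upper bound.  The clauses of `Nrm` and the pattern are read off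
from the conditions. -/
theorem union_nrm {κ : Cardinal.{u}} (hκ : κ.IsRegular) (h1 : ℵ_ 1 < κ) {G : Set (Cond κ.ord S A)}
    (hG : GenericFor (fun i => {p : Cond κ.ord S A | i ≤ p.len}) G) :
    ∃ η < κ.ord, Nrm (ω_ 1) η (union G) ∧
      ∀ ξ < ω_ 1, Order.IsSuccLimit ξ → (union G ξ ∈ S ↔ ξ ∈ A) := by
  have hex : ∀ ξ < ω_ 1, ∃ p ∈ G, ξ ≤ p.len := fun ξ hξ => by
    obtain ⟨p, hp, h⟩ := hG.meets ξ hξ
    exact ⟨p, hp, h⟩
  have hval : ∀ p ∈ G, ∀ ξ ≤ p.len, union G ξ = p.fn ξ := by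
    intro p hp ξ hξ
    have hs : {ν | ∃ q ∈ G, ξ ≤ q.len ∧ ν = q.fn ξ} = {p.fn ξ} := by
      ext ν
      simp only [mem_ofPred_eq, mem_singleton_iff]
      constructor
      · rintro ⟨q, hq, hξq, rfl⟩
        obtain ⟨r, _, hrp, hrq⟩ := hG.dir p hp q hq
        rw [← hrp.2 ξ hξ, ← hrq.2 ξ hξq]
      · rintro rfl
        exact ⟨p, hp, hξ, rfl⟩
    unfold union
    rw [hs, csSup_singleton]
  have hlt : ∀ ξ < ω_ 1, union G ξ < κ.ord := by
    intro ξ hξ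
    obtain ⟨p, hp, h⟩ := hex ξ hξ
    rw [hval p hp ξ h]
    exact p.isCond.bdd ξ h
  have hmono : ∀ ξ < ω_ 1, ∀ ξ' < ξ, union G ξ' < union G ξ := by
    intro ξ hξ ξ' hξ'
    obtain ⟨p, hp, h⟩ := hex ξ hξ
    rw [hval p hp ξ h, hval p hp ξ' (hξ'.le.trans h)]
    exact p.isCond.mono ξ h ξ' hξ'
  have hlim : Order.IsSuccLimit (ω_ 1 : Ordinal.{u}) := Cardinal.isSuccLimit_omega 1
  set s : Set Ordinal.{u} := union G '' Iio (ω_ 1) with hs
  have hbdd : BddAbove s := ⟨κ.ord, by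
    rintro _ ⟨ξ, hξ, rfl⟩
    exact (hlt ξ hξ).le⟩
  have hne : s.Nonempty := ⟨union G 0, 0, Ordinal.omega_pos 1, rfl⟩
  have hle : ∀ ξ < ω_ 1, union G ξ ≤ sSup s := fun ξ hξ => le_csSup hbdd ⟨ξ, hξ, rfl⟩
  have hcard : #s < (Ordinal.lift.{u + 1} κ.ord).cof := by
    refine lt_of_le_of_lt mk_image_le ?_
    rw [Cardinal.mk_Iio_ordinal, ← Ordinal.lift_cof, hκ.cof_ord, Cardinal.lift_lt]
    simpa using h1
  refine ⟨sSup s, ?_, ⟨?_, hmono, ?_, ?_⟩, ?_⟩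
  · refine Ordinal.sSup_lt_of_lt_cof hcard ?_
    rintro _ ⟨ξ, hξ, rfl⟩
    exact hlt ξ hξ
  · intro ξ hξ
    exact (hmono _ (hlim.succ_lt hξ) ξ (Order.lt_succ ξ)).trans_le (hle _ (hlim.succ_lt hξ))
  · intro ξ hξ hl ν hν
    obtain ⟨p, hp, h⟩ := hex ξ hξ
    rw [hval p hp ξ h] at hν
    obtain ⟨ξ', h1', h2'⟩ := p.isCond.cont ξ h hl ν hν
    refine ⟨ξ', h1', ?_⟩
    rw [hval p hp ξ' (h1'.le.trans h)]
    exact h2'
  · intro ν hν
    obtain ⟨_, ⟨ξ, hξ, rfl⟩, h⟩ := exists_lt_of_lt_csSup hne hν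
    exact ⟨ξ, hξ, h⟩
  · intro ξ hξ hl
    obtain ⟨p, hp, h⟩ := hex ξ hξ
    rw [hval p hp ξ h]
    exact p.isCond.pat ξ h hl

end Cond

end Pool.Agent.Helper56.MW
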