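import Pool.Agent.Helper56.MW.C4
import Pool.Agent.Helper56.MW.B4
import Pool.Agent.Helper56.MW.B5
import Pool.Agent.Helper56.MW.B6

open FirstOrder FirstOrder.Language Ordinal Cardinal Set Helper23.Pcf

universe u v

namespace Pool.Agent.Helper56.MW

/-- (C5) The theorem of Foreman, Magidor and Shelah.

Proof: `MM.small` applied to `Cond κ.ord S A` (nonempty by `Cond.nonempty`), `Cond.preserves`
and the sets `{p | i ≤ p.len}`, `i < ω₁`, which are dense by `Cond.dens` (if `p.len < i` extend to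
length `i`, otherwise take `q = p`); then `Cond.union_nrm`. -/
theorem MM.code (h : MM.{u}) {κ : Cardinal.{u}} (hκ : κ.IsRegular) (h1 : ℵ_ 1 < κ)
    {S : Set Ordinal.{u}} (hS : StatIn {γ | γ.cof = ℵ₀ ∧ γ ∈ S} κ.ord)
    (hS' : StatIn {γ | γ.cof = ℵ₀ ∧ γ ∉ S} κ.ord) (A : Set Ordinal.{u}) :
    ∃ (η : Ordinal.{u}) (f : Ordinal.{u} → Ordinal.{u}), Nrm (ω_ 1) η f ∧
      ∀ ξ < ω_ 1, Order.IsSuccLimit ξ → (f ξ ∈ S ↔ ξ ∈ A) := by
  have hκ0 : 0 < κ.ord := by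
    rw [Cardinal.ord_pos]
    exact hκ.pos
  have : Nonempty (Cond κ.ord S A) := Cond.nonempty hκ0
  obtain ⟨G, hG⟩ := MM.small h (Cond κ.ord S A) (Cond.preserves hκ h1 hS hS')
    (fun i => {p : Cond κ.ord S A | i ≤ p.len}) (by
      intro i hi p
      rcases lt_or_ge p.len i with hp | hp
      · obtain ⟨q, hq, hq', -⟩ := Cond.dens hκ h1 hS hS' i hi p hp 0 hκ0
        exact ⟨q, hq, hq'.ge⟩
      · exact ⟨p, le_rfl, hp⟩)
  obtain ⟨η, -, h2, h3⟩ := Cond.union_nrm hκ h1 hG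
  exact ⟨η, Cond.union G, h2, h3⟩

end Pool.Agent.Helper56.MW
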