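import Pool.Agent.Helper56.MW.G1

open FirstOrder FirstOrder.Language Ordinal Cardinal Set Helper23.Pcf

universe u v

namespace Pool.Agent.Helper56.MW

/-- (G3) Definable sets of ordinals below an ordinal are ordinal definable.

Proof: `s = ZFSet.sep (fun x => P x.rank a) (κ.toZFSet)`; it is the unique `y` with
`∀ x, x ∈ y ↔ ∃ ν < κ, x = ν.toZFSet ∧ P ν a`; use `ordDef_of_df` for the context `Option α`
(`κ` is an additional parameter).  State `x = ν.toZFSet` as `(∀ z, z ∈ x ↔ z ∈ ν.toZFSet)`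
(`memSO`), or use `memO`: since both sides are sets of ordinals below `κ`, `y = s` iff
`y ⊆ κ.toZFSet ∧ ∀ ν < κ, ν.toZFSet ∈ y ↔ P ν a`. -/
theorem exists_ordDef {α : Type} [Finite α] {P : Ordinal.{u} → (α → Ordinal.{u}) → Prop}
    (hP : Df (α := Option α) (β := Empty) (fun a _ => P (a none) (fun i => a (some i))))
    (a : α → Ordinal.{u}) (κ : Ordinal.{u}) :
    ∃ s : ZFSet.{u}, OrdDef ∅ s ∧ ∀ ν, ν.toZFSet ∈ s ↔ ν < κ ∧ P ν a := by
  classical
  have hs : ∀ ν, ν.toZFSet ∈ ZFSet.sep (fun x => P x.rank a) κ.toZFSet ↔ ν < κ ∧ P ν a := by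
    intro ν
    rw [ZFSet.mem_sep, toZFSet_mem_toZFSet_iff, rank_toZFSet]
  refine ⟨ZFSet.sep (fun x => P x.rank a) κ.toZFSet, ?_, hs⟩
  have hQ : Df (α := Option α) (β := Unit) (fun a' s => s () ⊆ (a' none).toZFSet ∧
      ∀ ν, ν < a' none → (ν.toZFSet ∈ s () ↔ P ν (fun i => a' (some i)))) := by
    refine (Df.subSO () none).and (Df.allO (P := fun ν (a' : Option α → Ordinal.{u}) s =>
      ν < a' none → (ν.toZFSet ∈ s () ↔ P ν (fun i => a' (some i)))) ?_)
    refine (Df.ltO none (some none)).imp ((Df.memO none ()).iff ?_)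
    exact (hP.relabel (α := Option (Option α)) (β := Unit)
      (fun i : Option α => match i with
        | none => none
        | some j => some (some j)) (fun e : Empty => e.elim)).congr fun a' s => Iff.rfl
  refine ordDef_of_df hQ (fun i => match i with
    | none => κ
    | some j => a j) _ (fun y => ?_)
  constructor
  · rintro ⟨h1, h2⟩
    ext x
    constructor
    · intro hx
      obtain ⟨ν, hν, rfl⟩ := mem_toZFSet_iff.1 (h1 hx)
      exact (hs ν).2 ⟨hν, (h2 ν hν).1 hx⟩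
    · intro hx
      obtain ⟨ν, hν, rfl⟩ := mem_toZFSet_iff.1 (ZFSet.mem_sep.1 hx).1
      exact (h2 ν hν).2 ((hs ν).1 hx).2
  · intro h
    rw [h]
    refine ⟨fun x hx => (ZFSet.mem_sep.1 hx).1, fun ν hν => ?_⟩
    exact ⟨fun hx => ((hs ν).1 hx).2, fun hx => (hs ν).2 ⟨hν, hx⟩⟩

end Pool.Agent.Helper56.MW
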