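import Pool.Agent.Helper56.MW.LD

open FirstOrder FirstOrder.Language Ordinal Cardinal Set Helper23.Pcf

universe u v

namespace Pool.Agent.Helper56.MW

/-- (LE) A well-order of the reals gives a uniform family of injections.

Proof: for `ξ < ω₁` the set of reals `r` with `∃ f, Cd r ξ f` is nonempty (`exists_cd`), so it has a
unique `W`-least element `r` (well-foundedness and trichotomy of `W` on `{x // x ⊆ ω}`); let `e ξ` be a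
function coded by it; `Ul W ξ ζ n` says that `ζ < ξ` and `n = e ξ ζ` (`Cd.unique`). -/
theorem exists_ul {W : ZFSet.{u} → ZFSet.{u} → Prop}
    (hW : IsWellOrder {x : ZFSet.{u} // x ⊆ (ω : Ordinal.{u}).toZFSet} (fun x y => W x y)) :
    ∃ e : Ordinal.{u} → Ordinal.{u} → Ordinal.{u}, ∀ ξ < ω_ 1,
      (∀ ζ < ξ, e ξ ζ < ω) ∧ (∀ ζ n, Ul W ξ ζ n ↔ ζ < ξ ∧ n = e ξ ζ) ∧
      ∀ ζ < ξ, ∀ ζ' < ξ, e ξ ζ = e ξ ζ' → ζ = ζ' := by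
  classical
  have key : ∀ ξ : Ordinal.{u}, ξ < ω_ 1 → ∃ r : ZFSet.{u}, r ⊆ (ω : Ordinal.{u}).toZFSet ∧
      (∀ r' : ZFSet.{u}, r' ⊆ (ω : Ordinal.{u}).toZFSet → W r' r → ¬ ∃ f, Cd r' ξ f) ∧
      (∃ f, Cd r ξ f) ∧ ∀ r₁ : ZFSet.{u}, r₁ ⊆ (ω : Ordinal.{u}).toZFSet →
        (∀ r' : ZFSet.{u}, r' ⊆ (ω : Ordinal.{u}).toZFSet → W r' r₁ → ¬ ∃ f, Cd r' ξ f) →
        (∃ f, Cd r₁ ξ f) → r₁ = r := by
    intro ξ hξ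
    let C : Set {x : ZFSet.{u} // x ⊆ (ω : Ordinal.{u}).toZFSet} := {x | ∃ f, Cd x.1 ξ f}
    have hC : C.Nonempty := by
      obtain ⟨r, hr, hf⟩ := exists_cd hξ
      exact ⟨⟨r, hr⟩, hf⟩
    have hwf : WellFounded fun x y : {x : ZFSet.{u} // x ⊆ (ω : Ordinal.{u}).toZFSet} =>
        W x y := hW.wf
    obtain ⟨r₀, hr₀, hmin⟩ := hwf.has_min C hC
    refine ⟨r₀.1, r₀.2, fun r' hr' hlt hcd => hmin ⟨r', hr'⟩ hcd hlt, hr₀, ?_⟩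
    intro r₁ hr₁ hmin₁ hcd₁
    have ht := hW.trichotomous (⟨r₁, hr₁⟩ : {x : ZFSet.{u} // x ⊆ (ω : Ordinal.{u}).toZFSet}) r₀
      (fun h => hmin ⟨r₁, hr₁⟩ hcd₁ h) (fun h => hmin₁ r₀.1 r₀.2 h hr₀)
    exact congrArg Subtype.val ht
  choose! r hr hrmin hrcd hruniq using key
  choose! f hf using hrcd
  refine ⟨f, fun ξ hξ => ⟨(hf ξ hξ).1, fun ζ n => ⟨?_, ?_⟩, (hf ξ hξ).2.1⟩⟩
  · rintro ⟨r₁, hr₁, hmin₁, g, hζ, hg, hgn⟩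
    have h1 : r₁ = r ξ := hruniq ξ hξ r₁ hr₁ hmin₁ ⟨g, hg⟩
    rw [h1] at hg
    exact ⟨hζ, by rw [← hgn]; exact hg.unique (hf ξ hξ) ζ hζ⟩
  · rintro ⟨hζ, rfl⟩
    exact ⟨r ξ, hr ξ hξ, hrmin ξ hξ, f ξ, hζ, hf ξ hξ, rfl⟩

end Pool.Agent.Helper56.MW
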