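import Pool.Agent.Helper56.MW.LC
import Pool.Agent.Helper56.MW.E3
import Pool.Agent.Helper56.MW.E9

open FirstOrder FirstOrder.Language Ordinal Cardinal Set Helper23.Pcf

universe u v

namespace Pool.Agent.Helper56.MW

/-- `Cd` with `ω` replaced by the variable `w`. -/
private def LFCd (w : Ordinal.{u}) (r : ZFSet.{u}) (ξ : Ordinal.{u})
    (f : Ordinal.{u} → Ordinal.{u}) : Prop :=
  (∀ ζ < ξ, f ζ < w) ∧ (∀ ζ < ξ, ∀ ζ' < ξ, f ζ = f ζ' → ζ = ζ') ∧
    ∀ k < w, (k.toZFSet ∈ r ↔ ∃ ζ < ξ, ∃ ζ' < ξ, ζ ≤ ζ' ∧ Pr w (f ζ) (f ζ') k)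

private theorem LF_local {r : ZFSet.{u}} {ξ : Ordinal.{u}} {f f' : Ordinal.{u} → Ordinal.{u}}
    (h : ∀ ζ < ξ, f ζ = f' ζ) (H : Cd r ξ f) : Cd r ξ f' := by
  obtain ⟨h1, h2, h3⟩ := H
  refine ⟨fun ζ hζ => ?_, fun ζ hζ ζ' hζ' he => ?_, fun k hk => ?_⟩
  · rw [← h ζ hζ]
    exact h1 ζ hζ
  · rw [← h ζ hζ, ← h ζ' hζ'] at he
    exact h2 ζ hζ ζ' hζ' he
  · rw [h3 k hk]
    constructor
    · rintro ⟨ζ, hζ, ζ', hζ', hle, hp⟩
      refine ⟨ζ, hζ, ζ', hζ', hle, ?_⟩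
      rwa [← h ζ hζ, ← h ζ' hζ']
    · rintro ⟨ζ, hζ, ζ', hζ', hle, hp⟩
      refine ⟨ζ, hζ, ζ', hζ', hle, ?_⟩
      rwa [h ζ hζ, h ζ' hζ']

private theorem LF_local_iff {r : ZFSet.{u}} {ξ : Ordinal.{u}} {f f' : Ordinal.{u} → Ordinal.{u}}
    (h : ∀ ζ < ξ, f ζ = f' ζ) : Cd r ξ f ↔ Cd r ξ f' :=
  ⟨LF_local h, LF_local fun ζ hζ => (h ζ hζ).symm⟩

private theorem LF_lt {α β : Type} (g : β) (ζ w : α) :
    Df.{u} (fun (a : α → Ordinal.{u}) (s : β → ZFSet.{u}) => val (s g) (a ζ) < a w) :=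
  Df.compVal (P := fun v a _ => v < a w) g ζ (Df.ltO none (some w))

private theorem LF_eqv {α β : Type} (g : β) (ζ ζ' : α) :
    Df.{u} (fun (a : α → Ordinal.{u}) (s : β → ZFSet.{u}) =>
      val (s g) (a ζ) = val (s g) (a ζ')) :=
  Df.compVal (P := fun v a s => v = val (s g) (a ζ')) g ζ
    (Df.compVal (α := Option α) (P := fun v' a _ => a none = v') g (some ζ')
      (Df.eqO (some none) none))

private theorem LF_pr {α β : Type} (w k ζ ζ' : α) (g : β) :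
    Df.{u} (fun (a : α → Ordinal.{u}) (s : β → ZFSet.{u}) =>
      Pr (a w) (val (s g) (a ζ)) (val (s g) (a ζ')) (a k)) :=
  Df.compVal (P := fun v a s => Pr (a w) v (val (s g) (a ζ')) (a k)) g ζ
    (Df.compVal (α := Option α) (P := fun v' a _ => Pr (a (some w)) (a none) v' (a (some k))) g
      (some ζ') (Df.pr (some (some w)) (some none) none (some (some k))))

private theorem LF_q {α β : Type} (w ξ : α) (r g : β) :
    Df.{u} (fun (a : α → Ordinal.{u}) (s : β → ZFSet.{u}) =>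
      LFCd (a w) (s r) (a ξ) (val (s g))) := by
  unfold LFCd
  refine Df.and ?_ (Df.and ?_ ?_)
  · exact Df.allO (P := fun ζ a s => ζ < a ξ → val (s g) ζ < a w)
      ((Df.ltO none (some ξ)).imp (LF_lt g none (some w)))
  · exact Df.allO (P := fun ζ a s => ζ < a ξ → ∀ ζ' < a ξ, val (s g) ζ = val (s g) ζ' → ζ = ζ')
      ((Df.ltO none (some ξ)).imp (Df.allO (α := Option α)
        (P := fun ζ' a s => ζ' < a (some ξ) → val (s g) (a none) = val (s g) ζ' → a none = ζ')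
        ((Df.ltO none (some (some ξ))).imp
          ((LF_eqv g (some none) none).imp (Df.eqO (some none) none)))))
  · exact Df.allO (P := fun k a s => k < a w → (k.toZFSet ∈ s r ↔
        ∃ ζ < a ξ, ∃ ζ' < a ξ, ζ ≤ ζ' ∧ Pr (a w) (val (s g) ζ) (val (s g) ζ') k))
      ((Df.ltO none (some w)).imp ((Df.memO none r).iff (Df.exO (α := Option α)
        (P := fun ζ a s => ζ < a (some ξ) ∧ ∃ ζ' < a (some ξ), ζ ≤ ζ' ∧
          Pr (a (some w)) (val (s g) ζ) (val (s g) ζ') (a none))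
        ((Df.ltO none (some (some ξ))).and (Df.exO (α := Option (Option α))
          (P := fun ζ' a s => ζ' < a (some (some ξ)) ∧ a none ≤ ζ' ∧
            Pr (a (some (some w))) (val (s g) (a none)) (val (s g) ζ') (a (some none)))
          ((Df.ltO none (some (some (some ξ)))).and ((Df.leO (some none) none).and
            (LF_pr (some (some (some w))) (some (some none)) (some none) none g))))))))

/-- `Cd` is definable for coded functions. -/
private theorem LF_cd {α β : Type} (ξ : α) (r g : β) :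
    Df.{u} (fun (a : α → Ordinal.{u}) (s : β → ZFSet.{u}) => Cd (s r) (a ξ) (val (s g))) := by
  refine (Df.exO (P := fun w a s => w = ω ∧ LFCd w (s r) (a ξ) (val (s g)))
    ((Df.omegaO none).and (LF_q none (some ξ) r g))).congr fun a s => ?_
  constructor
  · rintro ⟨w, rfl, h⟩
    exact h
  · intro h
    exact ⟨ω, rfl, h⟩

private theorem LF_subOmega {α β : Type} (i : β) :
    Df.{u} (fun (_ : α → Ordinal.{u}) (s : β → ZFSet.{u}) =>
      s i ⊆ (ω : Ordinal.{u}).toZFSet) := by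
  refine (Df.exO (P := fun o _ s => o = ω ∧ s i ⊆ o.toZFSet)
    ((Df.omegaO none).and (Df.subSO i none))).congr fun a s => ?_
  constructor
  · rintro ⟨w, rfl, h⟩
    exact h
  · intro h
    exact ⟨ω, rfl, h⟩

/-- (LF1) Proof: the quantifier over `f` is local at `ξ` (`exF` with `o = ξ`: `Cd r ξ f` and, because
of `ζ < ξ`, `f ζ = n` only depend on `f` below `ξ`); for coded `f` unfold `Cd` and use `compVal`,
`valEq`, `Df.pr` (with an additional ordinal variable equal to `ω`, `omegaO`), `memO`, `leO`, `ltO`. -/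
theorem Df.exCd {α β : Type} (r : β) (ξ ζ n : α) :
    Df.{u} (fun (a : α → Ordinal.{u}) (s : β → ZFSet.{u}) =>
      ∃ f, a ζ < a ξ ∧ Cd (s r) (a ξ) f ∧ f (a ζ) = a n) := by
  refine Df.exF (P := fun f a s => a ζ < a ξ ∧ Cd (s r) (a ξ) f ∧ f (a ζ) = a n) ξ ?_ ?_
  · intro a s f f' hf
    refine and_congr_right fun h => and_congr (LF_local_iff hf) ?_
    rw [hf _ h]
  · exact (Df.ltO ζ ξ).and ((LF_cd ξ (some r) none).and (Df.valEq none ζ n))

/-- (LF2) The same without the condition on the value at `ζ`. -/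
theorem Df.exCd' {α β : Type} (r : β) (ξ : α) :
    Df.{u} (fun (a : α → Ordinal.{u}) (s : β → ZFSet.{u}) => ∃ f, Cd (s r) (a ξ) f) :=
  Df.exF (P := fun f a s => Cd (s r) (a ξ) f) ξ (fun _ _ _ _ hf => LF_local_iff hf)
    (LF_cd ξ (some r) none)

/-- (LF3) Proof: unfold `Ul`; `exS`, `allS`, `r ⊆ ω` via `∃ o, o = ω ∧ r ⊆ o.toZFSet` (`omegaO`,
`subSO`), `hW`, `exCd`, `exCd'`. -/
theorem Df.ul {W : ZFSet.{u} → ZFSet.{u} → Prop}
    (hW : Df.{u} (α := Empty) (β := Fin 2) (fun _ s => W (s 0) (s 1))) {α β : Type} (ξ ζ n : α) :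
    Df.{u} (fun (a : α → Ordinal.{u}) (_ : β → ZFSet.{u}) => Ul W (a ξ) (a ζ) (a n)) := by
  have hW' : ∀ {α' β' : Type} (x y : β'),
      Df (fun (_ : α' → Ordinal.{u}) (s : β' → ZFSet.{u}) => W (s x) (s y)) :=
    fun x y => Df.relabel Empty.elim ![x, y] hW
  refine Df.exS (P := fun r a _ => r ⊆ (ω : Ordinal.{u}).toZFSet ∧
    (∀ r' : ZFSet.{u}, r' ⊆ (ω : Ordinal.{u}).toZFSet → W r' r → ¬ ∃ f, Cd r' (a ξ) f) ∧
    ∃ f, a ζ < a ξ ∧ Cd r (a ξ) f ∧ f (a ζ) = a n) ?_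
  refine (LF_subOmega none).and (Df.and ?_ (Df.exCd none ξ ζ n))
  exact Df.allS (P := fun r' a s => r' ⊆ (ω : Ordinal.{u}).toZFSet → W r' (s none) →
    ¬ ∃ f, Cd r' (a ξ) f)
    ((LF_subOmega none).imp ((hW' none (some none)).imp (Df.exCd' none ξ).not))

end Pool.Agent.Helper56.MW
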