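import Pool.Agent.Helper56.MW.Defs

open FirstOrder FirstOrder.Language Ordinal Cardinal Set Helper23.Pcf

universe u v

namespace Pool.Agent.Helper56.MW

/-- (A5) Closure points of a function on finite sequences form a club.

Proof.  Closed: if `δ < κ.ord`, `0 < δ` and the set is unbounded in `δ`, let `l` be a list with
entries below `δ`; the finitely many entries are below some `γ < δ` of the set (take the maximum of
the finitely many ordinals; induct on `l`), so `f l < γ < δ`.
Unbounded: for `x < κ.ord` let `g x` be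
`succ (max x (⨆ l : {l : List (I × Iio x)}, f (l.map (fun q => (q.1, q.2.1)))))`; the index type has
cardinality `< κ` (up to universe lift; `Cardinal.mk_list_le_max`, `#I < κ`, `x.card < κ`,
`ℵ₀ < κ`), so `x < g x < κ.ord` (`Ordinal.iSup_lt_of_lt_cof` or the version for small index types;
it is convenient to use the index type `List (I × x.ToType)`).  `exists_iter` applied to `g` and
`x` gives `z < κ.ord`, `x < z`, such that every `w < z` is below some `y < z` with `g y < z`.  A
list with entries below `z` has its entries below such a `y`, so `f l < g y < z`. -/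
theorem club_closure {κ : Cardinal.{u}} (hκ : κ.IsRegular) (h : ℵ₀ < κ) {I : Type u}
    (hI : #I < κ) (f : List (I × Ordinal.{u}) → Ordinal.{u})
    (hf : ∀ l : List (I × Ordinal.{u}), (∀ x ∈ l, x.2 < κ.ord) → f l < κ.ord) :
    ClubIn {γ | ∀ l : List (I × Ordinal.{u}), (∀ x ∈ l, x.2 < γ) → f l < γ} κ.ord := by
  classical
  have hcof : κ.ord.cof = κ := hκ.cof_ord
  have hlim : Order.IsSuccLimit κ.ord := Cardinal.isSuccLimit_ord h.le
  refine ⟨?_, ?_⟩
  · intro x hx
    let g : Ordinal.{u} → Ordinal.{u} := fun x => Order.succ (max x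
      (⨆ l : List (I × x.ToType), f (l.map fun q => (q.1, (Ordinal.ToType.mk.symm q.2).1))))
    have hg : ∀ x < κ.ord, x < g x ∧ g x < κ.ord := by
      intro x hx
      refine ⟨lt_of_le_of_lt (le_max_left _ _) (Order.lt_succ _), hlim.succ_lt (max_lt hx ?_)⟩
      refine Ordinal.iSup_lt_of_lt_cof ?_ (fun l => hf _ ?_)
      · rw [hcof]
        refine (Cardinal.mk_list_le_max _).trans_lt (max_lt h ?_)
        rw [Cardinal.mk_prod, Cardinal.lift_id, Cardinal.lift_id, Cardinal.mk_toType]
        exact Cardinal.mul_lt_of_lt h.le hI (Cardinal.lt_ord.1 hx)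
      · intro y hy
        obtain ⟨q, _, rfl⟩ := List.mem_map.1 hy
        exact lt_trans (Ordinal.ToType.mk.symm q.2).2 hx
    obtain ⟨z, hz, hxz, hw⟩ := exists_iter (by rw [hcof]; exact h) g hg x hx
    refine ⟨z, ?_, hxz, hz⟩
    intro l hl
    have key : ∀ l : List (I × Ordinal.{u}), (∀ x ∈ l, x.2 < z) →
        ∃ y < z, g y < z ∧ ∀ x ∈ l, x.2 < y := by
      intro l
      induction l with
      | nil =>
        intro _
        obtain ⟨y, h1, _, h3⟩ := hw 0 (lt_of_le_of_lt zero_le hxz)
        exact ⟨y, h1, h3, fun x hx => absurd hx List.not_mem_nil⟩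
      | cons a l ih =>
        intro hal
        obtain ⟨y, h1, _, h3⟩ := ih fun x hx => hal x (List.mem_cons_of_mem _ hx)
        obtain ⟨y', h4, h5, h6⟩ := hw (max a.2 y) (max_lt (hal a List.mem_cons_self) h1)
        refine ⟨y', h4, h6, fun x hx => ?_⟩
        rcases List.mem_cons.1 hx with h7 | h7
        · rw [h7]
          exact lt_of_le_of_lt (le_max_left _ _) h5
        · exact (h3 x h7).trans (lt_of_le_of_lt (le_max_right _ _) h5)
    obtain ⟨y, _, h2, h3⟩ := key l hl
    have hle : f l ≤ ⨆ l : List (I × y.ToType),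
        f (l.map fun q => (q.1, (Ordinal.ToType.mk.symm q.2).1)) := by
      have h4 := Ordinal.le_iSup (fun l : List (I × y.ToType) =>
        f (l.map fun q => (q.1, (Ordinal.ToType.mk.symm q.2).1)))
        (l.pmap (fun q (hq : q.2 < y) => (q.1, Ordinal.ToType.mk ⟨q.2, hq⟩)) h3)
      refine le_trans (le_of_eq ?_) h4
      congr 1
      rw [List.map_pmap]
      simp
    exact lt_of_le_of_lt hle (lt_of_le_of_lt (le_max_right _ _)
      (lt_trans (Order.lt_succ _) h2))
  · intro δ _ hδ0 hδ l hl
    have key : ∀ l : List (I × Ordinal.{u}), (∀ x ∈ l, x.2 < δ) →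
        ∃ γ < δ, γ ∈ {γ | ∀ l : List (I × Ordinal.{u}), (∀ x ∈ l, x.2 < γ) → f l < γ} ∧
          ∀ x ∈ l, x.2 < γ := by
      intro l
      induction l with
      | nil =>
        intro _
        obtain ⟨y, h1, _, h3⟩ := hδ 0 hδ0
        exact ⟨y, h3, h1, fun x hx => absurd hx List.not_mem_nil⟩
      | cons a l ih =>
        intro hal
        obtain ⟨y, h1, _, h3⟩ := ih fun x hx => hal x (List.mem_cons_of_mem _ hx)
        obtain ⟨y', h4, h5, h6⟩ := hδ (max a.2 y) (max_lt (hal a List.mem_cons_self) h1)
        refine ⟨y', h6, h4, fun x hx => ?_⟩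
        rcases List.mem_cons.1 hx with h7 | h7
        · rw [h7]
          exact lt_of_le_of_lt (le_max_left _ _) h5
        · exact (h3 x h7).trans (lt_of_le_of_lt (le_max_right _ _) h5)
    obtain ⟨γ, h1, h2, h3⟩ := key l hl
    exact (h2 l h3).trans h1

end Pool.Agent.Helper56.MW
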