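import Pool.Agent.Helper56.MW.A1
import Pool.Agent.Helper56.MW.A5

open FirstOrder FirstOrder.Language Ordinal Cardinal Set Helper23.Pcf

universe u v

namespace Pool.Agent.Helper56.MW

/-- (LG) Ulam's argument.

Proof: for `ζ < ω₁` the set `{ξ | ζ < ξ}` is a club of `ω₁` (`club_Ioi`), hence stationary, and it is
(below `ω₁`) the union over `n < ω` of the sets `{ξ | ζ < ξ ∧ e ξ ζ = n}`; `stat_iUnion` (index type
`ULift ℕ`, `aleph0_lt_cof_omega1`; natural numbers and ordinals below `ω`: `Ordinal.lt_omega0`) gives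
`n ζ < ω` for which it is stationary.  If for every `n < ω` the set of `ζ` with `n ζ = n` were
bounded in `ω₁`, then `ω₁` would be a countable union of bounded sets, which contradicts
`ℵ₀ < cof ω₁` (`Ordinal.iSup_lt_of_lt_cof`). -/
theorem ulam (e : Ordinal.{u} → Ordinal.{u} → Ordinal.{u})
    (he : ∀ ξ < ω_ 1, ∀ ζ < ξ, e ξ ζ < ω) :
    ∃ n < ω, UnbIn {ζ | StatIn {ξ | ζ < ξ ∧ e ξ ζ = n} (ω_ 1)} (ω_ 1) := by
  classical
  have hcof := aleph0_lt_cof_omega1.{u}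
  have hlim : Order.IsSuccLimit (ω_ 1 : Ordinal.{u}) :=
    Ordinal.one_lt_cof_iff.1 (one_lt_aleph0.trans hcof)
  have h1 : ∀ ζ < (ω_ 1 : Ordinal.{u}), ∃ n : ℕ,
      StatIn {ξ : Ordinal.{u} | ζ < ξ ∧ e ξ ζ = (n : Ordinal.{u})} (ω_ 1) := by
    intro ζ hζ
    have hst : StatIn (⋃ n : ULift.{u} ℕ,
        {ξ : Ordinal.{u} | ζ < ξ ∧ e ξ ζ = ((n.down : ℕ) : Ordinal.{u})}) (ω_ 1) := by
      intro C hC
      obtain ⟨y, hyC, hζy, hyo⟩ := hC.unb ζ hζ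
      obtain ⟨n, hn⟩ := Ordinal.lt_omega0.1 (he y hyo ζ hζy)
      exact ⟨y, Set.mem_iUnion.2 ⟨⟨n⟩, hζy, hn⟩, hyC, hyo⟩
    obtain ⟨⟨n⟩, hn⟩ := stat_iUnion hcof (I := ULift.{u} ℕ) (by simpa using hcof) _ hst
    exact ⟨n, hn⟩
  by_contra hcon
  have h2 : ∀ n : ℕ, ∃ x < (ω_ 1 : Ordinal.{u}), ∀ y < (ω_ 1 : Ordinal.{u}),
      StatIn {ξ : Ordinal.{u} | y < ξ ∧ e ξ y = (n : Ordinal.{u})} (ω_ 1) → y ≤ x := by
    intro n
    by_contra h3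
    push Not at h3
    refine hcon ⟨n, Ordinal.natCast_lt_omega0 n, fun x hx => ?_⟩
    obtain ⟨y, hy1, hy2, hy3⟩ := h3 x hx
    exact ⟨y, hy2, hy3, hy1⟩
  choose b hb1 hb2 using h2
  have hs : (⨆ n : ULift.{u} ℕ, b n.down) < ω_ 1 :=
    Ordinal.iSup_lt_of_lt_cof (by simpa using hcof) fun n => hb1 n.down
  have hs' : Order.succ (⨆ n : ULift.{u} ℕ, b n.down) < ω_ 1 := hlim.succ_lt hs
  obtain ⟨n, hn⟩ := h1 _ hs'
  have h4 := hb2 n _ hs' hn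
  have h5 : b n ≤ ⨆ n : ULift.{u} ℕ, b n.down :=
    Ordinal.le_iSup (fun n : ULift.{u} ℕ => b n.down) ⟨n⟩
  exact absurd (h4.trans h5) (not_le.2 (Order.lt_succ _))

end Pool.Agent.Helper56.MW
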