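import Pool.Agent.Helper56.MW.Defs

open FirstOrder FirstOrder.Language Ordinal Cardinal Set Helper23.Pcf

universe u v

namespace Pool.Agent.Helper56.MW

theorem StatIn.congr_club {o : Ordinal.{u}} (ho : ℵ₀ < o.cof) {S S' C : Set Ordinal.{u}}
    (h : StatIn S o) (hC : ClubIn C o) (hS : ∀ x ∈ S, x ∈ C → x < o → x ∈ S') : StatIn S' o := by
  intro D hD
  obtain ⟨x, h1, h2, h3⟩ := h _ (club_inter ho hC hD)
  exact ⟨x, hS x h1 h2.1 h3, h2.2, h3⟩

theorem aleph0_lt_cof_omega1 : ℵ₀ < (ω_ 1 : Ordinal.{u}).cof := by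
  rw [← Cardinal.ord_aleph, Cardinal.isRegular_aleph_one.cof_ord]
  exact Cardinal.aleph0_lt_aleph_one

/-- (A1) A stationary set is split by an injective family of subsets of a small set.

Proof: suppose not.  For each `i : I` at least one of the two sets is not stationary, so there is a
club `C i` of `o` which misses (below `o`) one of `{x ∈ T | i ∈ e x}`, `{x ∈ T | i ∉ e x}`.
`C = ⋂ i, C i` is club (`club_iInter ho hI`), so `T ∩ C` is stationary (`StatIn.inter_club`); it is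
unbounded in `o` (`StatIn.unb`; `o` is a limit: `Ordinal.one_lt_cof_iff.1 (one_lt_aleph0.trans ho)`),
so it contains `x < y < o`.  For every `i`, `i ∈ e x ↔ i ∈ e y` because `x` and `y` both lie in
`T ∩ C i`.  Hence `e x = e y`, so `x = y` by `he`: contradiction. -/
theorem split_injective {o : Ordinal.{u}} (ho : ℵ₀ < o.cof) {T : Set Ordinal.{u}}
    (hT : StatIn T o) {I : Type u} (hI : #I < o.cof) (e : Ordinal.{u} → Set I)
    (he : ∀ x < o, ∀ y < o, e x = e y → x = y) :
    ∃ i, StatIn {x | x ∈ T ∧ i ∈ e x} o ∧ StatIn {x | x ∈ T ∧ i ∉ e x} o := by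
  classical
  by_contra hcon
  push Not at hcon
  have hC : ∀ i : I, ∃ C : Set Ordinal.{u}, ClubIn C o ∧
      ((∀ x ∈ C, x < o → x ∈ T → i ∉ e x) ∨ (∀ x ∈ C, x < o → x ∈ T → i ∈ e x)) := by
    intro i
    by_cases h : StatIn {x | x ∈ T ∧ i ∈ e x} o
    · have h2 := hcon i h
      unfold StatIn at h2
      push Not at h2
      obtain ⟨C, hC, hCx⟩ := h2
      refine ⟨C, hC, Or.inr fun x hx hxo hxT => ?_⟩
      by_contra hn
      exact absurd hxo (not_lt.2 (hCx x ⟨hxT, hn⟩ hx))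
    · unfold StatIn at h
      push Not at h
      obtain ⟨C, hC, hCx⟩ := h
      refine ⟨C, hC, Or.inl fun x hx hxo hxT hn => ?_⟩
      exact absurd hxo (not_lt.2 (hCx x ⟨hxT, hn⟩ hx))
  choose C hC1 hC2 using hC
  have hlim : Order.IsSuccLimit o := Ordinal.one_lt_cof_iff.1 (one_lt_aleph0.trans ho)
  have hstat := StatIn.inter_club ho hT (club_iInter ho hI C hC1)
  have hunb := StatIn.unb hlim hstat
  obtain ⟨x, hx, -, hxo⟩ := hunb 0 (pos_iff_ne_zero.2 hlim.ne_bot)
  obtain ⟨y, hy, hxy, hyo⟩ := hunb x hxo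
  have heq : e x = e y := by
    ext i
    have hxi : x ∈ C i := Set.mem_iInter.1 hx.2 i
    have hyi : y ∈ C i := Set.mem_iInter.1 hy.2 i
    rcases hC2 i with h | h
    · exact ⟨fun h' => absurd h' (h x hxi hxo hx.1), fun h' => absurd h' (h y hyi hyo hy.1)⟩
    · exact ⟨fun _ => h y hyi hyo hy.1, fun _ => h x hxi hxo hx.1⟩
  exact hxy.ne (he x hxo y hyo heq)

/-- (A3) If a union of fewer than `cof o` sets is stationary, one of them is.

Proof: otherwise choose a club `C i` missing `S i` below `o`; `⋂ i, C i` is a club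
(`club_iInter ho hI`) which misses the union. -/
theorem stat_iUnion {o : Ordinal.{u}} (ho : ℵ₀ < o.cof) {I : Type u} (hI : #I < o.cof)
    (S : I → Set Ordinal.{u}) (h : StatIn (⋃ i, S i) o) : ∃ i, StatIn (S i) o := by
  classical
  by_contra hcon
  push Not at hcon
  have hC : ∀ i : I, ∃ C : Set Ordinal.{u}, ClubIn C o ∧ ∀ x ∈ C, x < o → x ∉ S i := by
    intro i
    have h2 := hcon i
    unfold StatIn at h2
    push Not at h2
    obtain ⟨C, hC, hCx⟩ := h2
    exact ⟨C, hC, fun x hx hxo hn => absurd hxo (not_lt.2 (hCx x hn hx))⟩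
  choose C hC1 hC2 using hC
  obtain ⟨x, hx, hxC, hxo⟩ := h _ (club_iInter ho hI C hC1)
  obtain ⟨i, hi⟩ := Set.mem_iUnion.1 hx
  exact hC2 i x (Set.mem_iInter.1 hxC i) hxo hi

end Pool.Agent.Helper56.MW
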