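import Pool.Agent.Helper56.MW.A5

open FirstOrder FirstOrder.Language Ordinal Cardinal Set Helper23.Pcf

universe u v

namespace Pool.Agent.Helper56.MW

private theorem A6_cof : ℵ₀ < (ω_ 1 : Ordinal.{u}).cof := by
  rw [← Cardinal.ord_aleph, Cardinal.isRegular_aleph_one.cof_ord]
  exact Cardinal.aleph0_lt_aleph_one

private theorem A6_card (x : Ordinal.{u}) (hx : x < ω_ 1) : x.card < (ω_ 1 : Ordinal.{u}).cof := by
  rw [← Cardinal.ord_aleph] at hx ⊢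
  rw [Cardinal.isRegular_aleph_one.cof_ord]
  exact Cardinal.lt_ord.1 hx

private theorem A6_seg (a : Ordinal.{u}) (ha : a < ω_ 1) :
    ClubIn {δ : Ordinal.{u} | a < δ} (ω_ 1) := by
  have hlim : Order.IsSuccLimit (ω_ 1 : Ordinal.{u}) :=
    Ordinal.one_lt_cof_iff.1 (one_lt_aleph0.trans A6_cof)
  refine ⟨fun x hx => ⟨Order.succ (max a x), ?_, ?_, hlim.succ_lt (max_lt ha hx)⟩, ?_⟩
  · exact lt_of_le_of_lt (le_max_left a x) (Order.lt_succ (max a x))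
  · exact lt_of_le_of_lt (le_max_right a x) (Order.lt_succ (max a x))
  · intro δ _ hδ0 hu
    obtain ⟨y, hy, _, hy2⟩ := hu 0 hδ0
    exact lt_trans hy hy2

private theorem A6_le {η δ : Ordinal.{u}} {f g : Ordinal.{u} → Ordinal.{u}}
    (hf : Nrm (ω_ 1) η f) (hg : Nrm (ω_ 1) η g) (hδ : δ < ω_ 1) (hlim : Order.IsSuccLimit δ)
    (a : Ordinal.{u} → Ordinal.{u}) (ha : ∀ ξ < ω_ 1, a ξ < ω_ 1 ∧ f ξ < g (a ξ))
    (hc : ∀ ξ < δ, a ξ < δ) : f δ ≤ g δ := by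
  by_contra hcon
  rw [not_le] at hcon
  obtain ⟨ξ, hξ, hξ2⟩ := hf.cont δ hδ hlim (g δ) hcon
  have h1 := (ha ξ (hξ.trans hδ)).2
  have h2 := hg.mono δ hδ (a ξ) (hc ξ hξ)
  exact lt_irrefl _ ((hξ2.trans h1).trans h2)

/-- (A6) Two continuous increasing cofinal maps `ω₁ → η` agree on a club.

Proof: for `ξ < ω₁` there are `a ξ, b ξ < ω₁` with `f ξ < g (a ξ)` and `g ξ < f (b ξ)`
(`Nrm.cofinal`, `Nrm.bdd`).  The limit ordinals `δ < ω₁` closed under `a` and `b`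
form a club (`club_closure` or a direct argument; `club_limits`, `club_inter`).  For such `δ`,
`f δ ≤ g δ`: if `ν < f δ` then by continuity `ν < f ξ` for some `ξ < δ`, so
`ν < g (a ξ) < g δ`.  Symmetrically `g δ ≤ f δ`. -/
theorem nrm_agree {η : Ordinal.{u}} {f g : Ordinal.{u} → Ordinal.{u}} (hf : Nrm (ω_ 1) η f)
    (hg : Nrm (ω_ 1) η g) : ∃ C, ClubIn C (ω_ 1) ∧ ∀ ξ ∈ C, ξ < ω_ 1 → f ξ = g ξ := by
  have ha : ∀ ξ, ∃ a, ξ < ω_ 1 → a < ω_ 1 ∧ f ξ < g a := by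
    intro ξ
    by_cases hξ : ξ < ω_ 1
    · obtain ⟨a, h1, h2⟩ := hg.cofinal (f ξ) (hf.bdd ξ hξ)
      exact ⟨a, fun _ => ⟨h1, h2⟩⟩
    · exact ⟨0, fun h => absurd h hξ⟩
  have hb : ∀ ξ, ∃ a, ξ < ω_ 1 → a < ω_ 1 ∧ g ξ < f a := by
    intro ξ
    by_cases hξ : ξ < ω_ 1
    · obtain ⟨a, h1, h2⟩ := hf.cofinal (g ξ) (hg.bdd ξ hξ)
      exact ⟨a, fun _ => ⟨h1, h2⟩⟩
    · exact ⟨0, fun h => absurd h hξ⟩
  choose a ha using ha
  choose b hb using hb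
  have hA := club_diag A6_cof A6_card (fun ξ => {δ : Ordinal.{u} | a ξ < δ})
    (fun ξ hξ => A6_seg (a ξ) (ha ξ hξ).1)
  have hB := club_diag A6_cof A6_card (fun ξ => {δ : Ordinal.{u} | b ξ < δ})
    (fun ξ hξ => A6_seg (b ξ) (hb ξ hξ).1)
  refine ⟨_, club_inter A6_cof (club_inter A6_cof hA hB) (club_limits A6_cof), ?_⟩
  rintro δ ⟨⟨h1, h2⟩, h3⟩ hδ
  exact le_antisymm (A6_le hf hg hδ h3 a ha h1) (A6_le hg hf hδ h3 b hb h2)

end Pool.Agent.Helper56.MW
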