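import Pool.Agent.Helper56.MW.Defs

open FirstOrder FirstOrder.Language Ordinal Cardinal Set Helper23.Pcf

universe u v

namespace Pool.Agent.Helper56.MW

/-- Every subset of `ω₁` is, up to a club, the trace of `S` on some ordinal. -/
def Univ (S : Set Ordinal.{u}) : Prop :=
  ∀ A : Set Ordinal.{u}, ∃ (η : Ordinal.{u}) (f : Ordinal.{u} → Ordinal.{u}), Nrm (ω_ 1) η f ∧
    ∀ ξ < ω_ 1, Order.IsSuccLimit ξ → (f ξ ∈ S ↔ ξ ∈ A)

/-- The trace of `S` on `η` is stationary. -/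
def Ok (S : Set Ordinal.{u}) (η : Ordinal.{u}) : Prop :=
  ∃ f, Nrm (ω_ 1) η f ∧ StatIn {ξ | f ξ ∈ S} (ω_ 1)

end Pool.Agent.Helper56.MW
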