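import Pool.Agent.Helper56.MW.EnumDefs
import Pool.Agent.Helper56.MW.CodDefs

open FirstOrder FirstOrder.Language Ordinal Cardinal Set Helper23.Pcf

universe u v

namespace Pool.Agent.Helper56.MW

/-- `z` is a pair of ordinals below `θ`. -/
def PD (θ : Ordinal.{u}) (z : ZFSet.{u}) : Prop :=
  ∃ ξ < θ, ∃ ζ < θ, z = ZFSet.pair ξ.toZFSet ζ.toZFSet

/-- Pairs of ordinals are ordered by their maximum, then lexicographically. -/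
def PLt (ξ ζ ξ' ζ' : Ordinal.{u}) : Prop :=
  max ξ ζ < max ξ' ζ' ∨ (max ξ ζ = max ξ' ζ' ∧ (ξ < ξ' ∨ (ξ = ξ' ∧ ζ < ζ')))

/-- The same order for pairs as sets. -/
def PM (z z' : ZFSet.{u}) : Prop :=
  ∃ ξ ζ ξ' ζ' : Ordinal.{u}, z = ZFSet.pair ξ.toZFSet ζ.toZFSet ∧
    z' = ZFSet.pair ξ'.toZFSet ζ'.toZFSet ∧ PLt ξ ζ ξ' ζ'

/-- `γ` is the code of the pair `ξ, ζ` of ordinals below `θ`. -/
def Pr (θ ξ ζ γ : Ordinal.{u}) : Prop :=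
  Rk (PD θ) PM (ZFSet.pair ξ.toZFSet ζ.toZFSet) γ

/-- The real `r` codes the injection `f` of the ordinal `ξ` into `ω`. -/
def Cd (r : ZFSet.{u}) (ξ : Ordinal.{u}) (f : Ordinal.{u} → Ordinal.{u}) : Prop :=
  (∀ ζ < ξ, f ζ < ω) ∧ (∀ ζ < ξ, ∀ ζ' < ξ, f ζ = f ζ' → ζ = ζ') ∧
    ∀ k < ω, (k.toZFSet ∈ r ↔ ∃ ζ < ξ, ∃ ζ' < ξ, ζ ≤ ζ' ∧ Pr ω (f ζ) (f ζ') k)

/-- `n` is the value at `ζ` of the injection of `ξ` into `ω` coded by the `W`-least real which codes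
such an injection. -/
def Ul (W : ZFSet.{u} → ZFSet.{u} → Prop) (ξ ζ n : Ordinal.{u}) : Prop :=
  ∃ r : ZFSet.{u}, r ⊆ (ω : Ordinal.{u}).toZFSet ∧
    (∀ r' : ZFSet.{u}, r' ⊆ (ω : Ordinal.{u}).toZFSet → W r' r → ¬ ∃ f, Cd r' ξ f) ∧
    ∃ f, ζ < ξ ∧ Cd r ξ f ∧ f ζ = n

/-- The trace of `S` on `η` meets `T` in a stationary set. -/
def MeetB (S : Set Ordinal.{u}) (w η : Ordinal.{u}) (T : Set Ordinal.{u}) : Prop :=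
  ∃ f, Nrm w η f ∧ StatIn {ξ | f ξ ∈ S ∧ ξ ∈ T} w

/-- `ζ` is the `γ`-th element of the set `{ζ < θ | ζ ∈ Z}`. -/
def En (θ : Ordinal.{u}) (Z : Set Ordinal.{u}) (ζ γ : Ordinal.{u}) : Prop :=
  Rk (fun x => ∃ ζ < θ, x = ζ.toZFSet ∧ ζ ∈ Z) (fun x y => x ∈ y) ζ.toZFSet γ

end Pool.Agent.Helper56.MW
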