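import Pool.Agent.Helper56.MW.CodDefs
import Pool.Agent.Helper56.MW.LDefs
import Pool.Agent.Helper56.MW.A1
import Pool.Agent.Helper56.MW.A6
import Pool.Agent.Helper56.MW.E1
import Pool.Agent.Helper56.MW.E7
import Pool.Agent.Helper56.MW.E8
import Pool.Agent.Helper56.MW.F1
import Pool.Agent.Helper56.MW.F5

open FirstOrder FirstOrder.Language Ordinal Cardinal Set Helper23.Pcf

universe u v

namespace Pool.Agent.Helper56.MW

/-- (LH1) Subfamilies of a disjoint family of stationary sets are coded.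

Proof: `H` applied to `A* = {ξ | ∃ ζ ∈ A, ξ ∈ B ζ}` gives `η, f` with `f ξ ∈ S ↔ ξ ∈ A*` for limit
`ξ < ω₁`.  If `ζ ∈ A` then `{ξ | f ξ ∈ S ∧ ξ ∈ B ζ}` contains the limit points in `B ζ`
(`StatIn.congr_club`, `club_limits`).  If `ζ ∉ A` and `Nrm (ω_ 1) η f'`, then `f' = f` on a club
(`nrm_agree`), and on the limit points of it `f' ξ ∈ S ∧ ξ ∈ B ζ` gives `ξ ∈ B ζ' ∩ B ζ` for
some `ζ' ∈ A`, `ζ' ≠ ζ`: impossible. -/
theorem code_sub {S : Set Ordinal.{u}} (H : Univ S) (B : Ordinal.{u} → Set Ordinal.{u})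
    (hB : ∀ ζ ζ', ζ ≠ ζ' → ∀ ξ < ω_ 1, ξ ∈ B ζ → ξ ∉ B ζ') (A : Set Ordinal.{u})
    (hA : ∀ ζ ∈ A, StatIn (B ζ) (ω_ 1)) :
    ∃ η, ∀ ζ, ζ ∈ A ↔ MeetB S (ω_ 1) η (B ζ) := by
  obtain ⟨η, f, hf, hfA⟩ := H {ξ | ∃ ζ ∈ A, ξ ∈ B ζ}
  refine ⟨η, fun ζ => ⟨fun hζ => ?_, ?_⟩⟩
  · refine ⟨f, hf, StatIn.congr_club aleph0_lt_cof_omega1 (hA ζ hζ)
      (club_limits aleph0_lt_cof_omega1) fun x hx hxC hxo => ⟨?_, hx⟩⟩
    exact (hfA x hxo hxC).2 ⟨ζ, hζ, hx⟩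
  · rintro ⟨f', hf', hst⟩
    by_contra hζ
    obtain ⟨C, hC, hfC⟩ := nrm_agree hf' hf
    obtain ⟨x, ⟨hx1, hx2⟩, hxC, hxo⟩ := hst _ (club_inter aleph0_lt_cof_omega1 hC
      (club_limits aleph0_lt_cof_omega1))
    rw [hfC x hxC.1 hxo] at hx1
    obtain ⟨ζ', hζ', hx'⟩ := (hfA x hxo hxC.2).1 hx1
    exact hB ζ' ζ (fun h => hζ (h ▸ hζ')) x hxo hx' hx2

/-- (LH2) Proof: as for `Meet` (`meet_iff`): `MeetB` is equivalent to the same statement with coded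
functions `val g` (`exists_val`, `nrm_congr`, `statIn_congr`); then `exS`, `nrm`, `statIn`, `valMem`. -/
theorem Df.meetB {κ α β : Type} {S : (κ → Ordinal.{u}) → Set Ordinal.{u}}
    (hS : Df (α := Option κ) (β := Empty) (fun a _ => a none ∈ S (fun i => a (some i))))
    (ι : κ → α) (w η : α) {T : Ordinal.{u} → (α → Ordinal.{u}) → (β → ZFSet.{u}) → Prop}
    (hT : Df (α := Option α) (fun a s => T (a none) (fun i => a (some i)) s)) :
    Df (fun (a : α → Ordinal.{u}) (s : β → ZFSet.{u}) =>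
      MeetB (S (fun i => a (ι i))) (a w) (a η) {ξ | T ξ a s}) := by
  have h1 : Df (α := α) (β := β) (fun a s => ∃ g : ZFSet.{u}, Nrm (a w) (a η) (val g) ∧
      StatIn {ξ | val g ξ ∈ S (fun i => a (ι i)) ∧ T ξ a s} (a w)) := by
    refine exS (P := fun g a s => Nrm (a w) (a η) (val g) ∧
      StatIn {ξ | val g ξ ∈ S (fun i => a (ι i)) ∧ T ξ a s} (a w)) ?_
    refine (nrm w η none).and (statIn (P := fun ξ a s => val (s none) ξ ∈ S (fun i => a (ι i)) ∧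
      T ξ a (fun j => s (some j))) w ?_)
    exact (valMem hS (fun i => some (ι i)) none none).and
      (relabel (α := Option α) (β := Option β) id some hT)
  refine h1.congr fun a s => ⟨?_, ?_⟩
  · rintro ⟨g, h2, h3⟩
    exact ⟨val g, h2, h3⟩
  · rintro ⟨f, h2, h3⟩
    obtain ⟨g, hg⟩ := exists_val f (a w)
    refine ⟨g, (nrm_congr hg).2 h2, (statIn_congr fun ξ hξ => ?_).2 h3⟩
    simp only [mem_ofPred_eq, hg ξ hξ]

end Pool.Agent.Helper56.MW
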