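import Pool.Agent.Helper56.MW.LDefs
import Pool.Agent.Helper56.MW.H1
import Pool.Agent.Helper56.MW.H3
import Pool.Agent.Helper56.MW.A1

open FirstOrder FirstOrder.Language Ordinal Cardinal Set Helper23.Pcf

universe u v

namespace Pool.Agent.Helper56.MW

/-- (LI) The increasing enumeration of an unbounded subset of `ω₁`.

Proof: `D x := ∃ ζ < ω₁, x = ζ.toZFSet ∧ ζ ∈ Z` is well-ordered by `∈` (pull back along `rank`:
`toZFSet_mem_toZFSet_iff`) and small.  It has `lift (ℵ_ 1)` elements: otherwise `Z ∩ ω₁` would be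
countable, hence bounded in `ω₁` (`Ordinal.iSup_lt_of_lt_cof` and `aleph0_lt_cof_omega1`).  So
`exists_rk` with `κ = ℵ_ 1` (`Cardinal.ord_aleph`) gives for `γ < ω₁` an element with rank `γ`, i.e.
some `z γ`; uniqueness from `Rk.inj` (`toZFSet_injective`), injectivity from `Rk.unique`. -/
theorem exists_enum {Z : Set Ordinal.{u}} (hZ : UnbIn Z (ω_ 1)) :
    ∃ z : Ordinal.{u} → Ordinal.{u}, (∀ γ < ω_ 1, z γ < ω_ 1 ∧ z γ ∈ Z) ∧
      (∀ γ < ω_ 1, ∀ ζ, En (ω_ 1) Z ζ γ ↔ ζ = z γ) ∧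
      ∀ γ < ω_ 1, ∀ γ' < ω_ 1, z γ = z γ' → γ = γ' := by
  classical
  let D : ZFSet.{u} → Prop := fun x => ∃ ζ < ω_ 1, x = ζ.toZFSet ∧ ζ ∈ Z
  let W : ZFSet.{u} → ZFSet.{u} → Prop := fun x y => x ∈ y
  have hDr : ∀ x : {x : ZFSet.{u} // D x}, x.1 = x.1.rank.toZFSet ∧ x.1.rank < ω_ 1 ∧
      x.1.rank ∈ Z := by
    rintro ⟨x, ζ, h1, rfl, h2⟩
    rw [rank_toZFSet]
    exact ⟨rfl, h1, h2⟩
  have hwo : IsWellOrder {x : ZFSet.{u} // D x} (fun x y => W x y) := by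
    let emb : (fun x y : {x : ZFSet.{u} // D x} => W x y) ↪r
        ((· < ·) : Ordinal.{u} → Ordinal.{u} → Prop) :=
      ⟨⟨fun x => x.1.rank, fun x y hxy => by
        apply Subtype.ext
        rw [(hDr x).1, (hDr y).1]
        exact congrArg Ordinal.toZFSet hxy⟩, fun {x y} => by
          change x.1.rank < y.1.rank ↔ x.1 ∈ y.1
          rw [← toZFSet_mem_toZFSet_iff, ← (hDr x).1, ← (hDr y).1]⟩
    exact emb.isWellOrder
  have hsmall : Small.{u} {x : ZFSet.{u} // D x} := by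
    refine small_of_injective (β := {x : ZFSet.{u} // x ∈ (ω_ 1 : Ordinal.{u}).toZFSet})
      (f := fun x => ⟨x.1, ?_⟩) ?_
    · rw [(hDr x).1, toZFSet_mem_toZFSet_iff]
      exact (hDr x).2.1
    · intro x y hxy
      exact Subtype.ext (congrArg (fun z : {x : ZFSet.{u} // x ∈ (ω_ 1 : Ordinal.{u}).toZFSet} =>
        z.1) hxy)
  have hcard : Cardinal.lift.{u + 1} (ℵ_ 1 : Cardinal.{u}) ≤ #{x : ZFSet.{u} // D x} := by
    by_contra hcon
    rw [not_le, ← Cardinal.lift_mk_shrink''.{u + 1, u}, Cardinal.lift_lt] at hcon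
    have hcof : (ω_ 1 : Ordinal.{u}).cof = ℵ_ 1 := by
      rw [← Cardinal.ord_aleph, Cardinal.isRegular_aleph_one.cof_ord]
    have hlt : ⨆ t : Shrink.{u} {x : ZFSet.{u} // D x},
        (((equivShrink.{u} {x : ZFSet.{u} // D x}).symm t).1).rank < ω_ 1 := by
      refine Ordinal.iSup_lt_of_lt_cof ?_ (fun t => (hDr _).2.1)
      rw [hcof]
      exact hcon
    obtain ⟨y, hyZ, hy1, hy2⟩ := hZ _ hlt
    have hDy : D y.toZFSet := ⟨y, hy2, rfl, hyZ⟩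
    have hle := Ordinal.le_iSup (fun t : Shrink.{u} {x : ZFSet.{u} // D x} =>
      (((equivShrink.{u} {x : ZFSet.{u} // D x}).symm t).1).rank)
      (equivShrink.{u} {x : ZFSet.{u} // D x} ⟨y.toZFSet, hDy⟩)
    rw [Equiv.symm_apply_apply] at hle
    change y.toZFSet.rank ≤ _ at hle
    rw [rank_toZFSet] at hle
    exact absurd hy1 (not_lt.2 hle)
  obtain ⟨-, hrk⟩ := exists_rk (D := D) (W := W) hwo
  have hex : ∀ γ : Ordinal.{u}, ∃ ζ : Ordinal.{u}, γ < ω_ 1 → (ζ < ω_ 1 ∧ ζ ∈ Z ∧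
      En (ω_ 1) Z ζ γ) := by
    intro γ
    by_cases hγ : γ < ω_ 1
    · obtain ⟨x, ⟨ζ, h1, rfl, h2⟩, h3⟩ := hrk (ℵ_ 1) hcard γ (by
        rwa [Cardinal.ord_aleph])
      exact ⟨ζ, fun _ => ⟨h1, h2, h3⟩⟩
    · exact ⟨0, fun h => absurd h hγ⟩
  choose z hz using hex
  refine ⟨z, fun γ hγ => ⟨(hz γ hγ).1, (hz γ hγ).2.1⟩, fun γ hγ ζ => ⟨fun h => ?_, ?_⟩, ?_⟩
  · exact toZFSet_injective (Rk.inj hwo h (hz γ hγ).2.2)
  · rintro rfl
    exact (hz γ hγ).2.2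
  · intro γ hγ γ' hγ' h
    have h1 := (hz γ hγ).2.2
    rw [h] at h1
    exact Rk.unique hwo h1 (hz γ' hγ').2.2

end Pool.Agent.Helper56.MW
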