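import Pool.Agent.Helper56.MW.LC
import Pool.Agent.Helper56.MW.LE
import Pool.Agent.Helper56.MW.LF
import Pool.Agent.Helper56.MW.LG
import Pool.Agent.Helper56.MW.LH
import Pool.Agent.Helper56.MW.LI
import Pool.Agent.Helper56.MW.G3
import Pool.Agent.Helper56.MW.J3
import Pool.Agent.Helper56.MW.C5
import Pool.Agent.Helper56.MW.K

open FirstOrder FirstOrder.Language Ordinal Cardinal Set Helper23.Pcf

universe u v

namespace Pool.Agent.Helper56.MW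

theorem LM_regular : (ℵ_ 2 : Cardinal.{u}).IsRegular := by
  have := Cardinal.isRegular_aleph_add_one (1 : Ordinal.{u})
  rwa [one_add_one_eq_two] at this

theorem LM_dfW (φ : LSet.Formula (Fin 2)) :
    Df.{u} (α := Empty) (β := Fin 2) (fun _ s => φ.Realize ![s 0, s 1]) := by
  refine ⟨φ.relabel Sum.inr, fun a s => ?_⟩
  rw [Formula.realize_relabel]
  refine iff_of_eq (congrArg φ.Realize ?_)
  funext j
  fin_cases j <;> rfl

/-- (LM) Under Martin's Maximum a definable well-order of the reals makes all subsets of `ω₁`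
ordinal definable. -/
theorem ordDef_omega1_of_hasDefWO (hM : MM.{u}) (h : HasDefWO.{u}) {x : ZFSet.{u}}
    (hx : x ⊆ (ω_ 1 : Ordinal.{u}).toZFSet) : OrdDef ∅ x := by
  classical
  obtain ⟨s, hs, hsp⟩ := splits_of_hasDefWO hM h
  have HU : Univ {ν : Ordinal.{u} | ν.toZFSet ∈ s} := fun A =>
    hM.code LM_regular (Cardinal.aleph_lt_aleph.2 (by norm_num))
      (S := {ν : Ordinal.{u} | ν.toZFSet ∈ s}) hsp.1 hsp.2 A
  obtain ⟨φ, hφ⟩ := h
  set W : ZFSet.{u} → ZFSet.{u} → Prop := fun x y => φ.Realize ![x, y] with hW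
  obtain ⟨n, Q, b, hQ, hb⟩ := hs.exists_df
  let S : (Fin n → Ordinal.{u}) → Set Ordinal.{u} :=
    fun a => {ν | ∃ y, Q a (fun _ => y) ∧ ν.toZFSet ∈ y}
  have hSb : S b = {ν : Ordinal.{u} | ν.toZFSet ∈ s} := by
    ext ν
    constructor
    · rintro ⟨y, hy, hν⟩
      rw [hb] at hy
      rw [← hy]
      exact hν
    · intro hν
      exact ⟨s, (hb s).2 rfl, hν⟩
  have hS : Df (α := Option (Fin n)) (β := Empty)
      (fun a _ => a none ∈ S (fun i => a (some i))) := by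
    refine Df.exS (P := fun y (a : Option (Fin n) → Ordinal.{u}) (_ : Empty → ZFSet.{u}) =>
      Q (fun i => a (some i)) (fun _ => y) ∧ (a none).toZFSet ∈ y) ?_
    exact (Df.relabel (β := Option Empty) some (fun _ => none) hQ).and (Df.memO none none)
  rw [← hSb] at HU
  obtain ⟨e, he⟩ := exists_ul (W := W) hφ
  obtain ⟨m, hm, hZ⟩ := ulam e (fun ξ hξ => (he ξ hξ).1)
  set B : Ordinal.{u} → Set Ordinal.{u} := fun ζ => {ξ | Ul W ξ ζ m} with hB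
  have hBe : ∀ ζ, StatIn (B ζ) (ω_ 1) ↔ StatIn {ξ | ζ < ξ ∧ e ξ ζ = m} (ω_ 1) := by
    intro ζ
    refine statIn_congr fun ξ hξ => ?_
    change Ul W ξ ζ m ↔ ζ < ξ ∧ e ξ ζ = m
    rw [(he ξ hξ).2.1 ζ m]
    exact and_congr_right fun _ => eq_comm
  set Z : Set Ordinal.{u} := {ζ | StatIn (B ζ) (ω_ 1)} with hZd
  have hZ' : UnbIn Z (ω_ 1) := by
    intro x hx
    obtain ⟨y, h1, h2⟩ := hZ x hx
    exact ⟨y, (hBe y).2 h1, h2⟩
  obtain ⟨z, hz1, hz2, hz3⟩ := exists_enum hZ'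
  obtain ⟨η, hη⟩ := code_sub HU B (by
      intro ζ ζ' hne ξ hξ h1 h2
      have h3 := ((he ξ hξ).2.1 ζ m).1 h1
      have h4 := ((he ξ hξ).2.1 ζ' m).1 h2
      exact hne ((he ξ hξ).2.2 ζ h3.1 ζ' h4.1 (h3.2.symm.trans h4.2)))
    {ζ | ∃ γ < ω_ 1, γ.toZFSet ∈ x ∧ ζ = z γ} (by
      rintro ζ ⟨γ, hγ, -, rfl⟩
      exact (hz1 γ hγ).2)
  have key : ∀ γ < ω_ 1, γ.toZFSet ∈ x ↔
      ∃ ζ, En (ω_ 1) Z ζ γ ∧ MeetB (S b) (ω_ 1) η (B ζ) := by
    intro γ hγ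
    constructor
    · intro h
      exact ⟨z γ, (hz2 γ hγ _).2 rfl, (hη _).1 ⟨γ, hγ, h, rfl⟩⟩
    · rintro ⟨ζ, h1, h2⟩
      obtain rfl := (hz2 γ hγ ζ).1 h1
      obtain ⟨γ', hγ', h3, h4⟩ := (hη _).2 h2
      rwa [hz3 γ hγ γ' hγ' h4]
  -- definability
  have hul : ∀ {α β : Type} (ξ ζ n : α), Df.{u} (fun (a : α → Ordinal.{u}) (_ : β → ZFSet.{u}) =>
      Ul W (a ξ) (a ζ) (a n)) := fun ξ ζ n => Df.ul (LM_dfW φ) ξ ζ n
  have hZdf : Df (α := Option (Fin 2)) (β := Empty) (fun a _ => a none ∈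
      (fun c : Fin 2 → Ordinal.{u} => {ζ | StatIn {ξ | Ul W ξ ζ (c 0)} (c 1)})
        (fun i => a (some i))) :=
    Df.statIn (P := fun ξ (a : Option (Fin 2) → Ordinal.{u}) _ => Ul W ξ (a none) (a (some 0)))
      (some 1) (hul none (some none) (some (some 0)))
  have hP : Df (α := Option (Fin 3 ⊕ Fin n)) (β := Empty) (fun a _ =>
      ∃ ζ, En (a (some (Sum.inl 0)))
        {ζ | StatIn {ξ | Ul W ξ ζ (a (some (Sum.inl 1)))} (a (some (Sum.inl 0)))} ζ (a none) ∧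
        MeetB (S (fun i => a (some (Sum.inr i)))) (a (some (Sum.inl 0))) (a (some (Sum.inl 2)))
          {ξ | Ul W ξ ζ (a (some (Sum.inl 1)))}) := by
    refine Df.exO (P := fun ζ (a : Option (Fin 3 ⊕ Fin n) → Ordinal.{u}) _ =>
      En (a (some (Sum.inl 0)))
        {ζ | StatIn {ξ | Ul W ξ ζ (a (some (Sum.inl 1)))} (a (some (Sum.inl 0)))} ζ (a none) ∧
        MeetB (S (fun i => a (some (Sum.inr i)))) (a (some (Sum.inl 0))) (a (some (Sum.inl 2)))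
          {ξ | Ul W ξ ζ (a (some (Sum.inl 1)))}) ?_
    refine Df.and ?_ ?_
    · exact Df.en (κ := Fin 2) (α := Option (Option (Fin 3 ⊕ Fin n)))
        (Z := fun c : Fin 2 → Ordinal.{u} => {ζ | StatIn {ξ | Ul W ξ ζ (c 0)} (c 1)}) hZdf
        ![some (some (Sum.inl 1)), some (some (Sum.inl 0))] (some (some (Sum.inl 0))) none
        (some none)
    · exact Df.meetB (T := fun ξ (a : Option (Option (Fin 3 ⊕ Fin n)) → Ordinal.{u}) _ =>
        Ul W ξ (a none) (a (some (some (Sum.inl 1))))) hS (fun i => some (some (Sum.inr i)))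
        (some (some (Sum.inl 0))) (some (some (Sum.inl 2)))
        (hul none (some none) (some (some (some (Sum.inl 1)))))
  obtain ⟨x', h1, h2⟩ := exists_ordDef (α := Fin 3 ⊕ Fin n) (P := fun γ a =>
      ∃ ζ, En (a (Sum.inl 0))
        {ζ | StatIn {ξ | Ul W ξ ζ (a (Sum.inl 1))} (a (Sum.inl 0))} ζ γ ∧
        MeetB (S (fun i => a (Sum.inr i))) (a (Sum.inl 0)) (a (Sum.inl 2))
          {ξ | Ul W ξ ζ (a (Sum.inl 1))}) hP (Sum.elim ![ω_ 1, m, η] b) (ω_ 1)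
  refine OrdDef.comp h1 (α := Unit) (P := fun a t => t 1 ⊆ (a ()).toZFSet ∧
    ∀ γ, γ < a () → (γ.toZFSet ∈ t 1 ↔ γ.toZFSet ∈ t 0)) ?_ (fun _ => ω_ 1) fun y => ?_
  · exact (Df.subSO 1 ()).and (Df.allO (P := fun γ (a : Unit → Ordinal.{u})
      (t : Fin 2 → ZFSet.{u}) => γ < a () → (γ.toZFSet ∈ t 1 ↔ γ.toZFSet ∈ t 0))
      ((Df.ltO none (some ())).imp ((Df.memO none 1).iff (Df.memO none 0))))
  · have h3 : ∀ γ < ω_ 1, γ.toZFSet ∈ x' ↔ γ.toZFSet ∈ x := by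
      intro γ hγ
      rw [h2 γ, key γ hγ]
      exact ⟨fun h => h.2, fun h => ⟨hγ, h⟩⟩
    change (y ⊆ (ω_ 1 : Ordinal.{u}).toZFSet ∧ ∀ γ, γ < ω_ 1 →
      (γ.toZFSet ∈ y ↔ γ.toZFSet ∈ x')) ↔ y = x
    constructor
    · rintro ⟨h4, h5⟩
      ext t
      constructor
      · intro ht
        obtain ⟨γ, hγ, rfl⟩ := mem_toZFSet_iff.1 (h4 ht)
        exact (h3 γ hγ).1 ((h5 γ hγ).1 ht)
      · intro ht
        obtain ⟨γ, hγ, rfl⟩ := mem_toZFSet_iff.1 (hx ht)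
        exact (h5 γ hγ).2 ((h3 γ hγ).2 ht)
    · rintro rfl
      exact ⟨hx, fun γ hγ => (h3 γ hγ).symm⟩

end Pool.Agent.Helper56.MW
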