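import Pool.Agent.Helper56.MW.P3
import Pool.Agent.Helper56.MW.A1
import Pool.Agent.Helper56.MW.A4

open FirstOrder FirstOrder.Language Ordinal Cardinal Set Helper23.Pcf

universe u v

namespace Pool.Agent.Helper56.MW

/-- Removing a parameter which is an element of an ordinal definable set `Z`, for regular cardinals
above `2 ^ #Z`. -/
theorem remove_param_mem {Z A s : ZFSet.{u}} (hZ : OrdDef ∅ Z) (hAZ : A ∈ Z) (h : OrdDef A s)
    {κ : Cardinal.{u}} (hκ : κ.IsRegular) (h1 : ℵ_ 1 < κ)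
    (h2 : 2 ^ #{B : ZFSet.{u} // B ∈ Z} < Cardinal.lift.{u + 1} κ)
    (hs : Splits κ s) : ∃ s', OrdDef ∅ s' ∧ Splits κ s' := by
  classical
  obtain ⟨n, φ, a, hφ⟩ := h
  have hQ : ∀ ν : Ordinal.{u}, PQ φ a A ν ↔ ν.toZFSet ∈ s := by
    intro ν
    constructor
    · rintro ⟨y, hy, hν⟩
      rwa [(hφ y).1 hy] at hν
    · intro hν
      exact ⟨s, (hφ s).2 rfl, hν⟩
  have hκ0 : ℵ₀ < κ := lt_trans Cardinal.aleph0_lt_aleph_one h1
  have hcof : κ.ord.cof = κ := hκ.cof_ord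
  have hcof0 : ℵ₀ < κ.ord.cof := by rw [hcof]; exact hκ0
  -- a small copy of the power set
  obtain ⟨c, hc⟩ := Cardinal.mem_range_lift_of_le h2.le
  have hcκ : c < κ := by
    rw [← hc] at h2
    exact Cardinal.lift_lt.1 h2
  have hce : Cardinal.lift.{u + 1} #(c.out) =
      Cardinal.lift.{u} #(Set {B : ZFSet.{u} // B ∈ Z}) := by
    rw [Cardinal.mk_out, Cardinal.mk_set, hc]
    exact (Cardinal.lift_id'.{u, u + 1} _).symm
  obtain ⟨e⟩ := Cardinal.lift_mk_eq'.1 hce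
  obtain ⟨i, hi⟩ := stat_iUnion hcof0 (I := c.out) (by rw [Cardinal.mk_out, hcof]; exact hcκ)
    (fun i => {γ : Ordinal.{u} | γ.cof = ℵ₀ ∧
      {B : {B : ZFSet.{u} // B ∈ Z} | PQ φ a B.1 γ} = e i})
    ((stat_cof hκ hκ0).mono fun γ hγ => Set.mem_iUnion.2
      ⟨e.symm {B : {B : ZFSet.{u} // B ∈ Z} | PQ φ a B.1 γ}, hγ, by
        rw [Equiv.apply_symm_apply]⟩)
  have hlim : Order.IsSuccLimit κ.ord := Ordinal.one_lt_cof_iff.1 (one_lt_aleph0.trans hcof0)
  obtain ⟨ε, hε, -, hεκ⟩ := hi.unb hlim 0 (pos_iff_ne_zero.2 hlim.ne_bot)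
  -- the definable set
  have hmem : ∀ ν : Ordinal.{u}, ν.toZFSet ∈ ZFSet.sep (fun x => ∀ B ∈ Z,
      (PQ φ a B x.rank ↔ PQ φ a B ε)) κ.ord.toZFSet ↔
      ν < κ.ord ∧ ∀ B ∈ Z, (PQ φ a B ν ↔ PQ φ a B ε) := by
    intro ν
    rw [ZFSet.mem_sep, toZFSet_mem_toZFSet_iff, rank_toZFSet]
  have hs' : OrdDef ∅ (ZFSet.sep (fun x => ∀ B ∈ Z,
      (PQ φ a B x.rank ↔ PQ φ a B ε)) κ.ord.toZFSet) := by
    refine hZ.comp (α := Option (Option (Fin n))) (P := fun c t => t 1 ⊆ (c none).toZFSet ∧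
      ∀ ν, ν < c none → (ν.toZFSet ∈ t 1 ↔ ∀ B, B ∈ t 0 →
        (PQ φ (fun l => c (some (some l))) B ν ↔
          PQ φ (fun l => c (some (some l))) B (c (some none))))) ?_
      (fun o => match o with
        | none => κ.ord
        | some none => ε
        | some (some l) => a l) fun y => ?_
    · refine (Df.subSO 1 none).and (Df.allO (P := fun ν
        (c : Option (Option (Fin n)) → Ordinal.{u}) (t : Fin 2 → ZFSet.{u}) => ν < c none →
        (ν.toZFSet ∈ t 1 ↔ ∀ B, B ∈ t 0 → (PQ φ (fun l => c (some (some l))) B ν ↔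
          PQ φ (fun l => c (some (some l))) B (c (some none))))) ?_)
      refine (Df.ltO none (some none)).imp ((Df.memO none 1).iff ?_)
      refine Df.allS (P := fun B (c : Option (Option (Option (Fin n))) → Ordinal.{u})
        (t : Fin 2 → ZFSet.{u}) => B ∈ t 0 → (PQ φ (fun l => c (some (some (some l)))) B (c none) ↔
          PQ φ (fun l => c (some (some (some l)))) B (c (some (some none))))) ?_
      exact (Df.memS none (some 0)).imp
        ((Df.pQ φ (fun l => some (some (some l))) none none).iff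
          (Df.pQ φ (fun l => some (some (some l))) (some (some none)) none))
    · change (y ⊆ κ.ord.toZFSet ∧ ∀ ν, ν < κ.ord → (ν.toZFSet ∈ y ↔ ∀ B, B ∈ Z →
        (PQ φ a B ν ↔ PQ φ a B ε))) ↔ _
      constructor
      · rintro ⟨h3, h4⟩
        ext t
        constructor
        · intro ht
          obtain ⟨ν, hν, rfl⟩ := mem_toZFSet_iff.1 (h3 ht)
          exact (hmem ν).2 ⟨hν, (h4 ν hν).1 ht⟩
        · intro ht
          obtain ⟨ν, hν, rfl⟩ := mem_toZFSet_iff.1 (ZFSet.mem_sep.1 ht).1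
          exact (h4 ν hν).2 ((hmem ν).1 ht).2
      · rintro rfl
        refine ⟨fun x hx => (ZFSet.mem_sep.1 hx).1, fun ν hν => ?_⟩
        rw [hmem ν]
        exact ⟨fun h => h.2, fun h => ⟨hν, h⟩⟩
  refine ⟨_, hs', ?_, ?_⟩
  · intro C hC
    obtain ⟨x, hx, hxC, hxκ⟩ := hi C hC
    refine ⟨x, ⟨hx.1, (hmem x).2 ⟨hxκ, fun B hB => ?_⟩⟩, hxC, hxκ⟩
    have h3 : {B : {B : ZFSet.{u} // B ∈ Z} | PQ φ a B.1 x} =
        {B : {B : ZFSet.{u} // B ∈ Z} | PQ φ a B.1 ε} := hx.2.trans hε.2.symm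
    have h4 := Set.ext_iff.1 h3 ⟨B, hB⟩
    exact h4
  · by_contra hcon
    unfold StatIn at hcon
    push Not at hcon
    obtain ⟨C, hC, hCx⟩ := hcon
    have hmem' : ∀ x ∈ C, x < κ.ord → x.cof = ℵ₀ → (x.toZFSet ∈ s ↔ PQ φ a A ε) := by
      intro x hxC hxκ hxc
      have h3 : x.toZFSet ∈ ZFSet.sep (fun x => ∀ B ∈ Z,
          (PQ φ a B x.rank ↔ PQ φ a B ε)) κ.ord.toZFSet := by
        by_contra hn
        exact absurd hxκ (not_lt.2 (hCx x ⟨hxc, hn⟩ hxC))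
      exact (hQ x).symm.trans (((hmem x).1 h3).2 A hAZ)
    by_cases hA : PQ φ a A ε
    · obtain ⟨x, hx, hxC, hxκ⟩ := hs.2 C hC
      exact hx.2 ((hmem' x hxC hxκ hx.1).2 hA)
    · obtain ⟨x, hx, hxC, hxκ⟩ := hs.1 C hC
      exact hA ((hmem' x hxC hxκ hx.1).1 hx.2)

/-- Two ordinals below `l` are equivalent if they behave in the same way with respect to all
elements of `Z`. -/
noncomputable def PF {n : ℕ} (φ : LSet.Formula (Fin n ⊕ Fin 2)) (b : Fin n → Ordinal.{u})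
    (Z : ZFSet.{u}) (l : Ordinal.{u}) : ZFSet.{u} :=
  ZFSet.sep (fun z => ∃ i < l, ∃ j < l, z = ZFSet.pair i.toZFSet j.toZFSet ∧
    ∀ B ∈ Z, (PQ φ b B i ↔ PQ φ b B j))
    (ZFSet.prod l.toZFSet l.toZFSet)

theorem mem_PF {n : ℕ} {φ : LSet.Formula (Fin n ⊕ Fin 2)} {b : Fin n → Ordinal.{u}}
    {l : Ordinal.{u}} {Z z : ZFSet.{u}} : z ∈ PF φ b Z l ↔
      ∃ i < l, ∃ j < l, z = ZFSet.pair i.toZFSet j.toZFSet ∧
        ∀ B ∈ Z, (PQ φ b B i ↔ PQ φ b B j) := by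
  rw [PF, ZFSet.mem_sep, and_iff_right_of_imp]
  rintro ⟨i, hi, j, hj, rfl, -⟩
  rw [ZFSet.pair_mem_prod]
  exact ⟨toZFSet_mem_toZFSet_iff.2 hi, toZFSet_mem_toZFSet_iff.2 hj⟩

theorem pair_mem_PF {n : ℕ} {φ : LSet.Formula (Fin n ⊕ Fin 2)} {b : Fin n → Ordinal.{u}}
    {Z : ZFSet.{u}} {l i j : Ordinal.{u}} (hi : i < l) (hj : j < l) :
    ZFSet.pair i.toZFSet j.toZFSet ∈ PF φ b Z l ↔ ∀ B ∈ Z, (PQ φ b B i ↔ PQ φ b B j) := by
  rw [mem_PF]
  constructor
  · rintro ⟨i', -, j', -, h1, h2⟩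
    obtain ⟨h3, h4⟩ := ZFSet.pair_inj.1 h1
    rw [toZFSet_injective h3, toZFSet_injective h4]
    exact h2
  · intro h
    exact ⟨i, hi, j, hj, rfl, h⟩

theorem ordDef_PF {n : ℕ} (φ : LSet.Formula (Fin n ⊕ Fin 2)) (b : Fin n → Ordinal.{u})
    {Z : ZFSet.{u}} (hZ : OrdDef ∅ Z) (l : Ordinal.{u}) : OrdDef ∅ (PF φ b Z l) := by
  refine hZ.comp (α := Option (Fin n)) (P := fun a s => ∀ z, z ∈ s 1 ↔
    ∃ i < a none, ∃ j < a none, z = ZFSet.pair i.toZFSet j.toZFSet ∧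
      ∀ B, B ∈ s 0 → (PQ φ (fun l => a (some l)) B i ↔ PQ φ (fun l => a (some l)) B j)) ?_
    (fun o => match o with
      | none => l
      | some i => b i) fun y => ?_
  · refine Df.allS (P := fun z (a : Option (Fin n) → Ordinal.{u})
      (s : Fin 2 → ZFSet.{u}) => z ∈ s 1 ↔ ∃ i < a none, ∃ j < a none,
      z = ZFSet.pair i.toZFSet j.toZFSet ∧ ∀ B, B ∈ s 0 →
        (PQ φ (fun l => a (some l)) B i ↔ PQ φ (fun l => a (some l)) B j)) ?_
    refine (Df.memS none (some 1)).iff ?_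
    refine Df.exO (P := fun i (a : Option (Fin n) → Ordinal.{u})
      (s : Option (Fin 2) → ZFSet.{u}) => i < a none ∧ ∃ j < a none,
      s none = ZFSet.pair i.toZFSet j.toZFSet ∧ ∀ B, B ∈ s (some 0) →
        (PQ φ (fun l => a (some l)) B i ↔ PQ φ (fun l => a (some l)) B j)) ?_
    refine (Df.ltO none (some none)).and ?_
    refine Df.exO (P := fun j (a : Option (Option (Fin n)) → Ordinal.{u})
      (s : Option (Fin 2) → ZFSet.{u}) => j < a (some none) ∧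
      s none = ZFSet.pair (a none).toZFSet j.toZFSet ∧ ∀ B, B ∈ s (some 0) →
        (PQ φ (fun l => a (some (some l))) B (a none) ↔
          PQ φ (fun l => a (some (some l))) B j)) ?_
    refine (Df.ltO none (some (some none))).and ((Df.eqPair none (some none) none).and ?_)
    refine Df.allS (P := fun B (a : Option (Option (Option (Fin n))) → Ordinal.{u})
      (s : Option (Fin 2) → ZFSet.{u}) => B ∈ s (some 0) →
        (PQ φ (fun l => a (some (some (some l)))) B (a (some none)) ↔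
          PQ φ (fun l => a (some (some (some l)))) B (a none))) ?_
    exact (Df.memS none (some (some 0))).imp
      ((Df.pQ φ (fun l => some (some (some l))) (some none) none).iff
        (Df.pQ φ (fun l => some (some (some l))) none none))
  · constructor
    · intro h
      ext z
      exact (h z).trans mem_PF.symm
    · intro h z
      have h1 : y = PF φ b Z l := h
      change z ∈ y ↔ _
      rw [h1]
      exact mem_PF

/-- If there are many subsets of `l` which are definable from `A ∈ Z` and ordinals, and `l` is large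
compared with `Z`, there are many ordinal definable relations on `l`. -/
theorem many_rel_of_many_mem {Z A : ZFSet.{u}} (hZ : OrdDef ∅ Z) (hAZ : A ∈ Z)
    {l : Cardinal.{u}} (hl : ℵ₀ ≤ l)
    (h0 : (2 ^ #{B : ZFSet.{u} // B ∈ Z}) ^ (2 ^ #{B : ZFSet.{u} // B ∈ Z} : Cardinal.{u + 1}) ≤
      Cardinal.lift.{u + 1} l)
    (h : Cardinal.lift.{u + 1} l < #{s : ZFSet.{u} // OrdDef A s ∧ s ⊆ l.ord.toZFSet}) :
    Cardinal.lift.{u + 1} l < #{s : ZFSet.{u} // OrdDef ∅ s ∧ IsRelOn l.ord s} := by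
  classical
  by_contra hcon
  push Not at hcon
  let Y := {B : ZFSet.{u} // B ∈ Z}
  let X := {s : ZFSet.{u} // OrdDef A s ∧ s ⊆ l.ord.toZFSet}
  let R := {s : ZFSet.{u} // OrdDef ∅ s ∧ IsRelOn l.ord s}
  choose n φ b hφ using fun x : X => x.2.1
  let G : X → Ordinal.{u} → Set Y := fun x i => {B | PQ (φ x) (b x) B.1 i}
  let E : X → R := fun x => ⟨PF (φ x) (b x) Z l.ord, ordDef_PF _ _ hZ _, fun z hz => by
    obtain ⟨i, hi, j, hj, h1, -⟩ := mem_PF.1 hz
    exact ⟨i, hi, j, hj, h1⟩⟩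
  have hE : ∀ x i j, i < l.ord → j < l.ord →
      (ZFSet.pair i.toZFSet j.toZFSet ∈ (E x).1 ↔ G x i = G x j) := by
    intro x i j hi hj
    refine (pair_mem_PF hi hj).trans ?_
    constructor
    · intro h1
      ext B
      exact h1 B.1 B.2
    · intro h1 B hB
      exact Set.ext_iff.1 h1 ⟨B, hB⟩
  have hG : ∀ x i, (⟨A, hAZ⟩ : Y) ∈ G x i ↔ i.toZFSet ∈ x.1 := by
    intro x i
    constructor
    · rintro ⟨y, h1, h2⟩
      have h3 : y = x.1 := (hφ x y).1 h1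
      rwa [← h3]
    · intro h1
      exact ⟨x.1, (hφ x x.1).2 rfl, h1⟩
  -- a map with the right kernel for each relation
  have hj : ∀ r : R, ∃ j : Ordinal.{u} → Set Y, ∀ x, E x = r → ∀ i i', i < l.ord → i' < l.ord →
      (j i = j i' ↔ G x i = G x i') := by
    intro r
    by_cases hr : ∃ x₀, E x₀ = r
    · obtain ⟨x₀, hx₀⟩ := hr
      refine ⟨G x₀, fun x hx i i' hi hi' => ?_⟩
      rw [← hE x i i' hi hi', ← hE x₀ i i' hi hi', hx, hx₀]
    · exact ⟨fun _ => ∅, fun x hx => absurd ⟨x, hx⟩ hr⟩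
  choose j hj using hj
  have hh : ∀ x : X, ∃ f : Set Y → Set Y, ∀ i < l.ord, f (j (E x) i) = G x i := by
    intro x
    refine ⟨fun t => if ht : ∃ i < l.ord, j (E x) i = t then G x ht.choose else ∅,
      fun i hi => ?_⟩
    have ht : ∃ i' < l.ord, j (E x) i' = j (E x) i := ⟨i, hi, rfl⟩
    simp only [dif_pos ht]
    exact (hj (E x) x rfl _ _ ht.choose_spec.1 hi).1 ht.choose_spec.2
  choose f hf using hh
  have hinj : Function.Injective (fun x : X => ((E x, f x) : R × (Set Y → Set Y))) := by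
    intro x x' hxx
    obtain ⟨h1, h2⟩ := Prod.mk.injEq .. ▸ hxx
    have h3 : ∀ i < l.ord, G x i = G x' i := by
      intro i hi
      rw [← hf x i hi, ← hf x' i hi, h1, h2]
    refine Subtype.ext ?_
    ext t
    constructor
    · intro ht
      obtain ⟨i, hi, rfl⟩ := mem_toZFSet_iff.1 (x.2.2 ht)
      rw [← hG x' i, ← h3 i hi, hG x i]
      exact ht
    · intro ht
      obtain ⟨i, hi, rfl⟩ := mem_toZFSet_iff.1 (x'.2.2 ht)
      rw [← hG x i, h3 i hi, hG x' i]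
      exact ht
  have h1 := Cardinal.mk_le_of_injective hinj
  rw [Cardinal.mk_prod, Cardinal.lift_id, Cardinal.lift_id] at h1
  have h2 : #(Set Y → Set Y) ≤ Cardinal.lift.{u + 1} l := by
    have h3 : #(Set Y → Set Y) = (2 ^ #Y) ^ (2 ^ #Y : Cardinal.{u + 1}) := by
      rw [← Cardinal.power_def, Cardinal.mk_set]
    rw [h3]
    exact h0
  have h4 : #X ≤ Cardinal.lift.{u + 1} l := by
    refine h1.trans ((mul_le_mul' hcon h2).trans ?_)
    rw [Cardinal.mul_eq_self]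
    exact Cardinal.aleph0_le_lift.2 hl
  exact absurd h (not_lt.2 h4)

theorem P4_pow {c l : Cardinal.{v}} (hl : ℵ₀ ≤ l)
    (h : (2 : Cardinal.{v}) ^ ((2 : Cardinal.{v}) ^ c) ≤ l) :
    ((2 : Cardinal.{v}) ^ c) ^ ((2 : Cardinal.{v}) ^ c) ≤ l := by
  rcases lt_or_ge c ℵ₀ with hc | hc
  · have h1 : (2 : Cardinal.{v}) ^ c < ℵ₀ := Cardinal.power_lt_aleph0 (Cardinal.natCast_lt_aleph0 (n := 2)) hc
    exact (Cardinal.power_lt_aleph0 h1 h1).le.trans hl
  · refine le_trans ?_ h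
    rw [← Cardinal.power_mul]
    refine Cardinal.power_le_power_left two_ne_zero ?_
    have h1 : ℵ₀ ≤ (2 : Cardinal.{v}) ^ c := hc.trans (Cardinal.cantor c).le
    rw [Cardinal.mul_eq_max hc h1]
    exact max_le (Cardinal.cantor c).le le_rfl

/-- Many subsets of one large cardinal `l`. -/
theorem hasDefWO_of_many_mem (hM : MM.{u}) {Z A : ZFSet.{u}} (hZ : OrdDef ∅ Z) (hAZ : A ∈ Z)
    {l : Cardinal.{u}} (hl1 : ℵ_ 1 ≤ l)
    (h0 : (2 : Cardinal.{u + 1}) ^ ((2 : Cardinal.{u + 1}) ^ #{B : ZFSet.{u} // B ∈ Z}) ≤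
      Cardinal.lift.{u + 1} l)
    (h : Cardinal.lift.{u + 1} l < #{s : ZFSet.{u} // OrdDef A s ∧ s ⊆ l.ord.toZFSet}) :
    HasDefWO.{u} := by
  have hl : ℵ₀ ≤ l := (Cardinal.aleph0_le_aleph 1).trans hl1
  obtain ⟨s, h6, h7⟩ := splits_of_many_rel hl (many_rel_of_many_mem hZ hAZ hl
    (P4_pow (Cardinal.aleph0_le_lift.2 hl) h0) h)
  exact hasDefWO_of_splits hM (Cardinal.isRegular_succ hl) (Order.lt_succ_of_le hl1) h6 h7

/-- One splitting set for one large regular cardinal. -/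
theorem hasDefWO_of_splits_mem (hM : MM.{u}) {Z A s : ZFSet.{u}} (hZ : OrdDef ∅ Z) (hAZ : A ∈ Z)
    {κ : Cardinal.{u}} (hκ : κ.IsRegular) (h1 : ℵ_ 1 < κ)
    (h2 : (2 : Cardinal.{u + 1}) ^ #{B : ZFSet.{u} // B ∈ Z} < Cardinal.lift.{u + 1} κ)
    (hs : OrdDef A s) (hsp : Splits κ s) : HasDefWO.{u} := by
  obtain ⟨s', h3, h4⟩ := remove_param_mem hZ hAZ hs hκ h1 h2 hsp
  exact hasDefWO_of_splits hM hκ h1 h3 h4

end Pool.Agent.Helper56.MW
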