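import Pool.Agent.Helper56.MW.G1
import Pool.Agent.Helper56.MW.H10

open FirstOrder FirstOrder.Language Ordinal Cardinal Set Helper23.Pcf

universe u v

namespace Pool.Agent.Helper56.MW

/-- (LJ1) A surjection onto an ordinal is determined by the order it induces.

Proof: strong induction on `ν`: for all `ν < δ` and `ξ < θ` with `g ξ = ν` we have `g' ξ = ν`.  Let
`μ = g' ξ`.  If `μ < ν`, take `ξ'` with `g ξ' = μ`; by induction `g' ξ' = μ = g' ξ`, so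
`g ξ ≤ g ξ'` by `h`, i.e. `ν ≤ μ`: contradiction.  If `ν < μ`, take `ξ'` with `g' ξ' = ν < g' ξ`; by
`h` (contrapositive of `≤`) `g ξ' < g ξ = ν`, by induction `g' ξ' = g ξ' < ν`: contradiction. -/
theorem surj_unique {θ δ : Ordinal.{u}} {g g' : Ordinal.{u} → Ordinal.{u}}
    (hg : ∀ ξ < θ, g ξ < δ) (hg' : ∀ ξ < θ, g' ξ < δ) (ho : ∀ ν < δ, ∃ ξ < θ, g ξ = ν)
    (ho' : ∀ ν < δ, ∃ ξ < θ, g' ξ = ν) (h : ∀ ξ < θ, ∀ ζ < θ, g ξ ≤ g ζ ↔ g' ξ ≤ g' ζ) :
    ∀ ξ < θ, g ξ = g' ξ := by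
  have key : ∀ ν : Ordinal.{u}, ∀ ξ < θ, g ξ = ν → g' ξ = ν := by
    intro ν
    induction ν using WellFoundedLT.induction with
    | ind ν ih =>
      intro ξ hξ hν
      rcases lt_trichotomy (g' ξ) ν with h1 | h1 | h1
      · obtain ⟨ξ', hξ', h2⟩ := ho (g' ξ) (hg' ξ hξ)
        have h3 : g' ξ' = g' ξ := ih (g' ξ) h1 ξ' hξ' h2
        have h4 : g ξ ≤ g ξ' := (h ξ hξ ξ' hξ').2 h3.ge
        rw [hν, h2] at h4
        exact absurd h1 (not_lt.2 h4)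
      · exact h1
      · have hνδ : ν < δ := by
          rw [← hν]
          exact hg ξ hξ
        obtain ⟨ξ', hξ', h2⟩ := ho' ν hνδ
        have h3 : g ξ' < g ξ := by
          rw [← not_le]
          intro h4
          have h5 := (h ξ hξ ξ' hξ').1 h4
          rw [h2] at h5
          exact absurd h1 (not_lt.2 h5)
        rw [hν] at h3
        have h4 := ih (g ξ') h3 ξ' hξ' rfl
        rw [h2] at h4
        rw [← h4] at h3
        exact absurd h3 (lt_irrefl _)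
  exact fun ξ hξ => (key (g ξ) ξ hξ rfl).symm

private theorem LJ_pair {ξ ν ξ' ν' : Ordinal.{u}}
    (h : ZFSet.pair ξ.toZFSet ν.toZFSet = ZFSet.pair ξ'.toZFSet ν'.toZFSet) :
    ξ = ξ' ∧ ν = ν' := by
  have h1 := ZFSet.pair_inj.1 h
  exact ⟨toZFSet_injective h1.1, toZFSet_injective h1.2⟩

/-- the relation which singles out the graph -/
private def LJ_P {α : Type} (Q : (α → Ordinal.{u}) → Ordinal.{u} → Ordinal.{u} → Prop)
    (a : Option (Option α) → Ordinal.{u}) (s : Unit → ZFSet.{u}) : Prop :=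
  (∀ z, z ∈ s () → ∃ ξ, ξ < a none ∧ ∃ ν, ν < a (some none) ∧
    z = ZFSet.pair ξ.toZFSet ν.toZFSet) ∧
  (∀ ξ, ξ < a none → ∃ ν, ν < a (some none) ∧ ZFSet.pair ξ.toZFSet ν.toZFSet ∈ s ()) ∧
  (∀ ν, ν < a (some none) → ∃ ξ, ξ < a none ∧ ZFSet.pair ξ.toZFSet ν.toZFSet ∈ s ()) ∧
  (∀ ξ, ξ < a none → ∀ ζ, ζ < a none → ∀ ν, ν < a (some none) → ∀ μ, μ < a (some none) →
    ZFSet.pair ξ.toZFSet ν.toZFSet ∈ s () → ZFSet.pair ζ.toZFSet μ.toZFSet ∈ s () →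
      (ν ≤ μ ↔ Q (fun i => a (some (some i))) ξ ζ))

private theorem LJ_df {α : Type} {Q : (α → Ordinal.{u}) → Ordinal.{u} → Ordinal.{u} → Prop}
    (hQ : Df (α := Option (Option α)) (β := Empty)
      (fun a _ => Q (fun i => a (some (some i))) (a none) (a (some none)))) :
    Df (LJ_P Q) := by
  unfold LJ_P
  refine Df.and ?_ (Df.and ?_ (Df.and ?_ ?_))
  · refine Df.allS (P := fun z a s => z ∈ s () → ∃ ξ, ξ < a none ∧ ∃ ν, ν < a (some none) ∧
      z = ZFSet.pair ξ.toZFSet ν.toZFSet) ?_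
    refine (Df.memS none (some ())).imp ?_
    refine Df.exO (P := fun ξ a s => ξ < a none ∧ ∃ ν, ν < a (some none) ∧
      s none = ZFSet.pair ξ.toZFSet ν.toZFSet) ?_
    refine (Df.ltO none (some none)).and ?_
    refine Df.exO (P := fun ν a s => ν < a (some (some none)) ∧
      s none = ZFSet.pair (a none).toZFSet ν.toZFSet) ?_
    exact (Df.ltO none (some (some (some none)))).and (Df.eqPair none (some none) none)
  · refine Df.allO (P := fun ξ a s => ξ < a none → ∃ ν, ν < a (some none) ∧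
      ZFSet.pair ξ.toZFSet ν.toZFSet ∈ s ()) ?_
    refine (Df.ltO none (some none)).imp ?_
    refine Df.exO (P := fun ν a s => ν < a (some (some none)) ∧
      ZFSet.pair (a none).toZFSet ν.toZFSet ∈ s ()) ?_
    exact (Df.ltO none (some (some (some none)))).and (Df.pairOO (some none) none ())
  · refine Df.allO (P := fun ν a s => ν < a (some none) → ∃ ξ, ξ < a none ∧
      ZFSet.pair ξ.toZFSet ν.toZFSet ∈ s ()) ?_
    refine (Df.ltO none (some (some none))).imp ?_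
    refine Df.exO (P := fun ξ a s => ξ < a (some none) ∧
      ZFSet.pair ξ.toZFSet (a none).toZFSet ∈ s ()) ?_
    exact (Df.ltO none (some (some none))).and (Df.pairOO none (some none) ())
  · refine Df.allO (P := fun ξ a s => ξ < a none → ∀ ζ, ζ < a none → ∀ ν, ν < a (some none) →
      ∀ μ, μ < a (some none) → ZFSet.pair ξ.toZFSet ν.toZFSet ∈ s () →
      ZFSet.pair ζ.toZFSet μ.toZFSet ∈ s () → (ν ≤ μ ↔ Q (fun i => a (some (some i))) ξ ζ)) ?_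
    refine (Df.ltO none (some none)).imp ?_
    refine Df.allO (P := fun ζ a s => ζ < a (some none) → ∀ ν, ν < a (some (some none)) →
      ∀ μ, μ < a (some (some none)) → ZFSet.pair (a none).toZFSet ν.toZFSet ∈ s () →
      ZFSet.pair ζ.toZFSet μ.toZFSet ∈ s () →
      (ν ≤ μ ↔ Q (fun i => a (some (some (some i)))) (a none) ζ)) ?_
    refine (Df.ltO none (some (some none))).imp ?_
    refine Df.allO (P := fun ν a s => ν < a (some (some (some none))) →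
      ∀ μ, μ < a (some (some (some none))) →
      ZFSet.pair (a (some none)).toZFSet ν.toZFSet ∈ s () →
      ZFSet.pair (a none).toZFSet μ.toZFSet ∈ s () →
      (ν ≤ μ ↔ Q (fun i => a (some (some (some (some i))))) (a (some none)) (a none))) ?_
    refine (Df.ltO none (some (some (some (some none))))).imp ?_
    refine Df.allO (P := fun μ a s => μ < a (some (some (some (some none)))) →
      ZFSet.pair (a (some (some none))).toZFSet (a none).toZFSet ∈ s () →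
      ZFSet.pair (a (some none)).toZFSet μ.toZFSet ∈ s () →
      (a none ≤ μ ↔ Q (fun i => a (some (some (some (some (some i)))))) (a (some (some none)))
        (a (some none)))) ?_
    refine (Df.ltO none (some (some (some (some (some none)))))).imp ?_
    refine (Df.pairOO (some (some (some none))) (some none) ()).imp ?_
    refine (Df.pairOO (some (some none)) none ()).imp ?_
    refine (Df.leO (some none) none).iff ?_
    exact hQ.relabel (fun o => match o with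
      | none => some (some (some none))
      | some none => some (some none)
      | some (some i) => some (some (some (some (some (some i)))))) Empty.elim

/-- (LJ2) A surjection inducing a definable order is ordinal definable.

Proof: `f = {pair ξ (g ξ) | ξ < θ}` (`ZFSet.range` over `θ.ToType`, or `ZFSet.sep` of a product).
It is the unique set `y` such that
* every `z ∈ y` is `pair ξ ν` with `ξ < θ`, `ν < δ`;
* for each `ξ < θ` there is `ν < δ` with `pair ξ ν ∈ y`; for each `ν < δ` there is `ξ < θ` with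
  `pair ξ ν ∈ y`;
* for `ξ, ζ < θ`, `ν, μ < δ` with `pair ξ ν ∈ y`, `pair ζ μ ∈ y`: `ν ≤ μ ↔ Q a ξ ζ`.
(The last clause with `ξ = ζ` shows that `y` is a function, because `Q a ξ ξ` holds; then
`surj_unique`.)  These conditions are definable with the parameters `θ, δ, a`; use `ordDef_of_df` with
the context `Option (Option α)` (`Df.allS`, `Df.memS`, `Df.eqPair`, `Df.pairOO`, `Df.allO`,
`Df.exO`, `Df.ltO`, `Df.leO`, `hQ.relabel`). -/
theorem ordDef_graph {α : Type} [Finite α] {Q : (α → Ordinal.{u}) → Ordinal.{u} → Ordinal.{u} → Prop}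
    (hQ : Df (α := Option (Option α)) (β := Empty)
      (fun a _ => Q (fun i => a (some (some i))) (a none) (a (some none))))
    (a : α → Ordinal.{u}) {θ δ : Ordinal.{u}} {g : Ordinal.{u} → Ordinal.{u}}
    (hg : ∀ ξ < θ, g ξ < δ) (ho : ∀ ν < δ, ∃ ξ < θ, g ξ = ν)
    (h : ∀ ξ < θ, ∀ ζ < θ, g ξ ≤ g ζ ↔ Q a ξ ζ) :
    ∃ f : ZFSet.{u}, OrdDef ∅ f ∧
      ∀ ξ ν, ZFSet.pair ξ.toZFSet ν.toZFSet ∈ f ↔ ξ < θ ∧ ν = g ξ := by
  classical
  let f : ZFSet.{u} := ZFSet.sep (fun z => ∃ ξ < θ, z = ZFSet.pair ξ.toZFSet (g ξ).toZFSet)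
    (ZFSet.prod θ.toZFSet δ.toZFSet)
  have hf0 : ∀ z, z ∈ f ↔ ∃ ξ < θ, z = ZFSet.pair ξ.toZFSet (g ξ).toZFSet := by
    intro z
    rw [ZFSet.mem_sep]
    constructor
    · exact fun h => h.2
    · rintro ⟨ξ, hξ, rfl⟩
      refine ⟨?_, ξ, hξ, rfl⟩
      rw [ZFSet.pair_mem_prod]
      exact ⟨toZFSet_mem_toZFSet_iff.2 hξ, toZFSet_mem_toZFSet_iff.2 (hg ξ hξ)⟩
  have hf : ∀ ξ ν, ZFSet.pair ξ.toZFSet ν.toZFSet ∈ f ↔ ξ < θ ∧ ν = g ξ := by
    intro ξ ν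
    rw [hf0]
    constructor
    · rintro ⟨ξ', hξ', h1⟩
      obtain ⟨rfl, rfl⟩ := LJ_pair h1
      exact ⟨hξ', rfl⟩
    · rintro ⟨h1, rfl⟩
      exact ⟨ξ, h1, rfl⟩
  refine ⟨f, ?_, hf⟩
  refine ordDef_of_df (LJ_df hQ) (fun o => match o with
    | none => θ
    | some none => δ
    | some (some i) => a i) f ?_
  intro y
  change ((∀ z, z ∈ y → ∃ ξ, ξ < θ ∧ ∃ ν, ν < δ ∧ z = ZFSet.pair ξ.toZFSet ν.toZFSet) ∧
    (∀ ξ, ξ < θ → ∃ ν, ν < δ ∧ ZFSet.pair ξ.toZFSet ν.toZFSet ∈ y) ∧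
    (∀ ν, ν < δ → ∃ ξ, ξ < θ ∧ ZFSet.pair ξ.toZFSet ν.toZFSet ∈ y) ∧
    (∀ ξ, ξ < θ → ∀ ζ, ζ < θ → ∀ ν, ν < δ → ∀ μ, μ < δ →
      ZFSet.pair ξ.toZFSet ν.toZFSet ∈ y → ZFSet.pair ζ.toZFSet μ.toZFSet ∈ y →
        (ν ≤ μ ↔ Q a ξ ζ))) ↔ y = f
  constructor
  · rintro ⟨h1, h2, h3, h4⟩
    have huniq : ∀ ξ < θ, ∀ ν < δ, ∀ μ < δ, ZFSet.pair ξ.toZFSet ν.toZFSet ∈ y →
        ZFSet.pair ξ.toZFSet μ.toZFSet ∈ y → ν = μ := by
      intro ξ hξ ν hν μ hμ hm hm'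
      have hq : Q a ξ ξ := (h ξ hξ ξ hξ).1 le_rfl
      exact le_antisymm ((h4 ξ hξ ξ hξ ν hν μ hμ hm hm').2 hq)
        ((h4 ξ hξ ξ hξ μ hμ ν hν hm' hm).2 hq)
    have hex : ∀ ξ : Ordinal.{u}, ∃ ν : Ordinal.{u},
        ξ < θ → ν < δ ∧ ZFSet.pair ξ.toZFSet ν.toZFSet ∈ y := by
      intro ξ
      by_cases hξ : ξ < θ
      · obtain ⟨ν, h5⟩ := h2 ξ hξ
        exact ⟨ν, fun _ => h5⟩
      · exact ⟨0, fun h5 => absurd h5 hξ⟩
    choose g' hg'0 using hex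
    have hg' : ∀ ξ < θ, g' ξ < δ := fun ξ hξ => (hg'0 ξ hξ).1
    have ho' : ∀ ν < δ, ∃ ξ < θ, g' ξ = ν := by
      intro ν hν
      obtain ⟨ξ, hξ, h5⟩ := h3 ν hν
      exact ⟨ξ, hξ, huniq ξ hξ _ (hg' ξ hξ) ν hν (hg'0 ξ hξ).2 h5⟩
    have hcmp : ∀ ξ < θ, ∀ ζ < θ, g ξ ≤ g ζ ↔ g' ξ ≤ g' ζ := fun ξ hξ ζ hζ =>
      (h ξ hξ ζ hζ).trans (h4 ξ hξ ζ hζ _ (hg' ξ hξ) _ (hg' ζ hζ) (hg'0 ξ hξ).2
        (hg'0 ζ hζ).2).symm
    have heq := surj_unique hg hg' ho ho' hcmp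
    ext z
    rw [hf0]
    constructor
    · intro hz
      obtain ⟨ξ, hξ, ν, hν, rfl⟩ := h1 z hz
      refine ⟨ξ, hξ, ?_⟩
      rw [heq ξ hξ, huniq ξ hξ ν hν _ (hg' ξ hξ) hz (hg'0 ξ hξ).2]
    · rintro ⟨ξ, hξ, rfl⟩
      rw [heq ξ hξ]
      exact (hg'0 ξ hξ).2
  · rintro rfl
    refine ⟨?_, ?_, ?_, ?_⟩
    · intro z hz
      obtain ⟨ξ, hξ, h1⟩ := (hf0 z).1 hz
      exact ⟨ξ, hξ, g ξ, hg ξ hξ, h1⟩
    · intro ξ hξ
      exact ⟨g ξ, hg ξ hξ, (hf ξ (g ξ)).2 ⟨hξ, rfl⟩⟩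
    · intro ν hν
      obtain ⟨ξ, hξ, h1⟩ := ho ν hν
      exact ⟨ξ, hξ, (hf ξ ν).2 ⟨hξ, h1.symm⟩⟩
    · intro ξ hξ ζ hζ ν hν μ hμ hm hm'
      rw [((hf ξ ν).1 hm).2, ((hf ζ μ).1 hm').2]
      exact h ξ hξ ζ hζ

end Pool.Agent.Helper56.MW
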