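import Pool.Agent.Helper56.MW.LB
import Pool.Agent.Helper56.MW.LC
import Pool.Agent.Helper56.MW.LE
import Pool.Agent.Helper56.MW.LF
import Pool.Agent.Helper56.MW.LG
import Pool.Agent.Helper56.MW.LH
import Pool.Agent.Helper56.MW.LI
import Pool.Agent.Helper56.MW.LJ
import Pool.Agent.Helper56.MW.J3
import Pool.Agent.Helper56.MW.C5
import Pool.Agent.Helper56.MW.K

open FirstOrder FirstOrder.Language Ordinal Cardinal Set Helper23.Pcf

universe u v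

namespace Pool.Agent.Helper56.MW

/-- The class of ordinals coded by the definable family `Q`. -/
def LK_S {m : ℕ} (Q : (Fin m → Ordinal.{u}) → (Unit → ZFSet.{u}) → Prop)
    (c : Fin m → Ordinal.{u}) : Set Ordinal.{u} :=
  {ν | ∃ y, Q c (fun _ => y) ∧ ν.toZFSet ∈ y}

/-- The indices of the stationary sets of the matrix. -/
def LK_Z (W : ZFSet.{u} → ZFSet.{u} → Prop) (c : Fin 2 → Ordinal.{u}) : Set Ordinal.{u} :=
  {ζ | StatIn {ξ | Ul W ξ ζ (c 1)} (c 0)}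

/-- The definition of the order. -/
def LK_Q {m : ℕ} (Q : (Fin m → Ordinal.{u}) → (Unit → ZFSet.{u}) → Prop)
    (W : ZFSet.{u} → ZFSet.{u} → Prop) (c : Fin 3 ⊕ Fin m → Ordinal.{u})
    (ξ ξ' : Ordinal.{u}) : Prop :=
  ∃ γ, Pr (c (Sum.inl 0)) ξ ξ' γ ∧ ∃ ζ, En (c (Sum.inl 0))
    (LK_Z W ![c (Sum.inl 0), c (Sum.inl 1)]) ζ γ ∧
    MeetB (LK_S Q (fun i => c (Sum.inr i))) (c (Sum.inl 0)) (c (Sum.inl 2))
      {x | Ul W x ζ (c (Sum.inl 1))}

private theorem LK_dfW (φ : LSet.Formula (Fin 2)) :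
    Df (α := Empty) (β := Fin 2) (fun (_ : Empty → Ordinal.{u}) (s : Fin 2 → ZFSet.{u}) =>
      φ.Realize ![s 0, s 1]) := by
  refine ⟨φ.relabel Sum.inr, fun a s => ?_⟩
  rw [Formula.realize_relabel]
  refine iff_of_eq (congrArg φ.Realize ?_)
  funext j
  fin_cases j <;> rfl

theorem LK_df {m : ℕ} {Q : (Fin m → Ordinal.{u}) → (Unit → ZFSet.{u}) → Prop} (hQ : Df Q)
    {W : ZFSet.{u} → ZFSet.{u} → Prop}
    (hW : Df.{u} (α := Empty) (β := Fin 2) (fun _ s => W (s 0) (s 1))) :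
    Df (α := Option (Option (Fin 3 ⊕ Fin m))) (β := Empty)
      (fun a _ => LK_Q Q W (fun i => a (some (some i))) (a none) (a (some none))) := by
  have hS : Df (α := Option (Fin m)) (β := Empty)
      (fun a _ => a none ∈ LK_S Q (fun i => a (some i))) := by
    refine Df.exS (P := fun y a _ => Q (fun i => a (some i)) (fun _ => y) ∧
      (a none).toZFSet ∈ y) ?_
    exact (hQ.relabel some (fun _ => none)).and (Df.memO none none)
  have hZ : Df (α := Option (Fin 2)) (β := Empty)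
      (fun a _ => a none ∈ LK_Z W (fun i => a (some i))) :=
    Df.statIn (P := fun ξ a _ => Ul W ξ (a none) (a (some 1))) (some 0)
      (Df.ul hW none (some none) (some (some 1)))
  refine Df.exO (P := fun γ a _ => Pr (a (some (some (Sum.inl 0)))) (a none) (a (some none)) γ ∧
    ∃ ζ, En (a (some (some (Sum.inl 0))))
      (LK_Z W ![a (some (some (Sum.inl 0))), a (some (some (Sum.inl 1)))]) ζ γ ∧
      MeetB (LK_S Q (fun i => a (some (some (Sum.inr i))))) (a (some (some (Sum.inl 0))))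
        (a (some (some (Sum.inl 2)))) {x | Ul W x ζ (a (some (some (Sum.inl 1))))}) ?_
  refine (Df.pr (some (some (some (Sum.inl 0)))) (some none) (some (some none)) none).and ?_
  refine Df.exO (P := fun ζ a _ => En (a (some (some (some (Sum.inl 0)))))
      (LK_Z W ![a (some (some (some (Sum.inl 0)))), a (some (some (some (Sum.inl 1))))]) ζ
        (a none) ∧
      MeetB (LK_S Q (fun i => a (some (some (some (Sum.inr i))))))
        (a (some (some (some (Sum.inl 0))))) (a (some (some (some (Sum.inl 2)))))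
        {x | Ul W x ζ (a (some (some (some (Sum.inl 1)))))}) ?_
  refine Df.and ?_ ?_
  · have h1 := Df.en (β := Empty) hZ
      (![some (some (some (some (Sum.inl 0)))), some (some (some (some (Sum.inl 1))))] :
        Fin 2 → Option (Option (Option (Option (Fin 3 ⊕ Fin m)))))
      (some (some (some (some (Sum.inl 0))))) none (some none)
    refine h1.congr fun a s => ?_
    refine iff_of_eq (congrArg (fun c => En _ (LK_Z W c) _ _) ?_)
    funext i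
    fin_cases i <;> rfl
  · exact Df.meetB hS (fun i => some (some (some (some (Sum.inr i)))))
      (some (some (some (some (Sum.inl 0))))) (some (some (some (some (Sum.inl 2)))))
      (T := fun x a _ => Ul W x (a none) (a (some (some (some (some (Sum.inl 1)))))))
      (Df.ul hW none (some none) (some (some (some (some (some (Sum.inl 1)))))))

/-- (LK) Under Martin's Maximum a definable well-order of the reals makes the ordinal definable sets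
compute `ω₂` correctly.

Proof.  Let `φ` define the well-order, `W x y := φ.Realize ![x, y]`.  `splits_of_hasDefWO` gives
`s`, ordinal definable, with `Splits (ℵ_ 2) s`; `MM.code` gives `Univ S`, `S = {ν | ν.toZFSet ∈ s}`
(`ℵ_ 2` is regular, `ℵ_ 1 < ℵ_ 2`); `OrdDef.exists_df` gives a definable family `S a`
(`S a = {ν | ∃ y, Q a (fun _ => y) ∧ ν.toZFSet ∈ y}`), equal to `S` for the parameters `b`.
`exists_ul` gives `e`, `ulam` gives `n < ω` such that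
`Z = {ζ | StatIn {ξ | Ul W ξ ζ n} (ω_ 1)}` is unbounded in `ω₁` (`statIn_congr`: for `ξ < ω₁`,
`Ul W ξ ζ n ↔ ζ < ξ ∧ e ξ ζ = n`); `exists_enum` gives `z`; `exists_pr` for `c = ℵ_ 1` gives `p`.
Let `α < (succ (ℵ_ 1)).ord`.  If `α = 0` take `f = ∅`.  Otherwise `α.card ≤ ℵ_ 1` and there is
`g` with `g ξ < α` for `ξ < ω₁`, onto `α`.  Let
`A = {ζ | ∃ ξ < ω₁, ∃ ξ' < ω₁, g ξ ≤ g ξ' ∧ ζ = z (p ξ ξ')}`, `B ζ = {ξ | Ul W ξ ζ n}`: disjoint for
different `ζ` (below `ω₁`, injectivity of `e ξ`), stationary for `ζ ∈ A ⊆ Z`.  `code_sub` gives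
`η` with `ζ ∈ A ↔ MeetB S (ω_ 1) η (B ζ)`.  So for `ξ, ξ' < ω₁`, by injectivity of `z` and `p`,
`g ξ ≤ g ξ' ↔ ∃ γ, Pr (ω_ 1) ξ ξ' γ ∧ ∃ ζ, En (ω_ 1) Z ζ γ ∧ MeetB S (ω_ 1) η (B ζ)`.
The right hand side is definable with the ordinal parameters `ω₁, n, η, b` (`Df.pr`, `Df.en`,
`Df.meetB`, `Df.ul`, `Df.statIn`), so `ordDef_graph` gives the ordinal definable map
(`Cardinal.ord_aleph : (ℵ_ 1).ord = ω_ 1`). -/
theorem succCorrect_of_hasDefWO (hM : MM.{u}) (h : HasDefWO.{u}) :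
    SuccCorrect (ℵ_ 1 : Cardinal.{u}) := by
  classical
  obtain ⟨s, hs, hsplit⟩ := splits_of_hasDefWO hM h
  obtain ⟨φ, hφ⟩ := h
  have hreg : (ℵ_ 2 : Cardinal.{u}).IsRegular := by
    have := Cardinal.isRegular_aleph_add_one (1 : Ordinal.{u})
    rwa [one_add_one_eq_two] at this
  have h12 : (ℵ_ 1 : Cardinal.{u}) < ℵ_ 2 := Cardinal.aleph_lt_aleph.2 (by norm_num)
  have hUniv : Univ {ν : Ordinal.{u} | ν.toZFSet ∈ s} := fun A =>
    hM.code hreg h12 (S := {ν : Ordinal.{u} | ν.toZFSet ∈ s}) hsplit.1 hsplit.2 A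
  obtain ⟨m, Qs, b, hQs, hQs'⟩ := hs.exists_df
  have hSb : LK_S Qs b = {ν : Ordinal.{u} | ν.toZFSet ∈ s} := by
    ext ν
    constructor
    · rintro ⟨y, h1, h2⟩
      rw [(hQs' y).1 h1] at h2
      exact h2
    · intro h1
      exact ⟨s, (hQs' s).2 rfl, h1⟩
  have hdf := LK_df (W := fun x y => φ.Realize ![x, y]) hQs (LK_dfW φ)
  obtain ⟨e, he⟩ := exists_ul (W := fun x y => φ.Realize ![x, y]) hφ
  obtain ⟨n, hn, hunb⟩ := ulam e (fun ξ hξ => (he ξ hξ).1)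
  have hunb' : UnbIn (LK_Z (fun x y => φ.Realize ![x, y]) ![ω_ 1, n]) (ω_ 1) := by
    refine hunb.mono fun ζ hζ => ?_
    refine (statIn_congr fun ξ hξ => ?_).1 hζ
    show (ζ < ξ ∧ e ξ ζ = n) ↔ Ul (fun x y => φ.Realize ![x, y]) ξ ζ n
    rw [(he ξ hξ).2.1 ζ n, eq_comm (a := n)]
  obtain ⟨z, hz1, hz2, hz3⟩ := exists_enum hunb'
  obtain ⟨p, hp1, hp2⟩ := exists_pr (c := ℵ_ 1) (Cardinal.aleph0_le_aleph 1)
  have hord : (ℵ_ 1 : Cardinal.{u}).ord = ω_ 1 := Cardinal.ord_aleph 1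
  rw [hord] at hp1 hp2
  intro α hα
  rw [hord]
  rcases eq_or_ne α 0 with rfl | hα0
  · exact ⟨s, hs, fun ξ hξ => absurd hξ (not_lt.2 zero_le),
      fun i _ ξ hξ => absurd hξ (not_lt.2 zero_le)⟩
  -- a surjection of `ω₁` onto `α`
  obtain ⟨g, hg, ho⟩ : ∃ g : Ordinal.{u} → Ordinal.{u}, (∀ ξ < ω_ 1, g ξ < α) ∧
      ∀ ν < α, ∃ ξ < ω_ 1, g ξ = ν := by
    have hc : α.card ≤ ℵ_ 1 := Order.lt_succ_iff.1 (Cardinal.lt_ord.1 hα)
    have hc' : #(Iio α) ≤ #(Iio (ω_ 1 : Ordinal.{u})) := by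
      rw [Cardinal.mk_Iio_ordinal, Cardinal.mk_Iio_ordinal, Cardinal.lift_le, ← hord,
        Cardinal.card_ord]
      exact hc
    obtain ⟨ι⟩ := hc'
    have hne : Nonempty (Iio α) := ⟨⟨0, pos_iff_ne_zero.2 hα0⟩⟩
    refine ⟨fun ξ => if hξ : ξ < ω_ 1 then (Function.invFun ι ⟨ξ, hξ⟩ : Iio α).1 else 0,
      fun ξ hξ => ?_, fun ν hν => ?_⟩
    · simp only [dif_pos hξ]
      exact (Function.invFun ι ⟨ξ, hξ⟩ : Iio α).2
    · refine ⟨(ι ⟨ν, hν⟩).1, (ι ⟨ν, hν⟩).2, ?_⟩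
      have h1 : (ι ⟨ν, hν⟩).1 < ω_ 1 := (ι ⟨ν, hν⟩).2
      simp only [dif_pos h1]
      exact congrArg Subtype.val (Function.leftInverse_invFun ι.injective ⟨ν, hν⟩)
  obtain ⟨η, hη⟩ := code_sub hUniv (fun ζ => {ξ | Ul (fun x y => φ.Realize ![x, y]) ξ ζ n})
    (by
      intro ζ ζ' hne ξ hξ h1 h2
      have h1' := ((he ξ hξ).2.1 ζ n).1 h1
      have h2' := ((he ξ hξ).2.1 ζ' n).1 h2
      exact hne ((he ξ hξ).2.2 ζ h1'.1 ζ' h2'.1 (h1'.2.symm.trans h2'.2)))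
    {ζ | ∃ ξ < ω_ 1, ∃ ξ' < ω_ 1, g ξ ≤ g ξ' ∧ ζ = z (p ξ ξ')}
    (by
      rintro ζ ⟨ξ, hξ, ξ', hξ', -, rfl⟩
      exact (hz1 (p ξ ξ') (hp1 ξ hξ ξ' hξ').1).2)
  obtain ⟨f, hf1, hf2⟩ := ordDef_graph hdf (Sum.elim ![ω_ 1, n, η] b) (θ := ω_ 1) (δ := α)
    (g := g) hg ho (by
      intro ξ hξ ξ' hξ'
      have hkey : LK_Q Qs (fun x y => φ.Realize ![x, y]) (Sum.elim ![ω_ 1, n, η] b) ξ ξ' ↔
          ∃ γ, Pr (ω_ 1) ξ ξ' γ ∧ ∃ ζ, En (ω_ 1)
            (LK_Z (fun x y => φ.Realize ![x, y]) ![ω_ 1, n]) ζ γ ∧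
            MeetB {ν : Ordinal.{u} | ν.toZFSet ∈ s} (ω_ 1) η
              {x | Ul (fun x y => φ.Realize ![x, y]) x ζ n} := by
        rw [← hSb]
        exact Iff.rfl
      rw [hkey]
      constructor
      · intro hle
        refine ⟨p ξ ξ', ((hp1 ξ hξ ξ' hξ').2 _).2 rfl, z (p ξ ξ'),
          (hz2 _ (hp1 ξ hξ ξ' hξ').1 _).2 rfl, (hη _).1 ⟨ξ, hξ, ξ', hξ', hle, rfl⟩⟩
      · rintro ⟨γ, h1, ζ, h2, h3⟩
        obtain rfl := ((hp1 ξ hξ ξ' hξ').2 _).1 h1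
        obtain rfl := (hz2 _ (hp1 ξ hξ ξ' hξ').1 _).1 h2
        obtain ⟨ξ₁, hξ₁, ξ₁', hξ₁', hle, heq⟩ := (hη _).2 h3
        have h4 := hz3 _ (hp1 ξ hξ ξ' hξ').1 _ (hp1 ξ₁ hξ₁ ξ₁' hξ₁').1 heq
        obtain ⟨rfl, rfl⟩ := hp2 ξ hξ ξ' hξ' ξ₁ hξ₁ ξ₁' hξ₁' h4
        exact hle)
  refine ⟨f, hf1, fun ν hν => ?_, fun i hi ν hν ν' hν' h1 h2 => ?_⟩
  · obtain ⟨i, hi, hgi⟩ := ho ν hν
    exact ⟨i, hi, (hf2 i ν).2 ⟨hi, hgi.symm⟩⟩
  · exact ((hf2 i ν).1 h1).2.trans ((hf2 i ν').1 h2).2.symm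

end Pool.Agent.Helper56.MW
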