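import Pool.Agent.Helper56.MW.Main
import Pool.Agent.Helper56.MW.K
import Pool.Agent.Helper56.MW.LK
import Pool.Agent.Helper56.MW.LM

open FirstOrder FirstOrder.Language Ordinal Cardinal Set Helper23.Pcf

universe u v

namespace Pool.Agent.Helper56.MW

theorem Q_small (o : Ordinal.{u}) : Small.{u} {x : ZFSet.{u} // x ⊆ o.toZFSet} := by
  have h2 : Small.{u} (ZFSet.powerset o.toZFSet) := inferInstance
  exact (small_congr (Equiv.subtypeEquivRight fun x => ZFSet.mem_powerset)).1 h2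

/-- A cardinal has more subsets than elements. -/
theorem Q_cantor (l : Cardinal.{u}) :
    Cardinal.lift.{u + 1} l < #{x : ZFSet.{u} // x ⊆ l.ord.toZFSet} := by
  classical
  have h1 : Cardinal.lift.{u + 1} l = #(Iio l.ord) := by
    rw [Cardinal.mk_Iio_ordinal, Cardinal.card_ord]
  rw [h1]
  refine lt_of_lt_of_le (Cardinal.cantor _) ?_
  rw [← Cardinal.mk_set]
  refine Cardinal.mk_le_of_injective (f := fun S : Set (Iio l.ord) =>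
    (⟨ZFSet.sep (fun z => ∃ i : Iio l.ord, i ∈ S ∧ z = i.1.toZFSet) l.ord.toZFSet,
      fun z hz => (ZFSet.mem_sep.1 hz).1⟩ : {x : ZFSet.{u} // x ⊆ l.ord.toZFSet})) ?_
  intro S T hST
  have h2 := congrArg Subtype.val hST
  have h3 : ∀ (S : Set (Iio l.ord)) (i : Iio l.ord), i.1.toZFSet ∈
      ZFSet.sep (fun z => ∃ i : Iio l.ord, i ∈ S ∧ z = i.1.toZFSet) l.ord.toZFSet ↔ i ∈ S := by
    intro S i
    rw [ZFSet.mem_sep]
    constructor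
    · rintro ⟨-, j, hj, h4⟩
      have h5 : i = j := Subtype.ext (toZFSet_injective h4)
      rwa [h5]
    · intro h4
      exact ⟨toZFSet_mem_toZFSet_iff.2 i.2, i, h4, rfl⟩
  ext i
  rw [← h3 S i, ← h3 T i]
  exact iff_of_eq (congrArg (fun t => i.1.toZFSet ∈ t) h2)

theorem dichotomy (h : MM.{u}) : List.TFAE [
    HasDefWO.{u},
    ∀ x : ZFSet.{u}, x ⊆ (ω_ 1 : Ordinal.{u}).toZFSet → OrdDef ∅ x,
    SuccCorrect (ℵ_ 1 : Cardinal.{u}),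
    ∃ l : Cardinal.{u}, ℵ_ 1 ≤ l ∧ SuccCorrect l,
    ∃ l : Cardinal.{u}, ℵ_ 1 ≤ l ∧ Cardinal.lift.{u + 1} l <
      #{s : ZFSet.{u} // OrdDef ∅ s ∧ s ⊆ l.ord.toZFSet},
    ∃ s : ZFSet.{u}, OrdDef ∅ s ∧ Splits (ℵ_ 2) s,
    ∃ κ : Cardinal.{u}, κ.IsRegular ∧ ℵ_ 1 < κ ∧ ∃ s, OrdDef ∅ s ∧ Splits κ s] := by
  tfae_have 1 → 2 := fun h1 x hx => ordDef_omega1_of_hasDefWO h h1 hx
  tfae_have 2 → 5 := fun h2 => ⟨ℵ_ 1, le_rfl, lt_of_lt_of_le (Q_cantor (ℵ_ 1))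
    (Cardinal.mk_subtype_mono fun x hx => ⟨h2 x (by rwa [Cardinal.ord_aleph] at hx), hx⟩)⟩
  tfae_have 5 → 1 := fun h5 => (hasDefWO_iff_many h).2 h5
  tfae_have 1 → 3 := fun h1 => succCorrect_of_hasDefWO h h1
  tfae_have 3 → 4 := fun h3 => ⟨ℵ_ 1, le_rfl, h3⟩
  tfae_have 4 → 7 := by
    rintro ⟨l, hl, hs⟩
    have h0 : ℵ₀ ≤ l := (Cardinal.aleph0_le_aleph 1).trans hl
    obtain ⟨s, h1, h2⟩ := splits_of_succCorrect h0 hs
    exact ⟨Order.succ l, Cardinal.isRegular_succ h0, Order.lt_succ_of_le hl, s, h1, h2⟩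
  tfae_have 7 → 1 := fun h7 => (hasDefWO_iff_splits h).2 h7
  tfae_have 1 → 6 := fun h1 => splits_of_hasDefWO h h1
  tfae_have 6 → 7 := fun ⟨s, h1, h2⟩ =>
    ⟨ℵ_ 2, LM_regular, Cardinal.aleph_lt_aleph.2 (by norm_num), s, h1, h2⟩
  tfae_finish

end Pool.Agent.Helper56.MW
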