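import Pool.Agent.Helper56.MW.A1

open FirstOrder FirstOrder.Language Ordinal Cardinal Set Helper23.Pcf

universe u v

namespace Pool.Agent.Helper56.MW

/-- (A2) Every stationary subset of `ω₁` splits into two stationary sets.

Proof: `split_injective` with `I = ULift ℕ` and an injection of the ordinals below `ω₁` into the
subsets of `ℕ`: `#(Iio (ω_ 1)) = lift (ℵ_ 1) ≤ lift (2 ^ ℵ₀) = #(Set (ULift ℕ))` (universe lifts;
`Cardinal.aleph_one_le_continuum`, `Cardinal.mk_Iio_ordinal`, `Ordinal.card_omega`), so there is an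
injective map `Iio (ω_ 1) → Set (ULift ℕ)`; extend it by `∅`.  `(ω_ 1).cof = ℵ_ 1`:
`Cardinal.isRegular_aleph_one.cof_eq` or `cof_ord` and `Cardinal.ord_aleph`. -/
theorem split_omega1 {T : Set Ordinal.{u}} (hT : StatIn T (ω_ 1)) :
    ∃ T' ⊆ T, StatIn T' (ω_ 1) ∧ StatIn (T \ T') (ω_ 1) := by
  classical
  have hcard : Cardinal.lift.{u} #(Iio (ω_ 1 : Ordinal.{u})) ≤
      Cardinal.lift.{u + 1} #(Set (ULift.{u} ℕ)) := by
    rw [Cardinal.mk_Iio_ordinal, Cardinal.mk_set, Cardinal.mk_uLift, Cardinal.mk_nat,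
      Cardinal.lift_aleph0, Cardinal.lift_two_power, Cardinal.lift_aleph0, Ordinal.card_omega]
    simp only [Cardinal.lift_aleph, Ordinal.lift_one]
    exact Cardinal.aleph_one_le_continuum
  obtain ⟨f⟩ := Cardinal.lift_mk_le'.1 hcard
  let e : Ordinal.{u} → Set (ULift.{u} ℕ) := fun x =>
    if h : x < ω_ 1 then f ⟨x, h⟩ else ∅
  have he : ∀ x < ω_ 1, ∀ y < ω_ 1, e x = e y → x = y := by
    intro x hx y hy hxy
    simp only [e, dif_pos hx, dif_pos hy] at hxy
    exact congrArg Subtype.val (f.injective hxy)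
  have hI : #(ULift.{u} ℕ) < (ω_ 1 : Ordinal.{u}).cof := by
    rw [Cardinal.mk_uLift, Cardinal.mk_nat, Cardinal.lift_aleph0]
    exact aleph0_lt_cof_omega1
  obtain ⟨i, h1, h2⟩ := split_injective aleph0_lt_cof_omega1 hT hI e he
  refine ⟨{x | x ∈ T ∧ i ∈ e x}, fun x hx => hx.1, h1, ?_⟩
  refine h2.mono ?_
  rintro x ⟨hx, hix⟩
  exact ⟨hx, fun h => hix h.2⟩

end Pool.Agent.Helper56.MW
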