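import Pool.Agent.Helper56.MW.PosDefs

open FirstOrder FirstOrder.Language Ordinal Cardinal Set Helper23.Pcf

universe u v

namespace Pool.Agent.Helper56.MW

namespace Cond

variable {κ : Ordinal.{u}} {S A : Set Ordinal.{u}}

/-- (B1) There is a condition of length one.

Proof: `len = 0`, `fn ξ = 0` for all `ξ` (no `ξ ≤ 0` is a limit). -/
theorem nonempty (hκ : 0 < κ) : Nonempty (Cond κ S A) := by
  have h0 : ∀ ξ : Ordinal.{u}, ξ ≤ 0 → ¬ Order.IsSuccLimit ξ := by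
    intro ξ hξ h
    exact h.1 (by rw [nonpos_iff_eq_zero.1 hξ]; exact isMin_bot)
  exact ⟨⟨(0, fun _ => 0), ⟨omega_pos 1, fun _ _ => rfl, fun _ _ => hκ,
    fun ξ hξ ξ' hξ' => absurd hξ' (by rw [nonpos_iff_eq_zero.1 hξ]; exact not_lt_zero),
    fun ξ hξ h => absurd h (h0 ξ hξ), fun ξ hξ h => absurd h (h0 ξ hξ)⟩⟩⟩

/-- (B2) One step extensions.

Proof: `q.fn = Function.update p.fn (p.len + 1) (max β (p.fn p.len) + 1)`, `q.len = p.len + 1`.
`κ` is a limit, so the new value is below `κ`; `p.len + 1` is not a limit; `p.len + 1 < ω_ 1`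
because `ω_ 1` is a limit (`Ordinal.isSuccLimit_omega`). -/
theorem step (hκ : Order.IsSuccLimit κ) (p : Cond κ S A) (β : Ordinal.{u}) (hβ : β < κ) :
    ∃ q ≤ p, q.len = p.len + 1 ∧ β < q.fn q.len := by
  classical
  have hp := p.isCond
  have hlt : p.len < p.len + 1 := lt_add_one _
  have hnl : ¬ Order.IsSuccLimit (p.len + 1) := by
    rw [← Order.succ_eq_add_one]
    intro h
    exact Order.not_isSuccPrelimit_succ _ h.isSuccPrelimit
  have hle : ∀ ξ, ξ < p.len + 1 → ξ ≤ p.len := fun ξ h => Order.lt_add_one_iff.1 h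
  set g : Ordinal.{u} → Ordinal.{u} :=
    Function.update p.fn (p.len + 1) (max β (p.fn p.len) + 1) with hg
  have hg1 : g (p.len + 1) = max β (p.fn p.len) + 1 := Function.update_self _ _ _
  have hg2 : ∀ ξ, ξ ≠ p.len + 1 → g ξ = p.fn ξ := fun ξ h => Function.update_of_ne h _ _
  have hg3 : ∀ ξ, ξ < p.len + 1 → g ξ = p.fn ξ := fun ξ h => hg2 ξ h.ne
  have hcond : IsCond κ S A (p.len + 1) g := by
    refine ⟨?_, ?_, ?_, ?_, ?_, ?_⟩
    · rw [← Order.succ_eq_add_one]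
      exact (isSuccLimit_omega 1).succ_lt hp.lt
    · intro ξ hξ
      rw [hg2 ξ hξ.ne']
      exact hp.zero ξ (hlt.trans hξ)
    · intro ξ hξ
      rcases hξ.eq_or_lt with rfl | h
      · rw [hg1, ← Order.succ_eq_add_one]
        exact hκ.succ_lt (max_lt hβ (hp.bdd _ le_rfl))
      · rw [hg3 ξ h]
        exact hp.bdd ξ (hle ξ h)
    · intro ξ hξ ξ' hξ'
      rcases hξ.eq_or_lt with rfl | h
      · rw [hg1, hg3 ξ' hξ']
        refine lt_of_le_of_lt (le_trans ?_ (le_max_right _ _)) (lt_add_one _)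
        rcases (hle ξ' hξ').eq_or_lt with h | h
        · rw [h]
        · exact (hp.mono _ le_rfl _ h).le
      · rw [hg3 ξ h, hg3 ξ' (hξ'.trans h)]
        exact hp.mono ξ (hle ξ h) ξ' hξ'
    · intro ξ hξ hl ν hν
      rcases hξ.eq_or_lt with rfl | h
      · exact absurd hl hnl
      · rw [hg3 ξ h] at hν
        obtain ⟨ξ', h1, h2⟩ := hp.cont ξ (hle ξ h) hl ν hν
        exact ⟨ξ', h1, by rwa [hg3 ξ' (h1.trans h)]⟩
    · intro ξ hξ hl
      rcases hξ.eq_or_lt with rfl | h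
      · exact absurd hl hnl
      · rw [hg3 ξ h]
        exact hp.pat ξ (hle ξ h) hl
  refine ⟨⟨(p.len + 1, g), hcond⟩, ⟨hlt.le, fun ξ hξ => hg3 ξ (hξ.trans_lt hlt)⟩, rfl, ?_⟩
  change β < g (p.len + 1)
  rw [hg1]
  exact lt_of_le_of_lt (le_max_left _ _) (lt_add_one _)

end Cond

end Pool.Agent.Helper56.MW
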