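import Pool.Agent.Helper56.MW.PosDefs

open FirstOrder FirstOrder.Language Ordinal Cardinal Set Helper23.Pcf

universe u v

namespace Pool.Agent.Helper56.MW

namespace Cond

variable {κ : Ordinal.{u}} {S A : Set Ordinal.{u}}

/-- (B3) Lower bounds of decreasing sequences.

Proof: `q.len = δ`, and `q.fn ξ` is `(p n).fn ξ` for `ξ < δ` with `n` least such that
`ξ ≤ (p n).len` (any larger `n` gives the same value since `p` is decreasing), `q.fn δ = γ`,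
`q.fn ξ = 0` for `ξ > δ`.
Monotonicity and continuity below `δ` come from the `p n`; at `δ`: `q.fn ξ ≤ (p n).fn (p n).len < γ`
for `ξ < δ` by `hγ1`, and continuity at `δ` is `hγ2`.  `δ` is a limit by `hδ1`, `hδ2`; the
pattern at `δ` is `hpat`. -/
theorem lower_bound (p : ℕ → Cond κ S A) (hp : ∀ n, p (n + 1) ≤ p n) {δ γ : Ordinal.{u}}
    (hδ : δ < ω_ 1) (hδ1 : ∀ n, (p n).len < δ) (hδ2 : ∀ ξ < δ, ∃ n, ξ < (p n).len)
    (hγ : γ < κ) (hγ1 : ∀ n, (p n).fn (p n).len < γ)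
    (hγ2 : ∀ ν < γ, ∃ n, ν < (p n).fn (p n).len) (hpat : γ ∈ S ↔ δ ∈ A) :
    ∃ q : Cond κ S A, (∀ n, q ≤ p n) ∧ q.len = δ ∧ q.fn δ = γ := by
  classical
  have hanti : ∀ n m, n ≤ m → p m ≤ p n := fun n m h => antitone_nat_of_succ_le hp h
  choose N hN using hδ2
  set g : Ordinal.{u} → Ordinal.{u} := fun ξ =>
    if h : ξ < δ then (p (N ξ h)).fn ξ else if ξ = δ then γ else 0 with hg
  have key : ∀ n ξ, ξ ≤ (p n).len → g ξ = (p n).fn ξ := by
    intro n ξ hξ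
    have h : ξ < δ := hξ.trans_lt (hδ1 n)
    have h1 : g ξ = (p (N ξ h)).fn ξ := by simp [hg, h]
    rw [h1, ← (hanti _ _ (le_max_left n (N ξ h))).2 ξ hξ,
      (hanti _ _ (le_max_right n (N ξ h))).2 ξ (hN ξ h).le]
  have keyδ : g δ = γ := by simp [hg]
  have key0 : ∀ ξ, δ < ξ → g ξ = 0 := by
    intro ξ hξ
    simp [hg, hξ.not_gt, hξ.ne']
  have hcond : IsCond κ S A δ g := by
    refine ⟨hδ, key0, ?_, ?_, ?_, ?_⟩
    · intro ξ hξ
      rcases hξ.eq_or_lt with rfl | h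
      · rwa [keyδ]
      · rw [key _ ξ (hN ξ h).le]
        exact (p _).isCond.bdd ξ (hN ξ h).le
    · intro ξ hξ ξ' hξ'
      rcases hξ.eq_or_lt with rfl | h
      · rw [keyδ, key _ ξ' (hN ξ' hξ').le]
        exact ((p _).isCond.mono _ le_rfl ξ' (hN ξ' hξ')).trans (hγ1 _)
      · rw [key _ ξ (hN ξ h).le, key _ ξ' (hξ'.le.trans (hN ξ h).le)]
        exact (p _).isCond.mono ξ (hN ξ h).le ξ' hξ'
    · intro ξ hξ hl ν hν
      rcases hξ.eq_or_lt with rfl | h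
      · rw [keyδ] at hν
        obtain ⟨n, hn⟩ := hγ2 ν hν
        exact ⟨(p n).len, hδ1 n, by rwa [key n _ le_rfl]⟩
      · rw [key _ ξ (hN ξ h).le] at hν
        obtain ⟨ξ', h1, h2⟩ := (p _).isCond.cont ξ (hN ξ h).le hl ν hν
        exact ⟨ξ', h1, by rwa [key _ ξ' (h1.le.trans (hN ξ h).le)]⟩
    · intro ξ hξ hl
      rcases hξ.eq_or_lt with rfl | h
      · rwa [keyδ]
      · rw [key _ ξ (hN ξ h).le]
        exact (p _).isCond.pat ξ (hN ξ h).le hl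
  exact ⟨⟨(δ, g), hcond⟩, fun n => ⟨(hδ1 n).le, fun ξ hξ => key n ξ hξ⟩, rfl, keyδ⟩

end Cond

end Pool.Agent.Helper56.MW
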