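import Mathlib

/-!
# The language of set theory and definable relations on the universe

`LSet` is the first-order language with one binary relation symbol.  The universe `ZFSet` is a
structure for it, with the true membership relation.
-/

open FirstOrder FirstOrder.Language

universe u

namespace Pool.Agent.Helper56.MW

/-- The relation symbols of the language of set theory: one binary symbol. -/
inductive MemRel : ℕ → Type
  | mem : MemRel 2

/-- The first-order language of set theory, with a single binary relation symbol. -/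
def LSet : FirstOrder.Language := ⟨fun _ => Empty, MemRel⟩

/-- Interpretation of the membership symbol. -/
def memRelMap : ∀ {n : ℕ}, MemRel n → (Fin n → ZFSet.{u}) → Prop
  | _, MemRel.mem, x => x 0 ∈ x 1

/-- The universe of sets as a structure for the language of set theory. -/
instance univStructure : LSet.Structure ZFSet.{u} where
  funMap := fun f => Empty.elim f
  RelMap := fun r x => memRelMap r x

/-- The membership symbol. -/
abbrev memSym : LSet.Relations 2 := MemRel.mem

/-! ### Pure definable relations -/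

/-- `P` is first-order definable without parameters in the universe. -/
def D0 {γ : Type} (P : (γ → ZFSet.{u}) → Prop) : Prop :=
  ∃ φ : LSet.Formula γ, ∀ s : γ → ZFSet.{u}, φ.Realize s ↔ P s

namespace D0

variable {γ δ : Type} {P Q : (γ → ZFSet.{u}) → Prop}

theorem congr (h : D0 P) (e : ∀ s, P s ↔ Q s) : D0 Q := by
  obtain ⟨φ, hφ⟩ := h
  exact ⟨φ, fun s => (hφ s).trans (e s)⟩

theorem mem (i j : γ) : D0.{u} (fun s => s i ∈ s j) := by
  refine ⟨memSym.formula₂ (Term.var i) (Term.var j), fun s => ?_⟩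
  rw [Formula.realize_rel₂]
  exact Iff.rfl

theorem eq (i j : γ) : D0.{u} (fun s => s i = s j) := by
  refine ⟨(Term.var i).equal (Term.var j), fun s => ?_⟩
  rw [Formula.realize_equal]
  exact Iff.rfl

theorem true : D0.{u} (fun (_ : γ → ZFSet.{u}) => True) :=
  ⟨⊤, fun s => by simp⟩

theorem false : D0.{u} (fun (_ : γ → ZFSet.{u}) => False) :=
  ⟨⊥, fun s => by simp⟩

theorem not (h : D0 P) : D0 (fun s => ¬ P s) := by
  obtain ⟨φ, hφ⟩ := h
  refine ⟨φ.not, fun s => ?_⟩
  rw [Formula.realize_not, hφ s]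

theorem imp (h : D0 P) (h' : D0 Q) : D0 (fun s => P s → Q s) := by
  obtain ⟨φ, hφ⟩ := h
  obtain ⟨ψ, hψ⟩ := h'
  refine ⟨φ.imp ψ, fun s => ?_⟩
  rw [Formula.realize_imp, hφ s, hψ s]

theorem and (h : D0 P) (h' : D0 Q) : D0 (fun s => P s ∧ Q s) := by
  obtain ⟨φ, hφ⟩ := h
  obtain ⟨ψ, hψ⟩ := h'
  refine ⟨φ ⊓ ψ, fun s => ?_⟩
  rw [Formula.realize_inf, hφ s, hψ s]

theorem or (h : D0 P) (h' : D0 Q) : D0 (fun s => P s ∨ Q s) := by
  obtain ⟨φ, hφ⟩ := h
  obtain ⟨ψ, hψ⟩ := h'
  refine ⟨φ ⊔ ψ, fun s => ?_⟩
  rw [Formula.realize_sup, hφ s, hψ s]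

theorem iff (h : D0 P) (h' : D0 Q) : D0 (fun s => P s ↔ Q s) := by
  obtain ⟨φ, hφ⟩ := h
  obtain ⟨ψ, hψ⟩ := h'
  refine ⟨φ.iff ψ, fun s => ?_⟩
  rw [Formula.realize_iff, hφ s, hψ s]

theorem relabel {R : (δ → ZFSet.{u}) → Prop} (g : δ → γ) (h : D0 R) :
    D0 (fun (s : γ → ZFSet.{u}) => R (fun i => s (g i))) := by
  obtain ⟨φ, hφ⟩ := h
  refine ⟨φ.relabel g, fun s => ?_⟩
  rw [Formula.realize_relabel, hφ]
  rfl

/-- Universal quantification over finitely many variables. -/
theorem alls [Finite δ] {R : (γ ⊕ δ → ZFSet.{u}) → Prop} (h : D0 R) :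
    D0 (fun (s : γ → ZFSet.{u}) => ∀ x : δ → ZFSet.{u}, R (Sum.elim s x)) := by
  obtain ⟨φ, hφ⟩ := h
  refine ⟨φ.iAlls δ, fun s => ?_⟩
  rw [Formula.realize_iAlls]
  constructor
  · intro H x
    have := (hφ _).1 (H x)
    convert this using 1
  · intro H x
    exact (hφ _).2 (H x)

theorem all {P : ZFSet.{u} → (γ → ZFSet.{u}) → Prop}
    (h : D0 (γ := Option γ) (fun s => P (s none) (fun i => s (some i)))) :
    D0 (fun (s : γ → ZFSet.{u}) => ∀ x, P x s) := by
  have h1 := alls (γ := γ) (δ := Unit) (relabel (γ := γ ⊕ Unit) (δ := Option γ)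
    (fun o => match o with
      | none => Sum.inr ()
      | some a => Sum.inl a) h)
  refine h1.congr fun s => ?_
  constructor
  · intro H x
    exact H (fun _ => x)
  · intro H x
    exact H (x ())

theorem ex {P : ZFSet.{u} → (γ → ZFSet.{u}) → Prop}
    (h : D0 (γ := Option γ) (fun s => P (s none) (fun i => s (some i)))) :
    D0 (fun (s : γ → ZFSet.{u}) => ∃ x, P x s) := by
  have h1 := (all (P := fun x s => ¬ P x s) h.not).not
  refine h1.congr fun s => ?_
  push Not
  rfl

theorem allFin [Finite δ] {P : δ → (γ → ZFSet.{u}) → Prop} (h : ∀ i, D0 (P i)) :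
    D0 (fun s => ∀ i, P i s) := by
  choose φ hφ using h
  refine ⟨Formula.iInf φ, fun s => ?_⟩
  rw [Formula.realize_iInf]
  exact forall_congr' fun i => hφ i s

theorem exFin [Finite δ] {P : δ → (γ → ZFSet.{u}) → Prop} (h : ∀ i, D0 (P i)) :
    D0 (fun s => ∃ i, P i s) := by
  choose φ hφ using h
  refine ⟨Formula.iSup φ, fun s => ?_⟩
  rw [Formula.realize_iSup]
  exact exists_congr fun i => hφ i s

theorem subset (i j : γ) : D0.{u} (fun s => s i ⊆ s j) :=
  (all (P := fun x s => x ∈ s i → x ∈ s j) ((mem none (some i)).imp (mem none (some j)))).congr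
    fun _ => Iff.rfl

theorem isTransitive (i : γ) : D0.{u} (fun s => (s i).IsTransitive) :=
  (all (P := fun x s => x ∈ s i → x ⊆ s i) ((mem none (some i)).imp (subset none (some i)))).congr
    fun _ => Iff.rfl

theorem isOrdinal (i : γ) : D0.{u} (fun s => (s i).IsOrdinal) :=
  ((isTransitive i).and (all (P := fun x s => x ∈ s i → x.IsTransitive)
    ((mem none (some i)).imp (isTransitive none)))).congr
    fun _ => ZFSet.isOrdinal_iff_forall_mem_isTransitive.symm

theorem isEmpty (i : γ) : D0.{u} (fun s => s i = ∅) :=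
  (all (P := fun x s => ¬ x ∈ s i) (mem none (some i)).not).congr
    fun s => (ZFSet.eq_empty (s i)).symm

theorem isPair (i j k : γ) : D0.{u} (fun s => s i = {s j, s k}) :=
  (all (P := fun x s => x ∈ s i ↔ (x = s j ∨ x = s k))
    ((mem none (some i)).iff ((eq none (some j)).or (eq none (some k))))).congr fun s => by
    constructor
    · intro H
      ext x
      rw [H x, ZFSet.mem_pair]
    · intro H x
      rw [H, ZFSet.mem_pair]

theorem pairMem (i j k : γ) : D0.{u} (fun s => ZFSet.pair (s i) (s j) ∈ s k) :=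
  (ex (P := fun p s => (∃ a, ∃ b, a = {s i, s i} ∧ b = {s i, s j} ∧ p = {a, b}) ∧ p ∈ s k)
    ((ex (P := fun a s => ∃ b, a = {s (some i), s (some i)} ∧ b = {s (some i), s (some j)} ∧
        s none = {a, b})
      (ex (P := fun b s => s none = {s (some (some i)), s (some (some i))} ∧
          b = {s (some (some i)), s (some (some j))} ∧ s (some none) = {s none, b})
        ((isPair (some none) (some (some (some i))) (some (some (some i)))).and
          ((isPair none (some (some (some i))) (some (some (some j)))).and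
            (isPair (some (some none)) (some none) none))))).and
      (mem none (some k)))).congr fun s => by
    constructor
    · rintro ⟨p, ⟨a, b, rfl, rfl, rfl⟩, hp⟩
      rw [ZFSet.pair]
      rwa [ZFSet.pair_eq_singleton] at hp
    · intro H
      rw [ZFSet.pair] at H
      refine ⟨_, ⟨_, _, rfl, rfl, rfl⟩, ?_⟩
      rwa [ZFSet.pair_eq_singleton]

end D0

end Pool.Agent.Helper56.MW
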