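import Pool.Agent.Helper56.MW.A1
import Pool.Agent.Helper56.MW.A5
import Pool.Agent.Helper56.MW.B1
import Pool.Agent.Helper56.MW.B3

open FirstOrder FirstOrder.Language Ordinal Cardinal Set Helper23.Pcf

universe u v

namespace Pool.Agent.Helper56.MW

namespace Cond

/-- An increasing cofinal sequence. -/
private theorem C1_seq {o : Ordinal.{u}} (ho : o.cof = ℵ₀) :
    ∃ x : ℕ → Ordinal.{u}, StrictMono x ∧ (∀ n, x n < o) ∧ ∀ ζ < o, ∃ n, ζ < x n := by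
  have ha : o.cof.ord = Ordinal.omega0 := by rw [ho, ord_aleph0]
  obtain ⟨f, hf⟩ := exists_isFundamentalSeq ha
  have hmono : StrictMono fun n : ℕ => ((f ⟨n, Ordinal.natCast_lt_omega0 n⟩ : Iio o) : Ordinal.{u}) := by
    intro a b hab
    have h1 : (⟨(a : Ordinal.{u}), Ordinal.natCast_lt_omega0 a⟩ : Iio Ordinal.omega0.{u}) <
        ⟨(b : Ordinal.{u}), Ordinal.natCast_lt_omega0 b⟩ := by
      rw [Subtype.mk_lt_mk]
      exact_mod_cast hab
    exact hf.strictMono h1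
  refine ⟨_, hmono, fun n => (f _).2, ?_⟩
  intro ζ hζ
  obtain ⟨_, ⟨⟨c, hc⟩, rfl⟩, hc'⟩ := hf.isCofinal_range ⟨ζ, hζ⟩
  obtain ⟨m, rfl⟩ := Ordinal.lt_omega0.1 hc
  refine ⟨m + 1, lt_of_le_of_lt ?_ (hmono (Nat.lt_succ_self m))⟩
  exact hc'

/-- (C1) The inductive step of the density lemma at limits.

Proof.  `ξ` is a countable limit ordinal, so there is an increasing sequence of ordinals
`x n < ξ`, cofinal in `ξ`, with `p.len < x 0` (for instance from `Ordinal.exists_isFundamentalSeq`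
and `cof ξ = ℵ₀`, or from an enumeration of the countable set `Iio ξ`).  By `ih` choose for all
conditions `r`, all `n` with `r.len < x n`, all `ν < κ.ord` a condition `F r n ν ≤ r` with
`(F r n ν).len = x n` and `ν < (F r n ν).fn (x n)`.  For a list `l = [ν₀, …, ν_(k-1)]` of ordinals
below `κ.ord` let `Φ l` be the condition obtained from `p` by applying successively
`F · 0 ν₀, F · 1 ν₁, …` (`Φ [] = p`; take `List.foldl` with a counter, or recursion on a reversed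
list).  So `(Φ l).len = x (k-1)` for `k ≥ 1`.  By `club_closure` (with `I = PUnit`) the set of `γ` such
that `(Φ l).fn (Φ l).len < γ` for all lists `l` with entries below `γ` is a club in `κ.ord`.
Choose in it a `γ > β` with `γ.cof = ℵ₀` and `γ ∈ S ↔ ξ ∈ A`: use `hS` if `ξ ∈ A`, `hS'` if not
(intersect the club with `Ioi β`, `club_Ioi`).  Let `ν n` be a strictly increasing sequence cofinal
in `γ`, and `p n = Φ [ν 0, …, ν (n-1)]`.  Then `lower_bound` applies with `δ = ξ` (use the sequence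
`n ↦ p n`): `(p n).len < ξ`, the lengths are cofinal, `(p n).fn (p n).len < γ` and
`ν n < (p (n+1)).fn (p (n+1)).len`. -/
theorem dens_limit {κ : Cardinal.{u}} (hκ : κ.IsRegular) (h1 : ℵ_ 1 < κ) {S A : Set Ordinal.{u}}
    (hS : StatIn {γ | γ.cof = ℵ₀ ∧ γ ∈ S} κ.ord) (hS' : StatIn {γ | γ.cof = ℵ₀ ∧ γ ∉ S} κ.ord)
    {ξ : Ordinal.{u}} (hξ : ξ < ω_ 1) (hlim : Order.IsSuccLimit ξ)
    (ih : ∀ ζ < ξ, ∀ p : Cond κ.ord S A, p.len < ζ → ∀ β < κ.ord,
      ∃ q ≤ p, q.len = ζ ∧ β < q.fn ζ) (p : Cond κ.ord S A) (hp : p.len < ξ)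
    (β : Ordinal.{u}) (hβ : β < κ.ord) : ∃ q ≤ p, q.len = ξ ∧ β < q.fn ξ := by
  classical
  have h0 : ℵ₀ < κ := Cardinal.aleph0_lt_aleph_one.trans h1
  have hcof : ℵ₀ < κ.ord.cof := by rw [hκ.cof_ord]; exact h0
  have hκlim : Order.IsSuccLimit κ.ord := Ordinal.one_lt_cof_iff.1 (one_lt_aleph0.trans hcof)
  obtain ⟨x', hx'mono, hx'lt, hx'cof⟩ := C1_seq (cof_eq_aleph0_of_isSuccLimit hlim hξ)
  obtain ⟨N, hN⟩ := hx'cof _ hp
  obtain ⟨x, hx0, hxmono, hxlt, hxcof⟩ : ∃ x : ℕ → Ordinal.{u}, p.len < x 0 ∧ StrictMono x ∧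
      (∀ n, x n < ξ) ∧ ∀ ζ < ξ, ∃ n, ζ < x n := by
    refine ⟨fun n => x' (n + N), ?_, ?_, fun n => hx'lt _, ?_⟩
    · simpa using hN
    · intro a b hab
      exact hx'mono (Nat.add_lt_add_right hab N)
    · intro ζ hζ
      obtain ⟨n, hn⟩ := hx'cof ζ hζ
      exact ⟨n, hn.trans_le (hx'mono.monotone (by omega))⟩
  have hF : ∀ (r : Cond κ.ord S A) (n : ℕ) (ν : Ordinal.{u}), ∃ q : Cond κ.ord S A,
      r.len < x n → ν < κ.ord → q ≤ r ∧ q.len = x n ∧ ν < q.fn (x n) := by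
    intro r n ν
    by_cases h : r.len < x n ∧ ν < κ.ord
    · obtain ⟨q, hq⟩ := ih (x n) (hxlt n) r h.1 ν h.2
      exact ⟨q, fun _ _ => hq⟩
    · exact ⟨r, fun h2 h3 => absurd ⟨h2, h3⟩ h⟩
  choose F hF using hF
  let Ψ : List (PUnit.{u + 1} × Ordinal.{u}) → Cond κ.ord S A := fun l =>
    List.rec p (fun a t r => F r t.length a.2) l
  have hΨ0 : Ψ [] = p := rfl
  have hΨ1 : ∀ a t, Ψ (a :: t) = F (Ψ t) t.length a.2 := fun a t => rfl
  have hC := club_closure hκ h0 (I := PUnit.{u + 1}) (lt_of_lt_of_le (by simp) h0.le)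
    (fun l => (Ψ l).fn (Ψ l).len) (fun l _ => (Ψ l).isCond.bdd _ le_rfl)
  have hC2 := club_inter hcof hC (club_Ioi hκlim hβ)
  obtain ⟨γ, hγcof, hγpat, hγC, hγβ, hγκ⟩ : ∃ γ : Ordinal.{u}, γ.cof = ℵ₀ ∧ (γ ∈ S ↔ ξ ∈ A) ∧
      (∀ l : List (PUnit.{u + 1} × Ordinal.{u}), (∀ x ∈ l, x.2 < γ) → (Ψ l).fn (Ψ l).len < γ) ∧
      β < γ ∧ γ < κ.ord := by
    by_cases hA : ξ ∈ A
    · obtain ⟨γ, hγ1, hγ2, hγ3⟩ := hS _ hC2
      exact ⟨γ, hγ1.1, by simp [hA, hγ1.2], hγ2.1, hγ2.2, hγ3⟩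
    · obtain ⟨γ, hγ1, hγ2, hγ3⟩ := hS' _ hC2
      exact ⟨γ, hγ1.1, by simp [hA, hγ1.2], hγ2.1, hγ2.2, hγ3⟩
  obtain ⟨ν, -, hνlt, hνcof⟩ := C1_seq hγcof
  let L : ℕ → List (PUnit.{u + 1} × Ordinal.{u}) := fun n =>
    Nat.rec [] (fun m t => (PUnit.unit, ν m) :: t) n
  have hL1 : ∀ n, L (n + 1) = (PUnit.unit, ν n) :: L n := fun n => rfl
  have hLlen : ∀ n, (L n).length = n := by
    intro n
    induction n with
    | zero => rfl
    | succ n ih' => rw [hL1, List.length_cons, ih']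
  have hLlt : ∀ n, ∀ y ∈ L n, y.2 < γ := by
    intro n
    induction n with
    | zero =>
      intro y hy
      exact absurd hy List.not_mem_nil
    | succ n ih' =>
      intro y hy
      rw [hL1] at hy
      rcases List.mem_cons.1 hy with h | h
      · rw [h]
        exact hνlt n
      · exact ih' y h
  have hstep : ∀ n, Ψ (L (n + 1)) = F (Ψ (L n)) n (ν n) := by
    intro n
    rw [hL1, hΨ1, hLlen]
  have hlen : ∀ n, (Ψ (L n)).len < x n := by
    intro n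
    induction n with
    | zero => exact hx0
    | succ n ih' =>
      rw [hstep, (hF _ n (ν n) ih' ((hνlt n).trans hγκ)).2.1]
      exact hxmono (Nat.lt_succ_self n)
  have hprop : ∀ n, Ψ (L (n + 1)) ≤ Ψ (L n) ∧ (Ψ (L (n + 1))).len = x n ∧
      ν n < (Ψ (L (n + 1))).fn (x n) := by
    intro n
    rw [hstep]
    exact hF _ n (ν n) (hlen n) ((hνlt n).trans hγκ)
  obtain ⟨q, hq1, hq2, hq3⟩ := lower_bound (fun n => Ψ (L n)) (fun n => (hprop n).1) hξ
    (fun n => (hlen n).trans (hxlt n))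
    (by
      intro ζ hζ
      obtain ⟨n, hn⟩ := hxcof ζ hζ
      refine ⟨n + 1, ?_⟩
      rw [(hprop n).2.1]
      exact hn)
    hγκ (fun n => hγC _ (hLlt n))
    (by
      intro ζ hζ
      obtain ⟨n, hn⟩ := hνcof ζ hζ
      refine ⟨n + 1, hn.trans ?_⟩
      rw [(hprop n).2.1]
      exact (hprop n).2.2)
    hγpat
  refine ⟨q, ?_, hq2, ?_⟩
  · exact hq1 0
  · rw [hq3]
    exact hγβ

end Cond

end Pool.Agent.Helper56.MW
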