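import Pool.Agent.Helper56.MW.C1

open FirstOrder FirstOrder.Language Ordinal Cardinal Set Helper23.Pcf

universe u v

namespace Pool.Agent.Helper56.MW

namespace Cond

/-- (C2) Conditions can be extended to every countable length, with last value as large as we wish.

Proof: strong induction on `ξ`.  `ξ = 0` is impossible.  `ξ = ζ + 1`: if `p.len = ζ` use `step`;
if `p.len < ζ` extend first to length `ζ` (induction hypothesis), then use `step`.
`ξ` limit: `dens_limit`. -/
theorem dens {κ : Cardinal.{u}} (hκ : κ.IsRegular) (h1 : ℵ_ 1 < κ) {S A : Set Ordinal.{u}}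
    (hS : StatIn {γ | γ.cof = ℵ₀ ∧ γ ∈ S} κ.ord) (hS' : StatIn {γ | γ.cof = ℵ₀ ∧ γ ∉ S} κ.ord)
    (ξ : Ordinal.{u}) (hξ : ξ < ω_ 1) (p : Cond κ.ord S A) (hp : p.len < ξ)
    (β : Ordinal.{u}) (hβ : β < κ.ord) : ∃ q ≤ p, q.len = ξ ∧ β < q.fn ξ := by
  have hlim : Order.IsSuccLimit κ.ord := Cardinal.isSuccLimit_ord hκ.aleph0_le
  induction ξ using WellFoundedLT.induction generalizing p β with
  | _ ξ ih =>
    rcases Ordinal.zero_or_succ_or_isSuccLimit ξ with h0 | ⟨ζ, h⟩ | h
    · subst h0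
      exact absurd hp not_lt_zero
    · have h : ξ = ζ + 1 := by
        rw [← Order.succ_eq_add_one]
        exact h.symm
      subst h
      have hζ : ζ < ζ + 1 := lt_add_one ζ
      rcases (Order.lt_add_one_iff.1 hp).eq_or_lt with h2 | h2
      · obtain ⟨q, hq, hl, hb⟩ := step hlim p β hβ
        rw [h2] at hl
        refine ⟨q, hq, hl, ?_⟩
        rwa [hl] at hb
      · obtain ⟨r, hr, hrl, -⟩ := ih ζ hζ (hζ.trans hξ) p h2 β hβ
        obtain ⟨q, hq, hl, hb⟩ := step hlim r β hβ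
        rw [hrl] at hl
        refine ⟨q, hq.trans hr, hl, ?_⟩
        rwa [hl] at hb
    · exact dens_limit hκ h1 hS hS' hξ h
        (fun ζ hζ p hp β hβ => ih ζ hζ (hζ.trans hξ) p hp β hβ) p hp β hβ

end Cond

end Pool.Agent.Helper56.MW
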