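import Pool.Agent.Helper56.MW.Defs

open FirstOrder FirstOrder.Language Ordinal Cardinal Set Helper23.Pcf

universe u v

namespace Pool.Agent.Helper56.MW

/-- `f` is a condition of length `δ + 1`: a continuous increasing sequence of ordinals below `κ`
whose limit points follow the pattern `A` through `S`. -/
structure IsCond (κ : Ordinal.{u}) (S A : Set Ordinal.{u}) (δ : Ordinal.{u})
    (f : Ordinal.{u} → Ordinal.{u}) : Prop where
  lt : δ < ω_ 1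
  zero : ∀ ξ, δ < ξ → f ξ = 0
  bdd : ∀ ξ ≤ δ, f ξ < κ
  mono : ∀ ξ ≤ δ, ∀ ξ' < ξ, f ξ' < f ξ
  cont : ∀ ξ ≤ δ, Order.IsSuccLimit ξ → ∀ ν < f ξ, ∃ ξ' < ξ, ν < f ξ'
  pat : ∀ ξ ≤ δ, Order.IsSuccLimit ξ → (f ξ ∈ S ↔ ξ ∈ A)

/-- The forcing notion of Foreman, Magidor and Shelah. -/
def Cond (κ : Ordinal.{u}) (S A : Set Ordinal.{u}) : Type (u + 1) :=
  {x : Ordinal.{u} × (Ordinal.{u} → Ordinal.{u}) // IsCond κ S A x.1 x.2}

namespace Cond

variable {κ : Ordinal.{u}} {S A : Set Ordinal.{u}}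

/-- The last point of the domain. -/
def len (p : Cond κ S A) : Ordinal.{u} := p.1.1

/-- The sequence. -/
def fn (p : Cond κ S A) : Ordinal.{u} → Ordinal.{u} := p.1.2

theorem isCond (p : Cond κ S A) : IsCond κ S A p.len p.fn := p.2

instance : Preorder (Cond κ S A) where
  le q p := p.len ≤ q.len ∧ ∀ ξ ≤ p.len, q.fn ξ = p.fn ξ
  le_refl p := ⟨le_rfl, fun _ _ => rfl⟩
  le_trans a b c h1 h2 :=
    ⟨h2.1.trans h1.1, fun ξ hξ => (h1.2 ξ (hξ.trans h2.1)).trans (h2.2 ξ hξ)⟩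

theorem le_def {q p : Cond κ S A} : q ≤ p ↔ p.len ≤ q.len ∧ ∀ ξ ≤ p.len, q.fn ξ = p.fn ξ :=
  Iff.rfl

/-- The union of a filter of conditions. -/
noncomputable def union (G : Set (Cond κ S A)) (ξ : Ordinal.{u}) : Ordinal.{u} :=
  sSup {ν | ∃ p ∈ G, ξ ≤ p.len ∧ ν = p.fn ξ}

end Cond

end Pool.Agent.Helper56.MW
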