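import Pool.Agent.Helper56.MW.A1
import Pool.Agent.Helper56.MW.A5
import Pool.Agent.Helper56.MW.PosDefs

open FirstOrder FirstOrder.Language Ordinal Cardinal Set Helper23.Pcf

universe u v

namespace Pool.Agent.Helper56.MW

/-- An ordinal of countable cofinality is the limit of a sequence. -/
private theorem C3_seq {γ : Ordinal.{u}} (h : γ.cof = ℵ₀) :
    ∃ ν : ℕ → Ordinal.{u}, (∀ n, ν n < γ) ∧ ∀ ζ < γ, ∃ n, ζ < ν n := by
  have hlim : Order.IsSuccLimit γ := Ordinal.one_lt_cof_iff.1 (h ▸ Cardinal.one_lt_aleph0)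
  obtain ⟨e, he⟩ := Ordinal.exists_isFundamentalSeq (o := γ) rfl
  have hord : γ.cof.ord = ω := by rw [h, Cardinal.ord_aleph0]
  have hn : ∀ n : ℕ, (n : Ordinal.{u}) < γ.cof.ord := by
    intro n
    rw [hord]
    exact Ordinal.natCast_lt_omega0 n
  refine ⟨fun n => Order.succ (e ⟨n, hn n⟩).1, fun n => hlim.succ_lt (e ⟨n, hn n⟩).2,
    fun ζ hζ => ?_⟩
  obtain ⟨_, ⟨j, rfl⟩, hj⟩ := he.isCofinal_range ⟨ζ, hζ⟩
  have hj2 : j.1 < ω := lt_of_lt_of_eq (Set.mem_Iio.1 j.2) hord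
  obtain ⟨n, hn2⟩ := Ordinal.lt_omega0.1 hj2
  refine ⟨n, lt_of_le_of_lt hj ?_⟩
  have hjn : j = ⟨(n : Ordinal.{u}), hn n⟩ := Subtype.ext hn2
  rw [hjn]
  exact Order.lt_succ _

private theorem C3_cof {δ : Ordinal.{u}} (hδ : δ < ω_ 1) (hlim : Order.IsSuccLimit δ) :
    δ.cof = ℵ₀ := by
  apply le_antisymm
  · have h1 : δ.card < ℵ_ 1 := by
      rw [← Cardinal.ord_aleph] at hδ
      exact Cardinal.lt_ord.1 hδ
    rw [← Cardinal.succ_aleph0, Order.lt_succ_iff] at h1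
    exact (Ordinal.cof_le_card δ).trans h1
  · exact Ordinal.aleph0_le_cof_iff.2 (Ordinal.one_lt_cof_iff.2 hlim)

namespace Cond

/-- The condition obtained by a list of steps (the last step is the head). -/
private def C3_run {κ : Ordinal.{u}} {S A : Set Ordinal.{u}} (p₀ : Cond κ S A)
    (F : Cond κ S A → Ordinal.{u} → Ordinal.{u} → Cond κ S A) :
    List (Ordinal.{u} × Ordinal.{u}) → Cond κ S A
  | [] => p₀
  | q :: t => F (C3_run p₀ F t) q.1 q.2

/-- The length of the result and the value of `a` at the last step. -/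
private noncomputable def C3_val {κ : Ordinal.{u}} {S A : Set Ordinal.{u}} (p₀ : Cond κ S A)
    (F : Cond κ S A → Ordinal.{u} → Ordinal.{u} → Cond κ S A)
    (a : Cond κ S A → Ordinal.{u} → Ordinal.{u} → Ordinal.{u}) :
    List (Ordinal.{u} × Ordinal.{u}) → Ordinal.{u}
  | [] => (C3_run p₀ F []).len
  | q :: t => max (C3_run p₀ F (q :: t)).len (a (C3_run p₀ F t) q.1 q.2)

private theorem C3_len_le {κ : Ordinal.{u}} {S A : Set Ordinal.{u}} (p₀ : Cond κ S A)
    (F : Cond κ S A → Ordinal.{u} → Ordinal.{u} → Cond κ S A)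
    (a : Cond κ S A → Ordinal.{u} → Ordinal.{u} → Ordinal.{u})
    (l : List (Ordinal.{u} × Ordinal.{u})) : (C3_run p₀ F l).len ≤ C3_val p₀ F a l := by
  cases l with
  | nil => exact le_refl _
  | cons q t => exact le_max_left _ _

/-- (C3) The combinatorial heart of the preservation lemma.

`E` is a stationary subset of `ω₁` all of whose elements are in `A`, or all outside `A`
(`hE`: for each `δ ∈ E`, `δ ∈ A ↔ b`), and `F p ξ β` is a condition below `p` of
length at least `ξ`, with last value above `β`, and `a p ξ β < ω₁`.  Then there are `δ ∈ E`,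
`γ < κ.ord` with (`γ ∈ S ↔ b`) and a sequence of conditions below `p₀` obtained by iterating `F`
whose lengths are cofinal in `δ`, whose last values are cofinal in `γ`, and for which `a` stays
below `δ`.

Proof.  For a list `l` of pairs `(ξ, β)` let `Φ l` be obtained from `p₀` by applying successively
`F · ξ β`.  By `club_closure` for `κ` with index set `I = (ω_ 1).ToType` (`#I = ℵ_ 1 < κ`)
the set of `γ < κ.ord` such that for all lists `l` of pairs in `ω₁ × γ` the last value of `Φ l`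
is below `γ` is a club in `κ.ord` (apply it to
`f l = (Φ (l.map fun q => (q.1 as an ordinal, q.2))).fn (…).len`).
Choose in it `γ` with `γ.cof = ℵ₀` and `γ ∈ S ↔ b`, from `hS` or `hS'`.  Let `ν n` be
strictly increasing and cofinal in `γ`.  Now by `club_closure` for `ℵ_ 1`, with index set
`I = ULift ℕ`, the set of `δ < ω₁` such that for all lists `l` of pairs `(n, ξ)` with `ξ < δ`
the ordinals `(Φ l').len` and `a (Φ l') ξ' (ν n')` are below `δ`, where
`l' = l.map fun q => (q.2, ν q.1)`, for all `l` (and, for the second one, for all `ξ' < δ` and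
`n'`; encode it as the last entry of the list) is a club; choose `δ ∈ E` in it, `δ > 0` a
limit ordinal (`club_limits`).  Let `x n` be cofinal in `δ` with `x n < x (n+1)` (`δ` is a
countable limit ordinal) and let `p n = Φ [(x 0, ν 0), …, (x (n-1), ν (n-1))]`. -/
theorem pres_core {κ : Cardinal.{u}} (hκ : κ.IsRegular) (h1 : ℵ_ 1 < κ) {S A : Set Ordinal.{u}}
    (hS : StatIn {γ | γ.cof = ℵ₀ ∧ γ ∈ S} κ.ord) (hS' : StatIn {γ | γ.cof = ℵ₀ ∧ γ ∉ S} κ.ord)
    (p₀ : Cond κ.ord S A) (b : Prop) {E : Set Ordinal.{u}} (hE : StatIn E (ω_ 1))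
    (F : Cond κ.ord S A → Ordinal.{u} → Ordinal.{u} → Cond κ.ord S A)
    (a : Cond κ.ord S A → Ordinal.{u} → Ordinal.{u} → Ordinal.{u})
    (ha : ∀ p, ∀ ξ < ω_ 1, ∀ β < κ.ord, a p ξ β < ω_ 1) :
    ∃ δ ∈ E, ∃ γ < κ.ord, ∃ (p : ℕ → Cond κ.ord S A) (x ν : ℕ → Ordinal.{u}),
      δ < ω_ 1 ∧ (γ ∈ S ↔ b) ∧ p 0 = p₀ ∧
      (∀ n, x n < δ ∧ ν n < γ ∧ p (n + 1) = F (p n) (x n) (ν n)) ∧
      (∀ ξ < δ, ∃ n, ξ < x n) ∧ (∀ ζ < γ, ∃ n, ζ < ν n) ∧
      (∀ n, (p n).len < δ ∧ (p n).fn (p n).len < γ ∧ a (p n) (x n) (ν n) < δ) := by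
  classical
  have h0 : ℵ₀ < κ := Cardinal.aleph0_lt_aleph_one.trans h1
  -- first closure argument
  set g1 : (ω_ 1 : Ordinal.{u}).ToType × Ordinal.{u} → Ordinal.{u} × Ordinal.{u} :=
    fun q => ((Ordinal.ToType.mk.symm q.1).1, q.2) with hg1
  have hI : #((ω_ 1 : Ordinal.{u}).ToType) < κ := by
    rw [Cardinal.mk_toType, Ordinal.card_omega]
    exact h1
  have hC1 := club_closure hκ h0 hI
    (fun l => (C3_run p₀ F (l.map g1)).fn (C3_run p₀ F (l.map g1)).len)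
    (fun l _ => (C3_run p₀ F (l.map g1)).isCond.bdd _ le_rfl)
  obtain ⟨γ, hγ1, hγ2, hγ3, hγ4⟩ : ∃ γ : Ordinal.{u}, γ.cof = ℵ₀ ∧ (γ ∈ S ↔ b) ∧
      (∀ l : List ((ω_ 1 : Ordinal.{u}).ToType × Ordinal.{u}), (∀ x ∈ l, x.2 < γ) →
        (C3_run p₀ F (l.map g1)).fn (C3_run p₀ F (l.map g1)).len < γ) ∧ γ < κ.ord := by
    by_cases hb : b
    · obtain ⟨γ, hg, hgC, hgκ⟩ := hS _ hC1
      exact ⟨γ, hg.1, ⟨fun _ => hb, fun _ => hg.2⟩, hgC, hgκ⟩
    · obtain ⟨γ, hg, hgC, hgκ⟩ := hS' _ hC1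
      exact ⟨γ, hg.1, ⟨fun h => absurd h hg.2, fun h => absurd h hb⟩, hgC, hgκ⟩
  obtain ⟨ν, hν1, hν2⟩ := C3_seq hγ1
  -- second closure argument
  set g2 : ULift.{u} ℕ × Ordinal.{u} → Ordinal.{u} × Ordinal.{u} :=
    fun q => (q.2, ν q.1.down) with hg2
  have hI2 : #(ULift.{u} ℕ) < ℵ_ 1 := by
    rw [Cardinal.mk_uLift, Cardinal.mk_nat, Cardinal.lift_aleph0]
    exact Cardinal.aleph0_lt_aleph_one
  have hC2 := club_closure Cardinal.isRegular_aleph_one Cardinal.aleph0_lt_aleph_one hI2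
    (fun l => C3_val p₀ F a (l.map g2)) (by
      intro l hl
      rw [Cardinal.ord_aleph] at hl ⊢
      cases l with
      | nil => exact (C3_run p₀ F []).isCond.lt
      | cons q t =>
        refine max_lt (C3_run p₀ F _).isCond.lt ?_
        exact ha _ _ (hl q (List.mem_cons_self ..)) _ ((hν1 _).trans hγ4))
  rw [Cardinal.ord_aleph] at hC2
  obtain ⟨δ, hδE, hδC, hδ1⟩ := hE _ (club_inter aleph0_lt_cof_omega1 hC2
    (club_limits aleph0_lt_cof_omega1))
  obtain ⟨hδ2, hδlim⟩ := hδC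
  obtain ⟨x, hx1, hx2⟩ := C3_seq (C3_cof hδ1 hδlim)
  -- the sequence
  set L : ℕ → List (Ordinal.{u} × Ordinal.{u}) := fun n =>
    Nat.rec [] (fun k l => (x k, ν k) :: l) n with hL
  have hL0 : L 0 = [] := rfl
  have hLs : ∀ n, L (n + 1) = (x n, ν n) :: L n := fun n => rfl
  have hL1 : ∀ n, ∃ l : List ((ω_ 1 : Ordinal.{u}).ToType × Ordinal.{u}),
      (∀ y ∈ l, y.2 < γ) ∧ l.map g1 = L n := by
    intro n
    induction n with
    | zero => exact ⟨[], by simp, rfl⟩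
    | succ n ih =>
      obtain ⟨l, hl1, hl2⟩ := ih
      refine ⟨(Ordinal.ToType.mk ⟨x n, (hx1 n).trans hδ1⟩, ν n) :: l, ?_, ?_⟩
      · intro y hy
        rcases List.mem_cons.1 hy with rfl | hy
        · exact hν1 n
        · exact hl1 y hy
      · rw [List.map_cons, hl2, hLs]
        simp [hg1]
  have hL2 : ∀ n, ∃ l : List (ULift.{u} ℕ × Ordinal.{u}),
      (∀ y ∈ l, y.2 < δ) ∧ l.map g2 = L n := by
    intro n
    induction n with
    | zero => exact ⟨[], by simp, rfl⟩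
    | succ n ih =>
      obtain ⟨l, hl1, hl2⟩ := ih
      refine ⟨(⟨n⟩, x n) :: l, ?_, ?_⟩
      · intro y hy
        rcases List.mem_cons.1 hy with rfl | hy
        · exact hx1 n
        · exact hl1 y hy
      · rw [List.map_cons, hl2, hLs]
  have hval : ∀ n, C3_val p₀ F a (L n) < δ := by
    intro n
    obtain ⟨l, hl1, hl2⟩ := hL2 n
    have := hδ2 l hl1
    rw [hl2] at this
    exact this
  refine ⟨δ, hδE, γ, hγ4, fun n => C3_run p₀ F (L n), x, ν, hδ1, hγ2, rfl,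
    fun n => ⟨hx1 n, hν1 n, rfl⟩, hx2, hν2, fun n => ⟨?_, ?_, ?_⟩⟩
  · exact (C3_len_le p₀ F a (L n)).trans_lt (hval n)
  · obtain ⟨l, hl1, hl2⟩ := hL1 n
    have := hγ3 l hl1
    rw [hl2] at this
    exact this
  · have := hval (n + 1)
    rw [hLs] at this
    exact (le_max_right _ _).trans_lt this

end Cond

end Pool.Agent.Helper56.MW
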