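import Pool.Agent.Helper56.MW.C2
import Pool.Agent.Helper56.MW.C3

open FirstOrder FirstOrder.Language Ordinal Cardinal Set Helper23.Pcf

universe u v

namespace Pool.Agent.Helper56.MW

namespace Cond

/-- (C4) The forcing notion preserves stationary subsets of `ω₁`.

Proof: let `E` be stationary in `ω₁`, `N` a name and `p` a condition with `ForcesClub p N`.
`E ∩ A` or `E \ A` is stationary (`StatIn.union`); let `E'` be this set and `b` the truth value of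
the first case, so `δ ∈ A ↔ b` for `δ ∈ E'`.
For each `r ≤ p`, `ξ < ω₁`, `β < κ.ord` there are `q ≤ r` and `α < ω₁` with `ξ < q.len`,
`β < q.fn q.len`, `ξ < α` and `N q α`: extend `r` to length `max (r.len + 1) (ξ + 1)` by `dens`
(last value above `β`), then apply `unbounded` (last values increase under extension:
`q.fn r.len = r.fn r.len` and `q.fn` is monotone up to `q.len`).  Choose
`F r ξ β = q`, `a r ξ β = α` (and `F r ξ β = r`, `a r ξ β = 0` otherwise).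
Apply `pres_core` with `p₀ = p`, `E'`, `b`.  By induction all `p n ≤ p` and `p (n+1) ≤ p n`.
`lower_bound` gives `q` with `q ≤ p n` for all `n`, `q.len = δ` (hypotheses: `(p n).len < δ`;
cofinality since `x n < (p (n+1)).len`; `(p n).fn (p n).len < γ`, cofinality since
`ν n < (p (n+1)).fn (p (n+1)).len`; the pattern: `γ ∈ S ↔ b ↔ δ ∈ A`).
Then `closed` applies to `q`, `δ`: for `α < δ` and `r ≤ q` take `n` with `α < x n`; then
`x n < a (p n) (x n) (ν n) < δ` and `N (p (n+1)) (a …)`, so `N r (a …)` by `mono`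
(`r ≤ q ≤ p (n+1)`), with `s = r`.  Hence some `s ≤ q` has `N s δ`, and `δ ∈ E`. -/
theorem preserves {κ : Cardinal.{u}} (hκ : κ.IsRegular) (h1 : ℵ_ 1 < κ) {S A : Set Ordinal.{u}}
    (hS : StatIn {γ | γ.cof = ℵ₀ ∧ γ ∈ S} κ.ord) (hS' : StatIn {γ | γ.cof = ℵ₀ ∧ γ ∉ S} κ.ord) :
    PreservesStat.{u} (Cond κ.ord S A) := by
  classical
  intro E hE p N hN
  have hom : ℵ₀ < (ω_ 1 : Ordinal.{u}).cof := aleph0_lt_cof_omega1
  have hlim : Order.IsSuccLimit (ω_ 1 : Ordinal.{u}) :=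
    Ordinal.one_lt_cof_iff.1 (one_lt_aleph0.trans hom)
  -- one step
  have hstep : ∀ r : Cond κ.ord S A, r ≤ p → ∀ ξ < ω_ 1, ∀ β < κ.ord,
      ∃ x : Cond κ.ord S A × Ordinal.{u}, x.1 ≤ r ∧ ξ < x.1.len ∧ β < x.1.fn x.1.len ∧
        ξ < x.2 ∧ x.2 < ω_ 1 ∧ N x.1 x.2 := by
    intro r hr ξ hξ β hβ
    have hr1 : r.len < ω_ 1 := r.isCond.lt
    have hL : max (Order.succ r.len) (Order.succ ξ) < ω_ 1 :=
      max_lt (hlim.succ_lt hr1) (hlim.succ_lt hξ)
    have hrL : r.len < max (Order.succ r.len) (Order.succ ξ) :=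
      lt_max_of_lt_left (Order.lt_succ _)
    have hξL : ξ < max (Order.succ r.len) (Order.succ ξ) :=
      lt_max_of_lt_right (Order.lt_succ _)
    obtain ⟨q1, hq1, hq1l, hq1f⟩ := dens hκ h1 hS hS' _ hL r hrL β hβ
    obtain ⟨q, hq, α, hα, hξα, hNα⟩ := hN.unbounded q1 (hq1.trans hr) ξ hξ
    have hq' := le_def.1 hq
    refine ⟨(q, α), hq.trans hq1, ?_, ?_, hξα, hα, hNα⟩
    · rw [hq1l] at hq'
      exact hξL.trans_le hq'.1
    · have h2 : q.fn q1.len = q1.fn q1.len := hq'.2 _ le_rfl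
      rw [← hq1l, ← h2] at hq1f
      rcases hq'.1.lt_or_eq with h3 | h3
      · exact hq1f.trans (q.isCond.mono _ le_rfl _ h3)
      · rw [← h3]
        exact hq1f
  have hne : Nonempty (Cond κ.ord S A × Ordinal.{u}) := ⟨(p, 0)⟩
  choose! G hG using hstep
  let F : Cond κ.ord S A → Ordinal.{u} → Ordinal.{u} → Cond κ.ord S A := fun r ξ β =>
    (G r ξ β).1
  let a : Cond κ.ord S A → Ordinal.{u} → Ordinal.{u} → Ordinal.{u} := fun r ξ β =>
    if (G r ξ β).2 < ω_ 1 then (G r ξ β).2 else 0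
  have ha : ∀ r, ∀ ξ < ω_ 1, ∀ β < κ.ord, a r ξ β < ω_ 1 := by
    intro r ξ _ β _
    simp only [a]
    split_ifs with h
    · exact h
    · exact (Ordinal.omega_pos 1)
  have hag : ∀ r, r ≤ p → ∀ ξ < ω_ 1, ∀ β < κ.ord, a r ξ β = (G r ξ β).2 := by
    intro r hr ξ hξ β hβ
    simp only [a]
    rw [if_pos (hG r hr ξ hξ β hβ).2.2.2.2.1]
  -- the stationary part
  obtain ⟨E', b, hE', hEE, hEb⟩ : ∃ (E' : Set Ordinal.{u}) (b : Prop), StatIn E' (ω_ 1) ∧
      E' ⊆ E ∧ ∀ δ ∈ E', (δ ∈ A ↔ b) := by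
    have h2 : StatIn ((E ∩ A) ∪ (E \ A)) (ω_ 1) := by
      rw [Set.inter_union_sdiff]
      exact hE
    rcases h2.union hom with h3 | h3
    · exact ⟨_, True, h3, fun x hx => hx.1, fun x hx => ⟨fun _ => trivial, fun _ => hx.2⟩⟩
    · exact ⟨_, False, h3, fun x hx => hx.1, fun x hx => ⟨fun h => hx.2 h, fun h => h.elim⟩⟩
  obtain ⟨δ, hδE, γ, hγ, P, x, ν, hδ, hγS, hP0, hPs, hx, hν, hb⟩ :=
    pres_core hκ h1 hS hS' p b hE' F a ha
  have hPp : ∀ n, P n ≤ p := by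
    intro n
    induction n with
    | zero => exact le_of_eq hP0
    | succ n ih =>
      obtain ⟨h3, h4, h5⟩ := hPs n
      rw [h5]
      exact (hG (P n) ih (x n) (h3.trans hδ) (ν n) (h4.trans hγ)).1.trans ih
  have hGn : ∀ n, P (n + 1) ≤ P n ∧ x n < (P (n + 1)).len ∧
      ν n < (P (n + 1)).fn (P (n + 1)).len ∧ x n < a (P n) (x n) (ν n) ∧
      N (P (n + 1)) (a (P n) (x n) (ν n)) := by
    intro n
    obtain ⟨h3, h4, h5⟩ := hPs n
    have h6 := hG (P n) (hPp n) (x n) (h3.trans hδ) (ν n) (h4.trans hγ)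
    rw [hag (P n) (hPp n) (x n) (h3.trans hδ) (ν n) (h4.trans hγ), h5]
    exact ⟨h6.1, h6.2.1, h6.2.2.1, h6.2.2.2.1, h6.2.2.2.2.2⟩
  obtain ⟨q, hq, hql, _⟩ := lower_bound P (fun n => (hGn n).1) hδ (fun n => (hb n).1)
    (fun ξ hξ => by
      obtain ⟨n, hn⟩ := hx ξ hξ
      exact ⟨n + 1, hn.trans (hGn n).2.1⟩) hγ (fun n => (hb n).2.1)
    (fun ζ hζ => by
      obtain ⟨n, hn⟩ := hν ζ hζ
      exact ⟨n + 1, hn.trans (hGn n).2.2.1⟩) (hγS.trans (hEb δ hδE).symm)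
  have hqp : q ≤ p := (hq 0).trans (hPp 0)
  have hδ0 : 0 < δ := lt_of_le_of_lt bot_le (hb 0).1
  obtain ⟨s, hs, hNs⟩ := hN.closed q hqp δ hδ hδ0 (by
    intro α hα r hr
    obtain ⟨n, hn⟩ := hx α hα
    refine ⟨r, le_rfl, a (P n) (x n) (ν n), (hb n).2.2, hn.trans (hGn n).2.2.2.1, ?_⟩
    exact hN.mono r (P (n + 1)) _ (hr.trans (hq (n + 1))) (hGn n).2.2.2.2) q le_rfl
  exact ⟨s, hs.trans hqp, δ, hEE hδE, hδ, hNs⟩

end Cond

end Pool.Agent.Helper56.MW
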