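import Pool.Agent.Helper56.MW.Base

/-!
# Definable relations between ordinals and sets
-/

open FirstOrder FirstOrder.Language Ordinal

universe u

namespace Pool.Agent.Helper56.MW

/-- `P` is first-order definable without parameters in the universe; the variables of the first
kind are ordinals (read as von Neumann ordinals), those of the second kind are sets. -/
def Df {α β : Type} (P : (α → Ordinal.{u}) → (β → ZFSet.{u}) → Prop) : Prop :=
  ∃ φ : LSet.Formula (α ⊕ β), ∀ (a : α → Ordinal.{u}) (s : β → ZFSet.{u}),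
    φ.Realize (Sum.elim (fun i => (a i).toZFSet) s) ↔ P a s

theorem D0.df {α β : Type} {Q : (α ⊕ β → ZFSet.{u}) → Prop} (h : D0 Q) :
    Df (fun (a : α → Ordinal.{u}) (s : β → ZFSet.{u}) =>
      Q (Sum.elim (fun i => (a i).toZFSet) s)) := by
  obtain ⟨φ, hφ⟩ := h
  exact ⟨φ, fun a s => hφ _⟩

namespace Df

variable {α β α' β' δ : Type} {P Q : (α → Ordinal.{u}) → (β → ZFSet.{u}) → Prop}

theorem d0 (h : Df P) : ∃ R : (α ⊕ β → ZFSet.{u}) → Prop, D0 R ∧
    ∀ a s, R (Sum.elim (fun i => (a i).toZFSet) s) ↔ P a s := by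
  obtain ⟨φ, hφ⟩ := h
  exact ⟨fun s => φ.Realize s, ⟨φ, fun _ => Iff.rfl⟩, hφ⟩

theorem congr (h : Df P) (e : ∀ a s, P a s ↔ Q a s) : Df Q := by
  obtain ⟨φ, hφ⟩ := h
  exact ⟨φ, fun a s => (hφ a s).trans (e a s)⟩

theorem true : Df.{u} (fun (_ : α → Ordinal.{u}) (_ : β → ZFSet.{u}) => True) :=
  ⟨⊤, fun _ s => by simp⟩

theorem false : Df.{u} (fun (_ : α → Ordinal.{u}) (_ : β → ZFSet.{u}) => False) :=
  ⟨⊥, fun _ s => by simp⟩

theorem not (h : Df P) : Df (fun a s => ¬ P a s) := by
  obtain ⟨R, h1, h2⟩ := h.d0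
  exact (D0.df h1.not).congr fun a s => not_congr (h2 a s)

theorem imp (h : Df P) (h' : Df Q) : Df (fun a s => P a s → Q a s) := by
  obtain ⟨R, h1, h2⟩ := h.d0
  obtain ⟨R', h1', h2'⟩ := h'.d0
  exact (D0.df (h1.imp h1')).congr fun a s => imp_congr (h2 a s) (h2' a s)

theorem and (h : Df P) (h' : Df Q) : Df (fun a s => P a s ∧ Q a s) := by
  obtain ⟨R, h1, h2⟩ := h.d0
  obtain ⟨R', h1', h2'⟩ := h'.d0
  exact (D0.df (h1.and h1')).congr fun a s => and_congr (h2 a s) (h2' a s)

theorem or (h : Df P) (h' : Df Q) : Df (fun a s => P a s ∨ Q a s) := by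
  obtain ⟨R, h1, h2⟩ := h.d0
  obtain ⟨R', h1', h2'⟩ := h'.d0
  exact (D0.df (h1.or h1')).congr fun a s => or_congr (h2 a s) (h2' a s)

theorem iff (h : Df P) (h' : Df Q) : Df (fun a s => P a s ↔ Q a s) := by
  obtain ⟨R, h1, h2⟩ := h.d0
  obtain ⟨R', h1', h2'⟩ := h'.d0
  exact (D0.df (h1.iff h1')).congr fun a s => iff_congr (h2 a s) (h2' a s)

theorem relabel {R : (α' → Ordinal.{u}) → (β' → ZFSet.{u}) → Prop} (f : α' → α) (g : β' → β)
    (h : Df R) :
    Df (fun (a : α → Ordinal.{u}) (s : β → ZFSet.{u}) =>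
      R (fun i => a (f i)) (fun j => s (g j))) := by
  obtain ⟨Q, h1, h2⟩ := h.d0
  refine (D0.df (h1.relabel (γ := α ⊕ β) (Sum.map f g))).congr fun a s => ?_
  rw [← h2]
  refine iff_of_eq (congrArg Q ?_)
  funext i
  cases i <;> rfl

/-- Existential quantification over an ordinal. -/
theorem exO {P : Ordinal.{u} → (α → Ordinal.{u}) → (β → ZFSet.{u}) → Prop}
    (h : Df (α := Option α) (fun a s => P (a none) (fun i => a (some i)) s)) :
    Df (fun (a : α → Ordinal.{u}) (s : β → ZFSet.{u}) => ∃ x, P x a s) := by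
  obtain ⟨Q, h1, h2⟩ := h.d0
  have h3 := D0.ex (γ := α ⊕ β)
    (P := fun x s => x.IsOrdinal ∧ Q (fun i => match i with
      | Sum.inl none => x
      | Sum.inl (some i) => s (Sum.inl i)
      | Sum.inr j => s (Sum.inr j)))
    ((D0.isOrdinal none).and ((h1.relabel (γ := Option (α ⊕ β)) (fun i => match i with
      | Sum.inl none => none
      | Sum.inl (some i) => some (Sum.inl i)
      | Sum.inr j => some (Sum.inr j))).congr fun s => by
        refine iff_of_eq (congrArg Q ?_)
        funext i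
        rcases i with (_ | i) | j <;> rfl))
  refine (D0.df h3).congr fun a s => ?_
  constructor
  · rintro ⟨x, hx, hq⟩
    refine ⟨x.rank, (h2 (fun i => match i with
      | none => x.rank
      | some i => a i) s).1 ?_⟩
    convert hq using 1
    funext i
    rcases i with (_ | i) | j
    · exact hx.toZFSet_rank_eq
    · rfl
    · rfl
  · rintro ⟨x, hx⟩
    refine ⟨x.toZFSet, ZFSet.isOrdinal_toZFSet x, ?_⟩
    have h4 := (h2 (fun i => match i with
      | none => x
      | some i => a i) s).2 hx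
    convert h4 using 1
    funext i
    rcases i with (_ | i) | j <;> rfl

theorem allO {P : Ordinal.{u} → (α → Ordinal.{u}) → (β → ZFSet.{u}) → Prop}
    (h : Df (α := Option α) (fun a s => P (a none) (fun i => a (some i)) s)) :
    Df (fun (a : α → Ordinal.{u}) (s : β → ZFSet.{u}) => ∀ x, P x a s) := by
  refine (exO (P := fun x a s => ¬ P x a s) h.not).not.congr fun a s => ?_
  push Not
  rfl

/-- Existential quantification over a set. -/
theorem exS {P : ZFSet.{u} → (α → Ordinal.{u}) → (β → ZFSet.{u}) → Prop}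
    (h : Df (β := Option β) (fun a s => P (s none) a (fun i => s (some i)))) :
    Df (fun (a : α → Ordinal.{u}) (s : β → ZFSet.{u}) => ∃ x, P x a s) := by
  obtain ⟨Q, h1, h2⟩ := h.d0
  have h3 := D0.ex (γ := α ⊕ β)
    (P := fun x s => Q (fun i => match i with
      | Sum.inl i => s (Sum.inl i)
      | Sum.inr none => x
      | Sum.inr (some j) => s (Sum.inr j)))
    ((h1.relabel (γ := Option (α ⊕ β)) (fun i => match i with
      | Sum.inl i => some (Sum.inl i)
      | Sum.inr none => none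
      | Sum.inr (some j) => some (Sum.inr j))).congr fun s => by
        refine iff_of_eq (congrArg Q ?_)
        funext i
        rcases i with i | (_ | j) <;> rfl)
  refine (D0.df h3).congr fun a s => ?_
  refine exists_congr fun x => ?_
  have h4 := h2 a (fun i => match i with
      | none => x
      | some i => s i)
  refine Iff.trans (iff_of_eq (congrArg Q ?_)) h4
  funext i
  rcases i with i | (_ | j) <;> rfl

theorem allS {P : ZFSet.{u} → (α → Ordinal.{u}) → (β → ZFSet.{u}) → Prop}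
    (h : Df (β := Option β) (fun a s => P (s none) a (fun i => s (some i)))) :
    Df (fun (a : α → Ordinal.{u}) (s : β → ZFSet.{u}) => ∀ x, P x a s) := by
  refine (exS (P := fun x a s => ¬ P x a s) h.not).not.congr fun a s => ?_
  push Not
  rfl

theorem allFin [Finite δ] {P : δ → (α → Ordinal.{u}) → (β → ZFSet.{u}) → Prop}
    (h : ∀ i, Df (P i)) : Df (fun a s => ∀ i, P i a s) := by
  choose R h1 h2 using fun i => (h i).d0
  exact (D0.df (D0.allFin h1)).congr fun a s => forall_congr' fun i => h2 i a s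

theorem exFin [Finite δ] {P : δ → (α → Ordinal.{u}) → (β → ZFSet.{u}) → Prop}
    (h : ∀ i, Df (P i)) : Df (fun a s => ∃ i, P i a s) := by
  choose R h1 h2 using fun i => (h i).d0
  exact (D0.df (D0.exFin h1)).congr fun a s => exists_congr fun i => h2 i a s

/-! ### Atomic relations -/

theorem ltO (i j : α) : Df.{u} (β := β) (fun a _ => a i < a j) :=
  (D0.df (D0.mem (Sum.inl i) (Sum.inl j))).congr fun _ _ => toZFSet_mem_toZFSet_iff

theorem eqO (i j : α) : Df.{u} (β := β) (fun a _ => a i = a j) :=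
  (D0.df (D0.eq (Sum.inl i) (Sum.inl j))).congr fun _ _ => toZFSet_injective.eq_iff

theorem leO (i j : α) : Df.{u} (β := β) (fun a _ => a i ≤ a j) :=
  (ltO j i).not.congr fun _ _ => not_lt

theorem memO (i : α) (j : β) : Df.{u} (fun a s => (a i).toZFSet ∈ s j) :=
  (D0.df (D0.mem (Sum.inl i) (Sum.inr j))).congr fun _ _ => Iff.rfl

theorem memS (i j : β) : Df.{u} (α := α) (fun _ s => s i ∈ s j) :=
  (D0.df (D0.mem (Sum.inr i) (Sum.inr j))).congr fun _ _ => Iff.rfl

theorem memSO (i : β) (j : α) : Df.{u} (fun a s => s i ∈ (a j).toZFSet) :=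
  (D0.df (D0.mem (Sum.inr i) (Sum.inl j))).congr fun _ _ => Iff.rfl

theorem eqS (i j : β) : Df.{u} (α := α) (fun _ s => s i = s j) :=
  (D0.df (D0.eq (Sum.inr i) (Sum.inr j))).congr fun _ _ => Iff.rfl

theorem subS (i j : β) : Df.{u} (α := α) (fun _ s => s i ⊆ s j) :=
  (D0.df (D0.subset (Sum.inr i) (Sum.inr j))).congr fun _ _ => Iff.rfl

theorem subSO (i : β) (j : α) : Df.{u} (fun a s => s i ⊆ (a j).toZFSet) :=
  (D0.df (D0.subset (Sum.inr i) (Sum.inl j))).congr fun _ _ => Iff.rfl

theorem emptyS (i : β) : Df.{u} (α := α) (fun _ s => s i = ∅) :=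
  (D0.df (D0.isEmpty (Sum.inr i))).congr fun _ _ => Iff.rfl

theorem pairOO (i j : α) (k : β) :
    Df.{u} (fun a s => ZFSet.pair (a i).toZFSet (a j).toZFSet ∈ s k) :=
  (D0.df (D0.pairMem (Sum.inl i) (Sum.inl j) (Sum.inr k))).congr fun _ _ => Iff.rfl

theorem pairOS (i : α) (j k : β) :
    Df.{u} (fun a s => ZFSet.pair (a i).toZFSet (s j) ∈ s k) :=
  (D0.df (D0.pairMem (Sum.inl i) (Sum.inr j) (Sum.inr k))).congr fun _ _ => Iff.rfl

theorem pairSO (i : β) (j : α) (k : β) :
    Df.{u} (fun a s => ZFSet.pair (s i) (a j).toZFSet ∈ s k) :=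
  (D0.df (D0.pairMem (Sum.inr i) (Sum.inl j) (Sum.inr k))).congr fun _ _ => Iff.rfl

theorem pairSS (i j k : β) :
    Df.{u} (α := α) (fun _ s => ZFSet.pair (s i) (s j) ∈ s k) :=
  (D0.df (D0.pairMem (Sum.inr i) (Sum.inr j) (Sum.inr k))).congr fun _ _ => Iff.rfl

theorem zeroO (i : α) : Df.{u} (β := β) (fun a _ => a i = 0) :=
  (D0.df (D0.isEmpty (Sum.inl i))).congr fun a s => by
    constructor
    · intro h
      exact toZFSet_injective (by simpa using h)
    · intro h
      simp [h]

theorem succO (i j : α) : Df.{u} (β := β) (fun a _ => a i = a j + 1) :=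
  ((ltO j i).and (allO (P := fun x a _ => x < a i → x ≤ a j)
    ((ltO none (some i)).imp (leO none (some j))))).congr fun a s => by
    constructor
    · rintro ⟨h1, h2⟩
      refine le_antisymm ?_ (Order.add_one_le_of_lt h1)
      by_contra h3
      push Not at h3
      exact absurd (h2 _ h3) (not_le.2 (Order.lt_add_one_iff.2 le_rfl))
    · intro h
      rw [h]
      exact ⟨Order.lt_add_one_iff.2 le_rfl, fun x hx => Order.lt_add_one_iff.1 hx⟩

end Df

end Pool.Agent.Helper56.MW
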