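import Pool.Agent.Helper56.MW.CodDefs
import Pool.Agent.Helper56.MW.A2

open FirstOrder FirstOrder.Language Ordinal Cardinal Set Helper23.Pcf

universe u v

namespace Pool.Agent.Helper56.MW

variable {S : Set Ordinal.{u}}

/-- (D1) Splitting.

Proof: let `f` be given by `h`, `T = {ξ | f ξ ∈ S}`; `split_omega1` gives `T' ⊆ T` with
`T'` and `T \ T'` stationary.  `H` applied to `A = T'` gives `η', f'`.  The first two sets in
`Split` contain the limit points of `T'` and of `T \ T'` (`StatIn.congr_club` with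
`club_limits`; `(ω_ 1).cof = ℵ_ 1 > ℵ₀`); the third contains no limit ordinal below `ω₁`, so it
misses the club of limit ordinals. -/
theorem exists_split (H : Univ S) {η : Ordinal.{u}} (h : Ok S η) : ∃ η', Split S (ω_ 1) η η' := by
  obtain ⟨f, hf, hst⟩ := h
  obtain ⟨T', hT', h1, h2⟩ := split_omega1 hst
  obtain ⟨η', f', hf', hA⟩ := H T'
  have hlim := club_limits aleph0_lt_cof_omega1.{u}
  refine ⟨η', f, f', hf, hf', ?_, ?_, ?_⟩
  · exact StatIn.congr_club aleph0_lt_cof_omega1 h1 hlim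
      (fun x hx hx1 hx2 => ⟨hT' hx, (hA x hx2 hx1).2 hx⟩)
  · exact StatIn.congr_club aleph0_lt_cof_omega1 h2 hlim
      (fun x hx hx1 hx2 => ⟨hx.1, fun h => hx.2 ((hA x hx2 hx1).1 h)⟩)
  · intro h3
    obtain ⟨x, h4, h5, h6⟩ := h3 _ hlim
    exact h4.1 (hT' ((hA x h6 h5).1 h4.2))

/-- (D2) `Split η η'` implies `Ok η'`: `{ξ | f ξ ∈ S ∧ f' ξ ∈ S} ⊆ {ξ | f' ξ ∈ S}`. -/
theorem Split.ok {η η' : Ordinal.{u}} (h : Split S (ω_ 1) η η') : Ok S η' := by
  obtain ⟨f, f', _, hf', h1, _, _⟩ := h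
  exact ⟨f', hf', h1.mono (fun ξ hξ => hξ.2)⟩

/-- (D9) There is a starting point.

Proof: `H` applied to `A = univ` gives `η, f` with `f ξ ∈ S` for all limit `ξ < ω₁`; the limit
ordinals form a club, so `{ξ | f ξ ∈ S}` is stationary (`univ` is stationary in `ω₁`). -/
theorem exists_ok (H : Univ S) : ∃ η₀, Ok S η₀ := by
  obtain ⟨η, f, hf, hA⟩ := H Set.univ
  refine ⟨η, f, hf, ?_⟩
  have h0 : StatIn (Set.univ : Set Ordinal.{u}) (ω_ 1) := by
    intro C hC
    have h1 : (0 : Ordinal.{u}) < ω_ 1 := by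
      have h2 : Order.IsSuccLimit (ω_ 1 : Ordinal.{u}) :=
        Ordinal.one_lt_cof_iff.1 (one_lt_aleph0.trans aleph0_lt_cof_omega1)
      exact h2.bot_lt
    obtain ⟨y, h2, _, h3⟩ := hC.unb 0 h1
    exact ⟨y, Set.mem_univ _, h2, h3⟩
  exact StatIn.congr_club aleph0_lt_cof_omega1 h0 (club_limits aleph0_lt_cof_omega1)
    (fun x _ hx1 hx2 => (hA x hx2 hx1).2 (Set.mem_univ _))

end Pool.Agent.Helper56.MW
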