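import Pool.Agent.Helper56.MW.D1

open FirstOrder FirstOrder.Language Ordinal Cardinal Set Helper23.Pcf

universe u v

namespace Pool.Agent.Helper56.MW

variable {S : Set Ordinal.{u}}

/-- (D3) The canonical sequence exists; all its members are `Ok`.

Proof: recursion on `k : ℕ`: `h' 0 = η₀`, `h' (k + 1) = sInf {ν | Split S (ω_ 1) (h' k) ν}`;
`Ok S (h' k)` by induction from `exists_split`, `Split.ok` and `csInf_mem`;
`ν < h' (k+1)` does not satisfy `Split` (`notMem_of_lt_csInf'` or `csInf_le'`).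
Put `h ξ = h' k` if `ξ = k` for a natural number `k`, and `0` otherwise (`Ordinal.lt_omega0`). -/
theorem exists_isSeq (H : Univ S) {η₀ : Ordinal.{u}} (h0 : Ok S η₀) :
    ∃ h, IsSeq S (ω_ 1) ω η₀ h ∧ ∀ n < ω, Ok S (h n) := by
  classical
  let g : ℕ → Ordinal.{u} := fun k =>
    Nat.rec η₀ (fun _ η => sInf {ν | Split S (ω_ 1) η ν}) k
  have hg0 : g 0 = η₀ := rfl
  have hgs : ∀ k, g (k + 1) = sInf {ν | Split S (ω_ 1) (g k) ν} := fun _ => rfl
  have hstep : ∀ k, Ok S (g k) → Split S (ω_ 1) (g k) (g (k + 1)) := by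
    intro k hk
    rw [hgs k]
    exact csInf_mem (exists_split H hk)
  have hok : ∀ k, Ok S (g k) := by
    intro k
    induction k with
    | zero => exact h0
    | succ k ih => exact (hstep k ih).ok
  let h : Ordinal.{u} → Ordinal.{u} := fun ξ =>
    if hξ : ∃ k : ℕ, (k : Ordinal.{u}) = ξ then g (Classical.choose hξ) else 0
  have hh : ∀ k : ℕ, h (k : Ordinal.{u}) = g k := by
    intro k
    have hk : ∃ j : ℕ, (j : Ordinal.{u}) = (k : Ordinal.{u}) := ⟨k, rfl⟩
    have h1 : h (k : Ordinal.{u}) = g (Classical.choose hk) := dif_pos hk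
    have h2 : Classical.choose hk = k := Nat.cast_injective (Classical.choose_spec hk)
    rw [h1, h2]
  refine ⟨h, ⟨?_, ?_⟩, ?_⟩
  · have := hh 0
    rw [Nat.cast_zero] at this
    rw [this, hg0]
  · intro n hn m _ hnm
    obtain ⟨k, rfl⟩ := Ordinal.lt_omega0.1 hn
    have h1 : m = ((k + 1 : ℕ) : Ordinal.{u}) := by
      rw [hnm]
      push_cast
      rfl
    rw [h1, hh, hh]
    refine ⟨hstep k (hok k), ?_⟩
    intro ν hν hs
    rw [hgs k] at hν
    exact absurd (csInf_le' (show ν ∈ {ν | Split S (ω_ 1) (g k) ν} from hs)) (not_le.2 hν)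
  · intro n hn
    obtain ⟨k, rfl⟩ := Ordinal.lt_omega0.1 hn
    rw [hh]
    exact hok k

/-- (D4) The canonical sequence is unique.

Proof: for natural numbers `k` show `h k = h' k` by induction: both `h (k+1)` and `h' (k+1)`
are the least `ν` with `Split S w (h k) ν`. -/
theorem IsSeq.unique {w η₀ : Ordinal.{u}} {h h' : Ordinal.{u} → Ordinal.{u}}
    (h1 : IsSeq S w ω η₀ h) (h2 : IsSeq S w ω η₀ h') : ∀ n < ω, h n = h' n := by
  intro n hn
  obtain ⟨k, rfl⟩ := Ordinal.lt_omega0.1 hn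
  clear hn
  induction k with
  | zero =>
    rw [Nat.cast_zero, h1.1, h2.1]
  | succ k ih =>
    have e : ((k + 1 : ℕ) : Ordinal.{u}) = (k : Ordinal.{u}) + 1 := by
      push_cast
      rfl
    obtain ⟨a1, a2⟩ := h1.2 k (Ordinal.natCast_lt_omega0 k) _ (Ordinal.natCast_lt_omega0 (k + 1)) e
    obtain ⟨b1, b2⟩ := h2.2 k (Ordinal.natCast_lt_omega0 k) _ (Ordinal.natCast_lt_omega0 (k + 1)) e
    rw [ih] at a1 a2
    rcases lt_trichotomy (h ((k + 1 : ℕ) : Ordinal.{u})) (h' ((k + 1 : ℕ) : Ordinal.{u})) with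
      h3 | h3 | h3
    · exact absurd a1 (b2 _ h3)
    · exact h3
    · exact absurd b1 (a2 _ h3)

/-- (D5) An ordinal codes at most one subset of `ω`.

Proof: by `IsSeq.unique` and the second clause of `Code`, `n.toZFSet ∈ x ↔ n.toZFSet ∈ y` for all
`n < ω` (`n + 1 < ω`); every element of `x` or `y` is `n.toZFSet` for an `n < ω`
(`mem_toZFSet_iff`). -/
theorem code_unique {w η₀ η : Ordinal.{u}} {x y : ZFSet.{u}}
    (hx : x ⊆ (ω : Ordinal.{u}).toZFSet) (hy : y ⊆ (ω : Ordinal.{u}).toZFSet)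
    (h1 : Code S w ω η₀ η x) (h2 : Code S w ω η₀ η y) : x = y := by
  obtain ⟨h, hs, hc⟩ := h1
  obtain ⟨h', hs', hc'⟩ := h2
  have key : ∀ n < (ω : Ordinal.{u}), (n.toZFSet ∈ x ↔ n.toZFSet ∈ y) := by
    intro n hn
    have hn1 : n + 1 < (ω : Ordinal.{u}) := by
      obtain ⟨k, rfl⟩ := Ordinal.lt_omega0.1 hn
      have := Ordinal.natCast_lt_omega0.{u} (k + 1)
      push_cast at this
      exact this
    rw [hc n hn _ hn1 rfl, hc' n hn _ hn1 rfl, hs.unique hs' n hn, hs.unique hs' _ hn1]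
  ext z
  constructor
  · intro hz
    obtain ⟨n, hn, rfl⟩ := mem_toZFSet_iff.1 (hx hz)
    exact (key n hn).1 hz
  · intro hz
    obtain ⟨n, hn, rfl⟩ := mem_toZFSet_iff.1 (hy hz)
    exact (key n hn).2 hz

end Pool.Agent.Helper56.MW
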