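import Pool.Agent.Helper56.MW.CodDefs
import Pool.Agent.Helper56.MW.A1
import Pool.Agent.Helper56.MW.A6

open FirstOrder FirstOrder.Language Ordinal Cardinal Set Helper23.Pcf

universe u v

namespace Pool.Agent.Helper56.MW

variable {S : Set Ordinal.{u}}

/-- (D6) Later traces are contained in earlier ones, modulo clubs.

Proof: induction on `n` (natural numbers), using the third clause of `Split` and `nrm_agree`. The
union of two non stationary sets is not stationary (`StatIn.union`). -/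
theorem trace_mono {η₀ : Ordinal.{u}} {h : Ordinal.{u} → Ordinal.{u}}
    (h1 : IsSeq S (ω_ 1) ω η₀ h) (hok : ∀ n < ω, Ok S (h n)) {m n : ℕ} (hmn : m ≤ n)
    {f g : Ordinal.{u} → Ordinal.{u}} (hf : Nrm (ω_ 1) (h m) f) (hg : Nrm (ω_ 1) (h n) g) :
    ¬ StatIn {ξ | g ξ ∈ S ∧ f ξ ∉ S} (ω_ 1) := by
  induction n, hmn using Nat.le_induction generalizing g with
  | base =>
    intro hst
    obtain ⟨C, hC, hCfg⟩ := nrm_agree hf hg
    obtain ⟨ξ, h2, h3, h4⟩ := hst C hC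
    refine h2.2 ?_
    rw [hCfg ξ h3 h4]
    exact h2.1
  | succ n hmn ih =>
    intro hst
    obtain ⟨f₁, f₂, hf₁, hf₂, -, -, h5⟩ := (h1.2 (n : Ordinal.{u}) (Ordinal.natCast_lt_omega0 n)
      ((n + 1 : ℕ) : Ordinal.{u}) (Ordinal.natCast_lt_omega0 (n + 1)) (Nat.cast_succ n)).1
    obtain ⟨C, hC, hCfg⟩ := nrm_agree hg hf₂
    have hun : StatIn ({ξ | f₁ ξ ∉ S ∧ f₂ ξ ∈ S} ∪ {ξ | f₁ ξ ∈ S ∧ f ξ ∉ S}) (ω_ 1) := by
      refine StatIn.congr_club aleph0_lt_cof_omega1 hst hC fun ξ h2 h3 h4 => ?_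
      by_cases h6 : f₁ ξ ∈ S
      · exact Or.inr ⟨h6, h2.2⟩
      · exact Or.inl ⟨h6, hCfg ξ h3 h4 ▸ h2.1⟩
    rcases StatIn.union aleph0_lt_cof_omega1 hun with h | h
    · exact h5 h
    · exact ih hf₁ h

end Pool.Agent.Helper56.MW
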