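import Pool.Agent.Helper56.MW.D3
import Pool.Agent.Helper56.MW.D6

open FirstOrder FirstOrder.Language Ordinal Cardinal Set Helper23.Pcf

universe u v

namespace Pool.Agent.Helper56.MW

variable {S : Set Ordinal.{u}}

private theorem D7_disj {η₀ : Ordinal.{u}} {h : Ordinal.{u} → Ordinal.{u}}
    (hseq : IsSeq S (ω_ 1) ω η₀ h) (hok : ∀ n < ω, Ok S (h n))
    (f : ℕ → Ordinal.{u} → Ordinal.{u}) (hf : ∀ n : ℕ, Nrm (ω_ 1) (h n) (f n))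
    {m n : ℕ} (hmn : m < n) :
    ¬ StatIn ({ξ | f m ξ ∈ S ∧ f (m + 1) ξ ∉ S} ∩ {ξ | f n ξ ∈ S ∧ f (n + 1) ξ ∉ S}) (ω_ 1) := by
  intro hst
  refine trace_mono hseq hok (m := m + 1) (n := n) hmn (hf (m + 1)) (hf n) (hst.mono ?_)
  intro ξ hξ
  exact ⟨hξ.2.1, hξ.1.2⟩

/-- (D7) Every subset of `ω` is coded.

Proof: let `h` be the canonical sequence, `f n` (natural `n`) a map with
`Nrm (ω_ 1) (h n) (f n)`, `B n = {ξ | f n ξ ∈ S ∧ f (n+1) ξ ∉ S}`, and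
`A = {ξ | ∃ n : ℕ, (n : Ordinal).toZFSet ∈ x ∧ ξ ∈ B n}`.  `H` gives `η, f` with
`f ξ ∈ S ↔ ξ ∈ A` for limit `ξ < ω₁`.
If `n ∈ x` then `{ξ | f ξ ∈ S ∧ f n ξ ∈ S ∧ f (n+1) ξ ∉ S}` contains the limit points in
`B n`, and `B n` is stationary by the second clause of `Split` and `nrm_agree`.  So `Meet` holds.
If `n ∉ x` and `g, g', g''` are as in `Meet S (ω_ 1) η (h n) (h (n+1))`: on a club, `g = f`,
`g' = f n`, `g'' = f (n+1)`, so the stationary set in `Meet` is contained, on a club, in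
`A ∩ B n`, hence in the countable union of the `B m ∩ B n`, `m ≠ n`; by `stat_iUnion` one of them
is stationary; but if `m < n` then `B m ∩ B n ⊆ {ξ | f n ξ ∈ S ∧ f (m+1) ξ ∉ S}` contradicts
`trace_mono`, and symmetrically if `n < m`. -/
theorem exists_code (H : Univ S) {η₀ : Ordinal.{u}} (h0 : Ok S η₀) (x : ZFSet.{u}) :
    ∃ η, Code S (ω_ 1) ω η₀ η x := by
  classical
  obtain ⟨h, hseq, hok⟩ := exists_isSeq H h0
  have hnat : ∀ n : ℕ, (n : Ordinal.{u}) < ω := fun n => Ordinal.natCast_lt_omega0 n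
  have hf0 : ∀ n : ℕ, ∃ f, Nrm (ω_ 1) (h n) f := fun n => by
    obtain ⟨f, h1, -⟩ := hok n (hnat n)
    exact ⟨f, h1⟩
  choose f hf using hf0
  have hsucc : ∀ k : ℕ, ((k + 1 : ℕ) : Ordinal.{u}) = (k : Ordinal.{u}) + 1 := fun k => by
    push_cast
    rfl
  -- the blocks are stationary
  have hB : ∀ k : ℕ, StatIn {ξ | f k ξ ∈ S ∧ f (k + 1) ξ ∉ S} (ω_ 1) := by
    intro k
    obtain ⟨g, g', hg, hg', -, h2, -⟩ :=
      (hseq.2 k (hnat k) (k + 1 : ℕ) (hnat (k + 1)) (hsucc k)).1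
    obtain ⟨C, hC, hCg⟩ := nrm_agree hg (hf k)
    obtain ⟨C', hC', hCg'⟩ := nrm_agree hg' (hf (k + 1))
    refine StatIn.congr_club aleph0_lt_cof_omega1 h2 (club_inter aleph0_lt_cof_omega1 hC hC') ?_
    intro ξ hξ hξC hξo
    refine ⟨?_, ?_⟩
    · rw [← hCg ξ hξC.1 hξo]
      exact hξ.1
    · rw [← hCg' ξ hξC.2 hξo]
      exact hξ.2
  obtain ⟨η, F, hF, hFA⟩ := H {ξ | ∃ n : ℕ, (n : Ordinal.{u}).toZFSet ∈ x ∧
    ξ ∈ {ξ | f n ξ ∈ S ∧ f (n + 1) ξ ∉ S}}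
  have hlimits := club_limits (aleph0_lt_cof_omega1.{u})
  refine ⟨η, h, hseq, ?_⟩
  intro n hn m _ hmn
  obtain ⟨k, rfl⟩ := Ordinal.lt_omega0.1 hn
  subst hmn
  rw [← hsucc k]
  constructor
  · intro hk
    refine ⟨F, f k, f (k + 1), hF, hf k, hf (k + 1), ?_⟩
    refine StatIn.congr_club aleph0_lt_cof_omega1 (hB k) hlimits ?_
    intro ξ hξ hξl hξo
    exact ⟨(hFA ξ hξo hξl).2 ⟨k, hk, hξ⟩, hξ⟩
  · rintro ⟨g, g', g'', hg, hg', hg'', hst⟩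
    by_contra hk
    obtain ⟨C, hC, hCg⟩ := nrm_agree hg hF
    obtain ⟨C', hC', hCg'⟩ := nrm_agree hg' (hf k)
    obtain ⟨C'', hC'', hCg''⟩ := nrm_agree hg'' (hf (k + 1))
    have hclub := club_inter aleph0_lt_cof_omega1 hlimits
      (club_inter aleph0_lt_cof_omega1 hC (club_inter aleph0_lt_cof_omega1 hC' hC''))
    have hst2 : StatIn (⋃ j : ULift.{u} ℕ, {ξ | (j.down : Ordinal.{u}).toZFSet ∈ x ∧
        ξ ∈ {ξ | f j.down ξ ∈ S ∧ f (j.down + 1) ξ ∉ S} ∩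
          {ξ | f k ξ ∈ S ∧ f (k + 1) ξ ∉ S}}) (ω_ 1) := by
      refine StatIn.congr_club aleph0_lt_cof_omega1 hst hclub ?_
      rintro ξ ⟨h1, h2, h3⟩ ⟨hl, hc, hc', hc''⟩ hξo
      rw [hCg ξ hc hξo] at h1
      rw [hCg' ξ hc' hξo] at h2
      rw [hCg'' ξ hc'' hξo] at h3
      obtain ⟨j, hj, hjB⟩ := (hFA ξ hξo hl).1 h1
      exact Set.mem_iUnion.2 ⟨ULift.up j, hj, hjB, h2, h3⟩
    have hI : #(ULift.{u} ℕ) < (ω_ 1 : Ordinal.{u}).cof := by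
      rw [Cardinal.mk_uLift, Cardinal.mk_nat, Cardinal.lift_aleph0]
      exact aleph0_lt_cof_omega1
    obtain ⟨⟨j⟩, hj⟩ := stat_iUnion aleph0_lt_cof_omega1 hI _ hst2
    have hjx : (j : Ordinal.{u}).toZFSet ∈ x := by
      obtain ⟨ξ, hξ, -⟩ := hj _ hlimits
      exact hξ.1
    have hj2 : StatIn ({ξ | f j ξ ∈ S ∧ f (j + 1) ξ ∉ S} ∩
        {ξ | f k ξ ∈ S ∧ f (k + 1) ξ ∉ S}) (ω_ 1) := hj.mono fun ξ hξ => hξ.2
    rcases lt_trichotomy j k with hjk | rfl | hjk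
    · exact D7_disj hseq hok f hf hjk hj2
    · exact hk hjx
    · refine D7_disj hseq hok f hf hjk (hj2.mono ?_)
      rintro ξ ⟨h1, h2⟩
      exact ⟨h2, h1⟩

end Pool.Agent.Helper56.MW
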