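import Pool.Agent.Helper56.MW.Calc
import Pool.Agent.Helper23.Pcf.Fodor

/-!
# Martin's Maximum, ordinal definability and definable well-orders of the reals

`ClubIn C o` (from `Helper23.Pcf`): `C` is unbounded in `o` and contains every `δ < o`, `0 < δ`,
in which it is unbounded.  `StatIn S o`: `S` meets every club of `o` below `o`.
-/

open FirstOrder FirstOrder.Language Ordinal Cardinal Helper23.Pcf

universe u v

namespace Pool.Agent.Helper56.MW

/-- `N` is a name for a subset of `ω₁` (`N q α` says that the condition `q` puts `α` into the set),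
and the condition `p` forces that this set is closed and unbounded in `ω₁`. -/
structure ForcesClub {P : Type v} [Preorder P] (p : P) (N : P → Ordinal.{u} → Prop) : Prop where
  mono : ∀ q r α, q ≤ r → N r α → N q α
  unbounded : ∀ q ≤ p, ∀ α < ω_ 1, ∃ r ≤ q, ∃ β < ω_ 1, α < β ∧ N r β
  closed : ∀ q ≤ p, ∀ δ < ω_ 1, 0 < δ →
    (∀ α < δ, ∀ r ≤ q, ∃ s ≤ r, ∃ β < δ, α < β ∧ N s β) → ∀ r ≤ q, ∃ s ≤ r, N s δ

/-- The forcing notion `P` preserves stationary subsets of `ω₁`: for each stationary `S`, no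
condition forces that a closed unbounded set avoids `S`. -/
def PreservesStat (P : Type v) [Preorder P] : Prop :=
  ∀ S : Set Ordinal.{u}, StatIn S (ω_ 1) → ∀ (p : P) (N : P → Ordinal.{u} → Prop),
    ForcesClub p N → ∃ q ≤ p, ∃ α ∈ S, α < ω_ 1 ∧ N q α

/-- `G` is a filter meeting the sets `D i`, `i < ω₁`. -/
structure GenericFor {P : Type v} [Preorder P] (D : Ordinal.{u} → Set P) (G : Set P) : Prop where
  up : ∀ p ∈ G, ∀ q, p ≤ q → q ∈ G
  dir : ∀ p ∈ G, ∀ q ∈ G, ∃ r ∈ G, r ≤ p ∧ r ≤ q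
  meets : ∀ i < ω_ 1, ∃ p ∈ G, p ∈ D i

/-- Martin's Maximum. -/
def MM : Prop :=
  ∀ (P : Type u) [Preorder P] [Nonempty P], PreservesStat.{u} P →
    ∀ D : Ordinal.{u} → Set P, (∀ i < ω_ 1, ∀ p, ∃ q ≤ p, q ∈ D i) → ∃ G, GenericFor D G

/-- The set `x` is definable in the universe from `A` and finitely many ordinals. -/
def OrdDef (A x : ZFSet.{u}) : Prop :=
  ∃ (n : ℕ) (φ : LSet.Formula (Fin n ⊕ Fin 2)) (a : Fin n → Ordinal.{u}),
    ∀ y, φ.Realize (Sum.elim (fun i => (a i).toZFSet) ![A, y]) ↔ y = x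

/-- Some formula without parameters defines a well-order of the set of all subsets of `ω`. -/
def HasDefWO : Prop :=
  ∃ φ : LSet.Formula (Fin 2), IsWellOrder {x : ZFSet.{u} // x ⊆ (ω : Ordinal.{u}).toZFSet}
    (fun x y => φ.Realize ![(x : ZFSet.{u}), (y : ZFSet.{u})])

/-- The set `s` splits the points of countable cofinality below the cardinal `κ` into two
stationary sets. -/
def Splits (κ : Cardinal.{u}) (s : ZFSet.{u}) : Prop :=
  StatIn {γ | γ.cof = ℵ₀ ∧ γ.toZFSet ∈ s} κ.ord ∧ StatIn {γ | γ.cof = ℵ₀ ∧ γ.toZFSet ∉ s} κ.ord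

/-! ### Auxiliary notions -/

/-- `f` restricted to `w` is a continuous increasing cofinal map from `w` to `η`. -/
structure Nrm (w η : Ordinal.{u}) (f : Ordinal.{u} → Ordinal.{u}) : Prop where
  bdd : ∀ ξ < w, f ξ < η
  mono : ∀ ξ < w, ∀ ξ' < ξ, f ξ' < f ξ
  cont : ∀ ξ < w, Order.IsSuccLimit ξ → ∀ ν < f ξ, ∃ ξ' < ξ, ν < f ξ'
  cofinal : ∀ ν < η, ∃ ξ < w, ν < f ξ

/-- The traces of `S` on `η`, `η'` and of the complement of `S` on `η''` have stationary
intersection. -/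
def Meet (S : Set Ordinal.{u}) (w η η' η'' : Ordinal.{u}) : Prop :=
  ∃ f f' f'' : Ordinal.{u} → Ordinal.{u}, Nrm w η f ∧ Nrm w η' f' ∧ Nrm w η'' f'' ∧
    StatIn {ξ | f ξ ∈ S ∧ f' ξ ∈ S ∧ f'' ξ ∉ S} w

/-- The trace of `S` on `η'` is contained, modulo clubs, in its trace on `η`; it is stationary and
so is the difference. -/
def Split (S : Set Ordinal.{u}) (w η η' : Ordinal.{u}) : Prop :=
  ∃ f f' : Ordinal.{u} → Ordinal.{u}, Nrm w η f ∧ Nrm w η' f' ∧
    StatIn {ξ | f ξ ∈ S ∧ f' ξ ∈ S} w ∧ StatIn {ξ | f ξ ∈ S ∧ f' ξ ∉ S} w ∧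
      ¬ StatIn {ξ | f ξ ∉ S ∧ f' ξ ∈ S} w

/-- `h` restricted to `o` is the canonical sequence starting with `η₀`. -/
def IsSeq (S : Set Ordinal.{u}) (w o η₀ : Ordinal.{u}) (h : Ordinal.{u} → Ordinal.{u}) : Prop :=
  h 0 = η₀ ∧ ∀ n < o, ∀ m < o, m = n + 1 → Split S w (h n) (h m) ∧ ∀ ν < h m, ¬ Split S w (h n) ν

/-- `η` codes the subset `x` of `ω`. -/
def Code (S : Set Ordinal.{u}) (w o η₀ η : Ordinal.{u}) (x : ZFSet.{u}) : Prop :=
  ∃ h : Ordinal.{u} → Ordinal.{u}, IsSeq S w o η₀ h ∧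
    ∀ n < o, ∀ m < o, m = n + 1 → (n.toZFSet ∈ x ↔ Meet S w η (h n) (h m))

/-- The order of the least codes. -/
def Prec (S : Set Ordinal.{u}) (w o η₀ : Ordinal.{u}) (x y : ZFSet.{u}) : Prop :=
  ∃ η, Code S w o η₀ η x ∧ ∀ η' ≤ η, ¬ Code S w o η₀ η' y

end Pool.Agent.Helper56.MW
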