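import Pool.Agent.Helper56.MW.Defs

open FirstOrder FirstOrder.Language Ordinal Cardinal Set Helper23.Pcf

universe u v

namespace Pool.Agent.Helper56.MW

/-- `f` is a piece of the enumeration of the well-ordered class `(D, W)`. -/
def RkCode (D : ZFSet.{u} → Prop) (W : ZFSet.{u} → ZFSet.{u} → Prop) (f : ZFSet.{u}) : Prop :=
  ∀ (y : ZFSet.{u}) (ν : Ordinal.{u}), ZFSet.pair y ν.toZFSet ∈ f → D y ∧
    (∀ z, D z → W z y → ∃ ν' < ν, ZFSet.pair z ν'.toZFSet ∈ f) ∧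
    (∀ ν' < ν, ∃ z, D z ∧ W z y ∧ ZFSet.pair z ν'.toZFSet ∈ f)

/-- `x` is the `γ`-th element of the well-ordered class `(D, W)`. -/
def Rk (D : ZFSet.{u} → Prop) (W : ZFSet.{u} → ZFSet.{u} → Prop) (x : ZFSet.{u})
    (γ : Ordinal.{u}) : Prop :=
  ∃ f, RkCode D W f ∧ ZFSet.pair x γ.toZFSet ∈ f

/-- The tuple `a` defines `x` by the formula `φ`. -/
def DefBy {n : ℕ} (φ : LSet.Formula (Fin n ⊕ Fin 2)) (a : Fin n → Ordinal.{u})
    (x : ZFSet.{u}) : Prop :=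
  ∀ y, φ.Realize (Sum.elim (fun i => (a i).toZFSet) ![∅, y]) ↔ y = x

/-- The lexicographic order of tuples of ordinals. -/
def LexLt {n : ℕ} (a b : Fin n → Ordinal.{u}) : Prop :=
  ∃ i, a i < b i ∧ ∀ j < i, a j = b j

end Pool.Agent.Helper56.MW
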