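import Pool.Agent.Helper56.MW.ValDefs

open FirstOrder FirstOrder.Language Ordinal Cardinal Set Helper23.Pcf

universe u v

namespace Pool.Agent.Helper56.MW

private theorem G5_char (x : ZFSet.{u}) (ρ : Ordinal.{u}) :
    (∃ f : ZFSet.{u}, (∀ y : ZFSet.{u}, ∀ ν : Ordinal.{u}, ZFSet.pair y ν.toZFSet ∈ f →
      ∀ z : ZFSet.{u}, z ∈ y → ∃ ν' : Ordinal.{u}, ν' < ν ∧ ZFSet.pair z ν'.toZFSet ∈ f) ∧
      ∃ ν : Ordinal.{u}, ν ≤ ρ ∧ ZFSet.pair x ν.toZFSet ∈ f) ↔ x.rank ≤ ρ := by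
  constructor
  · rintro ⟨f, hf, ν, hν, hx⟩
    have h : ∀ y : ZFSet.{u}, ∀ ν : Ordinal.{u}, ZFSet.pair y ν.toZFSet ∈ f → y.rank ≤ ν := by
      intro y
      induction y using ZFSet.inductionOn with
      | _ y ih =>
        intro ν hy
        rw [ZFSet.rank_le_iff]
        intro z hz
        obtain ⟨ν', h1, h2⟩ := hf y ν hy z hz
        exact (ih z hz ν' h2).trans_lt h1
    exact (h x ν hx).trans hν
  · intro hx
    set o : Ordinal.{u} := x.rank + 1 with ho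
    refine ⟨ZFSet.sep (fun p => ∃ y : ZFSet.{u}, p = ZFSet.pair y y.rank.toZFSet)
      (ZFSet.prod (ZFSet.vonNeumann o) o.toZFSet), ?_, x.rank, hx, ?_⟩
    · intro y ν hy z hz
      rw [ZFSet.mem_sep, ZFSet.pair_mem_prod] at hy
      obtain ⟨⟨h1, _⟩, y', h3⟩ := hy
      obtain ⟨rfl, h5⟩ := ZFSet.pair_inj.1 h3
      have h6 := toZFSet_injective h5
      subst h6
      have h7 : z.rank < y.rank := ZFSet.rank_lt_of_mem hz
      have h8 : y.rank < o := ZFSet.mem_vonNeumann.1 h1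
      refine ⟨z.rank, h7, ?_⟩
      rw [ZFSet.mem_sep, ZFSet.pair_mem_prod]
      exact ⟨⟨ZFSet.mem_vonNeumann.2 (h7.trans h8), toZFSet_mem_toZFSet_iff.2 (h7.trans h8)⟩,
        z, rfl⟩
    · rw [ZFSet.mem_sep, ZFSet.pair_mem_prod]
      have h8 : x.rank < o := Order.lt_add_one_iff.2 le_rfl
      exact ⟨⟨ZFSet.mem_vonNeumann.2 h8, toZFSet_mem_toZFSet_iff.2 h8⟩, x, rfl⟩

/-- (G5) `rank x ≤ ν` is definable.

Proof: `rank x ≤ ρ` iff there is a set `f` such that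
`∀ y ν, pair y ν ∈ f → ∀ z ∈ y, ∃ ν' < ν, pair z ν' ∈ f` and `∃ ν ≤ ρ, pair x ν ∈ f`
(ordinals as von Neumann ordinals).  (←) By `∈`-induction on `y`: `pair y ν ∈ f → rank y ≤ ν`
(`ZFSet.rank_le_iff`).
(→) `f` is the set of all pairs `pair y (rank y).toZFSet` with `y ∈ V_ (rank x + 1)`
(`ZFSet.image`/`ZFSet.range` over the small type of elements); the elements of `y ∈ V_ o` are
in `V_ o`. -/
theorem Df.rankLe {α β : Type} (x : β) (ρ : α) : Df.{u} (fun a s => (s x).rank ≤ a ρ) := by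
  refine (Df.exS (P := fun f a s => (∀ y : ZFSet.{u}, ∀ ν : Ordinal.{u},
      ZFSet.pair y ν.toZFSet ∈ f →
      ∀ z : ZFSet.{u}, z ∈ y → ∃ ν' : Ordinal.{u}, ν' < ν ∧ ZFSet.pair z ν'.toZFSet ∈ f) ∧
      ∃ ν : Ordinal.{u}, ν ≤ a ρ ∧ ZFSet.pair (s x) ν.toZFSet ∈ f)
    (Df.and ?_ ?_)).congr fun a s => G5_char (s x) (a ρ)
  · refine Df.allS (P := fun y a s => ∀ ν : Ordinal.{u},
      ZFSet.pair y ν.toZFSet ∈ s none →
      ∀ z : ZFSet.{u}, z ∈ y → ∃ ν' : Ordinal.{u}, ν' < ν ∧ ZFSet.pair z ν'.toZFSet ∈ s none) ?_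
    refine Df.allO (P := fun ν a s => ZFSet.pair (s none) ν.toZFSet ∈ s (some none) →
      ∀ z : ZFSet.{u}, z ∈ s none → ∃ ν' : Ordinal.{u}, ν' < ν ∧
        ZFSet.pair z ν'.toZFSet ∈ s (some none)) ?_
    refine (Df.pairSO none none (some none)).imp ?_
    refine Df.allS (P := fun z a s => z ∈ s none → ∃ ν' : Ordinal.{u}, ν' < a none ∧
        ZFSet.pair z ν'.toZFSet ∈ s (some none)) ?_
    refine (Df.memS none (some none)).imp ?_
    refine Df.exO (P := fun ν' a s => ν' < a none ∧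
        ZFSet.pair (s none) ν'.toZFSet ∈ s (some (some none))) ?_
    exact (Df.ltO none (some none)).and (Df.pairSO none none (some (some none)))
  · refine Df.exO (P := fun ν a s => ν ≤ a ρ ∧ ZFSet.pair (s (some x)) ν.toZFSet ∈ s none) ?_
    exact (Df.leO none (some ρ)).and (Df.pairSO (some x) none none)

end Pool.Agent.Helper56.MW
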