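import Pool.Agent.Helper56.MW.G3
import Pool.Agent.Helper56.MW.G5
import Pool.Agent.Helper56.MW.A1
import Pool.Agent.Helper56.MW.A4

open FirstOrder FirstOrder.Language Ordinal Cardinal Set Helper23.Pcf

universe u v

namespace Pool.Agent.Helper56.MW

/-- The ordinal `ν` is in the set defined by the formula from the set `A'` and the tuple `b`. -/
private def G6Q {n : ℕ} (φ : LSet.Formula (Fin n ⊕ Fin 2)) (b : Fin n → Ordinal.{u})
    (A' : ZFSet.{u}) (ν : Ordinal.{u}) : Prop :=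
  ∃ y, φ.Realize (Sum.elim (fun i => (b i).toZFSet) ![A', y]) ∧ ν.toZFSet ∈ y

private theorem G6_Q {n : ℕ} (φ : LSet.Formula (Fin n ⊕ Fin 2)) {α β : Type} (f : Fin n → α)
    (i : α) (j : β) :
    Df.{u} (α := α) (β := β) (fun a s => G6Q φ (fun l => a (f l)) (s j) (a i)) := by
  have h0 : Df.{u} (α := Fin n) (β := Fin 2)
      (fun a s => φ.Realize (Sum.elim (fun i => (a i).toZFSet) s)) := ⟨φ, fun _ _ => Iff.rfl⟩
  have h1 : Df.{u} (α := α) (β := Option β)
      (fun a s => φ.Realize (Sum.elim (fun l => (a (f l)).toZFSet) ![s (some j), s none])) := by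
    refine (h0.relabel (α := α) (β := Option β) f ![some j, none]).congr fun a s => ?_
    refine iff_of_eq (congrArg (fun t => φ.Realize (Sum.elim (fun l => (a (f l)).toZFSet) t)) ?_)
    funext l
    fin_cases l <;> rfl
  exact Df.exS (P := fun y a s => φ.Realize (Sum.elim (fun l => (a (f l)).toZFSet) ![s j, y]) ∧
    (a i).toZFSet ∈ y) (h1.and (Df.memO i none))

/-- (G6) Removing a set parameter, for large regular cardinals.

Proof.  Let `h : OrdDef A s` be given by `n, φ, a`; for sets `A'` let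
`Q A' ν := ∃ y, φ.Realize (Sum.elim a ![A', y]) ∧ ν.toZFSet ∈ y`; so `Q A ν ↔ ν.toZFSet ∈ s`.
Let `ρ = rank A`, `Z = {A' | rank A' ≤ ρ}`.  For `ε < κ.ord` let
`T ε = {ν | ∀ A', rank A' ≤ ρ → (Q A' ν ↔ Q A' ε)}`.  This is a definable class of ordinals with the
ordinal parameters `a`, `ρ`, `ε` (`Df.rankLe`, `Df.allS`, `Df.exS`), so `exists_ordDef` gives
`s' ∈ OrdDef ∅` with `ν.toZFSet ∈ s' ↔ ν < κ.ord ∧ ν ∈ T ε`.
Claim: for some `ε < κ.ord`, `{γ | cof γ = ℵ₀ ∧ γ ∈ T ε}` is stationary.  The sets `T ε` are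
determined by `{A' ∈ Z | Q A' ε}`, a subset of `Z`, and `2 ^ #Z < κ`: the set of all `γ` with
`cof γ = ℵ₀`, `γ < κ.ord` is the union over the subsets `Y` of `Z` of
`{γ | cof γ = ℵ₀ ∧ γ < κ.ord ∧ {A' ∈ Z | Q A' γ} = Y}`; it is stationary by `stat_cof`, so by
`stat_iUnion` (index type `Shrink (Set Z)`) one of these sets is stationary; let `ε` be an
element of it.
If `{γ | cof γ = ℵ₀ ∧ γ ∉ T ε}` is stationary too, `s'` splits `κ`.  If not, there is a club `C`
such that all `γ ∈ C` of cofinality `ℵ₀`, `γ < κ.ord`, are in `T ε`, hence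
(`A ∈ Z`) `γ.toZFSet ∈ s ↔ Q A ε`: one of the two sets in `Splits κ s` misses `C`. -/
theorem remove_param {A s : ZFSet.{u}} (h : OrdDef A s) {κ : Cardinal.{u}} (hκ : κ.IsRegular)
    (h1 : ℵ_ 1 < κ)
    (h2 : Cardinal.lift.{u + 1} κ > 2 ^ #{A' : ZFSet.{u} // A'.rank ≤ A.rank})
    (hs : Splits κ s) : ∃ s', OrdDef ∅ s' ∧ Splits κ s' := by
  classical
  obtain ⟨n, φ, a, hφ⟩ := h
  have hQ : ∀ ν : Ordinal.{u}, G6Q φ a A ν ↔ ν.toZFSet ∈ s := by
    intro ν
    constructor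
    · rintro ⟨y, hy, hν⟩
      rwa [(hφ y).1 hy] at hν
    · intro hν
      exact ⟨s, (hφ s).2 rfl, hν⟩
  have hκ0 : ℵ₀ < κ := lt_trans Cardinal.aleph0_lt_aleph_one h1
  have hcof : κ.ord.cof = κ := hκ.cof_ord
  have hcof0 : ℵ₀ < κ.ord.cof := by rw [hcof]; exact hκ0
  -- a small copy of the power set
  obtain ⟨c, hc⟩ := Cardinal.mem_range_lift_of_le h2.le
  have hcκ : c < κ := by
    rw [← hc] at h2
    exact Cardinal.lift_lt.1 h2
  have hce : Cardinal.lift.{u + 1} #(c.out) =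
      Cardinal.lift.{u} #(Set {A' : ZFSet.{u} // A'.rank ≤ A.rank}) := by
    rw [Cardinal.mk_out, Cardinal.mk_set, hc]
    exact (Cardinal.lift_id'.{u, u + 1} _).symm
  obtain ⟨e⟩ := Cardinal.lift_mk_eq'.1 hce
  obtain ⟨i, hi⟩ := stat_iUnion hcof0 (I := c.out) (by rw [Cardinal.mk_out, hcof]; exact hcκ)
    (fun i => {γ : Ordinal.{u} | γ.cof = ℵ₀ ∧
      {A' : {A' : ZFSet.{u} // A'.rank ≤ A.rank} | G6Q φ a A'.1 γ} = e i})
    ((stat_cof hκ hκ0).mono fun γ hγ => Set.mem_iUnion.2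
      ⟨e.symm {A' : {A' : ZFSet.{u} // A'.rank ≤ A.rank} | G6Q φ a A'.1 γ}, hγ, by
        rw [Equiv.apply_symm_apply]⟩)
  have hlim : Order.IsSuccLimit κ.ord := Ordinal.one_lt_cof_iff.1 (one_lt_aleph0.trans hcof0)
  obtain ⟨ε, hε, -, hεκ⟩ := hi.unb hlim 0 (pos_iff_ne_zero.2 hlim.ne_bot)
  -- the definable class
  let P : Ordinal.{u} → (Option (Option (Fin n)) → Ordinal.{u}) → Prop := fun ν b =>
    ∀ A' : ZFSet.{u}, A'.rank ≤ b none →
      (G6Q φ (fun l => b (some (some l))) A' ν ↔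
        G6Q φ (fun l => b (some (some l))) A' (b (some none)))
  have hP : Df.{u} (α := Option (Option (Option (Fin n)))) (β := Empty)
      (fun a _ => P (a none) (fun i => a (some i))) := by
    refine Df.allS (P := fun A' (a : Option (Option (Option (Fin n))) → Ordinal.{u})
      (_ : Empty → ZFSet.{u}) => A'.rank ≤ a (some none) →
      (G6Q φ (fun l => a (some (some (some l)))) A' (a none) ↔
        G6Q φ (fun l => a (some (some (some l)))) A' (a (some (some none))))) ?_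
    exact (Df.rankLe none (some none)).imp
      ((G6_Q φ (fun l => some (some (some l))) none none).iff
        (G6_Q φ (fun l => some (some (some l))) (some (some none)) none))
  let b : Option (Option (Fin n)) → Ordinal.{u} := fun o => match o with
    | none => A.rank
    | some none => ε
    | some (some l) => a l
  obtain ⟨s', hs', hs''⟩ := exists_ordDef hP b κ.ord
  have hT : ∀ ν, ν.toZFSet ∈ s' ↔ ν < κ.ord ∧ ∀ A' : ZFSet.{u}, A'.rank ≤ A.rank →
      (G6Q φ a A' ν ↔ G6Q φ a A' ε) := hs''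
  refine ⟨s', hs', ?_, ?_⟩
  · intro C hC
    obtain ⟨x, hx, hxC, hxκ⟩ := hi C hC
    refine ⟨x, ⟨hx.1, (hT x).2 ⟨hxκ, fun A' hA' => ?_⟩⟩, hxC, hxκ⟩
    have h3 : {A' : {A' : ZFSet.{u} // A'.rank ≤ A.rank} | G6Q φ a A'.1 x} =
        {A' : {A' : ZFSet.{u} // A'.rank ≤ A.rank} | G6Q φ a A'.1 ε} := hx.2.trans hε.2.symm
    have h4 := Set.ext_iff.1 h3 ⟨A', hA'⟩
    exact h4
  · by_contra hcon
    unfold StatIn at hcon
    push Not at hcon
    obtain ⟨C, hC, hCx⟩ := hcon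
    have hmem : ∀ x ∈ C, x < κ.ord → x.cof = ℵ₀ → (x.toZFSet ∈ s ↔ G6Q φ a A ε) := by
      intro x hxC hxκ hxc
      have h3 : x.toZFSet ∈ s' := by
        by_contra hn
        exact absurd hxκ (not_lt.2 (hCx x ⟨hxc, hn⟩ hxC))
      exact (hQ x).symm.trans (((hT x).1 h3).2 A le_rfl)
    by_cases hA : G6Q φ a A ε
    · obtain ⟨x, hx, hxC, hxκ⟩ := hs.2 C hC
      exact hx.2 ((hmem x hxC hxκ hx.1).2 hA)
    · obtain ⟨x, hx, hxC, hxκ⟩ := hs.1 C hC
      exact hA ((hmem x hxC hxκ hx.1).1 hx.2)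

end Pool.Agent.Helper56.MW
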