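import Pool.Agent.Helper56.MW.H1
import Pool.Agent.Helper56.MW.H3
import Pool.Agent.Helper56.MW.H4
import Pool.Agent.Helper56.MW.G3
import Pool.Agent.Helper56.MW.A1
import Pool.Agent.Helper56.MW.A4

open FirstOrder FirstOrder.Language Ordinal Cardinal Set Helper23.Pcf

universe u v

namespace Pool.Agent.Helper56.MW

/-- Many elements in a definably well-ordered class whose elements are separated by few definable
bits give an ordinal definable splitting set. -/
theorem splits_of_bits {n m : ℕ} {D : (Fin n → Ordinal.{u}) → ZFSet.{u} → Prop}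
    {W : (Fin n → Ordinal.{u}) → ZFSet.{u} → ZFSet.{u} → Prop}
    {B : (Fin m → Ordinal.{u}) → ZFSet.{u} → Prop}
    (hD : Df (α := Fin n) (β := Unit) (fun a s => D a (s ())))
    (hW : Df (α := Fin n) (β := Fin 2) (fun a s => W a (s 0) (s 1)))
    (hB : Df (α := Fin m) (β := Unit) (fun b s => B b (s ())))
    (a : Fin n → Ordinal.{u}) {κ : Cardinal.{u}} (hκ : κ.IsRegular) (h0 : ℵ₀ < κ)
    {I : Type u} (hI : #I < κ) (b : I → Fin m → Ordinal.{u})
    (hsep : ∀ x y, D a x → D a y → (∀ i, B (b i) x ↔ B (b i) y) → x = y)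
    (hwo : IsWellOrder {x : ZFSet.{u} // D a x} (fun x y => W a x y))
    (hcard : Cardinal.lift.{u + 1} κ ≤ #{x : ZFSet.{u} // D a x}) :
    ∃ s, OrdDef ∅ s ∧ Splits κ s := by
  classical
  have : Small.{u} {x : ZFSet.{u} // D a x} := by
    refine small_of_injective (β := Set I) (f := fun x => {i | B (b i) x.1}) ?_
    intro x y hxy
    refine Subtype.ext (hsep _ _ x.2 y.2 fun i => ?_)
    exact Set.ext_iff.1 hxy i
  obtain ⟨-, hrk⟩ := exists_rk (D := D a) (W := W a) hwo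
  have hx : ∀ γ : Ordinal.{u}, ∃ x, γ < κ.ord → D a x ∧ Rk (D a) (W a) x γ := by
    intro γ
    by_cases h : γ < κ.ord
    · obtain ⟨x, h1⟩ := hrk κ hcard γ h
      exact ⟨x, fun _ => h1⟩
    · exact ⟨∅, fun h' => absurd h' h⟩
  choose x hx using hx
  have hcof : ℵ₀ < κ.ord.cof := by
    rw [hκ.cof_ord]
    exact h0
  obtain ⟨i, h1, h2⟩ := split_injective hcof (stat_cof hκ h0) (I := I)
    (by rw [hκ.cof_ord]; exact hI) (fun γ => {i | B (b i) (x γ)}) (by
      intro γ hγ γ' hγ' h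
      have h3 : x γ = x γ' := hsep _ _ (hx γ hγ).1 (hx γ' hγ').1 fun i => Set.ext_iff.1 h i
      have h4 := (hx γ hγ).2
      rw [h3] at h4
      exact Rk.unique hwo h4 (hx γ' hγ').2)
  have hP : Df (α := Option (Fin n ⊕ Fin m)) (β := Empty) (fun a' _ =>
      ∃ x, D (fun i => a' (some (Sum.inl i))) x ∧
        Rk (D (fun i => a' (some (Sum.inl i)))) (W (fun i => a' (some (Sum.inl i)))) x (a' none) ∧
        B (fun j => a' (some (Sum.inr j))) x) := by
    refine Df.exS (P := fun x (a' : Option (Fin n ⊕ Fin m) → Ordinal.{u}) _ =>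
      D (fun i => a' (some (Sum.inl i))) x ∧
        Rk (D (fun i => a' (some (Sum.inl i)))) (W (fun i => a' (some (Sum.inl i)))) x (a' none) ∧
        B (fun j => a' (some (Sum.inr j))) x) ?_
    refine Df.and ?_ (Df.and ?_ ?_)
    · exact hD.relabel (fun i => some (Sum.inl i)) (fun _ => none)
    · exact Df.rk hD hW (fun i => some (Sum.inl i)) none none
    · exact hB.relabel (fun j => some (Sum.inr j)) (fun _ => none)
  obtain ⟨s, hs, hs2⟩ := exists_ordDef (α := Fin n ⊕ Fin m)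
    (P := fun ν a' => ∃ x, D (fun i => a' (Sum.inl i)) x ∧
        Rk (D (fun i => a' (Sum.inl i))) (W (fun i => a' (Sum.inl i))) x ν ∧
        B (fun j => a' (Sum.inr j)) x) hP (Sum.elim a (b i)) κ.ord
  simp only [Sum.elim_inl, Sum.elim_inr] at hs2
  refine ⟨s, hs, ?_, ?_⟩
  · intro C hC
    obtain ⟨γ, h3, h4, h5⟩ := h1 C hC
    exact ⟨γ, ⟨h3.1, (hs2 γ).2 ⟨h5, x γ, (hx γ h5).1, (hx γ h5).2, h3.2⟩⟩, h4, h5⟩
  · intro C hC
    obtain ⟨γ, h3, h4, h5⟩ := h2 C hC
    refine ⟨γ, ⟨h3.1, fun h6 => h3.2 ?_⟩, h4, h5⟩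
    obtain ⟨_, x', h7, h8, h9⟩ := (hs2 γ).1 h6
    have h10 := Rk.inj hwo h8 (hx γ h5).2
    rw [← h10]
    exact h9

/-- (H5) Many elements in a definably well-ordered family of subsets of a cardinal give an ordinal
definable splitting set. -/
theorem splits_of_enum {n : ℕ} {D : (Fin n → Ordinal.{u}) → ZFSet.{u} → Prop}
    {W : (Fin n → Ordinal.{u}) → ZFSet.{u} → ZFSet.{u} → Prop}
    (hD : Df (α := Fin n) (β := Unit) (fun a s => D a (s ())))
    (hW : Df (α := Fin n) (β := Fin 2) (fun a s => W a (s 0) (s 1))) (a : Fin n → Ordinal.{u})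
    {l κ : Cardinal.{u}} (hκ : κ.IsRegular) (h0 : ℵ₀ < κ) (hl : l < κ)
    (hsub : ∀ x, D a x → x ⊆ l.ord.toZFSet)
    (hwo : IsWellOrder {x : ZFSet.{u} // D a x} (fun x y => W a x y))
    (hcard : Cardinal.lift.{u + 1} κ ≤ #{x : ZFSet.{u} // D a x}) :
    ∃ s, OrdDef ∅ s ∧ Splits κ s := by
  refine splits_of_bits (m := 1) (B := fun b x => (b 0).toZFSet ∈ x) hD hW
    (Df.memO 0 ()) a hκ h0 (I := l.ord.ToType) (by rw [Cardinal.mk_toType, Cardinal.card_ord]; exact hl)
    (fun i _ => (ToType.mk.symm i).1) ?_ hwo hcard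
  intro x y hx hy h
  have key : ∀ z, z ∈ x ↔ z ∈ y := by
    intro z
    constructor
    · intro hz
      obtain ⟨ν, hν, rfl⟩ := mem_toZFSet_iff.1 (hsub x hx hz)
      have h1 := h (ToType.mk ⟨ν, hν⟩)
      simp only [OrderIso.symm_apply_apply] at h1
      exact h1.1 hz
    · intro hz
      obtain ⟨ν, hν, rfl⟩ := mem_toZFSet_iff.1 (hsub y hy hz)
      have h1 := h (ToType.mk ⟨ν, hν⟩)
      simp only [OrderIso.symm_apply_apply] at h1
      exact h1.2 hz
  exact ZFSet.ext key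

/-- Many elements in a definably well-ordered family of binary relations on a cardinal give an
ordinal definable splitting set. -/
theorem splits_of_enum_rel {n : ℕ} {D : (Fin n → Ordinal.{u}) → ZFSet.{u} → Prop}
    {W : (Fin n → Ordinal.{u}) → ZFSet.{u} → ZFSet.{u} → Prop}
    (hD : Df (α := Fin n) (β := Unit) (fun a s => D a (s ())))
    (hW : Df (α := Fin n) (β := Fin 2) (fun a s => W a (s 0) (s 1))) (a : Fin n → Ordinal.{u})
    {l κ : Cardinal.{u}} (hκ : κ.IsRegular) (h0 : ℵ₀ < κ) (hl0 : ℵ₀ ≤ l) (hl : l < κ)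
    (hsub : ∀ x, D a x → ∀ z ∈ x, ∃ i < l.ord, ∃ j < l.ord, z = ZFSet.pair i.toZFSet j.toZFSet)
    (hwo : IsWellOrder {x : ZFSet.{u} // D a x} (fun x y => W a x y))
    (hcard : Cardinal.lift.{u + 1} κ ≤ #{x : ZFSet.{u} // D a x}) :
    ∃ s, OrdDef ∅ s ∧ Splits κ s := by
  refine splits_of_bits (m := 2) (B := fun b x => ZFSet.pair (b 0).toZFSet (b 1).toZFSet ∈ x) hD hW
    (Df.pairOO 0 1 ()) a hκ h0 (I := l.ord.ToType × l.ord.ToType) (by
      rw [Cardinal.mk_prod, Cardinal.mk_toType, Cardinal.card_ord, Cardinal.lift_id,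
        Cardinal.mul_eq_self hl0]
      exact hl)
    (fun i => ![(ToType.mk.symm i.1).1, (ToType.mk.symm i.2).1]) ?_ hwo hcard
  intro x y hx hy h
  have key : ∀ z, z ∈ x ↔ z ∈ y := by
    intro z
    constructor
    · intro hz
      obtain ⟨i, hi, j, hj, rfl⟩ := hsub x hx z hz
      have h1 := h (ToType.mk ⟨i, hi⟩, ToType.mk ⟨j, hj⟩)
      simp only [OrderIso.symm_apply_apply, Matrix.cons_val_zero, Matrix.cons_val_one] at h1
      exact h1.1 hz
    · intro hz
      obtain ⟨i, hi, j, hj, rfl⟩ := hsub y hy z hz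
      have h1 := h (ToType.mk ⟨i, hi⟩, ToType.mk ⟨j, hj⟩)
      simp only [OrderIso.symm_apply_apply, Matrix.cons_val_zero, Matrix.cons_val_one] at h1
      exact h1.2 hz
  exact ZFSet.ext key

end Pool.Agent.Helper56.MW
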