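import Pool.Agent.Helper56.MW.A1
import Pool.Agent.Helper56.MW.A5

open FirstOrder FirstOrder.Language Ordinal Cardinal Set Helper23.Pcf

universe u v

namespace Pool.Agent.Helper56.MW

/-- (J1) Countable forcing notions preserve stationary subsets of `ω₁`.

Proof: let `S` be stationary, `ForcesClub p N`.  For `r : P` and `α < ω₁` choose (if `r ≤ p`) by
`unbounded` an ordinal `b r α < ω₁`, `α < b r α`, and `s ≤ r` with `N s (b r α)`.  The limit
ordinals `δ < ω₁` closed under all `b r`, `r : P`, form a club: intersection of countably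
many clubs (`club_iInter` with index type `Shrink P` or `ULift ℕ`), each being
`club_limits ∩ {δ | ∀ α < δ, b r α < δ}` (`club_diag` or `club_closure`).  Choose such a
`δ ∈ S`; `closed` applies to `q = p`: some `s ≤ p` has `N s δ`. -/
theorem preservesStat_of_countable {P : Type v} [Preorder P] [Countable P] :
    PreservesStat.{u} P := by
  classical
  intro S hS p N hN
  have : Nonempty P := ⟨p⟩
  obtain ⟨e, he⟩ := exists_surjective_nat P
  have hb : ∀ (r : P) (α : Ordinal.{u}), ∃ β : Ordinal.{u}, β < ω_ 1 ∧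
      (r ≤ p → α < ω_ 1 → α < β ∧ ∃ s ≤ r, N s β) := by
    intro r α
    by_cases h : r ≤ p ∧ α < ω_ 1
    · obtain ⟨s, hs, β, hβ, hαβ, hNs⟩ := hN.unbounded r h.1 α h.2
      exact ⟨β, hβ, fun _ _ => ⟨hαβ, s, hs, hNs⟩⟩
    · exact ⟨0, Ordinal.omega_pos 1, fun h1 h2 => absurd ⟨h1, h2⟩ h⟩
  choose b hb1 hb2 using hb
  let f : List (ULift.{u} ℕ × Ordinal.{u}) → Ordinal.{u} := fun l =>
    match l with
    | [] => 0
    | x :: _ => b (e x.1.down) x.2
  have hord : (ℵ_ 1 : Cardinal.{u}).ord = ω_ 1 := Cardinal.ord_aleph 1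
  have hclub := club_closure (κ := ℵ_ 1) Cardinal.isRegular_aleph_one
    Cardinal.aleph0_lt_aleph_one (I := ULift.{u} ℕ)
    (by
      rw [Cardinal.mk_uLift, Cardinal.mk_nat, Cardinal.lift_aleph0]
      exact Cardinal.aleph0_lt_aleph_one) f
    (by
      intro l _
      rw [hord]
      rcases l with _ | ⟨x, l⟩
      · exact Ordinal.omega_pos 1
      · exact hb1 _ _)
  rw [hord] at hclub
  obtain ⟨δ, hδS, hδC, hδ⟩ := hS _ hclub
  have h0 : 0 < δ := hδC [] (by simp)
  have hcl : ∀ (r : P) (α : Ordinal.{u}), α < δ → b r α < δ := by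
    intro r α hα
    obtain ⟨i, hi⟩ := he r
    have h1 := hδC [(⟨i⟩, α)] (by simpa using hα)
    rw [← hi]
    exact h1
  obtain ⟨s, hs, hNs⟩ := hN.closed p le_rfl δ hδ h0
    (fun α hα r hr => by
      obtain ⟨h1, s, hs, hNs⟩ := hb2 r α hr (hα.trans hδ)
      exact ⟨s, hs, b r α, hcl r α hα, h1, hNs⟩) p le_rfl
  exact ⟨s, hs, δ, hδS, hδ, hNs⟩

end Pool.Agent.Helper56.MW
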