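import Pool.Agent.Helper56.MW.LDefs
import Pool.Agent.Helper56.MW.H10

open FirstOrder FirstOrder.Language Ordinal Cardinal Set Helper23.Pcf

universe u v

namespace Pool.Agent.Helper56.MW

/-- (LA1) The pairs of ordinals below `θ` are well-ordered by `PM`.

Proof: `pair ξ ζ ↦ (max ξ ζ, ξ, ζ)` is an injective map of `{z // PD θ z}` to
`Ordinal ×ₗ Ordinal ×ₗ Ordinal` (use `ZFSet.pair_inj`, `toZFSet_injective`) and `PM` is the pull-back of
the lexicographic order, a well-order (`Prod.Lex` instances); or prove well-foundedness and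
trichotomy directly. -/
theorem PM_wo (θ : Ordinal.{u}) : IsWellOrder {z : ZFSet.{u} // PD θ z} (fun x y => PM x y) := by
  have hex : ∀ z : {z : ZFSet.{u} // PD θ z}, ∃ ξ ζ : Ordinal.{u},
      (z : ZFSet.{u}) = ZFSet.pair ξ.toZFSet ζ.toZFSet := by
    rintro ⟨z, ξ, -, ζ, -, hz⟩
    exact ⟨ξ, ζ, hz⟩
  choose f g hfg using hex
  have huniq : ∀ (z : {z : ZFSet.{u} // PD θ z}) (ξ ζ : Ordinal.{u}),
      (z : ZFSet.{u}) = ZFSet.pair ξ.toZFSet ζ.toZFSet → f z = ξ ∧ g z = ζ := by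
    intro z ξ ζ h
    rw [hfg z, ZFSet.pair_inj] at h
    exact ⟨toZFSet_injective h.1, toZFSet_injective h.2⟩
  let c : {z : ZFSet.{u} // PD θ z} → Ordinal.{u} ×ₗ Ordinal.{u} ×ₗ Ordinal.{u} :=
    fun z => toLex (max (f z) (g z), toLex (f z, g z))
  have hinj : Function.Injective c := by
    intro x y hxy
    apply Subtype.ext
    have h1 := congrArg (fun w => (ofLex w).2) hxy
    have h2 : toLex (f x, g x) = toLex (f y, g y) := h1
    have h3 : (f x, g x) = (f y, g y) := toLex.injective h2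
    have h4 : f x = f y := congrArg Prod.fst h3
    have h5 : g x = g y := congrArg Prod.snd h3
    rw [hfg x, hfg y, h4, h5]
  have heq : (fun x y : {z : ZFSet.{u} // PD θ z} => PM x y) =
      Function.onFun (fun a b : Ordinal.{u} ×ₗ Ordinal.{u} ×ₗ Ordinal.{u} => a < b) c := by
    funext x y
    apply propext
    have hlt : c x < c y ↔ PLt (f x) (g x) (f y) (g y) := by
      rw [Prod.Lex.toLex_lt_toLex, Prod.Lex.toLex_lt_toLex]
      exact Iff.rfl
    constructor
    · rintro ⟨ξ, ζ, ξ', ζ', h1, h2, h3⟩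
      obtain ⟨e1, e2⟩ := huniq x ξ ζ h1
      obtain ⟨e3, e4⟩ := huniq y ξ' ζ' h2
      subst e1 e2 e3 e4
      exact hlt.2 h3
    · intro h
      exact ⟨_, _, _, _, hfg x, hfg y, hlt.1 h⟩
  rw [heq]
  exact hinj.isWellOrder _

/-- (LA2) Proof: `exO`, `ltO`, `eqPair` (file H10). -/
theorem Df.pD {α β : Type} (θ : α) (z : β) :
    Df.{u} (fun (a : α → Ordinal.{u}) (s : β → ZFSet.{u}) => PD (a θ) (s z)) := by
  unfold PD
  refine Df.exO (P := fun ξ a s => ξ < a θ ∧ ∃ ζ < a θ,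
    s z = ZFSet.pair ξ.toZFSet ζ.toZFSet) ?_
  refine (Df.ltO none (some θ)).and ?_
  exact Df.exO (P := fun ζ a s => ζ < a (some θ) ∧
    s z = ZFSet.pair (a none).toZFSet ζ.toZFSet)
    ((Df.ltO none (some (some θ))).and (Df.eqPair z (some none) none))

/-- (LA3) Proof: `exO` four times, `eqPair`; `max ξ ζ < max ξ' ζ'` is
`(ξ < ξ' ∨ ξ < ζ') ∧ (ζ < ξ' ∨ ζ < ζ')` (`max_lt_iff`, `lt_max_iff`) and equality of the maxima is
the negation of both strict inequalities. -/
theorem Df.pM {α β : Type} (z z' : β) :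
    Df.{u} (fun (_ : α → Ordinal.{u}) (s : β → ZFSet.{u}) => PM (s z) (s z')) := by
  have hmax : ∀ {γ : Type} (i j i' j' : γ), Df.{u} (β := β) (fun (a : γ → Ordinal.{u}) _ =>
      max (a i) (a j) < max (a i') (a j')) := by
    intro γ i j i' j'
    refine (((Df.ltO i i').or (Df.ltO i j')).and ((Df.ltO j i').or (Df.ltO j j'))).congr
      fun a s => ?_
    rw [max_lt_iff, lt_max_iff, lt_max_iff]
  have hlt : ∀ {γ : Type} (i j i' j' : γ), Df.{u} (β := β) (fun (a : γ → Ordinal.{u}) _ =>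
      PLt (a i) (a j) (a i') (a j')) := by
    intro γ i j i' j'
    refine ((hmax i j i' j').or (((hmax i j i' j').not.and (hmax i' j' i j).not).and
      ((Df.ltO i i').or ((Df.eqO i i').and (Df.ltO j j'))))).congr fun a s => ?_
    unfold PLt
    have : (max (a i) (a j) = max (a i') (a j')) ↔
        (¬ max (a i) (a j) < max (a i') (a j') ∧ ¬ max (a i') (a j') < max (a i) (a j)) := by
      rw [not_lt, not_lt, le_antisymm_iff, and_comm]
    rw [this]
  unfold PM
  refine Df.exO (P := fun ξ _ s => ∃ ζ ξ' ζ' : Ordinal.{u},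
    s z = ZFSet.pair ξ.toZFSet ζ.toZFSet ∧ s z' = ZFSet.pair ξ'.toZFSet ζ'.toZFSet ∧
      PLt ξ ζ ξ' ζ') ?_
  refine Df.exO (P := fun ζ (a : Option α → Ordinal.{u}) s => ∃ ξ' ζ' : Ordinal.{u},
    s z = ZFSet.pair (a none).toZFSet ζ.toZFSet ∧ s z' = ZFSet.pair ξ'.toZFSet ζ'.toZFSet ∧
      PLt (a none) ζ ξ' ζ') ?_
  refine Df.exO (P := fun ξ' (a : Option (Option α) → Ordinal.{u}) s => ∃ ζ' : Ordinal.{u},
    s z = ZFSet.pair (a (some none)).toZFSet (a none).toZFSet ∧
      s z' = ZFSet.pair ξ'.toZFSet ζ'.toZFSet ∧ PLt (a (some none)) (a none) ξ' ζ') ?_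
  exact Df.exO (P := fun ζ' (a : Option (Option (Option α)) → Ordinal.{u}) s =>
    s z = ZFSet.pair (a (some (some none))).toZFSet (a (some none)).toZFSet ∧
      s z' = ZFSet.pair (a none).toZFSet ζ'.toZFSet ∧
      PLt (a (some (some none))) (a (some none)) (a none) ζ')
    ((Df.eqPair z (some (some (some none))) (some (some none))).and
      ((Df.eqPair z' (some none) none).and (hlt _ _ _ _)))

end Pool.Agent.Helper56.MW
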