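import Pool.Agent.Helper56.MW.LB

open FirstOrder FirstOrder.Language Ordinal Cardinal Set Helper23.Pcf

universe u v

namespace Pool.Agent.Helper56.MW

/-- (LD1) A real codes at most one injection.

Proof: let `p` be the pairing function of `exists_pr` for `c = ℵ₀` (`Cardinal.ord_aleph0`).  For
`ζ < ξ`, `p (f ζ) (f ζ)` is in `r` (by the third clause for `f`, `ζ ≤ ζ`), so by the third clause for
`f'` there are `ζ₁ ≤ ζ₂` with `p (f' ζ₁) (f' ζ₂) = p (f ζ) (f ζ)`, so `f' ζ₁ = f ζ`: the range of `f` is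
contained in that of `f'`, and conversely.  Let `u ζ` be such that `f' (u ζ) = f ζ`.  If `ζ < ζ'`,
then `p (f ζ) (f ζ') ∈ r` gives `u ζ ≤ u ζ'` (injectivity of `f'`), and `u ζ ≠ u ζ'`; so `u` is
strictly increasing on `ξ`, and so is its inverse: `ζ ≤ u ζ` and `ζ ≤ u⁻¹ ζ`, hence `u ζ = ζ`. -/
theorem Cd.unique {r : ZFSet.{u}} {ξ : Ordinal.{u}} {f f' : Ordinal.{u} → Ordinal.{u}}
    (h : Cd r ξ f) (h' : Cd r ξ f') : ∀ ζ < ξ, f ζ = f' ζ := by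
  obtain ⟨p, hp1, hp2⟩ := exists_pr.{u} (c := ℵ₀) le_rfl
  rw [Cardinal.ord_aleph0] at hp1 hp2
  -- membership of the code of a pair
  have key : ∀ {f : Ordinal.{u} → Ordinal.{u}}, Cd r ξ f → ∀ n₁ < ω, ∀ n₂ < ω,
      ((p n₁ n₂).toZFSet ∈ r ↔ ∃ ζ < ξ, ∃ ζ' < ξ, ζ ≤ ζ' ∧ f ζ = n₁ ∧ f ζ' = n₂) := by
    intro f hf n₁ hn₁ n₂ hn₂
    rw [hf.2.2 _ (hp1 n₁ hn₁ n₂ hn₂).1]
    constructor
    · rintro ⟨ζ, hζ, ζ', hζ', hle, hPr⟩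
      have h1 := ((hp1 _ (hf.1 ζ hζ) _ (hf.1 ζ' hζ')).2 _).1 hPr
      obtain ⟨h2, h3⟩ := hp2 _ hn₁ _ hn₂ _ (hf.1 ζ hζ) _ (hf.1 ζ' hζ') h1
      exact ⟨ζ, hζ, ζ', hζ', hle, h2.symm, h3.symm⟩
    · rintro ⟨ζ, hζ, ζ', hζ', hle, h2, h3⟩
      refine ⟨ζ, hζ, ζ', hζ', hle, ?_⟩
      rw [(hp1 _ (hf.1 ζ hζ) _ (hf.1 ζ' hζ')).2, h2, h3]
  have tr : ∀ {f f' : Ordinal.{u} → Ordinal.{u}}, Cd r ξ f → Cd r ξ f' →
      ∀ ζ < ξ, ∀ ζ' < ξ, ζ ≤ ζ' → ∃ η < ξ, ∃ η' < ξ, η ≤ η' ∧ f' η = f ζ ∧ f' η' = f ζ' := by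
    intro f f' hf hf' ζ hζ ζ' hζ' hle
    rw [← key hf' _ (hf.1 ζ hζ) _ (hf.1 ζ' hζ'), key hf _ (hf.1 ζ hζ) _ (hf.1 ζ' hζ')]
    exact ⟨ζ, hζ, ζ', hζ', hle, rfl, rfl⟩
  intro ζ
  induction ζ using WellFoundedLT.induction with
  | ind ζ ih =>
  intro hζ
  obtain ⟨v, hv, -, -, -, hvf, -⟩ := tr h h' ζ hζ ζ hζ le_rfl
  obtain ⟨x, hx, -, -, -, hxf, -⟩ := tr h' h ζ hζ ζ hζ le_rfl
  -- `f' v = f ζ`, `f x = f' ζ`
  have hv1 : ζ ≤ v := by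
    by_contra hcon
    push Not at hcon
    have h1 := ih v hcon hv
    have h2 := h.2.1 v hv ζ hζ (h1.trans hvf)
    exact hcon.ne h2
  have hx1 : ζ ≤ x := by
    by_contra hcon
    push Not at hcon
    have h1 := ih x hcon hx
    have h2 := h'.2.1 x hx ζ hζ (h1.symm.trans hxf)
    exact hcon.ne h2
  rcases hv1.eq_or_lt with rfl | hv2
  · exact hvf.symm
  obtain ⟨η, hη, η', hη', hle, e1, e2⟩ := tr h h' ζ hζ x hx hx1
  have h3 := h'.2.1 η hη v hv (e1.trans hvf.symm)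
  have h4 := h'.2.1 η' hη' ζ hζ (e2.trans hxf)
  rw [h3, h4] at hle
  exact absurd hle (not_le.2 hv2)

/-- (LD2) Every countable ordinal is coded.

Proof: `ξ.card ≤ ℵ₀` gives an injection `f` of the ordinals below `ξ` into the ordinals below `ω`;
let `r` be the set of all `k < ω` for which the right hand side holds (`ZFSet.sep`). -/
theorem exists_cd {ξ : Ordinal.{u}} (hξ : ξ < ω_ 1) :
    ∃ r : ZFSet.{u}, r ⊆ (ω : Ordinal.{u}).toZFSet ∧ ∃ f, Cd r ξ f := by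
  classical
  have h1 : ξ.card ≤ ℵ₀ := by
    have h2 : ξ.card < ℵ_ 1 := by
      rwa [← Cardinal.ord_aleph, Cardinal.lt_ord] at hξ
    rwa [← Cardinal.succ_aleph0, Order.lt_succ_iff] at h2
  have h2 : Countable (Iio ξ) := by
    rw [← Cardinal.mk_le_aleph0_iff, Cardinal.mk_Iio_ordinal]
    exact Cardinal.lift_le_aleph0.2 h1
  obtain ⟨g, hg⟩ := h2.exists_injective_nat
  let f : Ordinal.{u} → Ordinal.{u} := fun ζ => if hζ : ζ < ξ then ((g ⟨ζ, hζ⟩ : ℕ) : Ordinal) else 0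
  have hf : ∀ ζ (hζ : ζ < ξ), f ζ = ((g ⟨ζ, hζ⟩ : ℕ) : Ordinal) := fun ζ hζ => dif_pos hζ
  refine ⟨ZFSet.sep (fun x => ∃ k : Ordinal.{u}, x = k.toZFSet ∧
    ∃ ζ < ξ, ∃ ζ' < ξ, ζ ≤ ζ' ∧ Pr ω (f ζ) (f ζ') k) (ω : Ordinal.{u}).toZFSet, ?_, f, ?_, ?_, ?_⟩
  · intro x hx
    exact (ZFSet.mem_sep.1 hx).1
  · intro ζ hζ
    rw [hf ζ hζ]
    exact Ordinal.natCast_lt_omega0 _
  · intro ζ hζ ζ' hζ' he
    rw [hf ζ hζ, hf ζ' hζ'] at he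
    have h3 := hg (Nat.cast_injective he)
    exact congrArg Subtype.val h3
  · intro k hk
    rw [ZFSet.mem_sep, toZFSet_mem_toZFSet_iff]
    constructor
    · rintro ⟨-, k', hk', h3⟩
      rw [toZFSet_injective hk']
      exact h3
    · intro h3
      exact ⟨hk, k, rfl, h3⟩

end Pool.Agent.Helper56.MW
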