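import Pool.Agent.Helper56.MW.K
import Pool.Agent.Helper56.MW.G5

open FirstOrder FirstOrder.Language Ordinal Cardinal Set Helper23.Pcf

universe u v

namespace Pool.Agent.Helper56.MW

/-- Sets singled out by a definable relation with finitely many ordinal parameters and the
parameter `A` are definable from `A` and ordinals. -/
theorem ordDef_of_df_param {α : Type} [Finite α]
    {P : (α → Ordinal.{u}) → (Fin 2 → ZFSet.{u}) → Prop} (hP : Df P) (a : α → Ordinal.{u})
    (A x : ZFSet.{u}) (h : ∀ y, P a ![A, y] ↔ y = x) : OrdDef A x := by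
  obtain ⟨φ, hφ⟩ := hP
  let e := Finite.equivFin α
  refine ⟨Nat.card α, φ.relabel (Sum.map e id), fun i => a (e.symm i), fun y => ?_⟩
  rw [Formula.realize_relabel, ← h y, ← hφ a (![A, y])]
  refine iff_of_eq (congrArg (fun v => φ.Realize v) ?_)
  funext i
  rcases i with i | i
  · simp only [Function.comp_apply, Sum.map_inl, Sum.elim_inl, Equiv.symm_apply_apply]
  · simp only [Function.comp_apply, Sum.map_inr, Sum.elim_inr, id]

/-- Sets definable from a set in `OD_A` and ordinals are in `OD_A`. -/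
theorem OrdDef.comp_param {A f x : ZFSet.{u}} (hf : OrdDef A f) {α : Type} [Finite α]
    {P : (α → Ordinal.{u}) → (Fin 2 → ZFSet.{u}) → Prop} (hP : Df P) (a : α → Ordinal.{u})
    (h : ∀ y, P a ![f, y] ↔ y = x) : OrdDef A x := by
  obtain ⟨n, φ, b, hφ⟩ := hf
  refine ordDef_of_df_param (α := Fin n ⊕ α)
    (P := fun c s => ∃ f', φ.Realize (Sum.elim (fun i => (c (Sum.inl i)).toZFSet) ![s 0, f']) ∧
      P (fun i => c (Sum.inr i)) ![f', s 1]) ?_ (Sum.elim b a) A x ?_
  · have hR : Df.{u} (fun (a : Fin n → Ordinal.{u}) (s : Fin 2 → ZFSet.{u}) =>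
      φ.Realize (Sum.elim (fun i => (a i).toZFSet) s)) := ⟨φ, fun _ _ => Iff.rfl⟩
    refine Df.exS (P := fun f' (c : Fin n ⊕ α → Ordinal.{u}) (s : Fin 2 → ZFSet.{u}) =>
      φ.Realize (Sum.elim (fun i => (c (Sum.inl i)).toZFSet) ![s 0, f']) ∧
      P (fun i => c (Sum.inr i)) ![f', s 1]) ?_
    refine ((hR.relabel (fun i => Sum.inl i) (![some 0, none] : Fin 2 → Option (Fin 2))).congr
      fun a s => ?_).and
      ((hP.relabel (fun i => Sum.inr i) (![none, some 1] : Fin 2 → Option (Fin 2))).congr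
        fun a s => ?_)
    · refine iff_of_eq (congrArg (fun v => φ.Realize v) ?_)
      funext i
      rcases i with i | i
      · rfl
      · fin_cases i <;> rfl
    · refine iff_of_eq (congrArg _ ?_)
      funext i
      fin_cases i <;> rfl
  · intro y
    constructor
    · rintro ⟨f', h1, h2⟩
      have h3 : f' = f := (hφ f').1 h1
      rw [h3] at h2
      exact (h y).1 h2
    · intro h1
      exact ⟨f, (hφ f).2 rfl, (h y).2 h1⟩

end Pool.Agent.Helper56.MW
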