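import Pool.Agent.Helper56.MW.K
import Pool.Agent.Helper56.MW.G5

open FirstOrder FirstOrder.Language Ordinal Cardinal Set Helper23.Pcf

universe u v

namespace Pool.Agent.Helper56.MW

/-- The ordinal `ν` is in the set defined by the formula from the set `A'` and the tuple `b`. -/
def PQ {n : ℕ} (φ : LSet.Formula (Fin n ⊕ Fin 2)) (b : Fin n → Ordinal.{u})
    (A' : ZFSet.{u}) (ν : Ordinal.{u}) : Prop :=
  ∃ y, φ.Realize (Sum.elim (fun i => (b i).toZFSet) ![A', y]) ∧ ν.toZFSet ∈ y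

theorem Df.pQ {n : ℕ} (φ : LSet.Formula (Fin n ⊕ Fin 2)) {α β : Type} (f : Fin n → α)
    (i : α) (j : β) :
    Df.{u} (α := α) (β := β) (fun a s => PQ φ (fun l => a (f l)) (s j) (a i)) := by
  have h0 : Df.{u} (α := Fin n) (β := Fin 2)
      (fun a s => φ.Realize (Sum.elim (fun i => (a i).toZFSet) s)) := ⟨φ, fun _ _ => Iff.rfl⟩
  have h1 : Df.{u} (α := α) (β := Option β)
      (fun a s => φ.Realize (Sum.elim (fun l => (a (f l)).toZFSet) ![s (some j), s none])) := by
    refine (h0.relabel (α := α) (β := Option β) f ![some j, none]).congr fun a s => ?_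
    refine iff_of_eq (congrArg (fun t => φ.Realize (Sum.elim (fun l => (a (f l)).toZFSet) t)) ?_)
    funext l
    fin_cases l <;> rfl
  exact Df.exS (P := fun y a s => φ.Realize (Sum.elim (fun l => (a (f l)).toZFSet) ![s j, y]) ∧
    (a i).toZFSet ∈ y) (h1.and (Df.memO i none))

/-- Two ordinals below `l` are equivalent if they behave in the same way with respect to all sets
of rank at most `ρ`. -/
noncomputable def PE {n : ℕ} (φ : LSet.Formula (Fin n ⊕ Fin 2)) (b : Fin n → Ordinal.{u})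
    (ρ l : Ordinal.{u}) : ZFSet.{u} :=
  ZFSet.sep (fun z => ∃ i < l, ∃ j < l, z = ZFSet.pair i.toZFSet j.toZFSet ∧
    ∀ A' : ZFSet.{u}, A'.rank ≤ ρ → (PQ φ b A' i ↔ PQ φ b A' j))
    (ZFSet.prod l.toZFSet l.toZFSet)

theorem mem_PE {n : ℕ} {φ : LSet.Formula (Fin n ⊕ Fin 2)} {b : Fin n → Ordinal.{u}}
    {ρ l : Ordinal.{u}} {z : ZFSet.{u}} : z ∈ PE φ b ρ l ↔
      ∃ i < l, ∃ j < l, z = ZFSet.pair i.toZFSet j.toZFSet ∧
        ∀ A' : ZFSet.{u}, A'.rank ≤ ρ → (PQ φ b A' i ↔ PQ φ b A' j) := by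
  rw [PE, ZFSet.mem_sep, and_iff_right_of_imp]
  rintro ⟨i, hi, j, hj, rfl, -⟩
  rw [ZFSet.pair_mem_prod]
  exact ⟨toZFSet_mem_toZFSet_iff.2 hi, toZFSet_mem_toZFSet_iff.2 hj⟩

theorem pair_mem_PE {n : ℕ} {φ : LSet.Formula (Fin n ⊕ Fin 2)} {b : Fin n → Ordinal.{u}}
    {ρ l i j : Ordinal.{u}} (hi : i < l) (hj : j < l) :
    ZFSet.pair i.toZFSet j.toZFSet ∈ PE φ b ρ l ↔
        ∀ A' : ZFSet.{u}, A'.rank ≤ ρ → (PQ φ b A' i ↔ PQ φ b A' j) := by
  rw [mem_PE]
  constructor
  · rintro ⟨i', -, j', -, h1, h2⟩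
    obtain ⟨h3, h4⟩ := ZFSet.pair_inj.1 h1
    rw [toZFSet_injective h3, toZFSet_injective h4]
    exact h2
  · intro h
    exact ⟨i, hi, j, hj, rfl, h⟩

theorem ordDef_PE {n : ℕ} (φ : LSet.Formula (Fin n ⊕ Fin 2)) (b : Fin n → Ordinal.{u})
    (ρ l : Ordinal.{u}) : OrdDef ∅ (PE φ b ρ l) := by
  refine ordDef_of_df (α := Option (Option (Fin n))) (P := fun a s => ∀ z, z ∈ s () ↔
    ∃ i < a none, ∃ j < a none, z = ZFSet.pair i.toZFSet j.toZFSet ∧
      ∀ A' : ZFSet.{u}, A'.rank ≤ a (some none) → (PQ φ (fun l => a (some (some l))) A' i ↔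
        PQ φ (fun l => a (some (some l))) A' j)) ?_
    (fun o => match o with
      | none => l
      | some none => ρ
      | some (some i) => b i) _ ?_
  · refine Df.allS (P := fun z (a : Option (Option (Fin n)) → Ordinal.{u})
      (s : Unit → ZFSet.{u}) => z ∈ s () ↔ ∃ i < a none, ∃ j < a none,
      z = ZFSet.pair i.toZFSet j.toZFSet ∧ ∀ A' : ZFSet.{u}, A'.rank ≤ a (some none) →
        (PQ φ (fun l => a (some (some l))) A' i ↔ PQ φ (fun l => a (some (some l))) A' j)) ?_
    refine (Df.memS none (some ())).iff ?_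
    refine Df.exO (P := fun i (a : Option (Option (Fin n)) → Ordinal.{u})
      (s : Option Unit → ZFSet.{u}) => i < a none ∧ ∃ j < a none,
      s none = ZFSet.pair i.toZFSet j.toZFSet ∧ ∀ A' : ZFSet.{u}, A'.rank ≤ a (some none) →
        (PQ φ (fun l => a (some (some l))) A' i ↔ PQ φ (fun l => a (some (some l))) A' j)) ?_
    refine (Df.ltO none (some none)).and ?_
    refine Df.exO (P := fun j (a : Option (Option (Option (Fin n))) → Ordinal.{u})
      (s : Option Unit → ZFSet.{u}) => j < a (some none) ∧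
      s none = ZFSet.pair (a none).toZFSet j.toZFSet ∧
      ∀ A' : ZFSet.{u}, A'.rank ≤ a (some (some none)) →
        (PQ φ (fun l => a (some (some (some l)))) A' (a none) ↔
          PQ φ (fun l => a (some (some (some l)))) A' j)) ?_
    refine (Df.ltO none (some (some none))).and ((Df.eqPair none (some none) none).and ?_)
    refine Df.allS (P := fun A' (a : Option (Option (Option (Option (Fin n)))) → Ordinal.{u})
      (s : Option Unit → ZFSet.{u}) => A'.rank ≤ a (some (some (some none))) →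
        (PQ φ (fun l => a (some (some (some (some l))))) A' (a (some none)) ↔
          PQ φ (fun l => a (some (some (some (some l))))) A' (a none))) ?_
    exact (Df.rankLe none (some (some (some none)))).imp
      ((Df.pQ φ (fun l => some (some (some (some l)))) (some none) none).iff
        (Df.pQ φ (fun l => some (some (some (some l)))) none none))
  · intro y
    constructor
    · intro h
      ext z
      exact (h z).trans mem_PE.symm
    · intro h z
      have h1 : y = PE φ b ρ l := h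
      change z ∈ y ↔ _
      rw [h1]
      exact mem_PE

/-- (P2) If there are many subsets of `l` which are definable from `A` and ordinals, and `l` is large
compared with the rank of `A`, there are many ordinal definable relations on `l`. -/
theorem many_rel_of_many_param {A : ZFSet.{u}} {l : Cardinal.{u}} (hl : ℵ₀ ≤ l)
    (h0 : (2 ^ #{A' : ZFSet.{u} // A'.rank ≤ A.rank}) ^ (2 ^ #{A' : ZFSet.{u} //
      A'.rank ≤ A.rank} : Cardinal.{u + 1}) ≤ Cardinal.lift.{u + 1} l)
    (h : Cardinal.lift.{u + 1} l < #{s : ZFSet.{u} // OrdDef A s ∧ s ⊆ l.ord.toZFSet}) :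
    Cardinal.lift.{u + 1} l < #{s : ZFSet.{u} // OrdDef ∅ s ∧ IsRelOn l.ord s} := by
  classical
  by_contra hcon
  push Not at hcon
  let Z := {A' : ZFSet.{u} // A'.rank ≤ A.rank}
  let X := {s : ZFSet.{u} // OrdDef A s ∧ s ⊆ l.ord.toZFSet}
  let R := {s : ZFSet.{u} // OrdDef ∅ s ∧ IsRelOn l.ord s}
  choose n φ b hφ using fun x : X => x.2.1
  let G : X → Ordinal.{u} → Set Z := fun x i => {A' | PQ (φ x) (b x) A'.1 i}
  let E : X → R := fun x => ⟨PE (φ x) (b x) A.rank l.ord, ordDef_PE _ _ _ _, fun z hz => by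
    obtain ⟨i, hi, j, hj, h1, -⟩ := mem_PE.1 hz
    exact ⟨i, hi, j, hj, h1⟩⟩
  have hE : ∀ x i j, i < l.ord → j < l.ord →
      (ZFSet.pair i.toZFSet j.toZFSet ∈ (E x).1 ↔ G x i = G x j) := by
    intro x i j hi hj
    refine (pair_mem_PE hi hj).trans ?_
    constructor
    · intro h1
      ext A'
      exact h1 A'.1 A'.2
    · intro h1 A' hA'
      exact Set.ext_iff.1 h1 ⟨A', hA'⟩
  have hG : ∀ x i, (⟨A, le_rfl⟩ : Z) ∈ G x i ↔ i.toZFSet ∈ x.1 := by
    intro x i
    constructor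
    · rintro ⟨y, h1, h2⟩
      have h3 : y = x.1 := (hφ x y).1 h1
      rwa [← h3]
    · intro h1
      exact ⟨x.1, (hφ x x.1).2 rfl, h1⟩
  -- a map with the right kernel for each relation
  have hj : ∀ r : R, ∃ j : Ordinal.{u} → Set Z, ∀ x, E x = r → ∀ i i', i < l.ord → i' < l.ord →
      (j i = j i' ↔ G x i = G x i') := by
    intro r
    by_cases hr : ∃ x₀, E x₀ = r
    · obtain ⟨x₀, hx₀⟩ := hr
      refine ⟨G x₀, fun x hx i i' hi hi' => ?_⟩
      rw [← hE x i i' hi hi', ← hE x₀ i i' hi hi', hx, hx₀]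
    · exact ⟨fun _ => ∅, fun x hx => absurd ⟨x, hx⟩ hr⟩
  choose j hj using hj
  have hh : ∀ x : X, ∃ f : Set Z → Set Z, ∀ i < l.ord, f (j (E x) i) = G x i := by
    intro x
    refine ⟨fun t => if ht : ∃ i < l.ord, j (E x) i = t then G x ht.choose else ∅,
      fun i hi => ?_⟩
    have ht : ∃ i' < l.ord, j (E x) i' = j (E x) i := ⟨i, hi, rfl⟩
    simp only [dif_pos ht]
    exact (hj (E x) x rfl _ _ ht.choose_spec.1 hi).1 ht.choose_spec.2
  choose f hf using hh
  have hinj : Function.Injective (fun x : X => ((E x, f x) : R × (Set Z → Set Z))) := by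
    intro x x' hxx
    obtain ⟨h1, h2⟩ := Prod.mk.injEq .. ▸ hxx
    have h3 : ∀ i < l.ord, G x i = G x' i := by
      intro i hi
      rw [← hf x i hi, ← hf x' i hi, h1, h2]
    refine Subtype.ext ?_
    ext t
    constructor
    · intro ht
      obtain ⟨i, hi, rfl⟩ := mem_toZFSet_iff.1 (x.2.2 ht)
      rw [← hG x' i, ← h3 i hi, hG x i]
      exact ht
    · intro ht
      obtain ⟨i, hi, rfl⟩ := mem_toZFSet_iff.1 (x'.2.2 ht)
      rw [← hG x i, h3 i hi, hG x' i]
      exact ht
  have h1 := Cardinal.mk_le_of_injective hinj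
  rw [Cardinal.mk_prod, Cardinal.lift_id, Cardinal.lift_id] at h1
  have h2 : #(Set Z → Set Z) ≤ Cardinal.lift.{u + 1} l := by
    have h3 : #(Set Z → Set Z) = (2 ^ #Z) ^ (2 ^ #Z : Cardinal.{u + 1}) := by
      rw [← Cardinal.power_def, Cardinal.mk_set]
    rw [h3]
    exact h0
  have h4 : #X ≤ Cardinal.lift.{u + 1} l := by
    refine h1.trans ((mul_le_mul' hcon h2).trans ?_)
    rw [Cardinal.mul_eq_self]
    exact Cardinal.aleph0_le_lift.2 hl
  exact absurd h (not_lt.2 h4)

end Pool.Agent.Helper56.MW
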