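import Pool.Agent.Helper56.MW.P1
import Pool.Agent.Helper56.MW.P2
import Pool.Agent.Helper56.MW.LB
import Pool.Agent.Helper56.MW.LC
import Pool.Agent.Helper56.MW.C5
import Pool.Agent.Helper56.MW.G8
import Pool.Agent.Helper56.MW.Main

open FirstOrder FirstOrder.Language Ordinal Cardinal Set Helper23.Pcf

universe u v

namespace Pool.Agent.Helper56.MW

/-- Every ordinal below `l⁺` is the image of `l` under a (possibly not everywhere defined) map
which is definable from `A` and finitely many ordinals. -/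
def SuccCorrectOver (A : ZFSet.{u}) (l : Cardinal.{u}) : Prop :=
  ∀ α < (Order.succ l).ord, ∃ f : ZFSet.{u}, OrdDef A f ∧
    (∀ ξ < α, ∃ i < l.ord, ZFSet.pair i.toZFSet ξ.toZFSet ∈ f) ∧
    ∀ i < l.ord, ∀ ξ < α, ∀ ξ' < α, ZFSet.pair i.toZFSet ξ.toZFSet ∈ f →
      ZFSet.pair i.toZFSet ξ'.toZFSet ∈ f → ξ = ξ'

theorem Df.K_rel {β : Type} (f x : β) {α : Type} (l δ : α) :
    Df.{u} (fun (c : α → Ordinal.{u}) (s : β → ZFSet.{u}) =>
      s x = K_rel (c l) (c δ) (s f)) := by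
  have h1 : Df.{u} (fun (c : α → Ordinal.{u}) (s : β → ZFSet.{u}) => ∀ z, z ∈ s x ↔
      ∃ i < c l, ∃ j < c l, z = ZFSet.pair i.toZFSet j.toZFSet ∧
        ∃ ξ < c δ, ∃ ξ' < c δ, ξ ≤ ξ' ∧ ZFSet.pair i.toZFSet ξ.toZFSet ∈ s f ∧
        ZFSet.pair j.toZFSet ξ'.toZFSet ∈ s f) := by
    refine Df.allS (P := fun z (c : α → Ordinal.{u}) (s : β → ZFSet.{u}) => z ∈ s x ↔
      ∃ i < c l, ∃ j < c l, z = ZFSet.pair i.toZFSet j.toZFSet ∧
      ∃ ξ < c δ, ∃ ξ' < c δ, ξ ≤ ξ' ∧ ZFSet.pair i.toZFSet ξ.toZFSet ∈ s f ∧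
      ZFSet.pair j.toZFSet ξ'.toZFSet ∈ s f) ?_
    refine (Df.memS none (some x)).iff ?_
    refine Df.exO (P := fun i (c : α → Ordinal.{u}) (s : Option β → ZFSet.{u}) =>
      i < c l ∧ ∃ j < c l, s none = ZFSet.pair i.toZFSet j.toZFSet ∧
      ∃ ξ < c δ, ∃ ξ' < c δ, ξ ≤ ξ' ∧ ZFSet.pair i.toZFSet ξ.toZFSet ∈ s (some f) ∧
      ZFSet.pair j.toZFSet ξ'.toZFSet ∈ s (some f)) ?_
    refine (Df.ltO none (some l)).and ?_
    refine Df.exO (P := fun j (c : Option α → Ordinal.{u})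
      (s : Option β → ZFSet.{u}) =>
      j < c (some l) ∧ s none = ZFSet.pair (c none).toZFSet j.toZFSet ∧
      ∃ ξ < c (some δ), ∃ ξ' < c (some δ), ξ ≤ ξ' ∧
      ZFSet.pair (c none).toZFSet ξ.toZFSet ∈ s (some f) ∧
      ZFSet.pair j.toZFSet ξ'.toZFSet ∈ s (some f)) ?_
    refine (Df.ltO none (some (some l))).and ((Df.eqPair none (some none) none).and ?_)
    refine Df.exO (P := fun ξ (c : Option (Option α) → Ordinal.{u})
      (s : Option β → ZFSet.{u}) =>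
      ξ < c (some (some δ)) ∧ ∃ ξ' < c (some (some δ)), ξ ≤ ξ' ∧
      ZFSet.pair (c (some none)).toZFSet ξ.toZFSet ∈ s (some f) ∧
      ZFSet.pair (c none).toZFSet ξ'.toZFSet ∈ s (some f)) ?_
    refine (Df.ltO none (some (some (some δ)))).and ?_
    refine Df.exO (P := fun ξ' (c : Option (Option (Option α)) → Ordinal.{u})
      (s : Option β → ZFSet.{u}) =>
      ξ' < c (some (some (some δ))) ∧ c none ≤ ξ' ∧
      ZFSet.pair (c (some (some none))).toZFSet (c none).toZFSet ∈ s (some f) ∧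
      ZFSet.pair (c (some none)).toZFSet ξ'.toZFSet ∈ s (some f)) ?_
    exact (Df.ltO none (some (some (some (some δ))))).and ((Df.leO (some none) none).and
      ((Df.pairOO (some (some (some none))) (some none) (some f)).and
        (Df.pairOO (some (some none)) none (some f))))
  refine h1.congr fun c s => ?_
  constructor
  · intro h
    ext z
    exact (h z).trans mem_K_rel.symm
  · intro h z
    rw [h]
    exact mem_K_rel

/-- The set of codes of pairs in the relation `r`. -/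
noncomputable def K_set (l : Ordinal.{u}) (r : ZFSet.{u}) : ZFSet.{u} :=
  ZFSet.sep (fun z => ∃ γ, z = Ordinal.toZFSet γ ∧ ∃ i < l, ∃ j < l, Pr l i j γ ∧
    ZFSet.pair i.toZFSet j.toZFSet ∈ r) l.toZFSet

theorem mem_K_set {l γ : Ordinal.{u}} {r : ZFSet.{u}} : γ.toZFSet ∈ K_set l r ↔
    γ < l ∧ ∃ i < l, ∃ j < l, Pr l i j γ ∧ ZFSet.pair i.toZFSet j.toZFSet ∈ r := by
  rw [K_set, ZFSet.mem_sep, toZFSet_mem_toZFSet_iff]
  refine and_congr_right fun _ => ?_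
  constructor
  · rintro ⟨γ', h1, h2⟩
    rwa [toZFSet_injective h1]
  · intro h
    exact ⟨γ, rfl, h⟩

theorem ordDef_K_set {A f : ZFSet.{u}} (hf : OrdDef A f) (l δ : Ordinal.{u}) :
    OrdDef A (K_set l (K_rel l δ f)) := by
  refine hf.comp_param (α := Fin 2) (P := fun c s => ∃ r, r = K_rel (c 0) (c 1) (s 0) ∧
    (s 1 ⊆ (c 0).toZFSet ∧ ∀ γ, γ < c 0 → (γ.toZFSet ∈ s 1 ↔ ∃ i, i < c 0 ∧ ∃ j, j < c 0 ∧
      Pr (c 0) i j γ ∧ ZFSet.pair i.toZFSet j.toZFSet ∈ r))) ?_ ![l, δ] fun y => ?_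
  · refine Df.exS (P := fun r (c : Fin 2 → Ordinal.{u}) (s : Fin 2 → ZFSet.{u}) =>
      r = K_rel (c 0) (c 1) (s 0) ∧
      (s 1 ⊆ (c 0).toZFSet ∧ ∀ γ, γ < c 0 → (γ.toZFSet ∈ s 1 ↔ ∃ i, i < c 0 ∧ ∃ j, j < c 0 ∧
      Pr (c 0) i j γ ∧ ZFSet.pair i.toZFSet j.toZFSet ∈ r))) ?_
    refine (Df.K_rel (some 0) none 0 1).and ((Df.subSO (some 1) 0).and ?_)
    refine Df.allO (P := fun γ (c : Fin 2 → Ordinal.{u}) (s : Option (Fin 2) → ZFSet.{u}) =>
      γ < c 0 → (γ.toZFSet ∈ s (some 1) ↔ ∃ i, i < c 0 ∧ ∃ j, j < c 0 ∧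
      Pr (c 0) i j γ ∧ ZFSet.pair i.toZFSet j.toZFSet ∈ s none)) ?_
    refine (Df.ltO none (some 0)).imp ((Df.memO none (some 1)).iff ?_)
    refine Df.exO (P := fun i (c : Option (Fin 2) → Ordinal.{u})
      (s : Option (Fin 2) → ZFSet.{u}) => i < c (some 0) ∧ ∃ j, j < c (some 0) ∧
      Pr (c (some 0)) i j (c none) ∧ ZFSet.pair i.toZFSet j.toZFSet ∈ s none) ?_
    refine (Df.ltO none (some (some 0))).and ?_
    refine Df.exO (P := fun j (c : Option (Option (Fin 2)) → Ordinal.{u})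
      (s : Option (Fin 2) → ZFSet.{u}) => j < c (some (some 0)) ∧
      Pr (c (some (some 0))) (c none) j (c (some none)) ∧
        ZFSet.pair (c none).toZFSet j.toZFSet ∈ s none) ?_
    exact (Df.ltO none (some (some (some 0)))).and
      ((Df.pr (some (some (some 0))) (some none) none (some (some none))).and
        (Df.pairOO (some none) none none))
  · change (∃ r, r = K_rel l δ f ∧ (y ⊆ l.toZFSet ∧ ∀ γ, γ < l → (γ.toZFSet ∈ y ↔
      ∃ i, i < l ∧ ∃ j, j < l ∧ Pr l i j γ ∧ ZFSet.pair i.toZFSet j.toZFSet ∈ r))) ↔ _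
    constructor
    · rintro ⟨r, rfl, h1, h2⟩
      ext t
      constructor
      · intro ht
        obtain ⟨γ, hγ, rfl⟩ := mem_toZFSet_iff.1 (h1 ht)
        exact mem_K_set.2 ⟨hγ, (h2 γ hγ).1 ht⟩
      · intro ht
        obtain ⟨γ, hγ, rfl⟩ := mem_toZFSet_iff.1 (ZFSet.mem_sep.1 ht).1
        exact (h2 γ hγ).2 (mem_K_set.1 ht).2
    · rintro rfl
      refine ⟨_, rfl, fun t ht => (ZFSet.mem_sep.1 ht).1, fun γ hγ => ?_⟩
      rw [mem_K_set]
      exact ⟨fun h => h.2, fun h => ⟨hγ, h⟩⟩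

/-- Correctly computed successors over `A` give many subsets definable from `A` and ordinals. -/
theorem many_of_succCorrectOver {A : ZFSet.{u}} {l : Cardinal.{u}} (hl : ℵ₀ ≤ l)
    (h : SuccCorrectOver A l) :
    Cardinal.lift.{u + 1} l < #{s : ZFSet.{u} // OrdDef A s ∧ s ⊆ l.ord.toZFSet} := by
  classical
  unfold SuccCorrectOver at h
  have hf : ∀ α : Iio (Order.succ l).ord, ∃ f : ZFSet.{u}, OrdDef A f ∧
    (∀ ξ < α.1, ∃ i < l.ord, ZFSet.pair i.toZFSet ξ.toZFSet ∈ f) ∧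
    ∀ i < l.ord, ∀ ξ < α.1, ∀ ξ' < α.1, ZFSet.pair i.toZFSet ξ.toZFSet ∈ f →
      ZFSet.pair i.toZFSet ξ'.toZFSet ∈ f → ξ = ξ' := fun α => h α.1 α.2
  choose f hf1 hf2 hf3 using hf
  obtain ⟨p, hp1, hp2⟩ := exists_pr hl
  -- the set determines the relation
  have hset : ∀ r : ZFSet.{u}, ∀ i < l.ord, ∀ j < l.ord,
      ((p i j).toZFSet ∈ K_set l.ord r ↔ ZFSet.pair i.toZFSet j.toZFSet ∈ r) := by
    intro r i hi j hj
    rw [mem_K_set]
    constructor
    · rintro ⟨-, i', hi', j', hj', h1, h2⟩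
      have h3 := ((hp1 i' hi' j' hj').2 _).1 h1
      obtain ⟨rfl, rfl⟩ := hp2 i hi j hj i' hi' j' hj' h3
      exact h2
    · intro h1
      exact ⟨(hp1 i hi j hj).1, i, hi, j, hj, ((hp1 i hi j hj).2 _).2 rfl, h1⟩
  have hinj : Function.Injective (fun α : Iio (Order.succ l).ord =>
      (⟨K_set l.ord (K_rel l.ord α.1 (f α)), ordDef_K_set (hf1 α) _ _,
        fun z hz => (ZFSet.mem_sep.1 hz).1⟩ :
          {s : ZFSet.{u} // OrdDef A s ∧ s ⊆ l.ord.toZFSet})) := by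
    intro α β hαβ
    have h0 : K_set l.ord (K_rel l.ord α.1 (f α)) = K_set l.ord (K_rel l.ord β.1 (f β)) :=
      congrArg Subtype.val hαβ
    have h1 : K_rel l.ord α.1 (f α) = K_rel l.ord β.1 (f β) := by
      ext z
      constructor
      · intro hz
        obtain ⟨i, hi, j, hj, rfl, -⟩ := mem_K_rel.1 hz
        rwa [← hset _ i hi j hj, ← h0, hset _ i hi j hj]
      · intro hz
        obtain ⟨i, hi, j, hj, rfl, -⟩ := mem_K_rel.1 hz
        rwa [← hset _ i hi j hj, h0, hset _ i hi j hj]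
    exact Subtype.ext (le_antisymm (K_le (hf2 α) (hf3 α) (hf3 β) h1)
      (K_le (hf2 β) (hf3 β) (hf3 α) h1.symm))
  have h2 := Cardinal.mk_le_of_injective hinj
  rw [Cardinal.mk_Iio_ordinal, Cardinal.card_ord, Cardinal.lift_succ] at h2
  exact lt_of_lt_of_le (Order.lt_succ _) h2

/-- Many subsets definable from `A` for arbitrarily large `l`. -/
theorem hasDefWO_of_many_param (hM : MM.{u}) {A : ZFSet.{u}}
    (h : ∀ μ : Cardinal.{u}, ∃ l, μ < l ∧
      Cardinal.lift.{u + 1} l < #{s : ZFSet.{u} // OrdDef A s ∧ s ⊆ l.ord.toZFSet}) :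
    HasDefWO.{u} := by
  have hsm : Small.{u} {A' : ZFSet.{u} // A'.rank ≤ A.rank} := by
    let V : ZFSet.{u} := ZFSet.vonNeumann (Order.succ A.rank)
    refine small_of_injective (β := {x : ZFSet.{u} // x ∈ V}) (f := fun x => ⟨x.1, ?_⟩) ?_
    · change x.1 ∈ ZFSet.vonNeumann (Order.succ A.rank)
      rw [ZFSet.mem_vonNeumann]
      exact Order.lt_succ_iff.2 x.2
    · intro x y hxy
      exact Subtype.ext (congrArg (fun z : {x : ZFSet.{u} // x ∈ V} => z.1) hxy)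
  obtain ⟨l, h1, h2⟩ := h (max (ℵ_ 1) ((2 ^ #(Shrink.{u} {A' : ZFSet.{u} //
    A'.rank ≤ A.rank})) ^ (2 ^ #(Shrink.{u} {A' : ZFSet.{u} // A'.rank ≤ A.rank}) :
      Cardinal.{u})))
  have hl1 : ℵ_ 1 ≤ l := ((le_max_left _ _).trans_lt h1).le
  have hl : ℵ₀ ≤ l := (Cardinal.aleph0_le_aleph 1).trans hl1
  have h3 : (2 ^ #{A' : ZFSet.{u} // A'.rank ≤ A.rank}) ^ (2 ^ #{A' : ZFSet.{u} //
      A'.rank ≤ A.rank} : Cardinal.{u + 1}) ≤ Cardinal.lift.{u + 1} l := by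
    have h4 := Cardinal.lift_mk_shrink''.{u + 1, u} {A' : ZFSet.{u} // A'.rank ≤ A.rank}
    have h5 := Cardinal.lift_le.{u + 1, u}.2 ((le_max_right _ _).trans h1.le)
    rw [Cardinal.lift_power, Cardinal.lift_two_power, h4] at h5
    exact h5
  obtain ⟨s, h6, h7⟩ := splits_of_many_rel hl (many_rel_of_many_param hl h3 h2)
  exact hasDefWO_of_splits hM (Cardinal.isRegular_succ hl) (Order.lt_succ_of_le hl1) h6 h7

/-- Correctly computed successors over `A` for arbitrarily large `l`. -/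
theorem hasDefWO_of_succCorrectOver (hM : MM.{u}) {A : ZFSet.{u}}
    (h : ∀ μ : Cardinal.{u}, ∃ l, μ < l ∧ SuccCorrectOver A l) : HasDefWO.{u} := by
  refine hasDefWO_of_many_param hM (A := A) fun μ => ?_
  obtain ⟨l, h1, h2⟩ := h (max μ ℵ₀)
  exact ⟨l, (le_max_left _ _).trans_lt h1, many_of_succCorrectOver
    ((le_max_right _ _).trans h1.le) h2⟩

end Pool.Agent.Helper56.MW
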