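import Pool.Agent.Helper56.MW.Defs

open FirstOrder FirstOrder.Language Ordinal Cardinal Set Helper23.Pcf

universe u v

namespace Pool.Agent.Helper56.MW

/-- The function on the ordinals coded by the set `g`. -/
noncomputable def val (g : ZFSet.{u}) (ξ : Ordinal.{u}) : Ordinal.{u} :=
  sInf {ν | ZFSet.pair ξ.toZFSet ν.toZFSet ∈ g}

end Pool.Agent.Helper56.MW
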